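import Mathlib
import Pool.Agent.W163.CF.Defs

/-!
# Steps S1, S5, S6 of the project CF (helper163, MP_1ff796_co)
-/

set_option autoImplicit false

namespace Pool.Agent.W358.CF

open Finset Pool.Agent.W163.CF

/-! ## S1 -/

theorem t_S1 : S1 := by
  classical
  intro I J _ _ a ha hpos
  rcases isEmpty_or_nonempty J with hJ | hJ
  · refine ⟨0, 0, fun _ => le_rfl, fun _ => le_rfl, fun j => (hJ.false j).elim, fun i => ?_, ?_⟩
    · simp
    · simp
  obtain ⟨j0⟩ := id hJ
  obtain ⟨i0, -⟩ := hpos j0
  let f : (J → ℝ) → (I → ℝ) → ℝ := fun μ l => ∑ i, l i * ∑ j, μ j * a i j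
  have hc1 : ∀ l, Continuous (fun μ => f μ l) := fun l => by
    simp only [f]
    fun_prop
  have hc2 : ∀ μ, Continuous (fun l => f μ l) := fun μ => by
    simp only [f]
    fun_prop
  obtain ⟨μ, hμ, l, hl, hs⟩ := Sion.exists_isSaddlePointOn (X := stdSimplex ℝ J)
    (Y := stdSimplex ℝ I) (f := f)
    ⟨_, single_mem_stdSimplex ℝ j0⟩
    (convex_stdSimplex ℝ J) (isCompact_stdSimplex ℝ J)
    (fun y _ => (hc1 y).lowerSemicontinuous.lowerSemicontinuousOn _)
    (fun y _ => by
      apply ConvexOn.quasiconvexOn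
      refine ⟨convex_stdSimplex ℝ J, ?_⟩
      intro x _ x' _ s t _ _ _
      apply le_of_eq
      simp only [f, Pi.add_apply, Pi.smul_apply, smul_eq_mul, Finset.mul_sum]
      rw [← Finset.sum_add_distrib]
      refine Finset.sum_congr rfl fun i _ => ?_
      rw [← Finset.sum_add_distrib]
      refine Finset.sum_congr rfl fun j _ => ?_
      ring)
    (convex_stdSimplex ℝ I)
    ⟨_, single_mem_stdSimplex ℝ i0⟩
    (isCompact_stdSimplex ℝ I)
    (fun x _ => (hc2 x).upperSemicontinuous.upperSemicontinuousOn _)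
    (fun x _ => by
      apply ConcaveOn.quasiconcaveOn
      refine ⟨convex_stdSimplex ℝ I, ?_⟩
      intro y _ y' _ s t _ _ _
      apply le_of_eq
      simp only [f, Pi.add_apply, Pi.smul_apply, smul_eq_mul, Finset.mul_sum]
      rw [← Finset.sum_add_distrib]
      refine Finset.sum_congr rfl fun i _ => ?_
      rw [← Finset.sum_add_distrib]
      refine Finset.sum_congr rfl fun j _ => ?_
      ring)
  set c := f μ l with hc
  have h1 : ∀ j, c ≤ ∑ i, l i * a i j := by
    intro j
    have h := hs (Pi.single j 1) (single_mem_stdSimplex ℝ j) l hl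
    simp only [f, Pi.single_apply, ite_mul, one_mul, zero_mul, Finset.sum_ite_eq',
      Finset.mem_univ, if_true] at h
    exact h
  have h2 : ∀ i, ∑ j, μ j * a i j ≤ c := by
    intro i
    have h := hs μ hμ (Pi.single i 1) (single_mem_stdSimplex ℝ i)
    have e : f μ (Pi.single i 1) = ∑ j, μ j * a i j := by
      simp only [f, Pi.single_apply, ite_mul, one_mul, zero_mul, Finset.sum_ite_eq',
        Finset.mem_univ, if_true]
    rw [e] at h
    exact h
  have hcpos : 0 < c := by
    obtain ⟨j1, hj1⟩ : ∃ j, 0 < μ j := by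
      by_contra hcon
      push Not at hcon
      have h3 : ∑ j, μ j ≤ 0 := Finset.sum_nonpos fun j _ => hcon j
      rw [hμ.2] at h3
      linarith
    obtain ⟨i1, hi1⟩ := hpos j1
    have h3 : μ j1 * a i1 j1 ≤ ∑ j, μ j * a i1 j :=
      Finset.single_le_sum (f := fun j => μ j * a i1 j)
        (fun j _ => mul_nonneg (hμ.1 j) (ha i1 j)) (Finset.mem_univ j1)
    have h4 := mul_pos hj1 hi1
    linarith [h2 i1]
  refine ⟨fun i => l i / c, fun j => μ j / c, fun i => div_nonneg (hl.1 i) hcpos.le,
    fun j => div_nonneg (hμ.1 j) hcpos.le, fun j => ?_, fun i => ?_, ?_⟩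
  · have e : ∑ i, l i / c * a i j = (∑ i, l i * a i j) / c := by
      rw [Finset.sum_div]
      exact Finset.sum_congr rfl fun i _ => by ring
    rw [e, le_div_iff₀ hcpos, one_mul]
    exact h1 j
  · have e : ∑ j, μ j / c * a i j = (∑ j, μ j * a i j) / c := by
      rw [Finset.sum_div]
      exact Finset.sum_congr rfl fun j _ => by ring
    rw [e, div_le_iff₀ hcpos, one_mul]
    exact h2 i
  · rw [← Finset.sum_div, ← Finset.sum_div, hl.2, hμ.2]

/-! ## S5 -/

open scoped Classical in
/-- indicator -/
noncomputable def ind (p : Prop) : ℝ := if p then (1 : ℝ) else 0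

theorem ind_true {p : Prop} (h : p) : ind p = 1 := if_pos h

theorem ind_false {p : Prop} (h : ¬ p) : ind p = 0 := if_neg h

theorem ind_nonneg (p : Prop) : 0 ≤ ind p := by unfold ind; split_ifs <;> norm_num

/-- number of solutions, as a real number -/
noncomputable def cnt {T : Type} [Fintype T] (p : T → Prop) : ℝ := ∑ x, ind (p x)

theorem ncard_eq_cnt {T : Type} [Fintype T] (p : T → Prop) : ({x | p x}.ncard : ℝ) = cnt p := by
  classical
  unfold cnt ind
  rw [Finset.sum_boole, Set.ncard_eq_toFinset_card']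
  congr 2
  ext x
  simp

theorem cnt_nonneg {T : Type} [Fintype T] (p : T → Prop) : 0 ≤ cnt p := by
  rw [← ncard_eq_cnt]
  positivity

theorem jens {T : Type} [Fintype T] [Nonempty T] (z : T → ℝ) (hz : ∀ x, 0 ≤ z x) (n : ℕ) :
    (Fintype.card T : ℝ) * ((∑ x, z x) / Fintype.card T) ^ n ≤ ∑ x, z x ^ n := by
  have hT : (0 : ℝ) < Fintype.card T := by exact_mod_cast Fintype.card_pos
  have h := Real.pow_arith_mean_le_arith_mean_pow (Finset.univ : Finset T)
    (fun _ => 1 / (Fintype.card T : ℝ)) z (fun _ _ => by positivity) (by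
      rw [Finset.sum_const, Finset.card_univ, nsmul_eq_mul]
      field_simp) (fun x _ => hz x) n
  rw [← Finset.mul_sum, ← Finset.mul_sum] at h
  have e : (∑ x, z x) / Fintype.card T = 1 / (Fintype.card T : ℝ) * ∑ x, z x := by ring
  rw [e]
  calc (Fintype.card T : ℝ) * (1 / (Fintype.card T : ℝ) * ∑ x, z x) ^ n
      ≤ (Fintype.card T : ℝ) * (1 / (Fintype.card T : ℝ) * ∑ x, z x ^ n) :=
        mul_le_mul_of_nonneg_left h hT.le
    _ = ∑ x, z x ^ n := by field_simp

theorem cnt_cons {W : Type} [Fintype W] {m : ℕ} (p : (Fin (m + 1) → W) → Prop) :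
    cnt p = ∑ v : W, cnt fun x : Fin m → W => p (Fin.cons v x) := by
  classical
  unfold cnt
  rw [← Fintype.sum_prod_type']
  exact (Fintype.sum_equiv (Fin.consEquiv fun _ => W) _ _ fun x => rfl).symm

theorem blow (V : Type) [Fintype V] [Nonempty V] (s : ℕ) : ∀ (m : ℕ) (P : (Fin m → V) → Prop)
    (ρ : ℝ), 0 ≤ ρ → ρ * (Fintype.card V : ℝ) ^ m ≤ cnt P →
    ρ ^ (s ^ m) * (Fintype.card V : ℝ) ^ (m * s) ≤
      cnt fun X : Fin m → Fin s → V => ∀ φ : Fin m → Fin s, P (fun i => X i (φ i)) := by
  classical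
  have hn : (0 : ℝ) < Fintype.card V := by exact_mod_cast Fintype.card_pos
  set n : ℝ := (Fintype.card V : ℝ) with hnd
  intro m
  induction m with
  | zero =>
    intro P ρ hρ h
    simp only [pow_zero, mul_one, zero_mul, pow_one] at h ⊢
    refine h.trans (le_of_eq ?_)
    unfold cnt
    rw [Fintype.sum_unique, Fintype.sum_unique]
    congr 1
    apply propext
    have hsub : ∀ u v : Fin 0 → V, u = v := fun u v => Subsingleton.elim u v
    constructor
    · intro h φ
      rw [hsub (fun i => (default : Fin 0 → Fin s → V) i (φ i)) default]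
      exact h
    · intro h
      have := h default
      rwa [hsub (fun i => (default : Fin 0 → Fin s → V) i ((default : Fin 0 → Fin s) i))
        default] at this
  | succ m ih =>
    intro P ρ hρ h
    -- the derived predicates
    let P' : (Fin s → V) → (Fin m → V) → Prop := fun vv x => ∀ a, P (Fin.cons (vv a) x)
    let g : (Fin m → V) → ℝ := fun x => ∑ v : V, ind (P (Fin.cons v x))
    have hg0 : ∀ x, 0 ≤ g x := fun x => Finset.sum_nonneg fun v _ => ind_nonneg _
    have hgsum : ∑ x, g x = cnt P := by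
      rw [cnt_cons]
      unfold cnt
      exact Finset.sum_comm
    have hP'sum : ∑ vv, cnt (P' vv) = ∑ x, g x ^ s := by
      unfold cnt
      rw [Finset.sum_comm]
      refine Finset.sum_congr rfl fun x _ => ?_
      simp only [g]
      rw [Fintype.sum_pow]
      refine Finset.sum_congr rfl fun vv _ => ?_
      by_cases hv : P' vv x
      · rw [ind_true hv]
        exact (Finset.prod_eq_one fun a _ => ind_true (hv a)).symm
      · rw [ind_false hv]
        have : ∃ a, ¬ P (Fin.cons (vv a) x) := by
          by_contra hcon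
          push Not at hcon
          exact hv hcon
        obtain ⟨a, ha⟩ := this
        exact (Finset.prod_eq_zero (Finset.mem_univ a) (ind_false ha)).symm
    have hcardm : (Fintype.card (Fin m → V) : ℝ) = n ^ m := by simp [hnd]
    have hcards : (Fintype.card (Fin s → V) : ℝ) = n ^ s := by simp [hnd]
    have hJ1 := jens g hg0 s
    rw [hgsum, ← hP'sum, hcardm] at hJ1
    -- induction hypothesis
    have hIH : ∀ vv, (cnt (P' vv) / n ^ m) ^ (s ^ m) * n ^ (m * s) ≤
        cnt fun X : Fin m → Fin s → V => ∀ φ : Fin m → Fin s, P' vv (fun i => X i (φ i)) := by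
      intro vv
      apply ih (P' vv) (cnt (P' vv) / n ^ m) (div_nonneg (cnt_nonneg _) (by positivity))
      rw [div_mul_cancel₀ _ (by positivity)]
    have hJ2 := jens (fun vv => cnt (P' vv) / n ^ m)
      (fun vv => div_nonneg (cnt_nonneg _) (by positivity)) (s ^ m)
    rw [hcards] at hJ2
    have hbig : cnt (fun X : Fin (m + 1) → Fin s → V =>
        ∀ φ : Fin (m + 1) → Fin s, P (fun i => X i (φ i))) =
        ∑ vv : Fin s → V, cnt fun X : Fin m → Fin s → V =>
          ∀ φ : Fin m → Fin s, P' vv (fun i => X i (φ i)) := by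
      rw [cnt_cons]
      refine Finset.sum_congr rfl fun vv _ => ?_
      congr 1
      funext X
      apply propext
      constructor
      · intro hX φ a
        have := hX (Fin.cons a φ)
        convert this using 2
        rename_i i
        refine Fin.cases ?_ (fun j => ?_) i <;> simp
      · intro hX φ
        have := hX (fun i => φ i.succ) (φ 0)
        convert this using 2
        rename_i i
        refine Fin.cases ?_ (fun j => ?_) i <;> simp
    rw [hbig]
    have hρs : ρ ^ s ≤ (∑ vv, cnt (P' vv) / n ^ m) / n ^ s := by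
      rw [← Finset.sum_div]
      have h3 : ρ * n ≤ cnt P / n ^ m := by
        rw [le_div_iff₀ (by positivity)]
        calc ρ * n * n ^ m = ρ * n ^ (m + 1) := by ring
          _ ≤ cnt P := h
      have h4 : (ρ * n) ^ s ≤ (cnt P / n ^ m) ^ s := pow_le_pow_left₀ (by positivity) h3 s
      rw [le_div_iff₀ (by positivity), le_div_iff₀ (by positivity), ← mul_pow]
      calc (ρ * n) ^ s * n ^ m ≤ (cnt P / n ^ m) ^ s * n ^ m :=
            mul_le_mul_of_nonneg_right h4 (by positivity)
        _ = n ^ m * (cnt P / n ^ m) ^ s := by ring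
        _ ≤ _ := hJ1
    calc ρ ^ s ^ (m + 1) * n ^ ((m + 1) * s) = (ρ ^ s) ^ (s ^ m) * n ^ s * n ^ (m * s) := by
          rw [pow_succ' s m, pow_mul, add_mul, pow_add, one_mul]
          ring
      _ ≤ ((∑ vv, cnt (P' vv) / n ^ m) / n ^ s) ^ (s ^ m) * n ^ s * n ^ (m * s) := by
          apply mul_le_mul_of_nonneg_right _ (by positivity)
          apply mul_le_mul_of_nonneg_right _ (by positivity)
          exact pow_le_pow_left₀ (by positivity) hρs _
      _ = n ^ s * ((∑ vv, cnt (P' vv) / n ^ m) / n ^ s) ^ (s ^ m) * n ^ (m * s) := by ring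
      _ ≤ (∑ vv, (cnt (P' vv) / n ^ m) ^ (s ^ m)) * n ^ (m * s) :=
          mul_le_mul_of_nonneg_right hJ2 (by positivity)
      _ = ∑ vv, (cnt (P' vv) / n ^ m) ^ (s ^ m) * n ^ (m * s) := by rw [Finset.sum_mul]
      _ ≤ _ := Finset.sum_le_sum fun vv _ => hIH vv

theorem t_S5 : S5 := by
  intro V _ _ m s P ρ hρ h
  rw [ncard_eq_cnt] at h ⊢
  exact blow V s m P ρ hρ h

/-! ## S6 -/

/-- reading the coordinates of an injective map -/
theorem cnt_comp {A T V : Type} [Fintype A] [Fintype T] [Fintype V] [Nonempty V] [DecidableEq T]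
    [DecidableEq A] (ι : A → T) (hι : Function.Injective ι) (p : (A → V) → Prop) :
    cnt (fun X : T → V => p (fun a => X (ι a))) * (Fintype.card V : ℝ) ^ Fintype.card A =
      cnt p * (Fintype.card V : ℝ) ^ Fintype.card T := by
  classical
  let e1 : (T → V) ≃ ({t // t ∈ Set.range ι} → V) × ({t // ¬ t ∈ Set.range ι} → V) :=
    Equiv.piEquivPiSubtypeProd (fun t => t ∈ Set.range ι) (fun _ => V)
  let e2 : A ≃ {t // t ∈ Set.range ι} := Equiv.ofInjective ι hι
  let e3 : ({t // t ∈ Set.range ι} → V) ≃ (A → V) := Equiv.arrowCongr e2.symm (Equiv.refl V)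
  have hc : Fintype.card T = Fintype.card A + Fintype.card {t // ¬ t ∈ Set.range ι} := by
    rw [Fintype.card_congr e2]
    have := Fintype.card_subtype_compl (fun t => t ∈ Set.range ι)
    have h2 := Fintype.card_subtype_le (fun t => t ∈ Set.range ι)
    omega
  have h1 : cnt (fun X : T → V => p (fun a => X (ι a))) =
      cnt p * (Fintype.card V : ℝ) ^ Fintype.card {t // ¬ t ∈ Set.range ι} := by
    unfold cnt
    have s1 : ∑ X : T → V, ind (p (fun a => X (ι a))) =
        ∑ q : ({t // t ∈ Set.range ι} → V) × ({t // ¬ t ∈ Set.range ι} → V),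
          ind (p (fun a => q.1 (e2 a))) := Fintype.sum_equiv e1 _ _ (fun X => rfl)
    rw [s1, Fintype.sum_prod_type]
    simp only [Finset.sum_const, Finset.card_univ, nsmul_eq_mul]
    rw [Finset.sum_mul]
    refine Fintype.sum_equiv e3 _ _ fun f => ?_
    have : e3 f = fun a => f (e2 a) := rfl
    rw [this, mul_comm]
    congr 1
    simp
  rw [h1, hc, pow_add]
  ring

theorem t_S6 : S5 → S6 := by
  classical
  intro h5 V _ _ R hR k m hk d y L ρ hρ I hI
  have hn : (0 : ℝ) < Fintype.card V := by exact_mod_cast Fintype.card_pos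
  set n : ℝ := (Fintype.card V : ℝ) with hnd
  have hk0 : 0 < k := by omega
  have : NeZero k := ⟨hk0.ne'⟩
  rcases hρ.eq_or_lt with h0 | hρ0
  · rw [← h0, zero_pow (by positivity), zero_div, zero_mul]
    positivity
  -- consecutive indices are different
  have hne : ∀ i j : Fin k, j.val = (i.val + 1) % k → I i ≠ I j := by
    intro i j hij hcon
    have hpos : 0 < ({x : Fin m → V | PW R d (fun j => x (I j)) ∧
        ∑ j, y (x (I j)) ≤ L}.ncard : ℝ) := lt_of_lt_of_le (by positivity) hI
    have hpos' : 0 < {x : Fin m → V | PW R d (fun j => x (I j)) ∧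
        ∑ j, y (x (I j)) ≤ L}.ncard := by exact_mod_cast hpos
    obtain ⟨x, hx, -⟩ := Set.nonempty_of_ncard_ne_zero hpos'.ne'
    have h1 := hx i j hij
    have h2 : x (I i) = x (I j) := by rw [hcon]
    rcases Bool.eq_false_or_eq_true (d i) with hd | hd
    · have h3 : R (x (I i)) (x (I j)) := h1.1 hd
      rw [h2] at h3
      exact hR _ h3
    · have h3 : R (x (I j)) (x (I i)) := h1.2 hd
      rw [h2] at h3
      exact hR _ h3
  set P : (Fin m → V) → Prop := fun x => PW R d (fun j => x (I j)) ∧ ∑ j, y (x (I j)) ≤ L with hP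
  have hblow := h5 V m k P ρ hρ0.le hI
  rw [ncard_eq_cnt] at hblow
  set Good : (Fin k → V) → Prop := fun f => PW R d f ∧ ∑ j, y (f j) ≤ L with hGood
  rw [ncard_eq_cnt]
  -- the walks
  let Fa : Fin k → (Fin m → Fin k → V) → (Fin k → V) := fun a X j => X (I j) (j + a)
  have hex : ∀ X : Fin m → Fin k → V, (∀ φ : Fin m → Fin k, P (fun i => X i (φ i))) →
      ∃ a, Good (Fa a X) := by
    intro X hX
    have hwalk : ∀ a, PW R d (Fa a X) := by
      intro a i j hij
      have hIij := hne i j hij
      have h1 := (hX (fun t => if t = I i then i + a else j + a)).1 i j hij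
      simp only [if_pos, if_neg hIij.symm] at h1
      exact h1
    by_contra hcon
    push Not at hcon
    have h1 : ∀ a, L < ∑ j, y (Fa a X j) := by
      intro a
      by_contra hle
      exact hcon a ⟨hwalk a, not_lt.mp hle⟩
    have h2 : ∑ a : Fin k, L < ∑ a : Fin k, ∑ j, y (Fa a X j) :=
      Finset.sum_lt_sum_of_nonempty ⟨⟨0, hk0⟩, Finset.mem_univ _⟩ fun a _ => h1 a
    have h3 : ∑ a : Fin k, ∑ j, y (Fa a X j) = ∑ b : Fin k, ∑ j, y (X (I j) b) := by
      rw [Finset.sum_comm]
      conv_rhs => rw [Finset.sum_comm]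
      refine Finset.sum_congr rfl fun j _ => ?_
      exact Fintype.sum_equiv (Equiv.addLeft j) _ _ fun a => rfl
    have h4 : ∑ b : Fin k, ∑ j, y (X (I j) b) ≤ ∑ b : Fin k, L :=
      Finset.sum_le_sum fun b _ => (hX (fun _ => b)).2
    rw [h3] at h2
    linarith
  -- counting
  have hcount : cnt (fun X : Fin m → Fin k → V => ∀ φ : Fin m → Fin k, P (fun i => X i (φ i))) ≤
      ∑ a : Fin k, cnt (fun X : Fin m → Fin k → V => Good (Fa a X)) := by
    unfold cnt
    rw [Finset.sum_comm]
    refine Finset.sum_le_sum fun X _ => ?_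
    by_cases hX : ∀ φ : Fin m → Fin k, P (fun i => X i (φ i))
    · obtain ⟨a, ha⟩ := hex X hX
      rw [ind_true hX]
      refine le_trans ?_ (Finset.single_le_sum (f := fun a => ind (Good (Fa a X)))
        (fun a _ => ind_nonneg _) (Finset.mem_univ a))
      exact (ind_true ha).ge
    · rw [ind_false hX]
      exact Finset.sum_nonneg fun a _ => ind_nonneg _
  have hfib : ∀ a : Fin k, cnt (fun X : Fin m → Fin k → V => Good (Fa a X)) * n ^ k =
      cnt Good * n ^ (m * k) := by
    intro a
    have hinj : Function.Injective (fun j : Fin k => (I j, j + a)) := by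
      intro i j hij
      have := congrArg Prod.snd hij
      exact add_right_cancel this
    have h1 := cnt_comp (V := V) (fun j : Fin k => (I j, j + a)) hinj Good
    rw [Fintype.card_fin, Fintype.card_prod, Fintype.card_fin, Fintype.card_fin] at h1
    rw [← h1]
    congr 1
    unfold cnt
    exact Fintype.sum_equiv (Equiv.curry (Fin m) (Fin k) V).symm _ _ fun X => rfl
  have hsum : cnt (fun X : Fin m → Fin k → V => ∀ φ : Fin m → Fin k, P (fun i => X i (φ i))) *
      n ^ k ≤ k * (cnt Good * n ^ (m * k)) := by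
    calc _ ≤ (∑ a : Fin k, cnt (fun X : Fin m → Fin k → V => Good (Fa a X))) * n ^ k :=
          mul_le_mul_of_nonneg_right hcount (by positivity)
      _ = ∑ a : Fin k, cnt Good * n ^ (m * k) := by
          rw [Finset.sum_mul]
          exact Finset.sum_congr rfl fun a _ => hfib a
      _ = k * (cnt Good * n ^ (m * k)) := by
          rw [Finset.sum_const, Finset.card_univ, Fintype.card_fin, nsmul_eq_mul]
  have hkR : (0 : ℝ) < k := by exact_mod_cast hk0
  have h6 : ρ ^ (k ^ m) * n ^ (m * k) * n ^ k ≤ k * (cnt Good * n ^ (m * k)) :=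
    (mul_le_mul_of_nonneg_right hblow (by positivity)).trans hsum
  have h7 : ρ ^ (k ^ m) * n ^ k ≤ k * cnt Good := by
    have hp : 0 < n ^ (m * k) := by positivity
    nlinarith [h6]
  rw [div_mul_eq_mul_div, div_le_iff₀ hkR]
  linarith

end Pool.Agent.W358.CF
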