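import Mathlib
import Pool.Agent.W163.CF.Defs
import Pool.Agent.W358.CF156

/-!
# Steps S4, S7 of the project CF (helper163, MP_1ff796_co)
-/

set_option autoImplicit false

namespace Pool.Agent.W358.CF

open Finset Pool.Agent.W163.CF

/-! ## S4 -/

open scoped Classical in
/-- the weight of a tuple at the index `i` -/
noncomputable def GG {V : Type} {m : ℕ} (R : V → V → Prop) (t : ℝ) (i : Fin m) (x : Fin m → V) : ℝ :=
  ∏ j ∈ univ.erase i, if R (x i) (x j) then t else 1

theorem GG_sum {V : Type} [Fintype V] {m : ℕ} (R : V → V → Prop) (t : ℝ) (i : Fin m) :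
    ∑ x : Fin m → V, GG R t i x =
      ∑ u : V, (∑ v : V, (1 - (1 - t) * ind (R u v))) ^ (m - 1) := by
  classical
  have key : ∀ u : V, (∑ v : V, (1 - (1 - t) * ind (R u v))) ^ (m - 1) =
      ∑ x : Fin m → V, (if x i = u then (1 : ℝ) else 0) *
        ∏ j ∈ univ.erase i, if R u (x j) then t else 1 := by
    intro u
    let F : Fin m → V → ℝ := fun j v =>
      if j = i then (if v = u then 1 else 0) else (if R u v then t else 1)
    have h1 : ∏ j, ∑ v, F j v = ∑ x : Fin m → V, ∏ j, F j (x j) := by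
      rw [Finset.prod_univ_sum]
      simp
    have h2 : ∏ j, ∑ v, F j v = (∑ v : V, (1 - (1 - t) * ind (R u v))) ^ (m - 1) := by
      rw [← Finset.mul_prod_erase _ _ (Finset.mem_univ i)]
      have e1 : ∑ v, F i v = 1 := by simp [F]
      rw [e1, one_mul]
      rw [Finset.prod_congr rfl (g := fun _ => ∑ v : V, (1 - (1 - t) * ind (R u v)))]
      · rw [Finset.prod_const, Finset.card_erase_of_mem (Finset.mem_univ i), Finset.card_univ,
          Fintype.card_fin]
      · intro j hj
        have hji : j ≠ i := Finset.ne_of_mem_erase hj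
        refine Finset.sum_congr rfl fun v _ => ?_
        simp only [F, if_neg hji]
        by_cases h : R u v
        · rw [if_pos h, ind_true h]; ring
        · rw [if_neg h, ind_false h]; ring
    rw [← h2, h1]
    refine Finset.sum_congr rfl fun x _ => ?_
    rw [← Finset.mul_prod_erase _ _ (Finset.mem_univ i)]
    have e2 : F i (x i) = if x i = u then (1 : ℝ) else 0 := by simp [F]
    rw [e2]
    congr 1
    refine Finset.prod_congr rfl fun j hj => ?_
    have hji : j ≠ i := Finset.ne_of_mem_erase hj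
    simp only [F, if_neg hji]
  rw [Finset.sum_congr rfl (fun u _ => key u), Finset.sum_comm]
  refine Finset.sum_congr rfl fun x _ => ?_
  unfold GG
  simp only [ite_mul, one_mul, zero_mul, Finset.sum_ite_eq, Finset.mem_univ, if_true]

theorem GG_lower {V : Type} {m : ℕ} (R : V → V → Prop) (t : ℝ) (ht0 : 0 < t) (ht1 : t ≤ 1)
    (i : Fin m) (x : Fin m → V) (h : 2 * {j | R (x i) (x j)}.ncard < m) :
    √t ^ m ≤ GG R t i x := by
  classical
  set c := {j | R (x i) (x j)}.ncard with hc
  have h1 : ∏ j : Fin m, (if R (x i) (x j) then t else 1) = t ^ c := by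
    rw [Finset.prod_ite, Finset.prod_const, Finset.prod_const_one, mul_one]
    congr 1
    rw [hc, Set.ncard_eq_toFinset_card']
    congr 1
    ext j
    simp
  have h2 : ∏ j : Fin m, (if R (x i) (x j) then t else 1) ≤ GG R t i x := by
    unfold GG
    rw [← Finset.mul_prod_erase _ _ (Finset.mem_univ i)]
    apply mul_le_of_le_one_left
    · exact Finset.prod_nonneg fun j _ => by split_ifs <;> linarith
    · split_ifs <;> linarith
  rw [h1] at h2
  refine le_trans ?_ h2
  have hs : √t ^ 2 = t := Real.sq_sqrt ht0.le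
  have hs1 : √t ≤ 1 := Real.sqrt_le_one.mpr ht1
  calc √t ^ m ≤ √t ^ (2 * c) := pow_le_pow_of_le_one (Real.sqrt_nonneg _) hs1 h.le
    _ = t ^ c := by rw [pow_mul, hs]

theorem t_S4 : S4 := by
  classical
  intro η δ hη hδ
  set s : ℝ := min η (1 / 2) with hs
  have hs0 : 0 < s := lt_min hη (by norm_num)
  have hs1 : s ≤ 1 / 2 := min_le_right _ _
  have hsη : s ≤ η := min_le_left _ _
  set t : ℝ := 1 - s with ht
  have ht0 : 0 < t := by rw [ht]; linarith
  have ht1 : t ≤ 1 := by rw [ht]; linarith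
  set p : ℝ := 1 / 2 + s with hp
  set b : ℝ := 1 - p * s with hb
  have hb0 : 0 < b := by rw [hb, hp]; nlinarith
  have hsq0 : 0 < √t := Real.sqrt_pos.mpr ht0
  have hbt : b < √t := by
    apply Real.lt_sqrt_of_sq_lt
    rw [hb, ht, hp]
    nlinarith [mul_pos hs0 hs0, mul_pos (mul_pos hs0 hs0) hs0]
  set q : ℝ := b / √t with hq
  have hq0 : 0 ≤ q := by positivity
  have hq1 : q < 1 := (div_lt_one hsq0).mpr hbt
  have hlim := tendsto_self_mul_const_pow_of_lt_one hq0 hq1
  have hev : ∀ᶠ m : ℕ in Filter.atTop, (m : ℝ) * q ^ m < δ * b :=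
    hlim.eventually (gt_mem_nhds (by positivity))
  obtain ⟨m0, hm0⟩ := Filter.eventually_atTop.mp hev
  refine ⟨max m0 1, fun m hm V _ _ R hR => ?_⟩
  have hmm0 : m0 ≤ m := le_trans (le_max_left _ _) hm
  have hm1 : 1 ≤ m := le_trans (le_max_right _ _) hm
  have hn : (0 : ℝ) < Fintype.card V := by exact_mod_cast Fintype.card_pos
  set n : ℝ := (Fintype.card V : ℝ) with hnd
  rw [ncard_eq_cnt]
  have hsm : 0 < √t ^ m := by positivity
  have h1 : cnt (fun x : Fin m → V => ∃ i, 2 * {j | R (x i) (x j)}.ncard < m) ≤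
      ∑ x : Fin m → V, ∑ i : Fin m, GG R t i x / √t ^ m := by
    unfold cnt
    refine Finset.sum_le_sum fun x _ => ?_
    have hnn : ∀ i : Fin m, 0 ≤ GG R t i x / √t ^ m := fun i =>
      div_nonneg (Finset.prod_nonneg fun j _ => by split_ifs <;> linarith) hsm.le
    by_cases hx : ∃ i, 2 * {j | R (x i) (x j)}.ncard < m
    · rw [ind_true hx]
      obtain ⟨i, hi⟩ := hx
      refine le_trans ?_ (Finset.single_le_sum (f := fun i => GG R t i x / √t ^ m)
        (fun i _ => hnn i) (Finset.mem_univ i))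
      rw [le_div_iff₀ hsm, one_mul]
      exact GG_lower R t ht0 ht1 i x hi
    · rw [ind_false hx]
      exact Finset.sum_nonneg fun i _ => hnn i
  have h2 : ∀ i : Fin m, ∑ x : Fin m → V, GG R t i x ≤ n * (n * b) ^ (m - 1) := by
    intro i
    rw [GG_sum]
    calc ∑ u : V, (∑ v : V, (1 - (1 - t) * ind (R u v))) ^ (m - 1)
        ≤ ∑ u : V, (n * b) ^ (m - 1) := by
          refine Finset.sum_le_sum fun u _ => ?_
          have e1 : ∑ v : V, (1 - (1 - t) * ind (R u v)) = n - s * cnt (fun v => R u v) := by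
            rw [Finset.sum_sub_distrib, ← Finset.mul_sum]
            simp only [Finset.sum_const, Finset.card_univ, nsmul_eq_mul, mul_one]
            rw [hnd, ht]
            unfold cnt
            ring
          have e2 : p * n ≤ cnt (fun v => R u v) := by
            rw [← ncard_eq_cnt]
            refine le_trans ?_ (hR u)
            apply mul_le_mul_of_nonneg_right _ hn.le
            rw [hp]; linarith
          have e3 : cnt (fun v => R u v) ≤ n := by
            unfold cnt
            calc ∑ v, ind (R u v) ≤ ∑ v : V, (1 : ℝ) := by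
                  refine Finset.sum_le_sum fun v _ => ?_
                  unfold ind
                  split_ifs <;> norm_num
              _ = n := by simp [hnd]
          rw [e1]
          apply pow_le_pow_left₀
          · nlinarith
          · rw [hb]
            nlinarith
      _ = n * (n * b) ^ (m - 1) := by
          rw [Finset.sum_const, Finset.card_univ, nsmul_eq_mul]
  have h3 : ∑ x : Fin m → V, ∑ i : Fin m, GG R t i x / √t ^ m ≤
      m * (n * (n * b) ^ (m - 1)) / √t ^ m := by
    rw [Finset.sum_comm]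
    calc ∑ i : Fin m, ∑ x : Fin m → V, GG R t i x / √t ^ m
        = ∑ i : Fin m, (∑ x : Fin m → V, GG R t i x) / √t ^ m := by
          refine Finset.sum_congr rfl fun i _ => ?_
          rw [Finset.sum_div]
      _ ≤ ∑ i : Fin m, (n * (n * b) ^ (m - 1)) / √t ^ m :=
          Finset.sum_le_sum fun i _ => div_le_div_of_nonneg_right (h2 i) hsm.le
      _ = _ := by
          rw [Finset.sum_const, Finset.card_univ, Fintype.card_fin, nsmul_eq_mul]
          ring
  refine h1.trans (h3.trans ?_)
  have h4 := (hm0 m hmm0).le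
  obtain ⟨m', rfl⟩ : ∃ m', m = m' + 1 := ⟨m - 1, by omega⟩
  rw [Nat.add_sub_cancel, div_le_iff₀ hsm]
  rw [hq, div_pow, ← mul_div_assoc, div_le_iff₀ hsm] at h4
  have h5 : ((m' + 1 : ℕ) : ℝ) * b ^ m' ≤ δ * √t ^ (m' + 1) := by
    have : ((m' + 1 : ℕ) : ℝ) * b ^ m' * b ≤ δ * √t ^ (m' + 1) * b := by
      calc ((m' + 1 : ℕ) : ℝ) * b ^ m' * b = ((m' + 1 : ℕ) : ℝ) * b ^ (m' + 1) := by ring
        _ ≤ _ := h4
        _ = _ := by ring
    exact le_of_mul_le_mul_right this hb0
  calc ((m' + 1 : ℕ) : ℝ) * (n * (n * b) ^ m') = (((m' + 1 : ℕ) : ℝ) * b ^ m') * n ^ (m' + 1) := by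
        ring
    _ ≤ (δ * √t ^ (m' + 1)) * n ^ (m' + 1) := mul_le_mul_of_nonneg_right h5 (by positivity)
    _ = _ := by ring

/-! ## S7 -/

theorem sum_coord {V : Type} [Fintype V] {m : ℕ} (i : Fin m) (y : V → ℝ) :
    ∑ x : Fin m → V, y (x i) = (Fintype.card V : ℝ) ^ (m - 1) * ∑ v, y v := by
  classical
  let F : Fin m → V → ℝ := fun j v => if j = i then y v else 1
  have h1 : ∏ j, ∑ v, F j v = ∑ x : Fin m → V, ∏ j, F j (x j) := by
    rw [Finset.prod_univ_sum]
    simp
  have h2 : ∏ j, ∑ v, F j v = (Fintype.card V : ℝ) ^ (m - 1) * ∑ v, y v := by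
    rw [← Finset.mul_prod_erase _ _ (Finset.mem_univ i)]
    have e1 : ∑ v, F i v = ∑ v, y v := by simp [F]
    rw [e1, Finset.prod_congr rfl (g := fun _ => (Fintype.card V : ℝ))]
    · rw [Finset.prod_const, Finset.card_erase_of_mem (Finset.mem_univ i), Finset.card_univ,
        Fintype.card_fin, mul_comm]
    · intro j hj
      have hji : j ≠ i := Finset.ne_of_mem_erase hj
      simp [F, hji]
  rw [← h2, h1]
  refine Finset.sum_congr rfl fun x _ => ?_
  rw [Finset.prod_eq_single i]
  · simp [F]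
  · intro j _ hj
    simp [F, hj]
  · intro h
    exact absurd (Finset.mem_univ i) h

theorem t_S7 : S4 → S6 → S7 := by
  classical
  intro h4 h6 k d hk hFC η ε hη hε hε1
  obtain ⟨m0, hm0⟩ := h4 η (ε / 8) hη (by positivity)
  set m := max m0 1 with hm
  have hm1 : 1 ≤ m := le_max_right _ _
  have hmm0 : m0 ≤ m := le_max_left _ _
  have hmR : (0 : ℝ) < m := by exact_mod_cast hm1
  have hkR : (0 : ℝ) < k := by exact_mod_cast (by omega : 0 < k)
  refine ⟨(ε / (4 * (m : ℝ) ^ k)) ^ (k ^ m) / k, by positivity, ?_⟩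
  intro V _ _ R hB y hy hyk
  have hn : (0 : ℝ) < Fintype.card V := by exact_mod_cast Fintype.card_pos
  set n : ℝ := (Fintype.card V : ℝ) with hnd
  set L : ℝ := 1 - ε / 2 with hL
  have hL0 : 0 < L := by rw [hL]; linarith
  have hne : Nonempty (Fin m) := ⟨⟨0, hm1⟩⟩
  -- the bad tuples
  set b1 : (Fin m → V) → Prop := fun x => L * m < k * ∑ i, y (x i) with hb1
  set b2 : (Fin m → V) → Prop := fun x => ∃ i, 2 * {j | R (x i) (x j)}.ncard < m with hb2
  set b3 : (Fin m → V) → Prop := fun x => ∃ i, 2 * {j | R (x j) (x i)}.ncard < m with hb3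
  have c2 : cnt b2 ≤ ε / 8 * n ^ m := by
    have := hm0 m hmm0 V R hB.out
    rwa [ncard_eq_cnt] at this
  have c3 : cnt b3 ≤ ε / 8 * n ^ m := by
    have := hm0 m hmm0 V (fun a b => R b a) hB.inn
    rwa [ncard_eq_cnt] at this
  have c1 : cnt b1 ≤ L * n ^ m := by
    have e1 : cnt b1 * (L * m) ≤ ∑ x : Fin m → V, k * ∑ i, y (x i) := by
      unfold cnt
      rw [Finset.sum_mul]
      refine Finset.sum_le_sum fun x _ => ?_
      by_cases hx : b1 x
      · rw [ind_true hx, one_mul]
        exact hx.le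
      · rw [ind_false hx, zero_mul]
        exact mul_nonneg hkR.le (Finset.sum_nonneg fun i _ => hy _)
    have e2 : ∑ x : Fin m → V, (k : ℝ) * ∑ i, y (x i) = m * (n ^ (m - 1) * (k * ∑ v, y v)) := by
      rw [← Finset.mul_sum, Finset.sum_comm, Finset.sum_congr rfl (fun i _ => sum_coord i y)]
      rw [Finset.sum_const, Finset.card_univ, Fintype.card_fin, nsmul_eq_mul]
      ring
    rw [e2] at e1
    have e3 : m * (n ^ (m - 1) * (k * ∑ v, y v)) ≤ m * (n ^ (m - 1) * ((1 - ε) * n)) := by
      apply mul_le_mul_of_nonneg_left _ hmR.le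
      exact mul_le_mul_of_nonneg_left hyk (by positivity)
    have e4 : n ^ (m - 1) * ((1 - ε) * n) = (1 - ε) * n ^ m := by
      have : n ^ m = n ^ (m - 1) * n := by
        rw [← pow_succ]
        congr 1
        omega
      rw [this]
      ring
    rw [e4] at e3
    have e5 : cnt b1 * L ≤ (1 - ε) * n ^ m := by
      have : (cnt b1 * L) * m ≤ ((1 - ε) * n ^ m) * m := by
        calc (cnt b1 * L) * m = cnt b1 * (L * m) := by ring
          _ ≤ _ := e1.trans e3
          _ = _ := by ring
      exact le_of_mul_le_mul_right this hmR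
    have e6 : (1 - ε) * n ^ m ≤ (L * n ^ m) * L := by
      have : 1 - ε ≤ L * L := by rw [hL]; nlinarith [sq_nonneg ε]
      calc (1 - ε) * n ^ m ≤ (L * L) * n ^ m :=
            mul_le_mul_of_nonneg_right this (by positivity)
        _ = _ := by ring
    exact le_of_mul_le_mul_right (e5.trans e6) hL0
  -- index sequences
  let Q : (Fin k → Fin m) → (Fin m → V) → Prop := fun I x =>
    PW R d (fun j => x (I j)) ∧ ∑ j, y (x (I j)) ≤ L
  have hcover : ∀ x, 1 ≤ ind (b1 x) + ind (b2 x) + ind (b3 x) + ∑ I, ind (Q I x) := by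
    intro x
    have hQ0 : 0 ≤ ∑ I, ind (Q I x) := Finset.sum_nonneg fun I _ => ind_nonneg _
    have n1 := ind_nonneg (b1 x)
    have n2 := ind_nonneg (b2 x)
    have n3 := ind_nonneg (b3 x)
    by_cases h1 : b1 x
    · rw [ind_true h1]; linarith
    by_cases h2 : b2 x
    · rw [ind_true h2]; linarith
    by_cases h3 : b3 x
    · rw [ind_true h3]; linarith
    have g2 : ∀ i, m ≤ 2 * {j | R (x i) (x j)}.ncard := by
      intro i
      by_contra hcon
      exact h2 ⟨i, not_le.mp hcon⟩
    have g3 : ∀ i, m ≤ 2 * {j | R (x j) (x i)}.ncard := by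
      intro i
      by_contra hcon
      exact h3 ⟨i, not_le.mp hcon⟩
    obtain ⟨I, hI1, hI2⟩ := hFC (Fin m) (fun i j => R (x i) (x j))
      (by rw [Fintype.card_fin]; exact g2) (by rw [Fintype.card_fin]; exact g3)
      (fun i => y (x i)) (fun i => hy _)
    rw [Fintype.card_fin] at hI2
    have g1 : k * ∑ i, y (x i) ≤ L * m := not_lt.mp h1
    have hI3 : ∑ i, y (x (I i)) ≤ L := by
      have : (m : ℝ) * ∑ i, y (x (I i)) ≤ m * L := by
        calc _ ≤ _ := hI2
          _ ≤ L * m := g1
          _ = _ := by ring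
      exact le_of_mul_le_mul_left this hmR
    have hQI : Q I x := ⟨hI1, hI3⟩
    have : ind (Q I x) ≤ ∑ I, ind (Q I x) :=
      Finset.single_le_sum (f := fun I => ind (Q I x)) (fun I _ => ind_nonneg _)
        (Finset.mem_univ I)
    rw [ind_true hQI] at this
    linarith
  have htot : n ^ m ≤ cnt b1 + cnt b2 + cnt b3 + ∑ I, cnt (Q I) := by
    have h1 : ∑ x : Fin m → V, (1 : ℝ) ≤
        ∑ x, (ind (b1 x) + ind (b2 x) + ind (b3 x) + ∑ I, ind (Q I x)) :=
      Finset.sum_le_sum fun x _ => hcover x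
    rw [Finset.sum_add_distrib, Finset.sum_add_distrib, Finset.sum_add_distrib,
      Finset.sum_comm (s := (univ : Finset (Fin m → V)))] at h1
    have h2 : ∑ x : Fin m → V, (1 : ℝ) = n ^ m := by simp [hnd]
    rw [h2] at h1
    exact h1
  have hQsum : ε / 4 * n ^ m ≤ ∑ I, cnt (Q I) := by
    have : n ^ m - L * n ^ m - ε / 8 * n ^ m - ε / 8 * n ^ m = ε / 4 * n ^ m := by
      rw [hL]; ring
    linarith
  obtain ⟨I, hI⟩ : ∃ I : Fin k → Fin m, ε / (4 * (m : ℝ) ^ k) * n ^ m ≤ cnt (Q I) := by
    by_contra hcon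
    push Not at hcon
    have hneI : (univ : Finset (Fin k → Fin m)).Nonempty := Finset.univ_nonempty
    have h1 : ∑ I : Fin k → Fin m, cnt (Q I) <
        ∑ I : Fin k → Fin m, ε / (4 * (m : ℝ) ^ k) * n ^ m :=
      Finset.sum_lt_sum_of_nonempty hneI fun I _ => hcon I
    have h2 : ∑ I : Fin k → Fin m, ε / (4 * (m : ℝ) ^ k) * n ^ m = ε / 4 * n ^ m := by
      rw [Finset.sum_const, Finset.card_univ, nsmul_eq_mul]
      simp only [Fintype.card_pi, Fintype.card_fin, Finset.prod_const, Finset.card_univ]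
      push_cast
      field_simp
    linarith
  apply h6 V R hB.irr k m hk d y L (ε / (4 * (m : ℝ) ^ k)) (by positivity) I
  rw [ncard_eq_cnt]
  exact hI

end Pool.Agent.W358.CF
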