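import Mathlib
import Pool.Agent.W358.CF156

/-!
# Step S9 of the project CF (helper163, MP_1ff796_co)
-/

set_option autoImplicit false

namespace Pool.Agent.W358.CF

open Finset Pool.Agent.W163.CF

/-- adjacency with a direction -/
def Adj {V : Type} (R : V → V → Prop) (δ : Bool) (u v : V) : Prop :=
  (δ = true → R u v) ∧ (δ = false → R v u)

theorem cnt_mono {T : Type} [Fintype T] {p q : T → Prop} (h : ∀ x, p x → q x) : cnt p ≤ cnt q := by
  unfold cnt
  refine Finset.sum_le_sum fun x _ => ?_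
  by_cases hp : p x
  · rw [ind_true hp, ind_true (h x hp)]
  · rw [ind_false hp]; exact ind_nonneg _

theorem cnt_and {T : Type} [Fintype T] (p q : T → Prop) :
    cnt p + cnt q - (Fintype.card T : ℝ) ≤ cnt (fun x => p x ∧ q x) := by
  have h : (Fintype.card T : ℝ) = ∑ _x : T, (1 : ℝ) := by simp
  rw [h]
  unfold cnt
  rw [← Finset.sum_add_distrib, ← Finset.sum_sub_distrib]
  refine Finset.sum_le_sum fun x _ => ?_
  change ind (p x) + ind (q x) - 1 ≤ ind (p x ∧ q x)
  by_cases hp : p x
  · by_cases hq : q x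
    · rw [ind_true hp, ind_true hq, ind_true ⟨hp, hq⟩]; norm_num
    · rw [ind_true hp, ind_false hq, ind_false (p := p x ∧ q x) (fun h => hq h.2)]; norm_num
  · rw [ind_false hp, ind_false (p := p x ∧ q x) (fun h => hp h.1)]
    have : ind (q x) ≤ 1 := by unfold ind; split_ifs <;> norm_num
    linarith

theorem cnt_adj {V : Type} [Fintype V] {R : V → V → Prop} {η : ℝ} (hR : Big R η) (δ : Bool) (u : V) :
    (1 / 2 + η) * (Fintype.card V : ℝ) ≤ cnt (fun v => Adj R δ u v) := by
  rw [← ncard_eq_cnt]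
  cases δ
  · have e : {v | Adj R false u v} = {w | R w u} := by
      ext v; simp [Adj]
    rw [e]; exact hR.inn u
  · have e : {v | Adj R true u v} = {w | R u w} := by
      ext v; simp [Adj]
    rw [e]; exact hR.out u

theorem cnt_adj' {V : Type} [Fintype V] {R : V → V → Prop} {η : ℝ} (hR : Big R η) (δ : Bool) (u : V) :
    (1 / 2 + η) * (Fintype.card V : ℝ) ≤ cnt (fun v => Adj R δ v u) := by
  rw [← ncard_eq_cnt]
  cases δ
  · have e : {v | Adj R false v u} = {w | R u w} := by
      ext v; simp [Adj]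
    rw [e]; exact hR.out u
  · have e : {v | Adj R true v u} = {w | R w u} := by
      ext v; simp [Adj]
    rw [e]; exact hR.inn u

/-- iterated constraint -/
def Q {V : Type} (C : (j : ℕ) → (Fin j → V) → V → Prop) : (j : ℕ) → (Fin j → V) → Prop
  | 0, _ => True
  | j + 1, z => Q C j (fun i => z i.castSucc) ∧ C j (fun i => z i.castSucc) (z (Fin.last j))

theorem Q_count {V : Type} [Fintype V] (C : (j : ℕ) → (Fin j → V) → V → Prop) (m : ℝ) (hm : 0 ≤ m)
    (K : ℕ) (h : ∀ j, j < K → ∀ z : Fin j → V, m ≤ cnt (C j z)) :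
    ∀ j, j ≤ K → m ^ j ≤ cnt (Q C j) := by
  intro j
  induction j with
  | zero =>
    intro _
    unfold cnt Q
    simp [ind_true]
  | succ j ih =>
    intro hj
    have h1 := ih (by omega)
    have e : cnt (Q C (j + 1)) = ∑ z : Fin j → V, ∑ v : V, ind (Q C j z ∧ C j z v) := by
      unfold cnt
      rw [← (Fin.snocEquiv (fun _ : Fin (j + 1) => V)).sum_comp, Fintype.sum_prod_type, Finset.sum_comm]
      refine Finset.sum_congr rfl fun z _ => Finset.sum_congr rfl fun v _ => ?_
      simp only [Fin.snocEquiv, Equiv.coe_fn_mk, Q, Fin.snoc_castSucc, Fin.snoc_last]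
    rw [e, pow_succ]
    calc m ^ j * m ≤ cnt (Q C j) * m := mul_le_mul_of_nonneg_right h1 hm
      _ = ∑ z : Fin j → V, ind (Q C j z) * m := by unfold cnt; rw [Finset.sum_mul]
      _ ≤ _ := by
        refine Finset.sum_le_sum fun z _ => ?_
        by_cases hq : Q C j z
        · rw [ind_true hq, one_mul]
          refine (h j (by omega) z).trans ?_
          unfold cnt
          refine Finset.sum_le_sum fun v _ => ?_
          by_cases hc : C j z v
          · rw [ind_true hc, ind_true ⟨hq, hc⟩]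
          · rw [ind_false hc]; exact ind_nonneg _
        · rw [ind_false hq, zero_mul]
          exact Finset.sum_nonneg fun v _ => ind_nonneg _

theorem Q_spec {V : Type} (C : (j : ℕ) → (Fin j → V) → V → Prop) :
    ∀ (K : ℕ) (z : Fin K → V), Q C K z → ∀ (j : ℕ) (hj : j < K),
      C j (fun i => z ⟨i.val, by omega⟩) (z ⟨j, hj⟩) := by
  intro K
  induction K with
  | zero => intro z _ j hj; omega
  | succ K ih =>
    intro z hz j hj
    rcases Nat.lt_succ_iff_lt_or_eq.mp hj with h | h
    · exact ih _ hz.1 j h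
    · subst h
      exact hz.2

/-- the constraints for the closed walk with the vertex at position 1 removed -/
def CC {V : Type} (R : V → V → Prop) (D : ℕ → Bool) (K : ℕ) (a b : V) (j : ℕ) (z : Fin j → V) (v : V) :
    Prop :=
  (j = 0 → Adj R (D 0) v a ∧ Adj R (D 0) v b) ∧
  (j = 1 → Adj R (D 1) a v ∧ Adj R (D 1) b v) ∧
  (∀ h : 2 ≤ j, Adj R (D j) (z ⟨j - 1, by omega⟩) v) ∧
  (∀ h : 1 ≤ j, j + 1 = K → Adj R (D K) v (z ⟨0, by omega⟩))

theorem CC_count {V : Type} [Fintype V] {R : V → V → Prop} {η : ℝ} (hR : Big R η) (D : ℕ → Bool)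
    (K : ℕ) (hK : 3 ≤ K) (a b : V) (j : ℕ) (z : Fin j → V) :
    2 * η * (Fintype.card V : ℝ) ≤ cnt (CC R D K a b j z) := by
  have key : ∀ p q : V → Prop, (1 / 2 + η) * (Fintype.card V : ℝ) ≤ cnt p →
      (1 / 2 + η) * (Fintype.card V : ℝ) ≤ cnt q → (∀ v, p v → q v → CC R D K a b j z v) →
      2 * η * (Fintype.card V : ℝ) ≤ cnt (CC R D K a b j z) := by
    intro p q hp hq h
    have h1 := cnt_and p q
    have h2 : cnt (fun x => p x ∧ q x) ≤ cnt (CC R D K a b j z) := cnt_mono fun x hx => h x hx.1 hx.2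
    linarith
  rcases Nat.lt_or_ge j 1 with h0 | h0
  · refine key (fun v => Adj R (D 0) v a) (fun v => Adj R (D 0) v b) (cnt_adj' hR _ _)
      (cnt_adj' hR _ _) fun v hp hq => ⟨fun _ => ⟨hp, hq⟩, fun h => by omega, fun h => by omega,
        fun h => by omega⟩
  rcases Nat.lt_or_ge j 2 with h1 | h1
  · refine key (fun v => Adj R (D 1) a v) (fun v => Adj R (D 1) b v) (cnt_adj hR _ _)
      (cnt_adj hR _ _) fun v hp hq => ⟨fun h => by omega, fun _ => ⟨hp, hq⟩, fun h => by omega,
        fun _ h => by omega⟩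
  · refine key (fun v => Adj R (D j) (z ⟨j - 1, by omega⟩) v) (fun v => Adj R (D K) v (z ⟨0, by omega⟩))
      (cnt_adj hR _ _) (cnt_adj' hR _ _) fun v hp hq => ⟨fun h => by omega, fun h => by omega,
        fun _ => hp, fun _ _ => hq⟩

/-- insert the vertex at position 1 -/
def F {V : Type} {K : ℕ} (z : Fin (K + 1) → V) (a : V) (i : Fin (K + 2)) : V :=
  if i.val = 0 then z 0 else if i.val = 1 then a else z ⟨i.val - 1, by omega⟩

theorem F_zero {V : Type} {K : ℕ} (z : Fin (K + 1) → V) (a : V) (i : Fin (K + 2)) (h : i.val = 0) :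
    F z a i = z 0 := by unfold F; rw [if_pos h]

theorem F_one {V : Type} {K : ℕ} (z : Fin (K + 1) → V) (a : V) (i : Fin (K + 2)) (h : i.val = 1) :
    F z a i = a := by unfold F; rw [if_neg (by omega), if_pos h]

theorem F_two {V : Type} {K : ℕ} (z : Fin (K + 1) → V) (a : V) (i : Fin (K + 2)) (h : 2 ≤ i.val) :
    F z a i = z ⟨i.val - 1, by omega⟩ := by
  unfold F; rw [if_neg (by omega), if_neg (by omega)]

theorem F_PW {V : Type} {K : ℕ} (hK : 2 ≤ K) (R : V → V → Prop) (d : Fin (K + 2) → Bool)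
    (D : ℕ → Bool) (hD : ∀ i : Fin (K + 2), D i.val = d i) (z : Fin (K + 1) → V) (a b : V)
    (hz : Q (CC R D (K + 1) a b) (K + 1) z) : PW R d (F z a) ∧ PW R d (F z b) := by
  have hs := Q_spec _ _ z hz
  have key : ∀ c : V, (Adj R (D 0) (z 0) c) → (Adj R (D 1) c (z ⟨1, by omega⟩)) → PW R d (F z c) := by
    intro c h0 h1 i j hij
    change Adj R (d i) (F z c i) (F z c j)
    rw [← hD i]
    have hi := i.isLt
    rcases Nat.lt_or_ge i.val 1 with hi0 | hi0
    · have hi0' : i.val = 0 := by omega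
      have hj : j.val = 1 := by
        rw [hij, hi0', Nat.mod_eq_of_lt (by omega)]
      rw [F_zero z c i hi0', F_one z c j hj, hi0']
      exact h0
    rcases Nat.lt_or_ge i.val 2 with hi1 | hi1
    · have hi1' : i.val = 1 := by omega
      have hj : j.val = 2 := by
        rw [hij, hi1', Nat.mod_eq_of_lt (by omega)]
      rw [F_one z c i hi1', F_two z c j (by omega), hi1']
      have e : (⟨j.val - 1, by omega⟩ : Fin (K + 1)) = ⟨1, by omega⟩ := by
        apply Fin.ext; simp [hj]
      rw [e]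
      exact h1
    rcases Nat.lt_or_ge i.val (K + 1) with hi2 | hi2
    · have hj : j.val = i.val + 1 := by
        rw [hij, Nat.mod_eq_of_lt (by omega)]
      rw [F_two z c i hi1, F_two z c j (by omega)]
      have h2 := (hs i.val hi2).2.2.1 hi1
      have e : (⟨j.val - 1, by omega⟩ : Fin (K + 1)) = ⟨i.val, hi2⟩ := by
        apply Fin.ext; simp [hj]
      rw [e]
      exact h2
    · have hi3 : i.val = K + 1 := by omega
      have hj : j.val = 0 := by
        rw [hij, hi3]; simp
      rw [F_two z c i hi1, F_zero z c j hj]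
      have h2 := (hs K (by omega)).2.2.2 (by omega) rfl
      have e : (⟨i.val - 1, by omega⟩ : Fin (K + 1)) = ⟨K, by omega⟩ := by
        apply Fin.ext; simp [hi3]
      rw [e, hi3]
      exact h2
  have h0 := (hs 0 (by omega)).1 rfl
  have h1 := (hs 1 (by omega)).2.1 rfl
  exact ⟨key a h0.1 h1.1, key b h0.2 h1.2⟩

theorem F_image {V : Type} [DecidableEq V] {K : ℕ} (z : Fin (K + 1) → V) (a : V) :
    univ.image (F z a) = insert a (univ.image z) := by
  ext v
  simp only [mem_image, mem_univ, true_and, mem_insert]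
  constructor
  · rintro ⟨i, rfl⟩
    rcases Nat.lt_or_ge i.val 1 with hi0 | hi0
    · exact Or.inr ⟨0, (F_zero z a i (by omega)).symm⟩
    rcases Nat.lt_or_ge i.val 2 with hi1 | hi1
    · exact Or.inl (F_one z a i (by omega))
    · exact Or.inr ⟨_, (F_two z a i hi1).symm⟩
  · rintro (rfl | ⟨i, rfl⟩)
    · exact ⟨⟨1, by omega⟩, F_one z v _ rfl⟩
    · have hi := i.isLt
      rcases Nat.lt_or_ge i.val 1 with hi0 | hi0
      · refine ⟨⟨0, by omega⟩, ?_⟩
        rw [F_zero z a _ rfl]
        congr 1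
        apply Fin.ext; simp; omega
      · refine ⟨⟨i.val + 1, by omega⟩, ?_⟩
        rw [F_two z a _ (by simp; omega)]
        congr 1

theorem F_inj {V : Type} {K : ℕ} (hK : 2 ≤ K) (z : Fin (K + 1) → V) (a : V)
    (hz : Function.Injective z) (ha : ∀ i, z i ≠ a) : Function.Injective (F z a) := by
  intro i j hij
  have hi := i.isLt
  have hj := j.isLt
  rcases Nat.lt_or_ge i.val 1 with hi0 | hi0
  · rw [F_zero z a i (by omega)] at hij
    rcases Nat.lt_or_ge j.val 1 with hj0 | hj0
    · apply Fin.ext; omega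
    rcases Nat.lt_or_ge j.val 2 with hj1 | hj1
    · rw [F_one z a j (by omega)] at hij; exact absurd hij (ha _)
    · rw [F_two z a j hj1] at hij
      have := congrArg Fin.val (hz hij)
      simp at this; omega
  rcases Nat.lt_or_ge i.val 2 with hi1 | hi1
  · rw [F_one z a i (by omega)] at hij
    rcases Nat.lt_or_ge j.val 1 with hj0 | hj0
    · rw [F_zero z a j (by omega)] at hij; exact absurd hij.symm (ha _)
    rcases Nat.lt_or_ge j.val 2 with hj1 | hj1
    · apply Fin.ext; omega
    · rw [F_two z a j hj1] at hij; exact absurd hij.symm (ha _)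
  · rw [F_two z a i hi1] at hij
    rcases Nat.lt_or_ge j.val 1 with hj0 | hj0
    · rw [F_zero z a j (by omega)] at hij
      have := congrArg Fin.val (hz hij)
      simp at this; omega
    rcases Nat.lt_or_ge j.val 2 with hj1 | hj1
    · rw [F_one z a j (by omega)] at hij; exact absurd hij (ha _)
    · rw [F_two z a j hj1] at hij
      have := congrArg Fin.val (hz hij)
      simp only at this
      apply Fin.ext; omega

theorem F_inj2 {V : Type} {K : ℕ} (hK : 2 ≤ K) (z z' : Fin (K + 1) → V) (a a' : V)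
    (h : F z a = F z' a') : z = z' ∧ a = a' := by
  constructor
  · funext i
    have hi := i.isLt
    rcases Nat.lt_or_ge i.val 1 with hi0 | hi0
    · have h1 := congrFun h ⟨0, by omega⟩
      rw [F_zero z a _ rfl, F_zero z' a' _ rfl] at h1
      have e : i = 0 := Fin.ext (by rw [Fin.val_zero]; omega)
      rw [e]; exact h1
    · have h1 := congrFun h ⟨i.val + 1, by omega⟩
      rw [F_two z a _ (by simp; omega), F_two z' a' _ (by simp; omega)] at h1
      exact h1
  · have h1 := congrFun h ⟨1, by omega⟩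
    rw [F_one z a _ rfl, F_one z' a' _ rfl] at h1
    exact h1

/-- a determined coordinate costs a factor `n` -/
theorem cnt_det {V : Type} [Fintype V] {K : ℕ} (p : (Fin (K + 1) → V) → Prop) (i : Fin (K + 1))
    (h : ∀ z z', p z → p z' → (∀ j, j ≠ i → z j = z' j) → z i = z' i) :
    cnt p ≤ (Fintype.card V : ℝ) ^ K := by
  classical
  rw [← ncard_eq_cnt, Set.ncard_eq_toFinset_card']
  have h1 : ({x | p x} : Set (Fin (K + 1) → V)).toFinset.card ≤
      (univ : Finset (Fin K → V)).card := by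
    refine Finset.card_le_card_of_injOn (fun z => Fin.removeNth i z) (fun _ _ => mem_coe.2 (mem_univ _)) ?_
    intro z hz z' hz' e
    have hz1 : p z := by simpa using hz
    have hz2 : p z' := by simpa using hz'
    have e' : ∀ j, j ≠ i → z j = z' j := by
      intro j hj
      obtain ⟨j', rfl⟩ := Fin.exists_succAbove_eq hj
      exact congrFun e j'
    funext j
    by_cases hj : j = i
    · rw [hj]; exact h z z' hz1 hz2 e'
    · exact e' j hj
  have h2 : (univ : Finset (Fin K → V)).card = Fintype.card V ^ K := by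
    rw [Finset.card_univ, Fintype.card_pi_const]
  rw [h2] at h1
  exact_mod_cast h1

theorem cnt_or {T : Type} [Fintype T] (p q : T → Prop) : cnt (fun x => p x ∨ q x) ≤ cnt p + cnt q := by
  unfold cnt
  rw [← Finset.sum_add_distrib]
  refine Finset.sum_le_sum fun x _ => ?_
  by_cases hp : p x
  · rw [ind_true hp, ind_true (Or.inl hp)]
    linarith [ind_nonneg (q x)]
  · by_cases hq : q x
    · rw [ind_true hq, ind_true (Or.inr hq)]
      linarith [ind_nonneg (p x)]
    · rw [ind_false (fun h => h.elim hp hq)]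
      linarith [ind_nonneg (p x), ind_nonneg (q x)]

theorem cnt_ex {T I : Type} [Fintype T] [Fintype I] (p : I → T → Prop) :
    cnt (fun x => ∃ i, p i x) ≤ ∑ i, cnt (p i) := by
  unfold cnt
  rw [Finset.sum_comm]
  refine Finset.sum_le_sum fun x _ => ?_
  by_cases h : ∃ i, p i x
  · rw [ind_true h]
    obtain ⟨i, hi⟩ := h
    rw [← ind_true hi]
    exact Finset.single_le_sum (f := fun i => ind (p i x)) (fun i _ => ind_nonneg _) (mem_univ i)
  · rw [ind_false h]
    exact Finset.sum_nonneg fun i _ => ind_nonneg _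

theorem cnt_bad {V : Type} [Fintype V] {K : ℕ} (a b : V) :
    cnt (fun z : Fin (K + 1) → V => ¬ (Function.Injective z ∧ (∀ i, z i ≠ a) ∧ (∀ i, z i ≠ b))) ≤
      (((K : ℝ) + 1) ^ 2 + 2 * (K + 1)) * (Fintype.card V : ℝ) ^ K := by
  have h1 : cnt (fun z : Fin (K + 1) → V => ∃ ij : Fin (K + 1) × Fin (K + 1), ij.1 ≠ ij.2 ∧ z ij.1 = z ij.2)
      ≤ ((K : ℝ) + 1) ^ 2 * (Fintype.card V : ℝ) ^ K := by
    refine (cnt_ex (fun (ij : Fin (K + 1) × Fin (K + 1)) (z : Fin (K + 1) → V) =>
      ij.1 ≠ ij.2 ∧ z ij.1 = z ij.2)).trans ?_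
    have h : ∀ ij ∈ (univ : Finset (Fin (K + 1) × Fin (K + 1))),
        cnt (fun z : Fin (K + 1) → V => ij.1 ≠ ij.2 ∧ z ij.1 = z ij.2) ≤ (Fintype.card V : ℝ) ^ K := by
      intro ij _
      refine cnt_det _ ij.1 ?_
      rintro z z' ⟨hne, hz⟩ ⟨-, hz'⟩ hj
      rw [hz, hz', hj ij.2 hne.symm]
    refine (Finset.sum_le_card_nsmul _ _ _ h).trans (le_of_eq ?_)
    rw [Finset.card_univ, Fintype.card_prod, Fintype.card_fin, nsmul_eq_mul]
    push_cast; ring
  have h2 : ∀ c : V, cnt (fun z : Fin (K + 1) → V => ∃ i, z i = c) ≤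
      ((K : ℝ) + 1) * (Fintype.card V : ℝ) ^ K := by
    intro c
    refine (cnt_ex (fun (i : Fin (K + 1)) (z : Fin (K + 1) → V) => z i = c)).trans ?_
    have h : ∀ i ∈ (univ : Finset (Fin (K + 1))),
        cnt (fun z : Fin (K + 1) → V => z i = c) ≤ (Fintype.card V : ℝ) ^ K := by
      intro i _
      refine cnt_det _ i ?_
      intro z z' hz hz' _
      rw [hz, hz']
    refine (Finset.sum_le_card_nsmul _ _ _ h).trans (le_of_eq ?_)
    rw [Finset.card_univ, Fintype.card_fin, nsmul_eq_mul]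
    push_cast; ring
  have h3 : cnt (fun z : Fin (K + 1) → V => ¬ (Function.Injective z ∧ (∀ i, z i ≠ a) ∧ (∀ i, z i ≠ b))) ≤
      cnt (fun z : Fin (K + 1) → V =>
        (∃ ij : Fin (K + 1) × Fin (K + 1), ij.1 ≠ ij.2 ∧ z ij.1 = z ij.2) ∨
          ((∃ i, z i = a) ∨ (∃ i, z i = b))) := by
    refine cnt_mono fun z hz => ?_
    by_contra hcon
    push Not at hcon
    apply hz
    refine ⟨?_, hcon.2.1, hcon.2.2⟩
    intro i j hij
    by_contra hne
    exact hcon.1 (i, j) hne hij
  have h4 := cnt_or (fun z : Fin (K + 1) → V =>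
    (∃ ij : Fin (K + 1) × Fin (K + 1), ij.1 ≠ ij.2 ∧ z ij.1 = z ij.2))
    (fun z => ((∃ i, z i = a) ∨ (∃ i, z i = b)))
  have h5 := cnt_or (fun z : Fin (K + 1) → V => ∃ i, z i = a) (fun z => ∃ i, z i = b)
  have h6 := h2 a
  have h7 := h2 b
  nlinarith [h1, h3, h4, h5, h6, h7]

/-- good tuples -/
def Gd {V : Type} (R : V → V → Prop) (D : ℕ → Bool) {K : ℕ} (a b : V) (z : Fin (K + 1) → V) : Prop :=
  Q (CC R D (K + 1) a b) (K + 1) z ∧
    (Function.Injective z ∧ (∀ i, z i ≠ a) ∧ (∀ i, z i ≠ b))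

theorem Gd_count {V : Type} [Fintype V] {R : V → V → Prop} {η : ℝ} (hη : 0 < η) (hR : Big R η)
    (D : ℕ → Bool) {K : ℕ} (hK : 2 ≤ K)
    (hn : 2 * (((K : ℝ) + 1) ^ 2 + 2 * (K + 1)) / (2 * η) ^ (K + 1) ≤ (Fintype.card V : ℝ)) (a b : V) :
    (2 * η) ^ (K + 1) / 2 * (Fintype.card V : ℝ) ^ (K + 1) ≤
      cnt (fun z : Fin (K + 1) → V => Gd R D a b z) := by
  have hm : 0 ≤ 2 * η * (Fintype.card V : ℝ) := by positivity
  have h1 := Q_count (CC R D (K + 1) a b) (2 * η * (Fintype.card V : ℝ)) hm (K + 1)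
    (fun j _ z => CC_count hR D (K + 1) (by omega) a b j z) (K + 1) le_rfl
  have h2 := cnt_bad (K := K) a b
  have h3 : cnt (Q (CC R D (K + 1) a b) (K + 1)) ≤ cnt (fun z : Fin (K + 1) → V => Gd R D a b z) +
      cnt (fun z : Fin (K + 1) → V =>
        ¬ (Function.Injective z ∧ (∀ i, z i ≠ a) ∧ (∀ i, z i ≠ b))) := by
    refine le_trans (cnt_mono fun z hz => ?_) (cnt_or _ _)
    by_cases h : (Function.Injective z ∧ (∀ i, z i ≠ a) ∧ (∀ i, z i ≠ b))
    · exact Or.inl ⟨hz, h⟩
    · exact Or.inr h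
  have hp : 0 < (2 * η) ^ (K + 1) := by positivity
  rw [div_le_iff₀ hp] at hn
  have h4 : 2 * (((K : ℝ) + 1) ^ 2 + 2 * (K + 1)) * (Fintype.card V : ℝ) ^ K ≤
      (Fintype.card V : ℝ) * (2 * η) ^ (K + 1) * (Fintype.card V : ℝ) ^ K :=
    mul_le_mul_of_nonneg_right hn (by positivity)
  have h5 : (2 * η * (Fintype.card V : ℝ)) ^ (K + 1) =
      (Fintype.card V : ℝ) * (2 * η) ^ (K + 1) * (Fintype.card V : ℝ) ^ K := by
    rw [mul_pow, pow_succ (Fintype.card V : ℝ) K]; ring
  have h6 : (2 * η) ^ (K + 1) / 2 * (Fintype.card V : ℝ) ^ (K + 1) =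
      (Fintype.card V : ℝ) * (2 * η) ^ (K + 1) * (Fintype.card V : ℝ) ^ K / 2 := by
    rw [pow_succ (Fintype.card V : ℝ) K]; ring
  rw [h6]
  rw [h5] at h1
  linarith

open scoped Classical in
theorem cnt_eq_card {T : Type} [Fintype T] (p : T → Prop) (i : DecidablePred p) :
    cnt p = (((univ : Finset T).filter p).card : ℝ) := by
  unfold cnt ind
  rw [Finset.card_filter]
  push_cast
  refine Finset.sum_congr rfl fun x _ => ?_
  by_cases h : p x <;> simp [h]

theorem t_S9 : S9 := by
  classical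
  intro k d hk η hη
  obtain ⟨K, rfl⟩ : ∃ K, k = K + 2 := ⟨k - 2, by omega⟩
  have hK : 2 ≤ K := by omega
  have hc1 : (0 : ℝ) < (2 * η) ^ (K + 1) / 2 := by positivity
  have hKK : (1 : ℝ) ≤ ((K : ℝ) + 1) ^ (K + 1) := one_le_pow₀ (by
    have : (0 : ℝ) ≤ K := Nat.cast_nonneg K
    linarith)
  set c1 : ℝ := (2 * η) ^ (K + 1) / 2 with hc1d
  refine ⟨c1 / ((K : ℝ) + 1) ^ (K + 1), by positivity,
    ⌈2 * (((K : ℝ) + 1) ^ 2 + 2 * (K + 1)) / (2 * η) ^ (K + 1)⌉₊, ?_⟩
  intro n hn R hR
  have hn' : 2 * (((K : ℝ) + 1) ^ 2 + 2 * (K + 1)) / (2 * η) ^ (K + 1) ≤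
      (Fintype.card (Fin n) : ℝ) := by
    rw [Fintype.card_fin]
    exact (Nat.le_ceil _).trans (by exact_mod_cast hn)
  have hcc : c1 / ((K : ℝ) + 1) ^ (K + 1) ≤ c1 := div_le_self hc1.le hKK
  set D : ℕ → Bool := fun i => if h : i < K + 2 then d ⟨i, h⟩ else true with hDd
  have hD : ∀ i : Fin (K + 2), D i.val = d i := fun i => by
    simp only [hDd]; rw [dif_pos i.isLt]
  have hG := Gd_count hη hR D hK hn'
  have hmem : ∀ (a b : Fin n) (z : Fin (K + 1) → Fin n), Gd R D a b z →
      insert a (univ.image z) ∈ HC R d ∧ insert b (univ.image z) ∈ HC R d := by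
    intro a b z hz
    have h1 := F_PW hK R d D hD z a b hz.1
    unfold HC
    rw [mem_filter, mem_filter]
    refine ⟨⟨mem_univ _, F z a, F_inj hK z a hz.2.1 hz.2.2.1, h1.1, ?_⟩,
      ⟨mem_univ _, F z b, F_inj hK z b hz.2.1 hz.2.2.2, h1.2, ?_⟩⟩
    · convert F_image z a
    · convert F_image z b
  constructor
  · -- part 1
    have h1 : ((univ : Finset (Fin n × (Fin (K + 1) → Fin n))).filter
        (fun p => Gd R D p.1 p.1 p.2)).card ≤
        ((univ : Finset (Fin (K + 2) → Fin n)).filter (fun u => univ.image u ∈ HC R d)).card := by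
      refine Finset.card_le_card_of_injOn (fun p => F p.2 p.1) ?_ ?_
      · intro p hp
        rw [mem_coe, mem_filter] at hp ⊢
        refine ⟨mem_univ _, ?_⟩
        have := (hmem p.1 p.1 p.2 hp.2).1
        rw [F_image]
        convert this
      · rintro ⟨a, z⟩ _ ⟨a', z'⟩ _ h
        have := F_inj2 hK z z' a a' h
        exact Prod.ext this.2 this.1
    have h2 : (((univ : Finset (Fin n × (Fin (K + 1) → Fin n))).filter
        (fun p => Gd R D p.1 p.1 p.2)).card : ℝ) =
        ∑ a : Fin n, cnt (fun z : Fin (K + 1) → Fin n => Gd R D a a z) := by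
      rw [← cnt_eq_card (fun p : Fin n × (Fin (K + 1) → Fin n) => Gd R D p.1 p.1 p.2)]
      unfold cnt
      rw [Fintype.sum_prod_type]
    have h3 : (n : ℝ) * (c1 * (n : ℝ) ^ (K + 1)) ≤
        ∑ a : Fin n, cnt (fun z : Fin (K + 1) → Fin n => Gd R D a a z) := by
      have h := Finset.card_nsmul_le_sum (univ : Finset (Fin n))
        (fun a => cnt (fun z : Fin (K + 1) → Fin n => Gd R D a a z)) (c1 * (n : ℝ) ^ (K + 1))
        (fun a _ => by
          have := hG a a
          rw [Fintype.card_fin] at this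
          exact this)
      rw [Finset.card_univ, Fintype.card_fin, nsmul_eq_mul] at h
      exact h
    have h4 : (n : ℝ) * (c1 * (n : ℝ) ^ (K + 1)) ≤
        (((univ : Finset (Fin (K + 2) → Fin n)).filter (fun u => univ.image u ∈ HC R d)).card : ℝ) := by
      refine h3.trans ?_
      rw [← h2]
      exact_mod_cast h1
    refine le_trans ?_ (h4.trans (le_of_eq (by congr)))
    calc c1 / ((K : ℝ) + 1) ^ (K + 1) * (n : ℝ) ^ (K + 2) ≤ c1 * (n : ℝ) ^ (K + 2) :=
          mul_le_mul_of_nonneg_right hcc (by positivity)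
      _ = _ := by ring
  · intro a b
    have hk1 : K + 2 - 1 = K + 1 := by omega
    rw [hk1]
    set G : Finset (Fin (K + 1) → Fin n) := univ.filter (fun z => Gd R D a b z) with hGd
    have h1 : c1 * (n : ℝ) ^ (K + 1) ≤ (G.card : ℝ) := by
      have := hG a b
      rw [Fintype.card_fin] at this
      rw [hGd, ← cnt_eq_card]
      exact this
    have h2 : G.card ≤ (K + 1) ^ (K + 1) * (G.image (fun z => univ.image z)).card := by
      refine Finset.card_le_mul_card_image G _ ?_
      intro S hS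
      obtain ⟨z0, hz0, rfl⟩ := mem_image.1 hS
      have hsub : G.filter (fun z => univ.image z = univ.image z0) ⊆
          Fintype.piFinset (fun _ : Fin (K + 1) => univ.image z0) := by
        intro z hz
        rw [mem_filter] at hz
        rw [Fintype.mem_piFinset]
        intro i
        rw [← hz.2]
        exact mem_image_of_mem _ (mem_univ _)
      refine (Finset.card_le_card hsub).trans ?_
      rw [Fintype.card_piFinset, Finset.prod_const, Finset.card_univ, Fintype.card_fin]
      refine Nat.pow_le_pow_left ?_ _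
      exact Finset.card_image_le.trans (by rw [Finset.card_univ, Fintype.card_fin])
    have h3 : G.image (fun z => univ.image z) ⊆ ((univ : Finset (Fin n)).powersetCard (K + 1)).filter
          (fun S => insert a S ∈ HC R d ∧ insert b S ∈ HC R d) := by
      intro S hS
      obtain ⟨z, hz, rfl⟩ := mem_image.1 hS
      rw [hGd, mem_filter] at hz
      rw [mem_filter, mem_powersetCard]
      refine ⟨⟨subset_univ _, ?_⟩, ?_⟩
      · rw [Finset.card_image_of_injective _ hz.2.2.1, Finset.card_univ, Fintype.card_fin]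
      · have := hmem a b z hz.2
        convert this
    have h4 := Finset.card_le_card h3
    have h5 : (G.card : ℝ) ≤ ((K : ℝ) + 1) ^ (K + 1) *
        ((((univ : Finset (Fin n)).powersetCard (K + 1)).filter
          (fun S => insert a S ∈ HC R d ∧ insert b S ∈ HC R d)).card : ℝ) := by
      have : G.card ≤ (K + 1) ^ (K + 1) * (((univ : Finset (Fin n)).powersetCard (K + 1)).filter
          (fun S => insert a S ∈ HC R d ∧ insert b S ∈ HC R d)).card :=
        h2.trans (Nat.mul_le_mul_left _ h4)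
      exact_mod_cast this
    have h6 : ((n.choose (K + 1) : ℕ) : ℝ) ≤ (n : ℝ) ^ (K + 1) := by
      exact_mod_cast Nat.choose_le_pow n (K + 1)
    have h7 : c1 / ((K : ℝ) + 1) ^ (K + 1) * ((n.choose (K + 1) : ℕ) : ℝ) ≤
        ((((univ : Finset (Fin n)).powersetCard (K + 1)).filter
          (fun S => insert a S ∈ HC R d ∧ insert b S ∈ HC R d)).card : ℝ) := by
      rw [div_mul_eq_mul_div, div_le_iff₀ (by positivity), mul_comm _ (((K : ℝ) + 1) ^ (K + 1))]
      exact ((mul_le_mul_of_nonneg_left h6 hc1.le).trans h1).trans h5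
    refine h7.trans (le_of_eq ?_)
    congr

end Pool.Agent.W358.CF
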