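import Mathlib
import Pool.Agent.W229.V.Stmts

/-!
# Task A3 of helper229: the traces of few monomials determine a tuple up to conjugacy
-/

set_option autoImplicit false

namespace Pool.Agent.W358.VojA3

open Module Matrix Pool.Agent.W229.V

/-- expansion of the twisted sum into power sums -/
theorem expand {n r m : ℕ} (c : Fin n → ℂ) (y : Fin n → Fin r → ℂ) (a : ℂ) (j : Fin r)
    (l' : Fin n) :
    ∑ s, (∑ l : Fin n, (∏ i, y s i ^ dig m l i) * c l) * (y s j - a) * (∏ i, y s i ^ dig m l' i) =
      ∑ l : Fin n, c l * (∑ s, ∏ i, y s i ^ (dig m l i + dig m l' i + if i = j then 1 else 0)) -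
      ∑ l : Fin n, c l * (a * ∑ s, ∏ i, y s i ^ (dig m l i + dig m l' i)) := by
  have h1 : ∀ s (l : Fin n),
      ∏ i, y s i ^ (dig m l i + dig m l' i + if i = j then 1 else 0) =
        (∏ i, y s i ^ dig m l i) * (∏ i, y s i ^ dig m l' i) * y s j := by
    intro s l
    simp only [pow_add, Finset.prod_mul_distrib]
    congr 1
    rw [Finset.prod_eq_single j]
    · simp
    · intro b _ hb
      simp [hb]
    · intro h
      exact absurd (Finset.mem_univ _) h
  have h2 : ∀ s (l : Fin n),
      ∏ i, y s i ^ (dig m l i + dig m l' i) =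
        (∏ i, y s i ^ dig m l i) * (∏ i, y s i ^ dig m l' i) := by
    intro s l
    simp only [pow_add, Finset.prod_mul_distrib]
  simp only [h1, h2]
  simp only [Finset.mul_sum, Finset.sum_mul]
  rw [← Finset.sum_sub_distrib, Finset.sum_comm]
  refine Finset.sum_congr rfl fun l _ => ?_
  rw [← Finset.sum_sub_distrib]
  refine Finset.sum_congr rfl fun s _ => ?_
  ring

/-- the Gram kernel trick -/
theorem pure {n r m : ℕ} (x x' : Fin n → Fin r → ℂ)
    (hm : ∀ (l : Fin n) (j : Fin r), dig m l j < m)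
    (hE : (Matrix.of fun s l : Fin n => ∏ j, x s j ^ dig m l j).det ≠ 0)
    (hE' : (Matrix.of fun s l : Fin n => ∏ j, x' s j ^ dig m l j).det ≠ 0)
    (hp : ∀ e : Fin r → ℕ, (∀ j, e j < 2 * m) →
      ∑ s, ∏ j, x s j ^ e j = ∑ s, ∏ j, x' s j ^ e j)
    (s0 : Fin n) : ∃ s, ∀ j, x' s j = x s0 j := by
  set E : Matrix (Fin n) (Fin n) ℂ := Matrix.of fun s l : Fin n => ∏ j, x s j ^ dig m l j with hEd
  set E' : Matrix (Fin n) (Fin n) ℂ := Matrix.of fun s l : Fin n => ∏ j, x' s j ^ dig m l j
    with hEd'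
  have hu : IsUnit E.det := isUnit_iff_ne_zero.mpr hE
  set c : Fin n → ℂ := E⁻¹ *ᵥ Pi.single s0 1 with hc
  have hEc : E *ᵥ c = Pi.single s0 1 := by
    rw [hc, Matrix.mulVec_mulVec, Matrix.mul_nonsing_inv _ hu, Matrix.one_mulVec]
  have hEc' : ∀ s, ∑ l : Fin n, (∏ i, x s i ^ dig m l i) * c l = (Pi.single s0 1 : Fin n → ℂ) s := by
    intro s
    rw [← hEc]
    rfl
  have hc0 : c ≠ 0 := by
    intro h
    rw [h, Matrix.mulVec_zero] at hEc
    have := congrFun hEc s0
    simp at this
  have key : ∀ j, (fun s => (E' *ᵥ c) s * (x' s j - x s0 j)) = 0 := by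
    intro j
    by_contra hv
    have hu' : E'ᵀ.det ≠ 0 := by rw [Matrix.det_transpose]; exact hE'
    apply hu'
    apply Matrix.exists_mulVec_eq_zero_iff.mp
    refine ⟨_, hv, ?_⟩
    funext l'
    have e1 := expand (m := m) c x (x s0 j) j l'
    have e2 := expand (m := m) c x' (x s0 j) j l'
    have e3 : ∑ s, (∑ l : Fin n, (∏ i, x s i ^ dig m l i) * c l) * (x s j - x s0 j) *
        (∏ i, x s i ^ dig m l' i) = 0 := by
      refine Finset.sum_eq_zero fun s _ => ?_
      rw [hEc' s]
      by_cases hs : s = s0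
      · subst hs; simp
      · simp [hs]
    have e4 : (∑ l : Fin n, c l *
        (∑ s, ∏ i, x s i ^ (dig m l i + dig m l' i + if i = j then 1 else 0)) -
        ∑ l : Fin n, c l * (x s0 j * ∑ s, ∏ i, x s i ^ (dig m l i + dig m l' i))) =
        (∑ l : Fin n, c l *
        (∑ s, ∏ i, x' s i ^ (dig m l i + dig m l' i + if i = j then 1 else 0)) -
        ∑ l : Fin n, c l * (x s0 j * ∑ s, ∏ i, x' s i ^ (dig m l i + dig m l' i))) := by
      congr 1
      · refine Finset.sum_congr rfl fun l _ => ?_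
        rw [hp]
        intro i
        have := hm l i
        have := hm l' i
        split_ifs <;> omega
      · refine Finset.sum_congr rfl fun l _ => ?_
        rw [hp]
        intro i
        have := hm l i
        have := hm l' i
        omega
    have e5 : ∑ s, (∑ l : Fin n, (∏ i, x' s i ^ dig m l i) * c l) * (x' s j - x s0 j) *
        (∏ i, x' s i ^ dig m l' i) = 0 := by
      rw [e2, ← e4, ← e1, e3]
    rw [Pi.zero_apply, ← e5]
    simp only [Matrix.mulVec, dotProduct, Matrix.transpose_apply, hEd', Matrix.of_apply]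
    refine Finset.sum_congr rfl fun s _ => ?_
    ring
  have hne : E' *ᵥ c ≠ 0 := by
    intro h
    apply hc0
    exact Matrix.eq_zero_of_mulVec_eq_zero hE' h
  obtain ⟨s, hs⟩ := Function.ne_iff.mp hne
  refine ⟨s, fun j => ?_⟩
  have := congrFun (key j) s
  simp only [Pi.zero_apply, mul_eq_zero] at this
  rcases this with h | h
  · exact absurd h hs
  · exact sub_eq_zero.mp h

/-- the matrix of the embeddings of the monomials is invertible -/
theorem det_ne {K : Type} [Field K] [NumberField K] {n r m : ℕ} (hn : finrank ℚ K = n)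
    (α : Fin r → K) (hα : LinearIndependent ℚ (fun l : Fin n => mono m α l))
    (e : Fin n ≃ (K →ₐ[ℚ] ℂ)) :
    (Matrix.of fun s l : Fin n => ∏ j, (e s (α j)) ^ dig m l j).det ≠ 0 := by
  let b : Basis (Fin n) ℚ K := 
    have : Nonempty (Fin n) := ⟨⟨0, by rw [← hn]; exact finrank_pos⟩⟩
    basisOfLinearIndependentOfCardEqFinrank hα (by simp [hn])
  have h1 := Algebra.discr_not_zero_of_basis ℚ b
  have h2 := Algebra.discr_eq_det_embeddingsMatrixReindex_pow_two ℚ ℂ (b : Fin n → K) e
  intro h
  apply h1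
  have h3 : (Algebra.embeddingsMatrixReindex ℚ ℂ (b : Fin n → K) e).det =
      (Matrix.of fun s l : Fin n => ∏ j, (e s (α j)) ^ dig m l j).det := by
    rw [← Matrix.det_transpose]
    congr 1
    ext s l
    simp [Algebra.embeddingsMatrixReindex, Algebra.embeddingsMatrix_apply, b, mono]
  rw [h3, h] at h2
  simpa using h2

theorem taskA3 : TaskA3 := by
  intro n r m K K' _ _ _ _ hnm hn hn' α α' hα hα' ht τ
  have hpos : 0 < n := by rw [← hn]; exact finrank_pos
  have hc : Fintype.card (Fin n) = Fintype.card (K →ₐ[ℚ] ℂ) := by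
    rw [AlgHom.card, Fintype.card_fin, hn]
  have hc' : Fintype.card (Fin n) = Fintype.card (K' →ₐ[ℚ] ℂ) := by
    rw [AlgHom.card, Fintype.card_fin, hn']
  let e : Fin n ≃ (K →ₐ[ℚ] ℂ) := Fintype.equivOfCardEq hc
  let e' : Fin n ≃ (K' →ₐ[ℚ] ℂ) := Fintype.equivOfCardEq hc'
  have hm : ∀ (l : Fin n) (j : Fin r), dig m l j < m := by
    intro l j
    have : 0 < m := by
      rcases Nat.eq_zero_or_pos m with h0 | h0
      · subst h0
        have hr : r ≠ 0 := by
          intro hr
          exact absurd j.2 (by omega)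
        rw [zero_pow hr] at hnm
        omega
      · exact h0
    exact Nat.mod_lt _ this
  obtain ⟨s, hs⟩ := pure (fun s j => e s (α j)) (fun s j => e' s (α' j)) hm
    (det_ne hn α hα e) (det_ne hn' α' hα' e') (by
      intro f hf
      have h1 := congrArg (algebraMap ℚ ℂ) (ht f hf)
      rw [trace_eq_sum_embeddings ℂ, trace_eq_sum_embeddings ℂ] at h1
      simp only [map_prod, map_pow] at h1
      rw [← Equiv.sum_comp e, ← Equiv.sum_comp e'] at h1
      exact h1) (e.symm (τ.toRatAlgHom))
  refine ⟨(e' s : K' →+* ℂ), fun j => ?_⟩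
  have := hs j
  simp only [Equiv.apply_symm_apply] at this
  exact this.symm

end Pool.Agent.W358.VojA3
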