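import Pool.Agent.W852.HV.Stms

/-!
# HV-INF: a local pattern of a Poisson process occurs infinitely often
-/

set_option autoImplicit false

open MeasureTheory ProbabilityTheory Set Metric
open scoped UpperHalfPlane ENNReal

namespace Pool.Agent.W358.HV

open HypVoronoi

/-- real translations preserve the hyperbolic area -/
theorem volume_vadd (a : ℝ) (s : Set ℍ) : volume ((fun z : ℍ => a +ᵥ z) '' s) = volume s := by
  rw [UpperHalfPlane.volume_eq_lintegral, UpperHalfPlane.volume_eq_lintegral]
  have h1 : UpperHalfPlane.coe '' ((fun z : ℍ => a +ᵥ z) '' s) =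
      (fun z : ℂ => (a : ℂ) + z) '' (UpperHalfPlane.coe '' s) := by
    rw [Set.image_image, Set.image_image]
    refine Set.image_congr fun z _ => ?_
    rw [UpperHalfPlane.coe_vadd]
  have h2 := (measurePreserving_add_left (volume : Measure ℂ) (a : ℂ)).setLIntegral_comp_emb
    (measurableEmbedding_addLeft (a : ℂ)) (fun z : ℂ => (((1 / ‖z.im‖₊) ^ 2 : NNReal) : ℝ≥0∞))
    (UpperHalfPlane.coe '' s)
  rw [h1, ← h2]
  refine lintegral_congr fun z => ?_
  simp

/-- horizontal extent of a ball -/
theorem re_le (z0 z : ℍ) (R : ℝ) (h : z ∈ closedBall z0 R) :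
    |z.re - z0.re| ≤ z0.im * Real.sinh R := by
  rw [mem_closedBall, UpperHalfPlane.dist_le_iff_dist_coe_center_le, dist_eq_norm] at h
  refine le_trans ?_ h
  have h1 := Complex.abs_re_le_norm ((z : ℂ) - (z0.center R : ℂ))
  have h2 : ((z : ℂ) - (z0.center R : ℂ)).re = z.re - z0.re := by
    rw [Complex.sub_re]
    rfl
  rwa [h2] at h1

theorem vadd_re (a : ℝ) (z : ℍ) : (a +ᵥ z).re = a + z.re := UpperHalfPlane.vadd_re a z

theorem inf : TaskInf := by
  classical
  intro n A z0 R M hAm hAd hAs hM Ω _ Pr _ lam Pt hlam hP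
  set A' : ℕ × Fin n → Set ℍ := fun x => (fun z : ℍ => ((x.1 : ℝ) * M) +ᵥ z) '' A x.2 with hA'
  set m : Fin n → ℕ := fun i => if volume (A i) = 0 then 0 else 1 with hm
  have hemb : ∀ a : ℝ, MeasurableEmbedding (fun z : ℍ => a +ᵥ z) := fun a =>
    (UpperHalfPlane.isometry_real_vadd a).isClosedEmbedding.measurableEmbedding
  have hA'm : ∀ x, MeasurableSet (A' x) := fun x =>
    (hemb _).measurableSet_image.mpr (hAm x.2)
  have hA'd : ∀ x y, x ≠ y → Disjoint (A' x) (A' y) := by
    rintro ⟨k, i⟩ ⟨l, j⟩ hne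
    by_cases hkl : k = l
    · subst hkl
      have hij : i ≠ j := fun h => hne (by rw [h])
      exact (Set.disjoint_image_iff (UpperHalfPlane.isometry_real_vadd _).injective).mpr
        (hAd i j hij)
    · rw [Set.disjoint_left]
      rintro w ⟨z, hz, rfl⟩ ⟨z', hz', hzz⟩
      have h1 := re_le z0 z R (hAs i hz)
      have h2 := re_le z0 z' R (hAs j hz')
      have h3 := congrArg UpperHalfPlane.re hzz
      simp only [vadd_re] at h3
      rw [abs_le] at h1 h2
      have hM0 : 0 < M := by
        have : 0 ≤ z0.im * Real.sinh R := by linarith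
        linarith
      rcases lt_or_gt_of_ne hkl with h | h
      · have h4 : (k : ℝ) + 1 ≤ l := by exact_mod_cast h
        nlinarith
      · have h4 : (l : ℝ) + 1 ≤ k := by exact_mod_cast h
        nlinarith
  have hind := hP.indep (ℕ × Fin n) A' hA'm hA'd
  set Ev : ℕ × Fin n → Set Ω := fun x => (fun ω => (Pt ω ∩ A' x).encard) ⁻¹' {(m x.2 : ℕ∞)} with hEv
  have hmeas := fun x => hP.measurable_count (A' x) (hA'm x)
  have hEvm : ∀ x, MeasurableSet (Ev x) := fun x => hmeas x (MeasurableSet.singleton _)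
  have hprod : ∀ s : Finset (ℕ × Fin n), Pr (⋂ x ∈ s, Ev x) = ∏ x ∈ s, Pr (Ev x) := fun s =>
    hind.measure_inter_preimage_eq_mul s (sets := fun x => {(m x.2 : ℕ∞)})
      (fun _ _ => MeasurableSet.singleton _)
  have hfin : ∀ i, volume (A i) ≠ ∞ := fun i =>
    ((measure_mono (hAs i)).trans_lt (isCompact_closedBall z0 R).measure_lt_top).ne
  set p : Fin n → ℝ≥0∞ := fun i => ENNReal.ofReal (Real.exp (-(lam * (volume (A i)).toReal)) *
        (lam * (volume (A i)).toReal) ^ (m i) / (m i).factorial) with hp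
  have hEvp : ∀ x, Pr (Ev x) = p x.2 := by
    intro x
    have h1 : volume (A' x) = volume (A x.2) := volume_vadd _ _
    have h2 := hP.count_law (A' x) (hA'm x) (by rw [h1]; exact hfin _) (m x.2)
    rw [h1] at h2
    exact h2
  have hp0 : ∀ i, p i ≠ 0 := by
    intro i
    rw [hp]
    simp only [ne_eq, ENNReal.ofReal_eq_zero, not_le]
    by_cases h : volume (A i) = 0
    · simp [hm, h]
    · have h1 : 0 < (volume (A i)).toReal := ENNReal.toReal_pos h (hfin i)
      simp only [hm, if_neg h]
      positivity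
  set Pat : ℕ → Set Ω := fun k => ⋂ i ∈ (Finset.univ : Finset (Fin n)), Ev (k, i) with hPat
  have hPatm : ∀ k, MeasurableSet (Pat k) := fun k =>
    Finset.measurableSet_biInter _ fun i _ => hEvm (k, i)
  have hPatp : ∀ k, Pr (Pat k) = ∏ i, p i := by
    intro k
    have h1 : Pat k = ⋂ x ∈ (Finset.univ : Finset (Fin n)).image (fun i => (k, i)), Ev x := by
      rw [hPat]
      ext ω
      simp
    rw [h1, hprod, Finset.prod_image]
    · exact Finset.prod_congr rfl fun i _ => hEvp (k, i)
    · intro i _ j _ hij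
      exact (Prod.ext_iff.mp hij).2
  have hPati : iIndepSet Pat Pr := by
    rw [iIndepSet_iff_meas_biInter hPatm]
    intro s
    have h1 : (⋂ k ∈ s, Pat k) = ⋂ x ∈ s ×ˢ (Finset.univ : Finset (Fin n)), Ev x := by
      rw [hPat]
      ext ω
      simp
      tauto
    rw [h1, hprod, Finset.prod_product]
    refine Finset.prod_congr rfl fun k _ => ?_
    rw [hPatp k]
    exact Finset.prod_congr rfl fun i _ => hEvp (k, i)
  have hsum : ∑' k, Pr (Pat k) = ∞ := by
    simp only [hPatp]
    exact ENNReal.tsum_const_eq_top_of_ne_zero (Finset.prod_ne_zero_iff.mpr fun i _ => hp0 i)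
  have hls := measure_limsup_eq_one hPatm hPati hsum
  have hae : ∀ᵐ ω ∂Pr, ω ∈ Filter.limsup Pat Filter.atTop :=
    (mem_ae_iff_prob_eq_one (MeasurableSet.measurableSet_limsup hPatm)).mpr hls
  filter_upwards [hae] with ω hω
  rw [Filter.mem_limsup_iff_frequently_mem] at hω
  refine hω.mono fun k hk i => ?_
  rw [hPat] at hk
  simp only [Set.mem_iInter] at hk
  have h1 := hk i (Finset.mem_univ _)
  rw [hEv] at h1
  have h2 : (Pt ω ∩ A' (k, i)).encard = (m i : ℕ∞) := h1
  rw [hA'] at h2
  simp only at h2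
  rw [h2, hm]
  simp only
  split_ifs <;> simp

end Pool.Agent.W358.HV
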