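import Pool.Agent.W852.HV.Stms

/-!
# HV-PAT: combining the partition and the infinite recurrence
-/

set_option autoImplicit false

open MeasureTheory ProbabilityTheory Set Metric
open scoped UpperHalfPlane ENNReal

namespace Pool.Agent.W358.HV

open HypVoronoi

/-- nonempty open sets have positive area -/
theorem volume_ne_zero {s : Set ℍ} (hs : IsOpen s) (hne : s.Nonempty) : volume s ≠ 0 := by
  rw [UpperHalfPlane.volume_eq_lintegral]
  have hmeas : Measurable fun z : ℂ => (((1 / ‖z.im‖₊) ^ 2 : NNReal) : ℝ≥0∞) := by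
    fun_prop
  have h1 : UpperHalfPlane.coe '' s ⊆
      Function.support (fun z : ℂ => (((1 / ‖z.im‖₊) ^ 2 : NNReal) : ℝ≥0∞)) := by
    rintro _ ⟨z, _, rfl⟩
    have := z.im_ne_zero
    simpa using this
  have h2 := (setLIntegral_pos_iff (μ := (volume : Measure ℂ)) hmeas
    (s := UpperHalfPlane.coe '' s)).mpr (by
      rw [Set.inter_eq_self_of_subset_right h1]
      exact (UpperHalfPlane.isOpenEmbedding_coe.isOpenMap s hs).measure_pos _ (hne.image _))
  exact h2.ne'

/-- a piece of positive area near a point -/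
theorem exists_piece {n : ℕ} (A : Fin n → Set ℍ) (b : ℍ) (e : ℝ) (he : 0 < e)
    (h : ball b e ⊆ ⋃ i, A i) : ∃ i, volume (A i) ≠ 0 ∧ ∃ w ∈ A i, dist w b < e := by
  by_contra hcon
  push Not at hcon
  have h1 : volume (ball b e) = 0 := by
    have h2 : ball b e ⊆ ⋃ i, (A i ∩ ball b e) := by
      intro w hw
      obtain ⟨i, hi⟩ := Set.mem_iUnion.mp (h hw)
      exact Set.mem_iUnion.mpr ⟨i, hi, hw⟩
    refine measure_mono_null h2 (measure_iUnion_null fun i => ?_)
    by_cases hv : volume (A i) = 0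
    · exact measure_mono_null Set.inter_subset_left hv
    · have h3 : A i ∩ ball b e = ∅ := by
        rw [Set.eq_empty_iff_forall_notMem]
        rintro w ⟨hw, hwb⟩
        exact absurd (mem_ball.mp hwb) (not_lt.mpr (hcon i hv w hw))
      rw [h3, measure_empty]
  exact volume_ne_zero isOpen_ball ⟨b, mem_ball_self he⟩ h1

theorem pat (hpart : TaskPart) (hinf : TaskInf) : TaskPattern := by
  classical
  intro z0 R D hR hD hDs
  obtain ⟨n1, A1, h1m, h1d, h1u, h1e⟩ := hpart (closedBall z0 R \ D)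
    (measurableSet_closedBall.diff hD.measurableSet)
    (isBounded_closedBall.subset Set.sdiff_subset) (1 / 2) (by norm_num)
  refine ⟨n1, fun η hη => ⟨2 * (z0.im * Real.sinh R) + 1, by linarith, ?_⟩⟩
  obtain ⟨n2, A2, h2m, h2d, h2u, h2e⟩ := hpart D hD.measurableSet
    (isBounded_closedBall.subset hDs) (min (η / 2) (1 / 2)) (by positivity)
  set M : ℝ := 2 * (z0.im * Real.sinh R) + 1 with hM
  intro Ω _ Pr _ lam Pt hlam hP
  set A : Fin (n1 + n2) → Set ℍ := Fin.addCases A1 A2 with hA
  have hAl : ∀ i, A (Fin.castAdd n2 i) = A1 i := fun i => Fin.addCases_left i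
  have hAr : ∀ i, A (Fin.natAdd n1 i) = A2 i := fun i => Fin.addCases_right i
  have h12 : ∀ i j, Disjoint (A1 i) (A2 j) := by
    intro i j
    rw [Set.disjoint_left]
    intro x hx hx'
    have e1 : x ∈ closedBall z0 R \ D := by rw [← h1u]; exact Set.mem_iUnion.mpr ⟨i, hx⟩
    have e2 : x ∈ D := by rw [← h2u]; exact Set.mem_iUnion.mpr ⟨j, hx'⟩
    exact e1.2 e2
  have hAm : ∀ i, MeasurableSet (A i) := by
    intro i
    refine Fin.addCases (fun i => ?_) (fun i => ?_) i
    · rw [hAl]; exact h1m i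
    · rw [hAr]; exact h2m i
  have hAd : ∀ i j, i ≠ j → Disjoint (A i) (A j) := by
    intro i j
    refine Fin.addCases (fun i => ?_) (fun i => ?_) i
    · refine Fin.addCases (fun j => ?_) (fun j => ?_) j
      · intro hij
        rw [hAl, hAl]
        exact h1d i j fun h => hij (by rw [h])
      · intro _
        rw [hAl, hAr]
        exact h12 i j
    · refine Fin.addCases (fun j => ?_) (fun j => ?_) j
      · intro _
        rw [hAl, hAr]
        exact (h12 j i).symm
      · intro hij
        rw [hAr, hAr]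
        exact h2d i j fun h => hij (by rw [h])
  have hAe : ∀ i, ∀ x ∈ A i, ∀ y ∈ A i, dist x y ≤ 1 / 2 := by
    intro i
    refine Fin.addCases (fun i => ?_) (fun i => ?_) i
    · rw [hAl]; exact h1e i
    · rw [hAr]
      intro x hx y hy
      exact (h2e i x hx y hy).trans (min_le_right _ _)
  have hAu : (⋃ i, A i) = closedBall z0 R := by
    apply Set.Subset.antisymm
    · refine Set.iUnion_subset fun i => ?_
      refine Fin.addCases (fun i => ?_) (fun i => ?_) i
      · rw [hAl]
        intro x hx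
        have e1 : x ∈ closedBall z0 R \ D := by rw [← h1u]; exact Set.mem_iUnion.mpr ⟨i, hx⟩
        exact e1.1
      · rw [hAr]
        intro x hx
        have e2 : x ∈ D := by rw [← h2u]; exact Set.mem_iUnion.mpr ⟨i, hx⟩
        exact hDs e2
    · intro x hx
      by_cases hxD : x ∈ D
      · rw [← h2u] at hxD
        obtain ⟨i, hi⟩ := Set.mem_iUnion.mp hxD
        exact Set.mem_iUnion.mpr ⟨Fin.natAdd n1 i, by rw [hAr]; exact hi⟩
      · have e1 : x ∈ closedBall z0 R \ D := ⟨hx, hxD⟩
        rw [← h1u] at e1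
        obtain ⟨i, hi⟩ := Set.mem_iUnion.mp e1
        exact Set.mem_iUnion.mpr ⟨Fin.castAdd n2 i, by rw [hAl]; exact hi⟩
  have hmain := hinf (n1 + n2) A z0 R M hAm hAd (fun i => by
    rw [← hAu]; exact Set.subset_iUnion A i) (by linarith) Ω Pr lam Pt hlam hP
  filter_upwards [hmain] with ω hω
  refine hω.mono fun k hk => ?_
  -- a point in the translate of a piece of positive area
  have hpt : ∀ i, volume (A i) ≠ 0 → ∃ p' ∈ A i, ((k : ℝ) * M) +ᵥ p' ∈ Pt ω := by
    intro i hi
    have h1 := hk i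
    rw [if_neg hi] at h1
    have h2 : (Pt ω ∩ (fun z : ℍ => ((k : ℝ) * M) +ᵥ z) '' A i).Nonempty := by
      rw [← Set.encard_ne_zero, h1]
      exact one_ne_zero
    obtain ⟨p, hp, p', hp', rfl⟩ := h2
    exact ⟨p', hp', hp⟩
  have hdist : ∀ a b : ℍ, dist (((k : ℝ) * M) +ᵥ a) (((k : ℝ) * M) +ᵥ b) = dist a b :=
    fun a b => (UpperHalfPlane.isometry_real_vadd ((k : ℝ) * M)).dist_eq a b
  refine ⟨?_, ?_, ?_⟩
  · intro b hb
    obtain ⟨e, he, heb⟩ := Metric.isOpen_iff.mp isOpen_ball b hb
    obtain ⟨i, hi, w, hw, hwb⟩ := exists_piece A b (min e (1 / 2)) (by positivity) (by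
      rw [hAu]
      exact ((ball_subset_ball (min_le_left _ _)).trans heb).trans ball_subset_closedBall)
    obtain ⟨p', hp', hpp⟩ := hpt i hi
    refine ⟨_, hpp, ?_⟩
    rw [hdist]
    have h1 := hAe i w hw p' hp'
    have h2 := dist_triangle b w p'
    rw [dist_comm b w] at h2
    have h3 := hwb.le.trans (min_le_right _ _)
    linarith
  · intro b hb
    obtain ⟨e, he, heb⟩ := Metric.isOpen_iff.mp isOpen_interior b hb
    obtain ⟨i, hi, w, hw, hwb⟩ := exists_piece A2 b (min e (η / 2)) (by positivity) (by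
      rw [h2u]
      exact ((ball_subset_ball (min_le_left _ _)).trans heb).trans interior_subset)
    obtain ⟨p', hp', hpp⟩ := hpt (Fin.natAdd n1 i) (by rw [hAr]; exact hi)
    rw [hAr] at hp'
    refine ⟨_, hpp, ?_⟩
    rw [hdist]
    have h1 := (h2e i w hw p' hp').trans (min_le_left _ _)
    have h2 := dist_triangle b w p'
    rw [dist_comm b w] at h2
    have h3 := hwb.le.trans (min_le_right _ _)
    linarith
  · have h1 : Pt ω ∩ (fun z : ℍ => ((k : ℝ) * M) +ᵥ z) '' (closedBall z0 R \ D) =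
        ⋃ i : Fin n1, (Pt ω ∩ (fun z : ℍ => ((k : ℝ) * M) +ᵥ z) '' A1 i) := by
      rw [← Set.inter_iUnion, ← Set.image_iUnion, h1u]
    rw [h1]
    refine (Set.encard_iUnion_le_of_fintype _).trans ?_
    calc ∑ i : Fin n1, (Pt ω ∩ (fun z : ℍ => ((k : ℝ) * M) +ᵥ z) '' A1 i).encard
        ≤ ∑ i : Fin n1, (1 : ℕ∞) := by
          refine Finset.sum_le_sum fun i _ => ?_
          have h2 := hk (Fin.castAdd n2 i)
          rw [hAl] at h2
          rw [h2]
          split_ifs <;> simp
      _ = (n1 : ℕ∞) := by simp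

end Pool.Agent.W358.HV
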