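import Mathlib
import Pool.Agent.W393.LR.Stmts
import Pool.Agent.Helper867.PF.FreeRes

set_option autoImplicit false

namespace Pool.Agent.W358.LR

open Pool.Agent.W393.LR

/-- the character of a subgroup of index two -/
theorem exists_char {P : Type} [Group P] (K : Subgroup P) (hK : K.index = 2) :
    ∃ χ : P →* ℤˣ, ∀ x, χ x = 1 ↔ x ∈ K := by
  classical
  refine ⟨{ toFun := fun x => if x ∈ K then 1 else -1
            map_one' := by simp [K.one_mem]
            map_mul' := ?_ }, ?_⟩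
  · intro a b
    have h := Subgroup.mul_mem_iff_of_index_two hK (a := a) (b := b)
    by_cases ha : a ∈ K <;> by_cases hb : b ∈ K <;> simp [h, ha, hb]
  · intro x
    by_cases hx : x ∈ K <;> simp [hx]

theorem proper_char {P : Type} [Group P] [Finite P] (hP : IsPGroup 2 P) (H : Subgroup P) (hH : H ≠ ⊤) :
    ∃ χ : P →* ℤˣ, (∀ x ∈ H, χ x = 1) ∧ ∃ x, χ x ≠ 1 := by
  have : Fact (Nat.Prime 2) := ⟨Nat.prime_two⟩
  obtain ⟨k, hk⟩ := IsPGroup.iff_card.1 hP
  obtain ⟨j, hj⟩ := IsPGroup.iff_card.1 (hP.to_subgroup H)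
  have hjk : j < k := by
    have h1 : Nat.card H < Nat.card P := by
      refine lt_of_le_of_ne (Subgroup.card_le_card_group H) fun h => hH ?_
      exact Subgroup.eq_top_of_card_eq H h
    rw [hk, hj] at h1
    exact (Nat.pow_lt_pow_iff_right (by norm_num)).1 h1
  obtain ⟨K, hK1, hK2⟩ := Sylow.exists_subgroup_card_pow_prime_le (G := P) 2 (n := j) (m := k - 1)
    (by rw [hk]; exact pow_dvd_pow 2 (by omega)) H hj (by omega)
  have hi : K.index = 2 := by
    have h1 := K.card_mul_index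
    rw [hK1, hk] at h1
    have h2 : 2 ^ k = 2 ^ (k - 1) * 2 := by
      rw [← pow_succ]; congr 1; omega
    rw [h2] at h1
    exact Nat.eq_of_mul_eq_mul_left (by positivity) h1
  obtain ⟨χ, hχ⟩ := exists_char K hi
  refine ⟨χ, fun x hx => (hχ x).2 (hK2 hx), ?_⟩
  by_contra hcon
  push Not at hcon
  have : K = ⊤ := by
    rw [eq_top_iff]
    intro x _
    exact (hχ x).1 (hcon x)
  rw [this, Subgroup.index_top] at hi
  norm_num at hi

theorem step1 (N : Type) [Group N] (hN : IsFreeGroup N) (A : Subgroup N) (r : N →* N)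
    (hr : ∀ n, r n ∈ A) (hra : ∀ a ∈ A, r a = a) (hA : A ≠ ⊤) :
    ∃ χ : N →* ℤˣ, (∀ a ∈ A, χ a = 1) ∧ ∃ x, χ x ≠ 1 := by
  obtain ⟨n, hn⟩ : ∃ n, n ∉ A := by
    by_contra hcon
    push Not at hcon
    exact hA (eq_top_iff.2 fun x _ => hcon x)
  have hne : n * (r n)⁻¹ ≠ 1 := by
    intro h
    have : n = r n := mul_inv_eq_one.1 h
    exact hn (this ▸ hr n)
  have := hN
  have hne' : IsFreeGroup.toFreeGroup N (n * (r n)⁻¹) ≠ 1 := by
    intro h
    exact hne ((map_eq_one_iff _ (IsFreeGroup.toFreeGroup N).injective).1 h)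
  obtain ⟨Q, _, _, f, hQ, hf⟩ := Pool.Agent.Helper867.PF.free_res _ hne'
  set f' : N →* Q := f.comp (IsFreeGroup.toFreeGroup N).toMonoidHom with hf'
  have hf2 : f' n ≠ f' (r n) := by
    intro h
    apply hf
    have h1 : f' (n * (r n)⁻¹) = 1 := by
      rw [map_mul, map_inv, h, mul_inv_cancel]
    exact h1
  set F : N →* Q × Q := f'.prod (f'.comp r) with hF
  have hQQ : IsPGroup 2 (Q × Q) := by
    intro g
    obtain ⟨k1, hk1⟩ := hQ g.1
    obtain ⟨k2, hk2⟩ := hQ g.2
    refine ⟨k1 + k2, ?_⟩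
    apply Prod.ext
    · rw [Prod.pow_fst, pow_add, pow_mul, hk1, one_pow, Prod.fst_one]
    · rw [Prod.pow_snd, pow_add, mul_comm, pow_mul, hk2, one_pow, Prod.snd_one]
  have hP : IsPGroup 2 F.range := hQQ.to_subgroup _
  have hprop : A.map F.rangeRestrict ≠ ⊤ := by
    intro htop
    have h1 : F.rangeRestrict n ∈ A.map F.rangeRestrict := by rw [htop]; exact Subgroup.mem_top _
    obtain ⟨a, ha, hae⟩ := Subgroup.mem_map.1 h1
    have h2 : F a = F n := congrArg Subtype.val hae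
    have h3 := congrArg Prod.fst h2
    have h4 := congrArg Prod.snd h2
    simp only [hF, MonoidHom.prod_apply, MonoidHom.comp_apply] at h3 h4
    rw [hra a ha] at h4
    exact hf2 (h3.symm.trans h4)
  obtain ⟨χ, h1, x, hx⟩ := proper_char hP _ hprop
  refine ⟨χ.comp F.rangeRestrict, fun a ha => h1 _ (Subgroup.mem_map_of_mem _ ha), ?_⟩
  obtain ⟨y, rfl⟩ := F.rangeRestrict_surjective x
  exact ⟨y, hx⟩

theorem char : S_CHAR := by
  intro N _ hN A Z r hr hra hA hZ hfin
  obtain ⟨χ, hχA, x, hx⟩ := step1 N hN A r hr hra hA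
  let r' : N →* A := r.codRestrict A hr
  have hr' : ∀ a : A, r' a = a := fun a => Subtype.ext (hra a a.2)
  let Φ : {χ : A →* ℤˣ // ∀ z : A, (z : N) ∈ Z → χ z = 1} → {χ : N →* ℤˣ // ∀ z ∈ Z, χ z = 1} :=
    fun χ' => ⟨χ'.1.comp r', fun z hz => by
      rw [MonoidHom.comp_apply]
      have h1 : r' z = ⟨z, hZ hz⟩ := Subtype.ext (hra z (hZ hz))
      rw [h1]
      exact χ'.2 ⟨z, hZ hz⟩ hz⟩
  have hinj : Function.Injective Φ := by
    intro χ1 χ2 h
    apply Subtype.ext
    apply MonoidHom.ext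
    intro a
    have h1 := DFunLike.congr_fun (congrArg Subtype.val h) (a : N)
    simp only [Φ, MonoidHom.comp_apply] at h1
    rw [hr'] at h1
    exact h1
  have hns : ¬ Function.Surjective Φ := by
    intro hs
    obtain ⟨χ', hχ'⟩ := hs ⟨χ, fun z hz => hχA z (hZ hz)⟩
    have h0 : χ'.1.comp r' = χ := congrArg Subtype.val hχ'
    have h1 : χ'.1 = 1 := by
      apply MonoidHom.ext
      intro a
      have h2 := DFunLike.congr_fun h0 (a : N)
      rw [MonoidHom.comp_apply, hr', hχA a a.2] at h2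
      exact h2
    apply hx
    rw [← h0, h1]
    rfl
  have := hfin
  have : Finite {χ : A →* ℤˣ // ∀ z : A, (z : N) ∈ Z → χ z = 1} := Finite.of_injective Φ hinj
  have := Fintype.ofFinite {χ : A →* ℤˣ // ∀ z : A, (z : N) ∈ Z → χ z = 1}
  have := Fintype.ofFinite {χ : N →* ℤˣ // ∀ z ∈ Z, χ z = 1}
  rw [Nat.card_eq_fintype_card, Nat.card_eq_fintype_card]
  exact Fintype.card_lt_of_injective_not_surjective Φ hinj hns

end Pool.Agent.W358.LR
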