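import Mathlib
import Pool.Agent.W393.LR.Stmts

set_option autoImplicit false
set_option linter.unusedSectionVars false

namespace Pool.Agent.W358.LR

open Pool.Agent.W393.LR

section
variable {H I J : Type} [Group H]

theorem extW_mul (h h' : H) (w w' : Wr H J) : extW (h * h') (w * w') = extW h w * extW h' w' := by
  refine Wr.ext ?_ ?_
  · apply Equiv.ext
    intro i
    cases i with
    | none => rfl
    | some j => rfl
  · funext i
    cases i with
    | none => rfl
    | some j => rfl

theorem extW_inj {h h' : H} {w w' : Wr H J} (e : extW h w = extW h' w') : w = w' := by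
  refine Wr.ext ?_ ?_
  · apply Equiv.ext
    intro i
    have h1 := congrArg (fun z : Wr H (Option J) => z.σ (some i)) e
    exact Option.some_injective _ h1
  · funext i
    exact congrArg (fun z : Wr H (Option J) => z.f (some i)) e

theorem cancel : S_CANCEL := by
  classical
  intro H J _ C θ θ' p h1 h2
  obtain ⟨e1, h1⟩ := h1
  obtain ⟨e2, h2⟩ := h2
  set F : Wr H (Option J) := e2⁻¹ * e1 with hF
  have key : ∀ c ∈ C, F * extW c (θ c) = extW c (θ' c) * F := by
    intro c hc
    have h3 := (h1 c hc).symm.trans (h2 c hc)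
    have h4 : e2⁻¹ * (e1 * extW c (θ c) * e1⁻¹) * e1 = e2⁻¹ * (e2 * extW c (θ' c) * e2⁻¹) * e1 := by
      rw [h3]
    rw [hF]
    calc e2⁻¹ * e1 * extW c (θ c) = e2⁻¹ * (e1 * extW c (θ c) * e1⁻¹) * e1 := by group
      _ = e2⁻¹ * (e2 * extW c (θ' c) * e2⁻¹) * e1 := h4
      _ = _ := by group
  set F' : Wr H J := ⟨Equiv.removeNone F.σ,
    fun j => if F.σ (some j) = none then F.f none * F.f (some j) else F.f (some j)⟩ with hF'
  have key2 : ∀ c ∈ C, F' * θ c = θ' c * F' := by
    intro c hc
    have hk := key c hc
    have hσ : ∀ i, F.σ ((extW c (θ c)).σ i) = (extW c (θ' c)).σ (F.σ i) := fun i =>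
      congrArg (fun z : Wr H (Option J) => z.σ i) hk
    have hf : ∀ i, F.f ((extW c (θ c)).σ i) * (extW c (θ c)).f i =
        (extW c (θ' c)).f (F.σ i) * F.f i := fun i =>
      congrArg (fun z : Wr H (Option J) => z.f i) hk
    have hσn := hσ none
    have hfn := hf none
    have a1 : (extW c (θ c)).σ none = none := rfl
    have a2 : (extW c (θ c)).f none = c := rfl
    rw [a1] at hσn hfn
    rw [a2] at hfn
    have b1 : ∀ j, (extW c (θ c)).σ (some j) = some ((θ c).σ j) := fun j => rfl
    have b2 : ∀ j, (extW c (θ c)).f (some j) = (θ c).f j := fun j => rfl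
    have b3 : ∀ j, (extW c (θ' c)).σ (some j) = some ((θ' c).σ j) := fun j => rfl
    have b4 : ∀ j, (extW c (θ' c)).f (some j) = (θ' c).f j := fun j => rfl
    have main : ∀ j, F'.σ ((θ c).σ j) = (θ' c).σ (F'.σ j) ∧
        F'.f ((θ c).σ j) * (θ c).f j = (θ' c).f (F'.σ j) * F'.f j := by
      intro j
      have hσj := hσ (some j)
      have hfj := hf (some j)
      rw [b1] at hσj hfj
      rw [b2] at hfj
      rcases hj : F.σ (some j) with _ | k
      · -- goes to none
        rw [hj] at hσj hfj
        have a3 : (extW c (θ' c)).σ none = none := rfl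
        have a4 : (extW c (θ' c)).f none = c := rfl
        rw [a3] at hσj
        rw [a4] at hfj
        have e1 : some (F'.σ j) = F.σ none := Equiv.removeNone_none F.σ hj
        have e2 : some (F'.σ ((θ c).σ j)) = F.σ none := Equiv.removeNone_none F.σ hσj
        rw [← e1, b3] at hσn
        rw [← e1, b4] at hfn
        have e3 : F'.σ j = (θ' c).σ (F'.σ j) := Option.some_injective _ hσn
        refine ⟨?_, ?_⟩
        · apply Option.some_injective
          rw [e2, ← e3, e1]
        · have f1 : F'.f j = F.f none * F.f (some j) := if_pos hj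
          have f2 : F'.f ((θ c).σ j) = F.f none * F.f (some ((θ c).σ j)) := if_pos hσj
          rw [f1, f2, mul_assoc, hfj, ← mul_assoc, hfn, mul_assoc]
      · rw [hj, b3] at hσj
        rw [hj, b4] at hfj
        have e1 : some (F'.σ j) = F.σ (some j) := Equiv.removeNone_some F.σ ⟨k, hj⟩
        have e2 : some (F'.σ ((θ c).σ j)) = F.σ (some ((θ c).σ j)) :=
          Equiv.removeNone_some F.σ ⟨_, hσj⟩
        rw [hj] at e1
        rw [hσj] at e2
        have e3 := Option.some_injective _ e1
        have e4 := Option.some_injective _ e2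
        refine ⟨by rw [e4, e3], ?_⟩
        have f1 : F'.f j = F.f (some j) := if_neg (by rw [hj]; simp)
        have f2 : F'.f ((θ c).σ j) = F.f (some ((θ c).σ j)) := if_neg (by rw [hσj]; simp)
        rw [f1, f2, e3]
        exact hfj
    refine Wr.ext (Equiv.ext fun j => (main j).1) (funext fun j => (main j).2)
  refine ⟨F', fun c hc => ?_⟩
  rw [key2 c hc]; group

/-- reindexing -/
def reindex (e : J ≃ I) : Wr H I →* Wr H J where
  toFun w := ⟨(e.trans w.σ).trans e.symm, fun j => w.f (e j)⟩
  map_one' := by
    refine Wr.ext ?_ rfl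
    apply Equiv.ext
    intro j
    simp [Wr.one_σ]
  map_mul' a b := by
    refine Wr.ext ?_ ?_
    · apply Equiv.ext
      intro j
      simp [Wr.mul_σ]
    · funext j
      simp [Wr.mul_f]

theorem reindex_σ (e : J ≃ I) (w : Wr H I) (j : J) : (reindex e w).σ j = e.symm (w.σ (e j)) := rfl
theorem reindex_f (e : J ≃ I) (w : Wr H I) (j : J) : (reindex e w).f j = w.f (e j) := rfl

theorem ext_res (w : Wr H (Option J)) (h : w.σ none = none) :
    w = extW (w.f none) (⟨Equiv.removeNone w.σ, fun j => w.f (some j)⟩ : Wr H J) := by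
  refine Wr.ext ?_ ?_
  · apply Equiv.ext
    intro i
    cases i with
    | none => exact h
    | some j =>
      have h1 : some (Equiv.removeNone w.σ j) = w.σ (some j) := by
        apply Equiv.removeNone_some
        rcases hj : w.σ (some j) with _ | k
        · exact absurd (w.σ.injective (hj.trans h.symm)) (by simp)
        · exact ⟨k, rfl⟩
      exact h1.symm
  · funext i
    cases i with
    | none => rfl
    | some j => rfl

end

theorem cpbase : S_CPBASE := by
  classical
  intro H Q _ _ q hQ hq
  have hQ' := hQ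
  set X := Q ⧸ q.range with hX
  set base : X := ((1 : Q) : X) with hbase
  let r : X → Q := fun x => if x = base then 1 else x.out
  have hr : ∀ x : X, ((r x : Q) : X) = x := by
    intro x
    by_cases h : x = base
    · simp only [r, if_pos h]; exact h.symm
    · simp only [r, if_neg h]; exact Quotient.out_eq x
  have hrb : r base = 1 := by simp [r]
  have hsm : ∀ (a : Q) (x : X), (r (a • x))⁻¹ * a * r x ∈ q.range := by
    intro a x
    rw [mul_assoc]
    apply QuotientGroup.eq.1
    rw [hr]
    have : a • x = a • ((r x : Q) : X) := by rw [hr]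
    rw [this]
    rfl
  let φ : H ≃* q.range := MonoidHom.ofInjective hq
  have hφ : ∀ h : H, (φ h : Q) = q h := fun h => MonoidHom.ofInjective_apply hq
  let π0 : Q →* Wr H X :=
    { toFun := fun a => ⟨MulAction.toPerm a, fun x => φ.symm ⟨_, hsm a x⟩⟩
      map_one' := by
        refine Wr.ext ?_ ?_
        · apply Equiv.ext; intro x
          simp [Wr.one_σ]
        · funext x
          change φ.symm ⟨_, hsm 1 x⟩ = 1
          have : (⟨_, hsm 1 x⟩ : q.range) = 1 := by
            apply Subtype.ext
            change (r ((1 : Q) • x))⁻¹ * 1 * r x = 1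
            rw [one_smul]; group
          rw [this, map_one]
      map_mul' := by
        intro a b
        refine Wr.ext ?_ ?_
        · apply Equiv.ext; intro x
          simp [Wr.mul_σ, mul_smul]
        · funext x
          change φ.symm ⟨_, hsm (a * b) x⟩ = φ.symm ⟨_, hsm a (b • x)⟩ * φ.symm ⟨_, hsm b x⟩
          rw [← map_mul]
          congr 1
          apply Subtype.ext
          change (r ((a * b) • x))⁻¹ * (a * b) * r x =
            ((r (a • (b • x)))⁻¹ * a * r (b • x)) * ((r (b • x))⁻¹ * b * r x)
          rw [mul_smul]; group }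
  let e : Option {x : X // x ≠ base} ≃ X := Equiv.optionSubtypeNe base
  let π : Q →* Wr H (Option {x : X // x ≠ base}) := (reindex e).comp π0
  have he : e none = base := rfl
  have hfix : ∀ c : H, (q c) • base = base := by
    intro c
    change ((q c * 1 : Q) : X) = ((1 : Q) : X)
    rw [mul_one]
    apply QuotientGroup.eq.2
    rw [mul_one]
    exact inv_mem ⟨c, rfl⟩
  have hn : ∀ c : H, (π (q c)).σ none = none := by
    intro c
    have h : e.symm ((q c) • (e none)) = e.symm (e none) := congrArg _ (hfix c)
    exact h.trans (e.symm_apply_apply none)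
  have hnf : ∀ c : H, (π (q c)).f none = c := by
    intro c
    change φ.symm ⟨_, hsm (q c) (e none)⟩ = c
    rw [MulEquiv.symm_apply_eq]
    apply Subtype.ext
    rw [hφ]
    change (r ((q c) • (e none)))⁻¹ * (q c) * r (e none) = q c
    rw [he, hfix, hrb]; group
  let θ0 : H → Wr H {x : X // x ≠ base} := fun c =>
    ⟨Equiv.removeNone (π (q c)).σ, fun j => (π (q c)).f (some j)⟩
  have hθ0 : ∀ c, extW c (θ0 c) = π (q c) := by
    intro c
    have h := ext_res (π (q c)) (hn c)
    rw [hnf] at h
    exact h.symm
  have hθmul : ∀ c c', θ0 (c * c') = θ0 c * θ0 c' := by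
    intro c c'
    have h : extW (c * c') (θ0 (c * c')) = extW (c * c') (θ0 c * θ0 c') := by
      rw [extW_mul, hθ0, hθ0, hθ0, map_mul, map_mul]
    exact extW_inj h
  refine ⟨{x : X // x ≠ base}, inferInstance, π, MonoidHom.mk' θ0 hθmul, fun C _ => ⟨1, fun c _ => ?_⟩⟩
  rw [one_mul, inv_one, mul_one]
  exact (hθ0 c).symm

end Pool.Agent.W358.LR
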