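import Mathlib
import Pool.Agent.W393.LR.Stmts
import Pool.Agent.W358.LRWr

set_option autoImplicit false
set_option linter.unusedSectionVars false

namespace Pool.Agent.W358.LR

open Pool.Agent.W393.LR

/-- change of coefficients -/
def mapC {H H' : Type} [Group H] [Group H'] (g : H' →* H) (I : Type) : Wr H' I →* Wr H I where
  toFun w := ⟨w.σ, fun i => g (w.f i)⟩
  map_one' := by
    refine Wr.ext rfl (funext fun i => ?_)
    simp [Wr.one_f]
  map_mul' a b := by
    refine Wr.ext rfl (funext fun i => ?_)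
    simp [Wr.mul_f]

/-- block sum -/
def blk {H K : Type} [Group H] (X : K → Type) : (∀ k, Wr H (X k)) →* Wr H (Σ k, X k) where
  toFun w := ⟨Equiv.sigmaCongrRight fun k => (w k).σ, fun p => (w p.1).f p.2⟩
  map_one' := by
    refine Wr.ext (Equiv.ext fun p => ?_) (funext fun i => ?_)
    · simp [Wr.one_σ]
    · simp [Wr.one_f]
  map_mul' a b := by
    refine Wr.ext (Equiv.ext fun p => ?_) (funext fun i => ?_)
    · simp [Wr.mul_σ]
    · rfl

theorem mapC_extW {H H' : Type} [Group H] [Group H'] (g : H' →* H) (J : Type) (h : H') (w : Wr H' J) :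
    mapC g (Option J) (extW h w) = extW (g h) (mapC g J w) := by
  refine Wr.ext rfl (funext fun i => ?_)
  cases i with
  | none => rfl
  | some j => rfl

theorem reindex_conj {H I J : Type} [Group H] (e e' : J ≃ I) :
    ∃ P : Wr H J, ∀ w : Wr H I, reindex e w = P * reindex e' w * P⁻¹ := by
  refine ⟨⟨(e.trans e'.symm).symm, fun _ => 1⟩, fun w => ?_⟩
  refine Wr.ext (Equiv.ext fun j => ?_) (funext fun j => ?_)
  · simp [Wr.mul_σ, Wr.inv_σ, reindex_σ, Equiv.Perm.mul_apply]
  · simp [Wr.mul_f, Wr.inv_σ, Wr.inv_f, reindex_f]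

theorem fin_sub {H : Type} [Group H] (C L : Subgroup H) (hC : Finite C) : Finite (C.subgroupOf L) := by
  refine Finite.of_injective
    (fun x : C.subgroupOf L => (⟨((x : L) : H), Subgroup.mem_subgroupOf.1 x.2⟩ : C)) ?_
  intro x y h
  have h1 : ((x : L) : H) = ((y : L) : H) := congrArg (fun z : C => (z : H)) h
  exact Subtype.ext (Subtype.ext h1)

theorem cpcomb : S_CPCOMB := by
  classical
  intro H Q _ _ q L hCP
  choose Jf hJf πf θf hf using hCP
  let X : Fin 3 → Type := fun k => Option (Jf k)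
  let p0 : Σ k, X k := ⟨0, none⟩
  let J : Type := {x : Σ k, X k // x ≠ p0}
  let e0 : Option J ≃ Σ k, X k := Equiv.optionSubtypeNe p0
  have he0 : e0 none = p0 := rfl
  have : ∀ k, Finite (X k) := fun k => by
    have := hJf k
    exact inferInstanceAs (Finite (Option (Jf k)))
  have hJfin : Finite J := inferInstanceAs (Finite {x : Σ k, X k // x ≠ p0})
  let g0 : Q →* (∀ k, Wr H (X k)) := MonoidHom.pi fun k => (mapC (L k).subtype (X k)).comp (πf k)
  let Pi0 : Q →* Wr H (Σ k, X k) := (blk X).comp g0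
  refine ⟨J, hJfin, (reindex e0).comp Pi0, fun i => ?_⟩
  let ei : Option J ≃ Σ k, X k := e0.trans (Equiv.swap p0 ⟨i, none⟩)
  have hei : ei none = ⟨i, none⟩ := by
    change Equiv.swap p0 ⟨i, none⟩ (e0 none) = _
    rw [he0, Equiv.swap_apply_left]
  let vv : L i → ∀ k, Wr H (X k) := fun c =>
    Function.update (g0 (q c)) i (extW (c : H) (mapC (L i).subtype (Jf i) (θf i c)))
  have hvi : ∀ c, vv c i = extW (c : H) (mapC (L i).subtype (Jf i) (θf i c)) := fun c =>
    Function.update_self _ _ _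
  have hvk : ∀ c k, k ≠ i → vv c k = g0 (q c) k := fun c k hk =>
    Function.update_of_ne hk _ _
  have hvm : ∀ c c', vv (c * c') = vv c * vv c' := by
    intro c c'
    funext k
    by_cases hk : k = i
    · subst hk
      rw [Pi.mul_apply, hvi, hvi, hvi, ← extW_mul, map_mul, map_mul, Subgroup.coe_mul]
    · rw [Pi.mul_apply, hvk _ _ hk, hvk _ _ hk, hvk _ _ hk, ← Pi.mul_apply, ← map_mul, ← map_mul,
        Subgroup.coe_mul]
  let W : L i → Wr H (Option J) := fun c => reindex ei (blk X (vv c))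
  have hWm : ∀ c c', W (c * c') = W c * W c' := by
    intro c c'
    change reindex ei (blk X (vv (c * c'))) = reindex ei (blk X (vv c)) * reindex ei (blk X (vv c'))
    rw [hvm, map_mul, map_mul]
  have hWσ : ∀ c, (W c).σ none = none := by
    intro c
    have h1 : (blk X (vv c)).σ (ei none) = ei none := by
      rw [hei]
      change (⟨i, (vv c i).σ none⟩ : Σ k, X k) = ⟨i, none⟩
      rw [hvi]
      rfl
    exact (congrArg ei.symm h1).trans (ei.symm_apply_apply none)
  have hWf : ∀ c, (W c).f none = (c : H) := by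
    intro c
    change (blk X (vv c)).f (ei none) = c
    rw [hei]
    change (vv c i).f none = c
    rw [hvi]
    rfl
  let θ0 : L i → Wr H J := fun c => ⟨Equiv.removeNone (W c).σ, fun j => (W c).f (some j)⟩
  have hθ0 : ∀ c : L i, extW (c : H) (θ0 c) = W c := by
    intro c
    have h := ext_res (W c) (hWσ c)
    rw [hWf] at h
    exact h.symm
  have hθm : ∀ c c', θ0 (c * c') = θ0 c * θ0 c' := by
    intro c c'
    have h : extW ((c * c' : L i) : H) (θ0 (c * c')) = extW ((c * c' : L i) : H) (θ0 c * θ0 c') := by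
      rw [hθ0, hWm, Subgroup.coe_mul, extW_mul, hθ0, hθ0]
    exact extW_inj h
  refine ⟨fun c => if hc : c ∈ L i then θ0 ⟨c, hc⟩ else 1, ?_, ?_⟩
  · intro x hx y hy
    simp only [dif_pos hx, dif_pos hy, dif_pos ((L i).mul_mem hx hy)]
    exact hθm ⟨x, hx⟩ ⟨y, hy⟩
  · intro C hC hCL
    have hC' : Finite (C.subgroupOf (L i)) := fin_sub C (L i) hC
    obtain ⟨ε, hε⟩ := hf i (C.subgroupOf (L i)) hC'
    obtain ⟨P, hP⟩ := reindex_conj (H := H) e0 ei
    let E0 : ∀ k, Wr H (X k) := Function.update 1 i (mapC (L i).subtype (X i) ε)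
    have hE0i : E0 i = mapC (L i).subtype (X i) ε := Function.update_self _ _ _
    have hE0k : ∀ k, k ≠ i → E0 k = 1 := fun k hk => Function.update_of_ne hk _ _
    refine ⟨P * reindex ei (blk X E0), fun c hc => ?_⟩
    have hcL : c ∈ L i := hCL hc
    have hc' : (⟨c, hcL⟩ : L i) ∈ C.subgroupOf (L i) := by
      rw [Subgroup.mem_subgroupOf]; exact hc
    have h1 := hε ⟨c, hcL⟩ hc'
    have h2 : g0 (q c) = E0 * vv ⟨c, hcL⟩ * E0⁻¹ := by
      funext k
      by_cases hk : k = i
      · subst hk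
        have h3 : mapC (L k).subtype (X k) (πf k (q c)) = mapC (L k).subtype (X k) ε *
            mapC (L k).subtype (X k) (extW (⟨c, hcL⟩ : L k) (θf k ⟨c, hcL⟩)) *
            (mapC (L k).subtype (X k) ε)⁻¹ := by
          rw [← map_inv, ← map_mul, ← map_mul]
          exact congrArg (mapC (L k).subtype (X k)) h1
        have e3 : mapC (L k).subtype (X k) (extW (⟨c, hcL⟩ : L k) (θf k ⟨c, hcL⟩)) =
            extW c (mapC (L k).subtype (Jf k) (θf k ⟨c, hcL⟩)) := mapC_extW _ _ _ _
        rw [e3] at h3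
        rw [Pi.mul_apply, Pi.mul_apply, Pi.inv_apply, hvi, hE0i]
        exact h3
      · rw [Pi.mul_apply, Pi.mul_apply, Pi.inv_apply, hvk _ _ hk, hE0k _ hk]
        group
    have h4 : (if hc : c ∈ L i then θ0 ⟨c, hc⟩ else 1) = θ0 ⟨c, hcL⟩ := dif_pos hcL
    have h5 : extW c (θ0 ⟨c, hcL⟩) = reindex ei (blk X (vv ⟨c, hcL⟩)) := hθ0 ⟨c, hcL⟩
    have h6 : reindex e0 (blk X (g0 (q c))) = P * reindex ei (blk X E0) *
      reindex ei (blk X (vv ⟨c, hcL⟩)) * (P * reindex ei (blk X E0))⁻¹ := by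
      rw [hP, h2, map_mul, map_mul, map_mul, map_mul, map_inv, map_inv]
      group
    rw [← h5, ← h4] at h6
    exact h6

end Pool.Agent.W358.LR
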