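import Mathlib
import Pool.Agent.W393.LR.Stmts

set_option autoImplicit false

namespace Pool.Agent.W358.LR

open Pool.Agent.W393.LR

/-- semidirect product of functions on edges and the free group -/
@[ext] structure Pr (B : Type) where
  m : FreeGroup B × B → ZMod 2
  x : FreeGroup B

namespace Pr

variable {B : Type}

instance : Mul (Pr B) := ⟨fun a b => ⟨fun e => a.m e + b.m (a.x⁻¹ * e.1, e.2), a.x * b.x⟩⟩
instance : One (Pr B) := ⟨⟨fun _ => 0, 1⟩⟩
instance : Inv (Pr B) := ⟨fun a => ⟨fun e => - a.m (a.x * e.1, e.2), a.x⁻¹⟩⟩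

theorem mul_m (a b : Pr B) (e) : (a * b).m e = a.m e + b.m (a.x⁻¹ * e.1, e.2) := rfl
theorem mul_x (a b : Pr B) : (a * b).x = a.x * b.x := rfl
theorem one_m (e) : (1 : Pr B).m e = 0 := rfl
theorem one_x : (1 : Pr B).x = 1 := rfl
theorem inv_m (a : Pr B) (e) : (a⁻¹).m e = - a.m (a.x * e.1, e.2) := rfl
theorem inv_x (a : Pr B) : (a⁻¹).x = a.x⁻¹ := rfl

instance : Group (Pr B) :=
  Group.ofLeftAxioms
    (by
      intro a b c
      refine Pr.ext (funext fun e => ?_) (mul_assoc _ _ _)
      simp only [mul_m, mul_x, mul_inv_rev, mul_assoc, add_assoc])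
    (by
      intro a
      refine Pr.ext (funext fun e => ?_) (one_mul _)
      simp only [mul_m, one_m, one_x, inv_one, one_mul, zero_add])
    (by
      intro a
      refine Pr.ext (funext fun e => ?_) (inv_mul_cancel _)
      simp only [mul_m, inv_m, inv_x, one_m, inv_inv]
      exact neg_add_cancel _)

/-- projection to the free group -/
def px : Pr B →* FreeGroup B where
  toFun := Pr.x
  map_one' := rfl
  map_mul' _ _ := rfl

end Pr

section
variable {B : Type}

open scoped Classical in
/-- the lift -/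
noncomputable def phi : FreeGroup B →* Pr B :=
  FreeGroup.lift fun b => ⟨Pi.single (1, b) 1, FreeGroup.of b⟩

theorem phi_x (n : FreeGroup B) : (phi n).x = n := by
  have h : (Pr.px.comp phi : FreeGroup B →* FreeGroup B) = MonoidHom.id _ := by
    apply FreeGroup.ext_hom
    intro b
    simp [phi, Pr.px]
  exact DFunLike.congr_fun h n

/-- the derivation -/
noncomputable def dd (n : FreeGroup B) (e : FreeGroup B × B) : ZMod 2 := (phi n).m e

theorem dd_mul (x y : FreeGroup B) (e) : dd (x * y) e = dd x e + dd y (x⁻¹ * e.1, e.2) := by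
  unfold dd
  rw [map_mul, Pr.mul_m, phi_x]

theorem dd_one (e : FreeGroup B × B) : dd 1 e = 0 := by
  unfold dd; rw [map_one]; rfl

open scoped Classical in
theorem dd_of (b : B) (e : FreeGroup B × B) :
    dd (FreeGroup.of b) e = if e = (1, b) then 1 else 0 := by
  unfold dd phi
  rw [FreeGroup.lift_apply_of]
  exact Pi.single_apply _ _ _

/-- the set of edges -/
def DD (n : FreeGroup B) : Set (FreeGroup B × B) := {e | dd n e ≠ 0}

theorem zmod_aux : ∀ a b : ZMod 2, a + b ≠ 0 ↔ ¬ (a ≠ 0 ↔ b ≠ 0) := by decide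

theorem DD_mul (x y : FreeGroup B) (e) :
    e ∈ DD (x * y) ↔ ¬ (e ∈ DD x ↔ (x⁻¹ * e.1, e.2) ∈ DD y) := by
  simp only [DD, Set.mem_ofPred_eq, dd_mul]
  exact zmod_aux _ _

/-- translation of edges -/
def tre (x : FreeGroup B) : FreeGroup B × B ≃ FreeGroup B × B where
  toFun e := (x * e.1, e.2)
  invFun e := (x⁻¹ * e.1, e.2)
  left_inv e := by simp
  right_inv e := by simp

theorem DD_inv (x : FreeGroup B) (e) : dd (x⁻¹) e = dd x (x * e.1, e.2) := by
  have h := dd_mul (x⁻¹) x e
  rw [inv_mul_cancel, dd_one, inv_inv] at h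
  have aux : ∀ a b : ZMod 2, 0 = a + b → a = b := by decide
  exact aux _ _ h

theorem DD_finite (n : FreeGroup B) : (DD n).Finite := by
  classical
  induction n using FreeGroup.induction_on with
  | C1 =>
    have : DD (1 : FreeGroup B) = ∅ := by
      ext e; simp [DD, dd_one]
    rw [this]; exact Set.finite_empty
  | of b =>
    refine (Set.finite_singleton ((1 : FreeGroup B), b)).subset fun e he => ?_
    by_contra hcon
    apply he
    rw [dd_of, if_neg (fun h => hcon (Set.mem_singleton_iff.2 h))]
  | inv_of b ih =>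
    have : DD ((FreeGroup.of b)⁻¹) = tre (FreeGroup.of b) ⁻¹' DD (FreeGroup.of b) := by
      ext e
      simp only [DD, Set.mem_ofPred_eq, DD_inv, Set.mem_preimage, tre, Equiv.coe_fn_mk]
    exact this ▸ ih.preimage (tre _).injective.injOn
  | mul x y hx hy =>
    have h2 : (tre (x⁻¹) ⁻¹' DD y).Finite := hy.preimage (tre _).injective.injOn
    refine (hx.union h2).subset fun e he => ?_
    by_contra hcon
    apply he
    have h3 : dd x e = 0 := by
      by_contra h; exact hcon (Or.inl h)
    have h4 : dd y (x⁻¹ * e.1, e.2) = 0 := by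
      by_contra h; exact hcon (Or.inr h)
    rw [dd_mul, h3, h4, add_zero]

open scoped Classical in
/-- indicator mod 2 -/
noncomputable def io (A : Set (FreeGroup B)) (x : FreeGroup B) : ZMod 2 := if x ∈ A then 1 else 0

/-- boundary mod 2 -/
noncomputable def de (A : Set (FreeGroup B)) (e : FreeGroup B × B) : ZMod 2 :=
  io A e.1 + io A (e.1 * FreeGroup.of e.2)

theorem supp_fin (n : FreeGroup B) (A : Set (FreeGroup B)) :
    (Function.support fun e => dd n e * de A e).Finite :=
  (DD_finite n).subset fun e he => by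
    intro h
    apply he
    change dd n e * de A e = 0
    rw [h, zero_mul]

theorem sum_mul (x y : FreeGroup B) (A : Set (FreeGroup B)) :
    ∑ᶠ e, dd (x * y) e * de A e = ∑ᶠ e, dd x e * de A e +
      ∑ᶠ e, dd y e * de {z | x * z ∈ A} e := by
  have h1 : ∀ e, dd (x * y) e * de A e = dd x e * de A e + dd y (x⁻¹ * e.1, e.2) * de A e := by
    intro e; rw [dd_mul, add_mul]
  rw [finsum_congr h1]
  have e1 : ∀ e : FreeGroup B × B, de {z | x * z ∈ A} e = de A (x * e.1, e.2) := by
    intro e
    unfold de io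
    simp only [Set.mem_ofPred_eq]
    rw [mul_assoc]
  have h2 : ∑ᶠ e, dd y (x⁻¹ * e.1, e.2) * de A e = ∑ᶠ e, dd y e * de {z | x * z ∈ A} e := by
    rw [← finsum_comp_equiv (tre x)]
    refine finsum_congr fun e => ?_
    rw [e1]
    simp [tre]
  have h3 : (Function.support fun e : FreeGroup B × B => dd y (x⁻¹ * e.1, e.2) * de A e).Finite := by
    have h4 : (tre (x⁻¹) ⁻¹' DD y).Finite := (DD_finite y).preimage (tre _).injective.injOn
    refine h4.subset fun e he => ?_
    intro h
    apply he
    change dd y (x⁻¹ * e.1, e.2) * de A e = 0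
    have h5 : dd y (x⁻¹ * e.1, e.2) = 0 := h
    rw [h5, zero_mul]
  rw [finsum_add_distrib (supp_fin x A) h3, h2]

theorem par (n : FreeGroup B) : ∀ A : Set (FreeGroup B),
    ∑ᶠ e, dd n e * de A e = io A 1 + io A n := by
  classical
  have two : ∀ a : ZMod 2, a + a = 0 := by decide
  induction n using FreeGroup.induction_on with
  | C1 =>
    intro A
    rw [two]
    refine finsum_eq_zero_of_forall_eq_zero fun e => ?_
    rw [dd_one, zero_mul]
  | of b =>
    intro A
    rw [finsum_eq_single _ ((1 : FreeGroup B), b)]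
    · rw [dd_of, if_pos rfl, one_mul]
      unfold de
      rw [one_mul]
    · intro e he
      rw [dd_of, if_neg he, zero_mul]
  | inv_of b ih =>
    intro A
    have h1 := sum_mul (FreeGroup.of b) ((FreeGroup.of b)⁻¹) {z | (FreeGroup.of b)⁻¹ * z ∈ A}
    have h2 : {z | (FreeGroup.of b) * z ∈ {z | (FreeGroup.of b)⁻¹ * z ∈ A}} = A := by
      ext z; simp
    rw [h2, mul_inv_cancel] at h1
    have h3 : ∑ᶠ e, dd (1 : FreeGroup B) e * de {z | (FreeGroup.of b)⁻¹ * z ∈ A} e = 0 := by
      refine finsum_eq_zero_of_forall_eq_zero fun e => ?_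
      rw [dd_one, zero_mul]
    have h4 := ih {z | (FreeGroup.of b)⁻¹ * z ∈ A}
    change ∑ᶠ e, dd (FreeGroup.of b) e * _ = io _ 1 + io _ (FreeGroup.of b) at h4
    rw [h3, h4] at h1
    have h5 : io {z | (FreeGroup.of b)⁻¹ * z ∈ A} 1 = io A ((FreeGroup.of b)⁻¹) := by
      unfold io; simp
    have h6 : io {z | (FreeGroup.of b)⁻¹ * z ∈ A} (FreeGroup.of b) = io A 1 := by
      unfold io; simp
    rw [h5, h6] at h1
    have aux : ∀ a b c : ZMod 2, 0 = a + b + c → c = b + a := by decide
    exact aux _ _ _ h1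
  | mul x y hx hy =>
    intro A
    rw [sum_mul, hx, hy]
    have h5 : io {z | x * z ∈ A} 1 = io A x := by
      unfold io; simp
    have h6 : io {z | x * z ∈ A} y = io A (x * y) := by
      unfold io; simp
    rw [h5, h6]
    have aux : ∀ a b c : ZMod 2, a + b + (b + c) = a + c := by decide
    exact aux _ _ _

end

theorem fgd : S_FGD := by
  classical
  intro B
  refine ⟨DD, DD_finite, DD_mul, ?_, ?_⟩
  · intro b
    ext e
    simp only [DD, Set.mem_ofPred_eq, dd_of, Set.mem_singleton_iff]
    by_cases h : e = (1, b) <;> simp [h]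
  · intro A n h
    have h1 := par n A
    have h2 : ∑ᶠ e, dd n e * de A e = 0 := by
      refine finsum_eq_zero_of_forall_eq_zero fun e => ?_
      by_cases he : dd n e = 0
      · rw [he, zero_mul]
      · have h3 := h e he
        have h4 : de A e = 0 := by
          unfold de io
          by_cases h5 : e.1 ∈ A
          · rw [if_pos h5, if_pos (h3.1 h5)]; decide
          · rw [if_neg h5, if_neg (fun h6 => h5 (h3.2 h6))]; decide
        rw [h4, mul_zero]
    rw [h2] at h1
    have aux : ∀ a b : ZMod 2, 0 = a + b → a = b := by decide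
    have h7 := aux _ _ h1
    unfold io at h7
    by_cases h8 : (1 : FreeGroup B) ∈ A
    · by_cases h9 : n ∈ A
      · exact ⟨fun _ => h9, fun _ => h8⟩
      · rw [if_pos h8, if_neg h9] at h7; exact absurd h7 (by decide)
    · by_cases h9 : n ∈ A
      · rw [if_neg h8, if_pos h9] at h7; exact absurd h7 (by decide)
      · exact ⟨fun h => absurd h h8, fun h => absurd h h9⟩

end Pool.Agent.W358.LR
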