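import Mathlib
import Pool.Agent.W393.LR.Stmts
import Pool.Agent.W358.LRFgd

set_option autoImplicit false

namespace Pool.Agent.W358.LR

open Pool.Agent.W393.LR

theorem res : S_RES := by
  classical
  intro G G' _ _ f Z hf hS
  obtain ⟨I, U, hfin, hker⟩ := hS
  refine ⟨I × (G ⧸ f.range), fun p => {s | p.2.out * f s ∈ U p.1}, ?_, ?_⟩
  · intro g
    have h1 := hfin (f g)
    let ψ : G' × (I × (G ⧸ f.range)) → G × I := fun p => (p.2.2.out * f p.1, p.2.1)
    have hψ : Function.Injective ψ := by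
      rintro ⟨s, i, c⟩ ⟨s', i', c'⟩ h
      simp only [ψ, Prod.mk.injEq] at h
      obtain ⟨h1, rfl⟩ := h
      have h2 : c = c' := by
        have e1 : ((c.out * f s : G) : G ⧸ f.range) = c := by
          have hm : f s ∈ f.range := ⟨s, rfl⟩
          rw [QuotientGroup.mk_mul_of_mem _ hm]
          exact Quotient.out_eq c
        have e2 : ((c'.out * f s' : G) : G ⧸ f.range) = c' := by
          have hm : f s' ∈ f.range := ⟨s', rfl⟩
          rw [QuotientGroup.mk_mul_of_mem _ hm]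
          exact Quotient.out_eq c'
        rw [← e1, ← e2, h1]
      subst h2
      have h3 : s = s' := hf (mul_left_cancel h1)
      rw [h3]
    refine (h1.preimage hψ.injOn).subset ?_
    rintro ⟨s, i, c⟩ h
    simp only [Set.mem_ofPred_eq, map_mul] at h
    simp only [Set.mem_preimage, Set.mem_ofPred_eq, ψ]
    rw [mul_assoc]
    exact h
  · intro g
    rw [Subgroup.mem_comap, hker]
    constructor
    · rintro h ⟨i, c⟩ s
      have := h i (c.out * f s)
      simp only [Set.mem_ofPred_eq, map_mul]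
      rw [← mul_assoc]
      exact this
    · intro h i x
      obtain ⟨s, hs⟩ : ∃ s, x = (x : G ⧸ f.range).out * f s := by
        have h1 : (((x : G ⧸ f.range).out : G) : G ⧸ f.range) = (x : G ⧸ f.range) :=
          Quotient.out_eq _
        obtain ⟨s, hs⟩ := QuotientGroup.eq.1 h1
        exact ⟨s, by rw [hs]; group⟩
      have := h (i, (x : G ⧸ f.range)) s
      simp only [Set.mem_ofPred_eq, map_mul] at this
      rw [← mul_assoc, ← hs] at this
      exact this

section lift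

variable {G : Type} [Group G] (N : Subgroup G) [hN : N.Normal] (t : G ⧸ N → G)
  (ht : ∀ q : G ⧸ N, ((t q : G) : G ⧸ N) = q)

/-- lift of sets from `N` to `G` -/
def Lf (V : Set N) : Set G := {x | ∃ n : N, n ∈ V ∧ x = n * t (x : G ⧸ N)}

include ht in
theorem mk_nt (n : N) (q : G ⧸ N) : (((n : G) * t q : G) : G ⧸ N) = q := by
  rw [QuotientGroup.mk_mul, ht, (QuotientGroup.eq_one_iff (n : G)).2 n.2, one_mul]

include ht in
theorem mem_Lf (V : Set N) (n : N) (q : G ⧸ N) : ((n : G) * t q) ∈ Lf N t V ↔ n ∈ V := by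
  unfold Lf
  rw [Set.mem_ofPred_eq, mk_nt N t ht]
  constructor
  · rintro ⟨n', h1, h2⟩
    have : (n : G) = n' := mul_right_cancel h2
    rwa [Subtype.ext this]
  · intro h
    exact ⟨n, h, rfl⟩

include ht in
theorem rep (x : G) : ∃ n : N, x = n * t (x : G ⧸ N) := by
  refine ⟨⟨x * (t (x : G ⧸ N))⁻¹, ?_⟩, by simp⟩
  rw [← QuotientGroup.eq_one_iff, QuotientGroup.mk_mul, QuotientGroup.mk_inv, ht, mul_inv_cancel]

include ht in
theorem Lf_fin [N.FiniteIndex] {I : Type} (U : I → Set N)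
    (hU : ∀ g : N, {p : N × I | ¬ (p.1 ∈ U p.2 ↔ p.1 * g ∈ U p.2)}.Finite) (g : G) :
    {p : G × I | ¬ (p.1 ∈ Lf N t (U p.2) ↔ p.1 * g ∈ Lf N t (U p.2))}.Finite := by
  classical
  have hn : ∀ q : G ⧸ N, t q * g * (t (q * (g : G ⧸ N)))⁻¹ ∈ N := by
    intro q
    rw [← QuotientGroup.eq_one_iff, QuotientGroup.mk_mul, QuotientGroup.mk_mul, QuotientGroup.mk_inv,
      ht, ht, mul_inv_cancel]
  have hfinU : (⋃ q : G ⧸ N, (fun p : N × I => ((p.1 : G) * t q, p.2)) ''
      {p : N × I | ¬ (p.1 ∈ U p.2 ↔ p.1 * ⟨_, hn q⟩ ∈ U p.2)}).Finite :=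
    Set.finite_iUnion fun q => (hU ⟨_, hn q⟩).image _
  refine hfinU.subset ?_
  rintro ⟨x, i⟩ h
  obtain ⟨n, hx⟩ := rep N t ht x
  rw [Set.mem_iUnion]
  refine ⟨(x : G ⧸ N), (n, i), ?_, Prod.ext hx.symm rfl⟩
  simp only [Set.mem_ofPred_eq] at h ⊢
  intro hcon
  apply h
  set q : G ⧸ N := (x : G ⧸ N) with hq
  have e1 : x * g = ((n * ⟨_, hn q⟩ : N) : G) * t (q * (g : G ⧸ N)) := by
    rw [Subgroup.coe_mul]
    change x * g = (n : G) * (t q * g * (t (q * (g : G ⧸ N)))⁻¹) * t (q * (g : G ⧸ N))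
    conv_lhs => rw [hx]
    group
  rw [e1, mem_Lf N t ht]
  conv_lhs => rw [hx]
  rw [mem_Lf N t ht]
  exact hcon

end lift

theorem coind : S_COIND := by
  classical
  intro G _ N Z hN hfi hsup hS
  obtain ⟨I, U, hfin, hker⟩ := hS
  have hex : ∀ q : G ⧸ N, ∃ z : G, z ∈ Z ∧ (z : G ⧸ N) = q := by
    intro q
    obtain ⟨x, rfl⟩ := QuotientGroup.mk_surjective q
    have hx : x ∈ N ⊔ Z := by rw [hsup]; exact Subgroup.mem_top _
    obtain ⟨n, hn, z, hz, rfl⟩ := Subgroup.mem_sup_of_normal_left.1 hx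
    refine ⟨z, hz, ?_⟩
    rw [QuotientGroup.mk_mul, (QuotientGroup.eq_one_iff n).2 hn, one_mul]
  choose t htZ ht using hex
  have hUz : ∀ (i : I) (n n' : N), ((n : G)⁻¹ * n' ∈ Z) → (n ∈ U i ↔ n' ∈ U i) := by
    intro i n n' h
    have h1 : (n⁻¹ * n') ∈ Z.subgroupOf N := by
      rw [Subgroup.mem_subgroupOf]; exact h
    have h2 := (hker (n⁻¹ * n')).1 h1 i n
    rw [mul_inv_cancel_left] at h2
    exact h2
  have key : ∀ (i : I) (n : N) (z : G), z ∈ Z → (((n : G) * z) ∈ Lf N t (U i) ↔ n ∈ U i) := by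
    intro i n z hz
    obtain ⟨n', hn'⟩ := rep N t ht ((n : G) * z)
    rw [hn', mem_Lf N t ht]
    apply hUz
    have h1 : (n' : G)⁻¹ * n = t (((n : G) * z : G) : G ⧸ N) * z⁻¹ := by
      rw [inv_mul_eq_iff_eq_mul, ← mul_assoc, ← hn']; group
    rw [h1]
    exact Z.mul_mem (htZ _) (Z.inv_mem hz)
  refine ⟨I, fun i => Lf N t (U i), Lf_fin N t ht U hfin, ?_⟩
  intro g
  constructor
  · intro hg i x
    obtain ⟨n, hn⟩ := rep N t ht x
    have h1 := key i n _ (htZ (x : G ⧸ N))
    have h2 := key i n (t (x : G ⧸ N) * g) (Z.mul_mem (htZ _) hg)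
    rw [← hn] at h1
    rw [← mul_assoc, ← hn] at h2
    rw [h1, h2]
  · intro h
    obtain ⟨n0, hn0⟩ := rep N t ht g
    have h1 : n0 ∈ Z.subgroupOf N := by
      rw [hker]
      intro i n
      have h2 := h i (n : G)
      have h3 := key i n 1 Z.one_mem
      rw [mul_one] at h3
      have h4 := key i (n * n0) (t (g : G ⧸ N)) (htZ _)
      rw [Subgroup.coe_mul, mul_assoc, ← hn0] at h4
      rw [← h3, ← h4]
      exact h2
    rw [hn0]
    exact Z.mul_mem (Subgroup.mem_subgroupOf.1 h1) (htZ _)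

theorem cut (hD : S_FGD) : S_CUT := by
  classical
  intro G _ N hN hfi hfree hne
  obtain ⟨D, hDf, hDm, hDo, -⟩ := hD (IsFreeGroup.Generators N)
  let φ : N ≃* FreeGroup (IsFreeGroup.Generators N) := IsFreeGroup.toFreeGroup N
  have hB : Nonempty (IsFreeGroup.Generators N) := by
    by_contra hcon
    rw [not_nonempty_iff] at hcon
    apply hne
    rw [eq_bot_iff]
    intro x hx
    have h1 : φ ⟨x, hx⟩ = φ 1 := Subsingleton.elim _ _
    have h2 := φ.injective h1
    exact congrArg Subtype.val h2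
  obtain ⟨b⟩ := hB
  let β : FreeGroup (IsFreeGroup.Generators N) := FreeGroup.of b
  have hβ : ∀ k l : ℤ, β ^ k = β ^ l → k = l := by
    intro k l h
    have h1 := congrArg (FreeGroup.lift (fun _ : IsFreeGroup.Generators N =>
      Multiplicative.ofAdd (1 : ℤ))) h
    simp only [β, map_zpow, FreeGroup.lift_apply_of] at h1
    have h2 := congrArg Multiplicative.toAdd h1
    simpa using h2
  set U : Set N := {n | ((1 : FreeGroup (IsFreeGroup.Generators N)), b) ∈ D (φ n)} with hU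
  have hUfin : ∀ g : N, {p : N × Unit | ¬ (p.1 ∈ U ↔ p.1 * g ∈ U)}.Finite := by
    intro g
    let ψ : N × Unit → FreeGroup (IsFreeGroup.Generators N) × IsFreeGroup.Generators N :=
      fun p => ((φ p.1)⁻¹ * 1, b)
    have hψ : Function.Injective ψ := by
      rintro ⟨n, _⟩ ⟨n', _⟩ h
      have h1 := congrArg Prod.fst h
      simp only [ψ, mul_one, inv_inj] at h1
      rw [φ.injective h1]
    refine ((hDf (φ g)).preimage hψ.injOn).subset ?_
    rintro ⟨n, _⟩ h
    simp only [hU, Set.mem_ofPred_eq, map_mul] at h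
    simp only [Set.mem_preimage, ψ]
    have h1 := hDm (φ n) (φ g) (1, b)
    tauto
  obtain ⟨t, ht⟩ : ∃ t : G ⧸ N → G, ∀ q : G ⧸ N, ((t q : G) : G ⧸ N) = q :=
    ⟨fun q => q.out, fun q => Quotient.out_eq q⟩
  have hD1 : ∀ e, e ∉ D 1 := by
    intro e he
    have h1 := hDm 1 1 e
    rw [one_mul, inv_one, one_mul] at h1
    exact (h1.1 he) Iff.rfl
  have hDinv : ∀ y, (y, b) ∈ D β⁻¹ ↔ y = β⁻¹ := by
    intro y
    have h1 := hDm β β⁻¹ (β * y, b)
    rw [mul_inv_cancel, inv_mul_cancel_left] at h1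
    have h2 : ((β * y, b) ∈ D β) ↔ (y = β⁻¹) := by
      rw [hDo b, Set.mem_singleton_iff, Prod.mk.injEq]
      constructor
      · intro h; exact eq_inv_of_mul_eq_one_right h.1
      · intro h; rw [h]; simp
    have h3 := hD1 (β * y, b)
    tauto
  have hpos : ∀ k : ℕ, ((1 : FreeGroup (IsFreeGroup.Generators N)), b) ∈ D (β ^ (k + 1)) := by
    intro k
    induction k with
    | zero => rw [zero_add, pow_one, hDo b]; rfl
    | succ k ih =>
      rw [pow_succ, hDm]
      intro hcon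
      have h1 := hcon.1 ih
      rw [hDo b, Set.mem_singleton_iff, Prod.mk.injEq, mul_one] at h1
      have h2 : β ^ (0 : ℤ) = β ^ ((k + 1 : ℕ) : ℤ) := by
        rw [zpow_zero, zpow_natCast]
        exact (inv_eq_one.1 h1.1).symm
      have := hβ _ _ h2
      push_cast at this
      omega
  have hneg : ∀ k : ℕ, ((1 : FreeGroup (IsFreeGroup.Generators N)), b) ∉ D (β⁻¹ ^ k) := by
    intro k
    induction k with
    | zero => rw [pow_zero]; exact hD1 _
    | succ k ih =>
      rw [pow_succ, hDm]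
      intro hcon
      apply hcon
      refine ⟨fun h => absurd h ih, fun h => ?_⟩
      rw [mul_one, hDinv] at h
      exfalso
      have h2 : β ^ (k : ℤ) = β ^ (-1 : ℤ) := by
        rw [zpow_natCast, zpow_neg_one, ← h, inv_pow, inv_inv]
      have := hβ _ _ h2
      omega
  refine ⟨Lf N t U, ?_, ?_, ?_⟩
  · intro g
    have h1 := Lf_fin N t ht (fun _ : Unit => U) hUfin g
    have h2 : Function.Injective (fun x : G => (x, ())) := fun x y h => congrArg Prod.fst h
    exact h1.preimage h2.injOn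
  · refine Set.infinite_of_injective_forall_mem
      (f := fun k : ℕ => ((φ.symm (β ^ (k + 1)) : N) : G) * t 1) ?_ ?_
    · intro k l h
      have h1 : ((φ.symm (β ^ (k + 1)) : N) : G) = (φ.symm (β ^ (l + 1)) : N) := mul_right_cancel h
      have h2 := φ.symm.injective (Subtype.ext h1)
      have h3 := hβ ((k + 1 : ℕ) : ℤ) ((l + 1 : ℕ) : ℤ) (by rw [zpow_natCast, zpow_natCast]; exact h2)
      push_cast at h3
      omega
    · intro k
      rw [mem_Lf N t ht, hU, Set.mem_ofPred_eq, MulEquiv.apply_symm_apply]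
      exact hpos k
  · refine Set.infinite_of_injective_forall_mem
      (f := fun k : ℕ => ((φ.symm (β⁻¹ ^ k) : N) : G) * t 1) ?_ ?_
    · intro k l h
      have h1 : ((φ.symm (β⁻¹ ^ k) : N) : G) = (φ.symm (β⁻¹ ^ l) : N) := mul_right_cancel h
      have h2 := φ.symm.injective (Subtype.ext h1)
      rw [inv_pow, inv_pow, inv_inj] at h2
      have h3 := hβ ((k : ℕ) : ℤ) ((l : ℕ) : ℤ) (by rw [zpow_natCast, zpow_natCast]; exact h2)
      omega
    · intro k
      rw [Set.mem_compl_iff, mem_Lf N t ht, hU, Set.mem_ofPred_eq, MulEquiv.apply_symm_apply]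
      exact hneg k

end Pool.Agent.W358.LR
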