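import Mathlib
import Pool.Agent.W744.SF.Stubs

set_option autoImplicit false

namespace Pool.Agent.W358.SFC

open Finset Pool.Agent.W744.SF Pool.H359R3.WH

theorem rank_equiv {X : Type} [Fintype X] (N : ℕ) (hN : Fintype.card X = N) (K : X → ℕ)
    (hK : Function.Injective K) : ∃ e : X ≃ Fin N, ∀ x y, K x < K y →
      (∀ z, ¬ (K x < K z ∧ K z < K y)) → (e y : ℕ) = (e x : ℕ) + 1 := by
  classical
  let rk : X → ℕ := fun x => (univ.filter fun y => K y < K x).card
  have hlt : ∀ x, rk x < N := by
    intro x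
    rw [← hN]
    refine Finset.card_lt_univ_of_notMem (x := x) ?_
    simp
  have hmono : ∀ x y, K x < K y → rk x < rk y := by
    intro x y h
    refine Finset.card_lt_card ?_
    rw [Finset.ssubset_iff_of_subset]
    · exact ⟨x, by simp [h], by simp⟩
    · intro z hz
      simp only [mem_filter, mem_univ, true_and] at hz ⊢
      omega
  have hinj : Function.Injective (fun x => (⟨rk x, hlt x⟩ : Fin N)) := by
    intro x y h
    have h1 : rk x = rk y := congrArg Fin.val h
    rcases lt_trichotomy (K x) (K y) with h2 | h2 | h2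
    · exact absurd (hmono _ _ h2) (by omega)
    · exact hK h2
    · exact absurd (hmono _ _ h2) (by omega)
  have hbij : Function.Bijective (fun x => (⟨rk x, hlt x⟩ : Fin N)) := by
    rw [Fintype.bijective_iff_injective_and_card]
    exact ⟨hinj, by rw [hN, Fintype.card_fin]⟩
  refine ⟨Equiv.ofBijective _ hbij, fun x y h1 h2 => ?_⟩
  change rk y = rk x + 1
  have h3 : (univ.filter fun z => K z < K y) = insert x (univ.filter fun z => K z < K x) := by
    ext z
    simp only [mem_filter, mem_univ, true_and, mem_insert]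
    constructor
    · intro hz
      by_cases hzx : z = x
      · exact Or.inl hzx
      · right
        have h4 := h2 z
        have h5 : K z ≠ K x := fun h => hzx (hK h)
        omega
    · rintro (rfl | hz)
      · exact h1
      · omega
  change (univ.filter fun z => K z < K y).card = _
  rw [h3, Finset.card_insert_of_notMem (by simp)]

theorem finRotate_val (N : ℕ) (x y : Fin N) (h : y.val = x.val + 1) : finRotate N x = y := by
  cases N with
  | zero => exact x.elim0
  | succ N =>
    have h1 : x.val < N := by have := y.isLt; omega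
    have h2 := finRotate_of_lt h1
    apply Fin.ext
    rw [h]
    have h3 : x = ⟨x.val, h1.trans_le N.le_succ⟩ := rfl
    rw [h3, h2]

theorem main : S_Cyc := by
  classical
  intro n _ σ m hm
  -- representatives and positions
  have hex : ∀ a : Fin n, ∃ b : ℕ, ∃ hb : b < n, ∃ t : ℕ, (σ ^ t) ⟨b, hb⟩ = a := fun a =>
    ⟨a.val, a.isLt, 0, rfl⟩
  let R : Fin n → ℕ := fun a => Nat.find (hex a)
  have hR : ∀ a, ∃ hb : R a < n, ∃ t : ℕ, (σ ^ t) ⟨R a, hb⟩ = a := fun a => Nat.find_spec (hex a)
  have hRmin : ∀ a (b : ℕ) (hb : b < n), (∃ t : ℕ, (σ ^ t) ⟨b, hb⟩ = a) → R a ≤ b :=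
    fun a b hb h => Nat.find_min' (hex a) ⟨hb, h⟩
  have hRn : ∀ a, R a < n := fun a => (hR a).choose
  let ρ : Fin n → Fin n := fun a => ⟨R a, hRn a⟩
  have hρ : ∀ a, ∃ t : ℕ, (σ ^ t) (ρ a) = a := fun a => (hR a).choose_spec
  let p : Fin n → ℕ := fun a => Nat.find (hρ a)
  have hp : ∀ a, (σ ^ (p a)) (ρ a) = a := fun a => Nat.find_spec (hρ a)
  have hpmin : ∀ a t, (σ ^ t) (ρ a) = a → p a ≤ t := fun a t h => Nat.find_min' (hρ a) h
  have hord : 0 < orderOf σ := orderOf_pos σ
  have hRσ : ∀ a, R (σ a) = R a := by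
    intro a
    apply le_antisymm
    · refine hRmin (σ a) (R a) (hRn a) ⟨p a + 1, ?_⟩
      rw [pow_succ', Equiv.Perm.mul_apply]
      exact congrArg σ (hp a)
    · refine hRmin a (R (σ a)) (hRn _) ⟨(orderOf σ - 1) + p (σ a), ?_⟩
      rw [pow_add, Equiv.Perm.mul_apply]
      have h1 : (σ ^ p (σ a)) ⟨R (σ a), hRn _⟩ = σ a := hp (σ a)
      rw [h1, ← Equiv.Perm.mul_apply, ← pow_succ, Nat.sub_add_cancel hord, pow_orderOf_eq_one]
      rfl
  have hρσ : ∀ a, ρ (σ a) = ρ a := fun a => Fin.ext (hRσ a)
  have hA : ∀ a, σ a ≠ ρ a → p (σ a) = p a + 1 := by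
    intro a ha
    apply le_antisymm
    · refine hpmin (σ a) _ ?_
      rw [hρσ, pow_succ', Equiv.Perm.mul_apply, hp]
    · have h0 : p (σ a) ≠ 0 := by
        intro h
        have h1 := hp (σ a)
        rw [h, pow_zero, hρσ] at h1
        exact ha h1.symm
      obtain ⟨t, ht⟩ := Nat.exists_eq_succ_of_ne_zero h0
      have h1 := hp (σ a)
      rw [ht, Nat.succ_eq_add_one, pow_succ', Equiv.Perm.mul_apply, hρσ] at h1
      have h2 := hpmin a t (σ.injective h1)
      omega
  have hB : ∀ a b, σ a = ρ a → R b = R a → p b ≤ p a := by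
    intro a b ha hb
    have hρb : ρ b = ρ a := Fin.ext hb
    by_contra hcon
    push Not at hcon
    have h1 : (σ ^ (p a + 1)) (ρ a) = ρ a := by
      rw [pow_succ', Equiv.Perm.mul_apply, hp, ha]
    have h2 : (σ ^ (p b - (p a + 1))) (ρ b) = b := by
      conv_rhs => rw [← hp b]
      have h3 : p b = (p b - (p a + 1)) + (p a + 1) := by omega
      conv_rhs => rw [h3]
      rw [pow_add, Equiv.Perm.mul_apply, hρb, h1]
    have h3 := hpmin b _ h2
    omega
  let B : ℕ := ∑ a, p a + 1
  have hpB : ∀ a, p a < B := fun a =>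
    Nat.lt_succ_of_le (Finset.single_le_sum (fun _ _ => Nat.zero_le _) (mem_univ a))
  let K : Fin n × Fin m → ℕ := fun x => (R x.1 * m + x.2.val) * B + p x.1
  have hBpos : 0 < B := Nat.succ_pos _
  have hKdiv : ∀ x, K x / B = R x.1 * m + x.2.val := by
    intro x
    change ((R x.1 * m + x.2.val) * B + p x.1) / B = _
    rw [Nat.add_comm, Nat.add_mul_div_right _ _ hBpos, Nat.div_eq_of_lt (hpB _), zero_add]
  have hKmod : ∀ x, K x % B = p x.1 := by
    intro x
    change ((R x.1 * m + x.2.val) * B + p x.1) % B = _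
    rw [Nat.add_comm, Nat.add_mul_mod_self_right, Nat.mod_eq_of_lt (hpB _)]
  have hdm : ∀ (R1 R2 r1 r2 : ℕ), r1 < m → r2 < m → R1 * m + r1 = R2 * m + r2 → R1 = R2 ∧ r1 = r2 := by
    intro R1 R2 r1 r2 h1 h2 h
    have e1 : (R1 * m + r1) / m = R1 := by
      rw [Nat.add_comm, Nat.add_mul_div_right _ _ hm, Nat.div_eq_of_lt h1, zero_add]
    have e2 : (R2 * m + r2) / m = R2 := by
      rw [Nat.add_comm, Nat.add_mul_div_right _ _ hm, Nat.div_eq_of_lt h2, zero_add]
    have e3 : R1 = R2 := by rw [← e1, ← e2, h]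
    subst e3
    exact ⟨rfl, by omega⟩
  have hK : Function.Injective K := by
    intro x y h
    have h1 := hKdiv x
    rw [h, hKdiv y] at h1
    have h2 := hKmod x
    rw [h, hKmod y] at h2
    obtain ⟨h3, h4⟩ := hdm _ _ _ _ y.2.isLt x.2.isLt h1
    refine Prod.ext ?_ (Fin.ext h4.symm)
    rw [← hp x.1, ← hp y.1, h2]
    congr 1
    exact Fin.ext h3.symm
  obtain ⟨e, he⟩ := rank_equiv (n * m) (by rw [Fintype.card_prod, Fintype.card_fin, Fintype.card_fin]) K hK
  refine ⟨(finProdFinEquiv (m := n) (n := m)).symm.trans e, ?_⟩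
  have key : ∀ (z : Fin (n * m)), z.val % m ≠ m - 1 →
      (((((finProdFinEquiv (m := n) (n := m)).symm.trans e)⁻¹ (finRotate (n * m)
        (((finProdFinEquiv (m := n) (n := m)).symm.trans e) z)) : Fin (n * m)) : ℕ) / m =
          (σ (Fin.ofNat n ((z : ℕ) / m)) : ℕ)) := by
    intro z hz
    obtain ⟨⟨a, r⟩, rfl⟩ := (finProdFinEquiv (m := n) (n := m)).surjective z
    have hv : ((finProdFinEquiv (a, r) : Fin (n * m)) : ℕ) = r.val + m * a.val := rfl
    have hdiv : ((finProdFinEquiv (a, r) : Fin (n * m)) : ℕ) / m = a.val := by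
      rw [hv, Nat.add_mul_div_left _ _ hm, Nat.div_eq_of_lt r.isLt, zero_add]
    have hmod : ((finProdFinEquiv (a, r) : Fin (n * m)) : ℕ) % m = r.val := by
      rw [hv, Nat.add_mul_mod_self_left, Nat.mod_eq_of_lt r.isLt]
    rw [hmod] at hz
    rw [hdiv]
    have ha : Fin.ofNat n a.val = a := by
      apply Fin.ext
      simp [Fin.ofNat, Nat.mod_eq_of_lt a.isLt]
    rw [ha]
    have hr := r.isLt
    -- find the successor
    obtain ⟨r', hr'⟩ : ∃ r' : Fin m, (e (σ a, r') : ℕ) = (e (a, r) : ℕ) + 1 := by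
      by_cases hc : σ a = ρ a
      · refine ⟨⟨r.val + 1, by omega⟩, he _ _ ?_ ?_⟩
        · change (R a * m + r.val) * B + p a < (R (σ a) * m + (r.val + 1)) * B + p (σ a)
          rw [hRσ]
          have := hpB a
          nlinarith
        · rintro z ⟨h1, h2⟩
          have hp0 : p (σ a) = 0 := by
            have h3 : (σ ^ 0) (ρ (σ a)) = σ a := by rw [hρσ, hc]; rfl
            have := hpmin (σ a) 0 h3
            omega
          have h3 : R a * m + r.val ≤ K z / B := by
            have h4 := hKdiv (a, r)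
            rw [← h4]
            exact Nat.div_le_div_right h1.le
          have h4 : K z / B < R a * m + (r.val + 1) := by
            rw [Nat.div_lt_iff_lt_mul hBpos]
            have h5 : K (σ a, ⟨r.val + 1, by omega⟩) = (R a * m + (r.val + 1)) * B := by
              change (R (σ a) * m + (r.val + 1)) * B + p (σ a) = _
              rw [hRσ, hp0, add_zero]
            rw [h5] at h2
            exact h2
          have h5 : K z / B = R a * m + r.val := by omega
          rw [hKdiv] at h5
          obtain ⟨h6, h7⟩ := hdm _ _ _ _ z.2.isLt r.isLt h5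
          have h8 := hB a z.1 hc h6
          have h9 : K z = (R a * m + r.val) * B + p z.1 := by
            change (R z.1 * m + z.2.val) * B + p z.1 = _
            rw [h6, h7]
          have h10 : K (a, r) = (R a * m + r.val) * B + p a := rfl
          omega
      · have h1 : K (σ a, r) = K (a, r) + 1 := by
          change (R (σ a) * m + r.val) * B + p (σ a) = (R a * m + r.val) * B + p a + 1
          rw [hRσ, hA a hc]; ring
        refine ⟨r, he _ _ (by omega) ?_⟩
        rintro z ⟨h2, h3⟩
        omega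
    have h1 : finRotate (n * m) (e (a, r)) = e (σ a, r') := finRotate_val _ _ _ hr'
    have h2 : ((finProdFinEquiv (m := n) (n := m)).symm.trans e) (finProdFinEquiv (a, r)) = e (a, r) := by
      rw [Equiv.trans_apply, Equiv.symm_apply_apply]
    rw [h2, h1]
    have h3 : ((finProdFinEquiv (m := n) (n := m)).symm.trans e)⁻¹ (e (σ a, r')) =
        finProdFinEquiv (σ a, r') := by
      change e.symm.trans (finProdFinEquiv (m := n) (n := m)) (e (σ a, r')) = _
      rw [Equiv.trans_apply, Equiv.symm_apply_apply]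
    rw [h3]
    change (r'.val + m * (σ a).val) / m = _
    rw [Nat.add_mul_div_left _ _ hm, Nat.div_eq_of_lt r'.isLt, zero_add]
  rw [nc]
  have hcard : (univ.filter (fun z : Fin (n * m) => z.val % m = m - 1)).card ≤ n := by
    calc _ ≤ (univ.image (fun a : Fin n => finProdFinEquiv (a, (⟨m - 1, by omega⟩ : Fin m)))).card := by
          refine Finset.card_le_card fun z hz => ?_
          simp only [mem_filter, mem_univ, true_and] at hz
          obtain ⟨⟨a, r⟩, rfl⟩ := (finProdFinEquiv (m := n) (n := m)).surjective z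
          have hv : ((finProdFinEquiv (a, r) : Fin (n * m)) : ℕ) = r.val + m * a.val := rfl
          rw [hv, Nat.add_mul_mod_self_left, Nat.mod_eq_of_lt r.isLt] at hz
          refine mem_image.2 ⟨a, mem_univ _, ?_⟩
          congr 2
          exact Fin.ext hz.symm
      _ ≤ (univ : Finset (Fin n)).card := Finset.card_image_le
      _ = n := by simp
  have hsub : (univ.filter (fun z : Fin (n * m) =>
      (((((finProdFinEquiv (m := n) (n := m)).symm.trans e)⁻¹ (finRotate (n * m)
        (((finProdFinEquiv (m := n) (n := m)).symm.trans e) z)) : Fin (n * m)) : ℕ) / m ≠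
          (σ (Fin.ofNat n ((z : ℕ) / m)) : ℕ)))) ⊆
      (univ.filter (fun z : Fin (n * m) => z.val % m = m - 1)) := by
    intro z hz
    simp only [mem_filter, mem_univ, true_and] at hz ⊢
    by_contra hcon
    exact hz (key z hcon)
  have hfin := (Finset.card_le_card hsub).trans hcard
  refine le_trans (le_of_eq ?_) (Nat.cast_le.2 hfin : _ ≤ (n : ℝ))
  congr

end Pool.Agent.W358.SFC
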