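import Mathlib
import Pool.Agent.W744.SF.Stubs

set_option autoImplicit false

namespace Pool.Agent.W358.SFI

open Pool.Agent.W744.SF

theorem exp_eq_iff (x y : ℝ) (h : Complex.exp (2 * Real.pi * Complex.I * x) =
    Complex.exp (2 * Real.pi * Complex.I * y)) : Int.fract x = Int.fract y := by
  rw [Complex.exp_eq_exp_iff_exists_int] at h
  obtain ⟨n, hn⟩ := h
  have hpi : (2 * Real.pi * Complex.I : ℂ) ≠ 0 := by
    simp [Real.pi_ne_zero]
  have h1 : (x : ℂ) = y + n := by
    apply mul_left_cancel₀ hpi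
    rw [hn]; ring
  have h2 : x = y + n := by exact_mod_cast h1
  rw [h2, Int.fract_add_intCast]

theorem main : S_Interp := by
  classical
  intro F Q hQ
  let E : ℝ → ℂ := fun z => Complex.exp (2 * Real.pi * Complex.I * z)
  let r : ℂ → ℂ := fun w => if h : ∃ z ∈ F, E z = w then Q h.choose else 0
  have hr : ∀ z ∈ F, r (E z) = Q z := by
    intro z hz
    have h : ∃ z' ∈ F, E z' = E z := ⟨z, hz, rfl⟩
    simp only [r, dif_pos h]
    exact hQ _ _ (exp_eq_iff _ _ h.choose_spec.2)
  let P : Polynomial ℂ := Lagrange.interpolate (F.image E) id r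
  have hP : ∀ z ∈ F, P.eval (E z) = Q z := by
    intro z hz
    have h1 := Lagrange.eval_interpolate_at_node r (s := F.image E) (v := id)
      (Set.injOn_id _) (Finset.mem_image_of_mem E hz)
    rw [← hr z hz]
    exact h1
  refine ⟨(Finset.range (P.natDegree + 1)).image (fun n : ℕ => (n : ℤ)), fun n => P.coeff n.toNat,
    fun z hz => ?_⟩
  rw [← hP z hz, Polynomial.eval_eq_sum_range, Finset.sum_image (fun a _ b _ h => Nat.cast_injective h)]
  refine Finset.sum_congr rfl fun n _ => ?_
  change P.coeff ((n : ℤ).toNat) * _ = _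
  rw [Int.toNat_natCast]
  congr 1
  simp only [E]
  rw [← Complex.exp_nat_mul]
  congr 1
  push_cast
  ring

end Pool.Agent.W358.SFI
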