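import Mathlib
import Pool.Agent.W744.SF.Stubs

set_option autoImplicit false
set_option linter.unusedSectionVars false

namespace Pool.Agent.W358.SFT

open MeasureTheory Finset Pool.Agent.W744.SF

variable {X : Type} [MeasurableSpace X] {μ : Measure X} [IsProbabilityMeasure μ] {k : ℕ}

theorem ten_memLp (f : Fin k → X → ℂ) (hf : ∀ i, MemLp (f i) 2 μ) :
    MemLp (fun x : Fin k → X => ∏ i, f i (x i)) 2 (Measure.pi fun _ : Fin k => μ) := by
  have hm : AEStronglyMeasurable (fun x : Fin k → X => ∏ i, f i (x i)) (Measure.pi fun _ : Fin k => μ) := by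
    refine Finset.aestronglyMeasurable_fun_prod _ fun i _ => ?_
    exact (hf i).1.comp_quasiMeasurePreserving (Measure.quasiMeasurePreserving_eval (fun _ : Fin k => μ) i)
  rw [memLp_two_iff_integrable_sq_norm hm]
  have h1 : Integrable (fun x : Fin k → X => ∏ i, (‖f i (x i)‖ ^ 2 : ℝ)) (Measure.pi fun _ : Fin k => μ) :=
    Integrable.fintype_prod (f := fun i x => ‖f i x‖ ^ 2) fun i =>
      (memLp_two_iff_integrable_sq_norm (hf i).1).1 (hf i)
  refine h1.congr (Filter.Eventually.of_forall fun x => ?_)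
  change ∏ i, (‖f i (x i)‖ ^ 2 : ℝ) = ‖∏ i, f i (x i)‖ ^ 2
  rw [norm_prod, Finset.prod_pow]

theorem ten_congr (f g : Fin k → X → ℂ) (h : ∀ i, f i =ᵐ[μ] g i) :
    (fun x : Fin k → X => ∏ i, f i (x i)) =ᵐ[Measure.pi fun _ : Fin k => μ]
      (fun x : Fin k → X => ∏ i, g i (x i)) := by
  have h1 : ∀ i, ∀ᵐ x : Fin k → X ∂(Measure.pi fun _ : Fin k => μ), f i (x i) = g i (x i) := fun i =>
    (Measure.quasiMeasurePreserving_eval (fun _ : Fin k => μ) i).ae (h i)
  filter_upwards [ae_all_iff.2 h1] with x hx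
  exact Finset.prod_congr rfl fun i _ => hx i

/-- tensor product -/
noncomputable def T (f : Fin k → Lp ℂ 2 μ) : Lp ℂ 2 (Measure.pi fun _ : Fin k => μ) :=
  (ten_memLp (fun i => (f i : X → ℂ)) fun i => Lp.memLp (f i)).toLp _

theorem T_coe (f : Fin k → Lp ℂ 2 μ) : (T f : (Fin k → X) → ℂ) =ᵐ[Measure.pi fun _ : Fin k => μ]
    fun x => ∏ i, (f i : X → ℂ) (x i) := MemLp.coeFn_toLp _

theorem prod_upd (f : Fin k → Lp ℂ 2 μ) (i : Fin k) (c : Lp ℂ 2 μ) (x : Fin k → X) :
    ∏ j, (Function.update f i c j : X → ℂ) (x j) =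
      (c : X → ℂ) (x i) * ∏ j ∈ univ.erase i, (f j : X → ℂ) (x j) := by
  rw [← Finset.mul_prod_erase univ _ (mem_univ i), Function.update_self]
  congr 1
  refine Finset.prod_congr rfl fun j hj => ?_
  rw [Function.update_of_ne (Finset.ne_of_mem_erase hj)]

theorem T_inner (f g : Fin k → Lp ℂ 2 μ) : inner ℂ (T f) (T g) = ∏ i, inner ℂ (f i) (g i) := by
  rw [L2.inner_def]
  have h1 : ∫ a, inner ℂ ((T f : (Fin k → X) → ℂ) a) ((T g : (Fin k → X) → ℂ) a)
      ∂(Measure.pi fun _ : Fin k => μ) =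
      ∫ x : Fin k → X, ∏ i, inner ℂ ((f i : X → ℂ) (x i)) ((g i : X → ℂ) (x i))
      ∂(Measure.pi fun _ : Fin k => μ) := by
    refine integral_congr_ae ?_
    filter_upwards [T_coe f, T_coe g] with x hx hy
    rw [hx, hy]
    simp only [RCLike.inner_apply, map_prod, ← Finset.prod_mul_distrib]
  rw [h1, integral_fintype_prod_eq_prod (fun i x => inner ℂ ((f i : X → ℂ) x) ((g i : X → ℂ) x))]
  refine Finset.prod_congr rfl fun i _ => ?_
  rw [L2.inner_def]

theorem T_norm (f : Fin k → Lp ℂ 2 μ) : ‖T f‖ = ∏ i, ‖f i‖ := by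
  have h1 : ((‖T f‖ ^ 2 : ℝ) : ℂ) = ((∏ i, ‖f i‖) ^ 2 : ℝ) := by
    have h2 := T_inner f f
    rw [inner_self_eq_norm_sq_to_K] at h2
    push_cast
    rw [← Finset.prod_pow]
    refine h2.trans (Finset.prod_congr rfl fun i _ => ?_)
    rw [inner_self_eq_norm_sq_to_K]
    rfl
  have h3 : ‖T f‖ ^ 2 = (∏ i, ‖f i‖) ^ 2 := by exact_mod_cast h1
  exact (sq_eq_sq₀ (norm_nonneg _) (Finset.prod_nonneg fun i _ => norm_nonneg _)).1 h3

/-- multilinear map -/
noncomputable def TM : MultilinearMap ℂ (fun _ : Fin k => Lp ℂ 2 μ) (Lp ℂ 2 (Measure.pi fun _ : Fin k => μ)) where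
  toFun := T
  map_update_add' := by
    intro _ f i a b
    have hdec : ‹DecidableEq (Fin k)› = instDecidableEqFin k := Subsingleton.elim _ _
    subst hdec
    apply Lp.ext
    have h1 : ∀ᵐ x : Fin k → X ∂(Measure.pi fun _ : Fin k => μ),
        (a + b : Lp ℂ 2 μ) (x i) = (a : X → ℂ) (x i) + (b : X → ℂ) (x i) :=
      (Measure.quasiMeasurePreserving_eval (fun _ : Fin k => μ) i).ae (Lp.coeFn_add a b)
    filter_upwards [T_coe (Function.update f i (a + b)), T_coe (Function.update f i a),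
      T_coe (Function.update f i b), Lp.coeFn_add (T (Function.update f i a)) (T (Function.update f i b)),
      h1] with x e1 e2 e3 e4 e5
    rw [e4, Pi.add_apply, e1, e2, e3, prod_upd, prod_upd, prod_upd, e5, add_mul]
  map_update_smul' := by
    intro _ f i c a
    have hdec : ‹DecidableEq (Fin k)› = instDecidableEqFin k := Subsingleton.elim _ _
    subst hdec
    apply Lp.ext
    have h1 : ∀ᵐ x : Fin k → X ∂(Measure.pi fun _ : Fin k => μ),
        (c • a : Lp ℂ 2 μ) (x i) = c • (a : X → ℂ) (x i) :=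
      (Measure.quasiMeasurePreserving_eval (fun _ : Fin k => μ) i).ae (Lp.coeFn_smul c a)
    filter_upwards [T_coe (Function.update f i (c • a)), T_coe (Function.update f i a),
      Lp.coeFn_smul c (T (Function.update f i a)), h1] with x e1 e2 e3 e4
    rw [e3, Pi.smul_apply, e1, e2, prod_upd, prod_upd, e4, smul_mul_assoc]

theorem main : S_Tens := by
  intro X _ μ _ k
  refine ⟨(TM (μ := μ) (k := k)).mkContinuous 1 (fun m => ?_), fun f => T_coe f, fun f g => T_inner f g⟩
  rw [one_mul]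
  exact (T_norm m).le

end Pool.Agent.W358.SFT
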