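import Pool.Agent.W576.Defs3
import Pool.Agent.W377.Place

/-!
# Bellows-S16: finitely many values (generic points of the configuration variety)
-/

namespace Pool.Agent.W358.Bel

open Pool.Agent.W576 MvPolynomial

/-- the statement of `conf_rot` (subtask Bellows-S14) -/
def ConfRot : Prop := ∀ {K : Type} [Field K] [Algebra ℂ K] {r m : ℕ} (_v : Fin m → Fin (r+3) → ℝ)
    (x : Fin (r+1) → Fin (r+1) → ℝ) (h : Matrix (Fin (r+3)) (Fin (r+3)) ℝ) (_hh : IsSO h)
    (_hx : (Matrix.of x).det ≠ 0)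
    (g g' : Matrix (Fin (r+3)) (Fin (r+3)) K) (_hg : IsSO g) (_hg' : IsSO g')
    (_hinc : ∀ i, g.mulVec (fun l => reHom K (h.mulVec (pad (x i)) l)) =
      g'.mulVec (fun l => reHom K (h.mulVec (pad (x i)) l))),
    zz h g g' * zz h g' g = 1 ∧ g.mulVec (epl h) = zz h g g' • g'.mulVec (epl h) ∧
      g.mulVec (emi h) = zz h g' g • g'.mulVec (emi h)

section general

variable {R S : Type*} [CommRing R] [CommRing S]

theorem isSO_iff {d : ℕ} (g : Matrix (Fin d) (Fin d) R) :
    IsSO g ↔ (∀ i j, ∑ k, eta k * (g k i * g k j) = if i = j then eta i else 0) ∧ g.det = 1 := by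
  unfold IsSO
  refine and_congr ⟨fun h i j => ?_, fun h x y => ?_⟩ Iff.rfl
  · have := h (Pi.single i 1) (Pi.single j 1)
    simp only [lor, Matrix.mulVec_single_one, Matrix.col_apply] at this
    rw [this]
    by_cases hij : i = j
    · subst hij
      rw [Finset.sum_eq_single i]
      · simp
      · intro b _ hb
        simp [hb]
      · simp
    · rw [if_neg hij]
      apply Finset.sum_eq_zero
      intro k _
      by_cases hk : k = i
      · subst hk
        simp [hij]
      · simp [hk]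
  · have h1 : lor (g.mulVec x) (g.mulVec y) =
        ∑ i, ∑ j, (x i * y j) * ∑ k, eta k * (g k i * g k j) := by
      simp only [lor, Matrix.mulVec, dotProduct]
      simp_rw [Finset.sum_mul_sum, Finset.mul_sum]
      rw [Finset.sum_comm]
      refine Finset.sum_congr rfl fun i _ => ?_
      rw [Finset.sum_comm]
      refine Finset.sum_congr rfl fun j _ => ?_
      refine Finset.sum_congr rfl fun k _ => ?_
      ring
    rw [h1]
    simp_rw [h]
    simp only [lor, mul_ite, mul_zero, Finset.sum_ite_eq, Finset.mem_univ, if_true]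
    refine Finset.sum_congr rfl fun i _ => ?_
    ring

theorem map_eta (φ : R →+* S) {d : ℕ} (i : Fin d) : φ (eta i) = eta i := by
  unfold eta
  split_ifs <;> simp

theorem map_lor (φ : R →+* S) {d : ℕ} (x y : Fin d → R) :
    φ (lor x y) = lor (fun i => φ (x i)) (fun i => φ (y i)) := by
  simp [lor, map_eta]

theorem isSO_map (φ : R →+* S) {d : ℕ} {g : Matrix (Fin d) (Fin d) R} (hg : IsSO g) :
    IsSO (g.map φ) := by
  rw [isSO_iff] at hg ⊢
  refine ⟨fun i j => ?_, ?_⟩
  · have := congrArg φ (hg.1 i j)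
    simp only [map_sum, map_mul, map_eta] at this
    simp only [Matrix.map_apply]
    rw [this]
    split_ifs
    · rw [map_eta]
    · simp
  · have := RingHom.map_det φ g
    rw [hg.2] at this
    rw [← RingHom.mapMatrix_apply, ← this, map_one]

theorem map_mulVec' (φ : R →+* S) {d : ℕ} (g : Matrix (Fin d) (Fin d) R) (x : Fin d → R) (i : Fin d) :
    φ (g.mulVec x i) = (g.map φ).mulVec (fun j => φ (x j)) i := by
  simp [Matrix.mulVec, dotProduct]

variable [Algebra ℂ R] [Algebra ℂ S]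

theorem map_zz (φ : R →ₐ[ℂ] S) {r : ℕ} (h : Matrix (Fin (r + 3)) (Fin (r + 3)) ℝ)
    (g g' : Matrix (Fin (r + 3)) (Fin (r + 3)) R) :
    φ (zz h g g') = zz h (g.map φ) (g'.map φ) := by
  have e1 : (fun j => (φ : R →+* S) (epl (R := R) h j)) = epl h := by
    funext j
    simp [epl]
  have e2 : (fun j => (φ : R →+* S) (emi (R := R) h j)) = emi h := by
    funext j
    simp [emi]
  unfold zz
  rw [map_mul, AlgHom.commutes]
  congr 1
  have := map_lor (φ : R →+* S) (g.mulVec (epl h)) (g'.mulVec (emi h))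
  simp only [map_mulVec', e1, e2] at this
  exact this

end general

section main

variable {r m : ℕ}

/-- variables: the entries of the generic matrices -/
abbrev VI (r m : ℕ) : Type := Finset (Fin m) × Fin (r+3) × Fin (r+3)

/-- the polynomial ring in the entries of the generic matrices -/
abbrev PR (r m : ℕ) : Type := MvPolynomial (VI r m) ℂ

/-- the generic matrix number `s` -/
noncomputable def XM (s : Finset (Fin m)) : Matrix (Fin (r+3)) (Fin (r+3)) (PR r m) :=
  Matrix.of fun i j => MvPolynomial.X (s, i, j)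

/-- evaluation at a real configuration -/
noncomputable def ev (g : Finset (Fin m) → Matrix (Fin (r+3)) (Fin (r+3)) ℝ) : PR r m →ₐ[ℂ] ℂ :=
  aeval (fun p => ((g p.1 p.2.1 p.2.2 : ℝ) : ℂ))

theorem XM_map_ev (g : Finset (Fin m) → Matrix (Fin (r+3)) (Fin (r+3)) ℝ) (s : Finset (Fin m)) :
    (XM s).map (ev g) = (g s).map (fun y : ℝ => (y : ℂ)) := by
  ext i j
  simp [XM, ev]

theorem conf_map {R S : Type*} [CommRing R] [CommRing S] (ρ : ℝ →+* R) (φ : R →+* S)
    {v : Fin m → Fin (r + 3) → ℝ} {c : (Fin (r + 2) → Fin m) → ℤ}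
    {g : Finset (Fin m) → Matrix (Fin (r + 3)) (Fin (r + 3)) R} (hg : IsConf ρ v c g) :
    IsConf (φ.comp ρ) v c (fun s => (g s).map φ) := by
  refine ⟨fun s hs => isSO_map φ (hg.so s hs), fun s hs s' hs' j hj hj' => ?_⟩
  funext i
  have := congrArg φ (congrFun (hg.inc s hs s' hs' j hj hj') i)
  simp only [map_mulVec'] at this
  exact this

/-- the ideal of all polynomials vanishing at the real configurations -/
noncomputable def vI (v : Fin m → Fin (r + 3) → ℝ) (c : (Fin (r + 2) → Fin m) → ℤ) :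
    Ideal (PR r m) :=
  ⨅ (g : Finset (Fin m) → Matrix (Fin (r+3)) (Fin (r+3)) ℝ)
    (_ : IsConf (RingHom.id ℝ) v c g), RingHom.ker (ev g)

theorem mem_vI {v : Fin m → Fin (r + 3) → ℝ} {c : (Fin (r + 2) → Fin m) → ℤ} {f : PR r m} :
    f ∈ vI v c ↔ ∀ g, IsConf (RingHom.id ℝ) v c g → ev g f = 0 := by
  simp [vI, Submodule.mem_iInf, RingHom.mem_ker]

theorem conf_real {v : Fin m → Fin (r + 3) → ℝ} {c : (Fin (r + 2) → Fin m) → ℤ}
    {g : Finset (Fin m) → Matrix (Fin (r+3)) (Fin (r+3)) ℝ} (hg : IsConf (RingHom.id ℝ) v c g) :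
    IsConf (reHom ℂ) v c (fun s => (XM s).map (ev g)) := by
  have h := conf_map (RingHom.id ℝ) Complex.ofRealHom hg
  have e : (fun s => (XM s).map (ev g)) = fun s => (g s).map Complex.ofRealHom := by
    funext s
    rw [XM_map_ev]
    rfl
  rw [e]
  exact h

theorem conf_of_ker {K : Type*} [CommRing K] [Algebra ℂ K] (φ : PR r m →ₐ[ℂ] K)
    {v : Fin m → Fin (r + 3) → ℝ} {c : (Fin (r + 2) → Fin m) → ℤ}
    (hφ : ∀ f ∈ vI v c, φ f = 0) :
    IsConf (reHom K) v c (fun s => (XM s).map φ) := by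
  refine ⟨fun s hs => ?_, fun s hs s' hs' j hj hj' => ?_⟩
  · rw [isSO_iff]
    refine ⟨fun i j => ?_, ?_⟩
    · have h1 : (∑ k, eta k * (XM s k i * XM s k j) - if i = j then eta i else 0 : PR r m)
          ∈ vI v c := by
        rw [mem_vI]
        intro g hg
        have := ((isSO_iff _).1 ((conf_real hg).so s hs)).1 i j
        simp only [Matrix.map_apply] at this
        rw [map_sub, map_sum]
        have e2 : (ev g) (if i = j then eta i else 0) = if i = j then eta i else 0 := by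
          split_ifs
          · exact map_eta (ev g : PR r m →+* ℂ) i
          · simp
        have e3 : ∀ k, (ev g) (eta k * (XM s k i * XM s k j)) =
            eta k * ((ev g) (XM s k i) * (ev g) (XM s k j)) := by
          intro k
          rw [map_mul, map_mul]
          congr 1
          exact map_eta (ev g : PR r m →+* ℂ) k
        simp only [e2, e3, this, sub_self]
      have h2 := hφ _ h1
      rw [map_sub, map_sum, sub_eq_zero] at h2
      have e2 : φ (if i = j then eta i else 0) = if i = j then eta i else 0 := by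
        split_ifs
        · exact map_eta (φ : PR r m →+* K) i
        · simp
      have e3 : ∀ k, φ (eta k * (XM s k i * XM s k j)) =
          eta k * (φ (XM s k i) * φ (XM s k j)) := by
        intro k
        rw [map_mul, map_mul]
        congr 1
        exact map_eta (φ : PR r m →+* K) k
      simp only [e2, e3] at h2
      exact h2
    · have h1 : (Matrix.det (XM s) - 1 : PR r m) ∈ vI v c := by
        rw [mem_vI]
        intro g hg
        have := ((isSO_iff _).1 ((conf_real hg).so s hs)).2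
        rw [map_sub, map_one, sub_eq_zero, ← this]
        exact (RingHom.map_det (ev g : PR r m →+* ℂ) (XM s))
      have h2 := hφ _ h1
      rw [map_sub, map_one, sub_eq_zero] at h2
      rw [← h2]
      exact (RingHom.map_det (φ : PR r m →+* K) (XM s)).symm
  · funext i
    have h1 : ((XM s).mulVec (fun l => reHom (PR r m) (v j l)) i -
        (XM s').mulVec (fun l => reHom (PR r m) (v j l)) i : PR r m) ∈ vI v c := by
      rw [mem_vI]
      intro g hg
      have := congrFun ((conf_real hg).inc s hs s' hs' j hj hj') i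
      rw [map_sub, sub_eq_zero]
      have e := map_mulVec' (ev g : PR r m →+* ℂ) (XM s) (fun l => reHom (PR r m) (v j l)) i
      have e' := map_mulVec' (ev g : PR r m →+* ℂ) (XM s') (fun l => reHom (PR r m) (v j l)) i
      have er : (fun l => (ev g : PR r m →+* ℂ) (reHom (PR r m) (v j l))) =
          fun l => reHom ℂ (v j l) := by
        funext l
        simp [reHom]
      rw [er] at e e'
      exact (e.trans this).trans e'.symm
    have h2 := hφ _ h1
    rw [map_sub, sub_eq_zero] at h2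
    have e := map_mulVec' (φ : PR r m →+* K) (XM s) (fun l => reHom (PR r m) (v j l)) i
    have e' := map_mulVec' (φ : PR r m →+* K) (XM s') (fun l => reHom (PR r m) (v j l)) i
    have er : (fun l => (φ : PR r m →+* K) (reHom (PR r m) (v j l))) =
        fun l => reHom K (v j l) := by
      funext l
      simp only [reHom, RingHom.comp_apply]
      exact φ.commutes _
    rw [er] at e e'
    exact (e.symm.trans h2).trans e'

/-- the polynomial whose values are the products of the exponentials of the angles -/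
noncomputable def QQ (c : (Fin (r+2) → Fin m) → ℤ)
    (T : Finset (Fin (r+1) → Fin m))
    (h : (Fin (r+1) → Fin m) → Matrix (Fin (r+3)) (Fin (r+3)) ℝ)
    (ref : (Fin (r+1) → Fin m) → Finset (Fin m))
    (e : (Fin (r+1) → Fin m) → ℤ) : PR r m :=
  ∏ τ ∈ T, ∏ q : Fin m,
    (if 0 ≤ e τ * c (Fin.cons q τ) then
      (zz (h τ) (XM (rng (Fin.cons q τ : Fin (r+2) → Fin m))) (XM (ref τ))) ^
        (e τ * c (Fin.cons q τ)).toNat
     else (zz (h τ) (XM (ref τ)) (XM (rng (Fin.cons q τ : Fin (r+2) → Fin m)))) ^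
        (-(e τ * c (Fin.cons q τ))).toNat)

theorem mem_rng_cons (q : Fin m) (τ : Fin (r+1) → Fin m) (i : Fin (r+1)) :
    τ i ∈ rng (Fin.cons q τ : Fin (r+2) → Fin m) := by
  unfold rng
  rw [Finset.mem_image]
  exact ⟨i.succ, Finset.mem_univ _, by simp⟩

theorem rng_mem_supp {c : (Fin (r+2) → Fin m) → ℤ} {q : Fin m} {τ : Fin (r+1) → Fin m}
    (h : c (Fin.cons q τ) ≠ 0) : rng (Fin.cons q τ : Fin (r+2) → Fin m) ∈ supp c :=
  ⟨_, h, rfl⟩

theorem zz_mul (hconf : ConfRot) {K : Type} [Field K] [Algebra ℂ K]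
    {v : Fin m → Fin (r+3) → ℝ} {c : (Fin (r+2) → Fin m) → ℤ}
    {T : Finset (Fin (r+1) → Fin m)}
    {h : (Fin (r+1) → Fin m) → Matrix (Fin (r+3)) (Fin (r+3)) ℝ}
    {x : (Fin (r+1) → Fin m) → Fin (r+1) → Fin (r+1) → ℝ}
    {ref : (Fin (r+1) → Fin m) → Finset (Fin m)} (hD : FaceData v c T h x ref)
    {g : Finset (Fin m) → Matrix (Fin (r+3)) (Fin (r+3)) K} (hg : IsConf (reHom K) v c g)
    {τ : Fin (r+1) → Fin m} (hτ : τ ∈ T) {s s' : Finset (Fin m)} (hs : s ∈ supp c)
    (hs' : s' ∈ supp c) (h1 : ∀ i, τ i ∈ s) (h2 : ∀ i, τ i ∈ s') :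
    zz (h τ) (g s) (g s') * zz (h τ) (g s') (g s) = 1 := by
  refine (hconf v (x τ) (h τ) (hD.so τ hτ) (hD.det_pos τ hτ).ne' (g s) (g s') (hg.so s hs)
    (hg.so s' hs') (fun i => ?_)).1
  have := hg.inc s hs s' hs' (τ i) (h1 i) (h2 i)
  rw [hD.coord τ hτ i] at this
  exact this

theorem map_QQ (hconf : ConfRot) {K : Type} [Field K] [Algebra ℂ K]
    {v : Fin m → Fin (r+3) → ℝ} {c : (Fin (r+2) → Fin m) → ℤ}
    {T : Finset (Fin (r+1) → Fin m)}
    {h : (Fin (r+1) → Fin m) → Matrix (Fin (r+3)) (Fin (r+3)) ℝ}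
    {x : (Fin (r+1) → Fin m) → Fin (r+1) → Fin (r+1) → ℝ}
    {ref : (Fin (r+1) → Fin m) → Finset (Fin m)} (hD : FaceData v c T h x ref)
    (e : (Fin (r+1) → Fin m) → ℤ) (φ : PR r m →ₐ[ℂ] K)
    (hg : IsConf (reHom K) v c (fun s => (XM s).map φ)) :
    φ (QQ c T h ref e) = ∏ τ ∈ T, ∏ q : Fin m,
      (zz (h τ) ((XM (rng (Fin.cons q τ : Fin (r+2) → Fin m))).map φ) ((XM (ref τ)).map φ)) ^
        (e τ * c (Fin.cons q τ)) := by
  unfold QQ
  rw [map_prod]
  refine Finset.prod_congr rfl fun τ hτ => ?_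
  rw [map_prod]
  refine Finset.prod_congr rfl fun q _ => ?_
  split_ifs with hk
  · rw [map_pow, map_zz]
    conv_rhs => rw [← Int.toNat_of_nonneg hk]
    rw [zpow_natCast]
  · rw [map_pow, map_zz]
    push Not at hk
    have hc : c (Fin.cons q τ) ≠ 0 := by
      rintro h0
      simp [h0] at hk
    have h3 := zz_mul hconf hD hg hτ (rng_mem_supp hc) (hD.ref_mem τ hτ) (mem_rng_cons q τ)
      (hD.ref_sub τ hτ)
    have h4 : zz (h τ) ((XM (ref τ)).map φ) ((XM (rng (Fin.cons q τ : Fin (r+2) → Fin m))).map φ)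
        = (zz (h τ) ((XM (rng (Fin.cons q τ : Fin (r+2) → Fin m))).map φ)
          ((XM (ref τ)).map φ))⁻¹ := by
      exact eq_inv_of_mul_eq_one_right h3
    rw [h4]
    have h5 : e τ * c (Fin.cons q τ) = -(((-(e τ * c (Fin.cons q τ))).toNat : ℕ) : ℤ) := by
      rw [Int.toNat_of_nonneg (by omega)]
      ring
    conv_rhs => rw [h5]
    rw [zpow_neg, zpow_natCast, inv_pow]

/-- units of a place -/
def Un {K : Type*} [Field K] [Algebra ℂ K] {κ : Type*} [Field κ] (p : Place K κ) (x : K) : Prop :=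
  x ∈ p.O ∧ x⁻¹ ∈ p.O

theorem Un.one {K : Type*} [Field K] [Algebra ℂ K] {κ : Type*} [Field κ] (p : Place K κ) :
    Un p 1 := ⟨p.O.one_mem, by rw [inv_one]; exact p.O.one_mem⟩

theorem Un.mul {K : Type*} [Field K] [Algebra ℂ K] {κ : Type*} [Field κ] {p : Place K κ} {x y : K}
    (hx : Un p x) (hy : Un p y) : Un p (x * y) :=
  ⟨p.O.mul_mem hx.1 hy.1, by rw [mul_inv]; exact p.O.mul_mem hx.2 hy.2⟩

theorem Un.zpow {K : Type*} [Field K] [Algebra ℂ K] {κ : Type*} [Field κ] {p : Place K κ} {x : K}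
    (hx : Un p x) (k : ℤ) : Un p (x ^ k) := by
  obtain ⟨n, rfl | rfl⟩ := k.eq_nat_or_neg
  · rw [zpow_natCast]
    exact ⟨p.O.pow_mem hx.1 n, by rw [← inv_pow]; exact p.O.pow_mem hx.2 n⟩
  · rw [zpow_neg, zpow_natCast]
    exact ⟨by rw [← inv_pow]; exact p.O.pow_mem hx.2 n, by rw [inv_inv]; exact p.O.pow_mem hx.1 n⟩

theorem Un.prod {K : Type*} [Field K] [Algebra ℂ K] {κ : Type*} [Field κ] {p : Place K κ}
    {ι : Type*} (S : Finset ι) (f : ι → K) (hf : ∀ i ∈ S, Un p (f i)) : Un p (∏ i ∈ S, f i) := by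
  classical
  induction S using Finset.induction_on with
  | empty => simpa using Un.one p
  | insert a S ha ih =>
    rw [Finset.prod_insert ha]
    exact (hf a (Finset.mem_insert_self _ _)).mul
      (ih fun i hi => hf i (Finset.mem_insert_of_mem hi))

theorem zpow_prod_sum {K : Type*} [Field K] {ι : Type*} (t : K) (ht : t ≠ 0) (S : Finset ι)
    (f : ι → ℤ) : ∏ i ∈ S, t ^ f i = t ^ (∑ i ∈ S, f i) := by
  classical
  induction S using Finset.induction_on with
  | empty => simp
  | insert a S ha ih => rw [Finset.prod_insert ha, Finset.sum_insert ha, ih, zpow_add₀ ht]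

theorem finite_values (hconf : ConfRot) {r m : ℕ} (v : Fin m → Fin (r+3) → ℝ)
    (c : (Fin (r+2) → Fin m) → ℤ)
    (T : Finset (Fin (r+1) → Fin m))
    (h : (Fin (r+1) → Fin m) → Matrix (Fin (r+3)) (Fin (r+3)) ℝ)
    (x : (Fin (r+1) → Fin m) → Fin (r+1) → Fin (r+1) → ℝ)
    (ref : (Fin (r+1) → Fin m) → Finset (Fin m)) (hD : FaceData v c T h x ref)
    (e : (Fin (r+1) → Fin m) → ℤ)
    (H : ∀ (K : Type) [Field K] [Algebra ℂ K] (κ : Type) [Field κ] (p : Place K κ)
      (g : Finset (Fin m) → Matrix (Fin (r+3)) (Fin (r+3)) K), IsConf (reHom K) v c g →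
      ∀ n : (Fin (r+1) → Fin m) → Finset (Fin m) → ℤ,
      (∀ τ ∈ T, ∀ s ∈ supp c, (∀ i, τ i ∈ s) →
        p.t ^ (-(n τ s)) * zz (h τ) (g s) (g (ref τ)) ∈ p.O ∧
        (p.t ^ (-(n τ s)) * zz (h τ) (g s) (g (ref τ)))⁻¹ ∈ p.O) →
      ∑ τ ∈ T, e τ * ∑ q, c (Fin.cons q τ) * n τ (rng (Fin.cons q τ : Fin (r+2) → Fin m)) = 0) :
    ∃ F : Finset ℂ, ∀ g : Finset (Fin m) → Matrix (Fin (r+3)) (Fin (r+3)) ℝ,
      IsConf (RingHom.id ℝ) v c g →
      (∏ τ ∈ T, ∏ q : Fin m, (zz (h τ)
        ((g (rng (Fin.cons q τ : Fin (r+2) → Fin m))).map (fun y : ℝ => (y : ℂ)))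
        ((g (ref τ)).map (fun y : ℝ => (y : ℂ)))) ^ (e τ * c (Fin.cons q τ))) ∈ F := by
  classical
  -- the constant attached to a minimal prime
  have key : ∀ P ∈ (vI v c).minimalPrimes, ∃ z : ℂ, QQ c T h ref e - C z ∈ P := by
    intro P hP
    have hPp : P.IsPrime := hP.1.1
    have hPle : vI v c ≤ P := hP.1.2
    let K := FractionRing (PR r m ⧸ P)
    let φ : PR r m →ₐ[ℂ] K :=
      (IsScalarTower.toAlgHom ℂ (PR r m ⧸ P) K).comp (Ideal.Quotient.mkₐ ℂ P)
    have hφ : ∀ f, φ f = 0 ↔ f ∈ P := by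
      intro f
      have : φ f = algebraMap (PR r m ⧸ P) K (Ideal.Quotient.mk P f) := rfl
      rw [this, map_eq_zero_iff _ (IsFractionRing.injective (PR r m ⧸ P) K),
        Ideal.Quotient.eq_zero_iff_mem]
    have hc : IsConf (reHom K) v c (fun s => (XM s).map φ) :=
      conf_of_ker φ (fun f hf => (hφ f).2 (hPle hf))
    have hQ := map_QQ hconf hD e φ hc
    by_contra hno
    push Not at hno
    have hw : φ (QQ c T h ref e) ∉ Set.range (algebraMap ℂ K) := by
      rintro ⟨z, hz⟩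
      apply hno z
      rw [← hφ, map_sub, sub_eq_zero, ← hz]
      exact (φ.commutes z).symm
    have hess : Algebra.EssFiniteType ℂ K := by
      have h1 : Algebra.EssFiniteType (PR r m ⧸ P) K :=
        Algebra.EssFiniteType.of_isLocalization K (nonZeroDivisors (PR r m ⧸ P))
      exact Algebra.EssFiniteType.comp ℂ (PR r m ⧸ P) K
    obtain ⟨κ, _, p, hp⟩ := Pool.Agent.W377.Place.exists_place (K := K)
      (IntermediateField.fg_top ℂ K) _ hw
    apply hp
    have hn : ∀ τ (s : Finset (Fin m)), ∃ n : ℤ, τ ∈ T → s ∈ supp c → (∀ i, τ i ∈ s) →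
        Un p (p.t ^ (-n) * zz (h τ) ((XM s).map φ) ((XM (ref τ)).map φ)) := by
      intro τ s
      by_cases h0 : τ ∈ T ∧ s ∈ supp c ∧ (∀ i, τ i ∈ s)
      · obtain ⟨hτ, hs, hi⟩ := h0
        have hne : zz (h τ) ((XM s).map φ) ((XM (ref τ)).map φ) ≠ 0 :=
          left_ne_zero_of_mul_eq_one
            (zz_mul hconf hD hc hτ hs (hD.ref_mem τ hτ) hi (hD.ref_sub τ hτ))
        obtain ⟨k, hk⟩ := p.zpow _ hne
        exact ⟨-k, fun _ _ _ => by rw [neg_neg]; exact hk⟩
      · exact ⟨0, fun a b c => absurd ⟨a, b, c⟩ h0⟩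
    choose n hn using hn
    have hsum := H K κ p (fun s => (XM s).map φ) hc n (fun τ hτ s hs hi => hn τ s hτ hs hi)
    have hun : Un p (∏ τ ∈ T, ∏ q : Fin m,
        (p.t ^ (-(n τ (rng (Fin.cons q τ : Fin (r+2) → Fin m)))) *
          zz (h τ) ((XM (rng (Fin.cons q τ : Fin (r+2) → Fin m))).map φ) ((XM (ref τ)).map φ)) ^
          (e τ * c (Fin.cons q τ))) := by
      refine Un.prod _ _ fun τ hτ => Un.prod _ _ fun q _ => ?_
      by_cases h0 : c (Fin.cons q τ) = 0
      · rw [h0, mul_zero, zpow_zero]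
        exact Un.one p
      · exact (hn τ _ hτ (rng_mem_supp h0) (mem_rng_cons q τ)).zpow _
    have heq : (∏ τ ∈ T, ∏ q : Fin m,
        (p.t ^ (-(n τ (rng (Fin.cons q τ : Fin (r+2) → Fin m)))) *
          zz (h τ) ((XM (rng (Fin.cons q τ : Fin (r+2) → Fin m))).map φ) ((XM (ref τ)).map φ)) ^
          (e τ * c (Fin.cons q τ))) = φ (QQ c T h ref e) := by
      rw [hQ]
      simp_rw [mul_zpow, Finset.prod_mul_distrib, ← zpow_mul]
      simp_rw [zpow_prod_sum p.t p.t_ne]
      have : ∑ τ ∈ T, ∑ q : Fin m, -n τ (rng (Fin.cons q τ : Fin (r+2) → Fin m)) *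
          (e τ * c (Fin.cons q τ)) = 0 := by
        rw [← neg_eq_zero, ← hsum, ← Finset.sum_neg_distrib]
        refine Finset.sum_congr rfl fun τ _ => ?_
        rw [← Finset.sum_neg_distrib, Finset.mul_sum]
        refine Finset.sum_congr rfl fun q _ => ?_
        ring
      rw [this, zpow_zero, one_mul]
    rw [heq] at hun
    exact hun
  choose! z hz using key
  have hfin : (vI v c).minimalPrimes.Finite := Ideal.finite_minimalPrimes_of_isNoetherianRing _ _
  refine ⟨hfin.toFinset.image z, fun g hg => ?_⟩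
  have hker : (RingHom.ker (ev g)).IsPrime := RingHom.ker_isPrime _
  have hle : vI v c ≤ RingHom.ker (ev g) := by
    intro f hf
    rw [RingHom.mem_ker]
    exact mem_vI.1 hf g hg
  obtain ⟨P, hP, hPle⟩ := Ideal.exists_minimalPrimes_le hle
  rw [Finset.mem_image]
  refine ⟨P, by simpa using hP, ?_⟩
  have h1 := hPle (hz P hP)
  rw [RingHom.mem_ker, map_sub, sub_eq_zero] at h1
  have h2 : ev g (C (z P)) = z P := by
    simp [ev]
  have h3 := map_QQ hconf hD e (ev g) (conf_real hg)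
  rw [h2] at h1
  rw [← h1, h3]
  simp_rw [XM_map_ev]

end main

end Pool.Agent.W358.Bel
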