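import Pool.Agent.W719.BS.Stubs
import Pool.Agent.H550R3.Jones.Main

/-!
# BS-TR: partial trace of an operator that is scalar on the summands
-/

set_option autoImplicit false

namespace Pool.Agent.W358.BSTr

open Matrix Finset Filter Topology Pool.Agent.H550R3.Jones Pool.Agent.W719.BS
open scoped Kronecker

theorem tr : S_TR := by
  intro u hu N h φ ψ hD X x hX
  have hV : IsMod (u ^ 2) (irr (u ^ 2) N) := (Pool.Agent.H345J.taskMod (u ^ 2) (pow_ne_zero _ hu.1)).1 N
  obtain ⟨hi1, hi2⟩ := Pool.Agent.H345J.taskInv u hu (Fin N) (Fin N) (irr (u ^ 2) N) (irr (u ^ 2) N) hV hV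
  have hlam : ∀ d, lam u N d ≠ 0 := fun d =>
    mul_ne_zero (pow_ne_zero _ (by norm_num)) (zpow_ne_zero _ hu.1)
  have hRhi : ∀ d, Rhi u (irr (u ^ 2) N) (irr (u ^ 2) N) * φ d = (lam u N d)⁻¹ • φ d := by
    intro d
    have h1 := congrArg (fun M => Rhi u (irr (u ^ 2) N) (irr (u ^ 2) N) * M) (hD.eig d)
    rw [← Matrix.mul_assoc, hi1, Matrix.one_mul, Matrix.mul_smul] at h1
    conv_rhs => rw [h1]
    rw [smul_smul, inv_mul_cancel₀ (hlam d), one_smul]
  have hG : ∀ d, (X * Rhi u (irr (u ^ 2) N) (irr (u ^ 2) N)) * φ d = (x d / lam u N d) • φ d := by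
    intro d
    rw [Matrix.mul_assoc, hRhi, Matrix.mul_smul, hX, smul_smul]
    congr 1
    rw [div_eq_mul_inv, mul_comm]
  have h2 := taskTop Pool.Agent.H345J.taskMod Pool.Agent.H345J.taskInt taskPtr550
    Pool.Agent.H973J.taskSchur u hu N h φ ψ hD _ _ hG
  rw [Matrix.mul_assoc, hi1, Matrix.mul_one] at h2
  have h3 : (∑ d, x d / lam u N d * lam u N d * br (u ^ 2) (cc N d)) = ∑ d, x d * br (u ^ 2) (cc N d) := by
    refine Finset.sum_congr rfl fun d _ => ?_
    rw [div_mul_cancel₀ _ (hlam d)]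
  rw [h3] at h2
  exact h2

end Pool.Agent.W358.BSTr
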