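import Pool.Agent.W982.AT.Defs

/-!
# The Alon-Tarsi number is at most three iff the signed number of orientations is nonzero
-/

set_option autoImplicit false

namespace Pool.Agent.W982.AT

namespace IffAux

/-- the directed edges of an orientation -/
def ar {ι W : Type*} (E : ι → W × W) (o : ι → Bool) (i : ι) : W × W :=
  if o i then E i else (E i).swap

/-- the set of the directed edges of an orientation -/
def arS {ι W : Type*} [Fintype ι] [DecidableEq W] (E : ι → W × W) (o : ι → Bool) :
    Finset (W × W) := Finset.univ.image (ar E o)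

lemma ar_fst {ι W : Type*} (E : ι → W × W) (o : ι → Bool) (i : ι) : (ar E o i).1 = tl E o i := by
  unfold ar tl
  split_ifs <;> rfl

lemma ar_inj {ι W : Type*} {E : ι → W × W} (hinj : Function.Injective E)
    (hsw : ∀ i j, E i ≠ (E j).swap) (o : ι → Bool) : Function.Injective (ar E o) := by
  intro i j h
  unfold ar at h
  split_ifs at h with h1 h2 h2
  · exact hinj h
  · exact absurd h (hsw i j)
  · exact absurd h.symm (hsw j i)
  · exact hinj (Prod.swap_injective h)

lemma ar_swap {ι W : Type*} {E : ι → W × W} (hinj : Function.Injective E)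
    (hsw : ∀ i j, E i ≠ (E j).swap) (o : ι → Bool) (i j : ι) : ar E o i ≠ (ar E o j).swap := by
  intro h
  unfold ar at h
  split_ifs at h with h1 h2 h2
  · exact hsw i j h
  · rw [Prod.swap_swap] at h
    rw [hinj h] at h1
    exact h2 h1
  · have := hinj (Prod.swap_injective h)
    rw [this] at h1
    exact h1 h2
  · rw [Prod.swap_swap] at h
    exact hsw j i h.symm

lemma outDeg_arS {ι W : Type*} [Fintype ι] [DecidableEq ι] [DecidableEq W] {E : ι → W × W}
    (hinj : Function.Injective E) (hsw : ∀ i j, E i ≠ (E j).swap) (o : ι → Bool) (w : W) :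
    outDeg (arS E o) w = od E o w := by
  unfold outDeg arS od
  rw [Finset.filter_image, Finset.card_image_of_injective _ (ar_inj hinj hsw o)]
  congr 1
  ext i
  simp only [Finset.mem_filter, Finset.mem_univ, true_and, ar_fst]

section
variable {ι V : Type*} [Fintype ι] [DecidableEq ι] [Fintype V] [DecidableEq V] {n : ℕ}

/-- the transported edges -/
def E' (E : ι → V × V) (f : V → Fin n) (i : ι) : Fin n × Fin n := (f (E i).1, f (E i).2)

omit [Fintype ι] [DecidableEq ι] [Fintype V] [DecidableEq V] in
lemma E'_inj {E : ι → V × V} {f : V → Fin n} (hf : Function.Injective f)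
    (hinj : Function.Injective E) : Function.Injective (E' E f) := by
  intro i j h
  unfold E' at h
  rw [Prod.mk.injEq] at h
  exact hinj (Prod.ext (hf h.1) (hf h.2))

omit [Fintype ι] [DecidableEq ι] [Fintype V] [DecidableEq V] in
lemma E'_sw {E : ι → V × V} {f : V → Fin n} (hf : Function.Injective f)
    (hsw : ∀ i j, E i ≠ (E j).swap) (i j : ι) : E' E f i ≠ (E' E f j).swap := by
  intro h
  unfold E' at h
  rw [Prod.swap_prod_mk, Prod.mk.injEq] at h
  exact hsw i j (Prod.ext (hf h.1) (hf h.2))

omit [Fintype ι] [DecidableEq ι] [Fintype V] [DecidableEq V] in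
lemma tl_E' (E : ι → V × V) (f : V → Fin n) (o : ι → Bool) (i : ι) :
    tl (E' E f) o i = f (tl E o i) := by
  unfold tl E'
  split_ifs <;> rfl

omit [Fintype V] in
lemma od_E' (E : ι → V × V) {f : V → Fin n} (hf : Function.Injective f) (o : ι → Bool) (v : V) :
    od (E' E f) o (f v) = od E o v := by
  unfold od
  congr 1
  ext i
  simp only [Finset.mem_filter, Finset.mem_univ, true_and, tl_E', hf.eq_iff]

omit [Fintype V] [DecidableEq V] in
lemma od_E'_zero (E : ι → V × V) (f : V → Fin n) (o : ι → Bool) (w : Fin n)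
    (hw : ∀ v, f v ≠ w) : od (E' E f) o w = 0 := by
  unfold od
  rw [Finset.card_eq_zero, Finset.filter_eq_empty_iff]
  intro i _
  rw [tl_E']
  exact hw _

lemma sum_od (E : ι → V × V) (o : ι → Bool) : ∑ v, od E o v = Fintype.card ι := by
  unfold od
  have := Finset.card_eq_sum_card_fiberwise (s := (Finset.univ : Finset ι))
    (t := (Finset.univ : Finset V)) (f := tl E o) (fun i _ => Finset.mem_coe.2 (Finset.mem_univ _))
  rw [Finset.card_univ] at this
  exact this.symm

lemma all_two {E : ι → V × V} (hc : Fintype.card ι = 2 * Fintype.card V) {o : ι → Bool}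
    (h : ∀ v, od E o v ≤ 2) : ∀ v, od E o v = 2 := by
  have h1 : ∑ v, od E o v = ∑ _v : V, 2 := by
    rw [sum_od, hc, Finset.sum_const, Finset.card_univ, smul_eq_mul, mul_comm]
  have h2 := (Finset.sum_eq_sum_iff_of_le (fun v _ => h v)).1 h1
  intro v
  exact h2 v (Finset.mem_univ v)

end

lemma sg_ne {ι : Type*} [Fintype ι] (o : ι → Bool) : sg o ≠ 0 := by
  unfold sg
  rw [Finset.prod_ne_zero_iff]
  intro i _
  split_ifs <;> norm_num

/-- the orientation from small to large -/
lemma nonempty_set {n : ℕ} (G : SimpleGraph (Fin n)) :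
    {k | ∃ D, IsOrientation G D ∧ EE D ≠ EO D ∧ ∀ v, outDeg D v + 1 ≤ k}.Nonempty := by
  classical
  set D : Finset (Fin n × Fin n) := Finset.univ.filter fun e => e.1 < e.2 ∧ G.Adj e.1 e.2 with hD
  have hmem : ∀ u v : Fin n, (u, v) ∈ D ↔ u < v ∧ G.Adj u v := by
    intro u v
    rw [hD]
    simp
  refine ⟨D.card + 1, D, ⟨?_, ?_⟩, ?_, ?_⟩
  · intro u v
    rw [hmem, hmem]
    constructor
    · intro h
      rcases lt_trichotomy u v with h1 | h1 | h1
      · exact Or.inl ⟨h1, h⟩
      · subst h1
        exact absurd h (G.loopless.irrefl u)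
      · exact Or.inr ⟨h1, h.symm⟩
    · rintro (h | h)
      · exact h.2
      · exact h.2.symm
  · intro u v h1 h2
    rw [hmem] at h1 h2
    exact lt_asymm h1.1 h2.1
  · have key : ∀ F ⊆ D, IsEulerian F → F = ∅ := by
      intro F hF hE
      by_contra hne
      have hne' : F.Nonempty := Finset.nonempty_iff_ne_empty.2 hne
      have s1 : ∑ e ∈ F, (e.1 : ℕ) = ∑ v : Fin n, outDeg F v * (v : ℕ) := by
        unfold outDeg
        rw [← Finset.sum_fiberwise_of_maps_to (s := F) (t := (Finset.univ : Finset (Fin n)))
          (g := fun e => e.1) (fun e _ => Finset.mem_univ _)]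
        refine Finset.sum_congr rfl fun v _ => ?_
        rw [← smul_eq_mul, ← Finset.sum_const]
        refine Finset.sum_congr rfl fun e he => ?_
        rw [(Finset.mem_filter.1 he).2]
      have s2 : ∑ e ∈ F, (e.2 : ℕ) = ∑ v : Fin n, inDeg F v * (v : ℕ) := by
        unfold inDeg
        rw [← Finset.sum_fiberwise_of_maps_to (s := F) (t := (Finset.univ : Finset (Fin n)))
          (g := fun e => e.2) (fun e _ => Finset.mem_univ _)]
        refine Finset.sum_congr rfl fun v _ => ?_
        rw [← smul_eq_mul, ← Finset.sum_const]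
        refine Finset.sum_congr rfl fun e he => ?_
        rw [(Finset.mem_filter.1 he).2]
      have s3 : ∑ e ∈ F, (e.1 : ℕ) < ∑ e ∈ F, (e.2 : ℕ) := by
        refine Finset.sum_lt_sum_of_nonempty hne' fun e he => ?_
        have := (hmem e.1 e.2).1 (hF he)
        exact this.1
      rw [s1, s2] at s3
      have s4 : ∑ v : Fin n, outDeg F v * (v : ℕ) = ∑ v : Fin n, inDeg F v * (v : ℕ) :=
        Finset.sum_congr rfl fun v _ => by rw [hE v]
      omega
    have hE0 : IsEulerian (∅ : Finset (Fin n × Fin n)) := by
      intro v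
      simp [inDeg, outDeg]
    have e1 : EE D = 1 := by
      unfold EE
      rw [Finset.card_eq_one]
      refine ⟨∅, ?_⟩
      ext F
      rw [Finset.mem_filter, Finset.mem_powerset, Finset.mem_singleton]
      constructor
      · rintro ⟨h1, h2, _⟩
        exact key F h1 h2
      · rintro rfl
        exact ⟨Finset.empty_subset _, hE0, by simp⟩
    have e2 : EO D = 0 := by
      unfold EO
      rw [Finset.card_eq_zero, Finset.filter_eq_empty_iff]
      intro F hF
      rw [Finset.mem_powerset] at hF
      rintro ⟨h2, h3⟩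
      rw [key F hF h2] at h3
      simp at h3
    rw [e1, e2]
    exact one_ne_zero
  · intro v
    unfold outDeg
    exact Nat.add_le_add_right (Finset.card_filter_le _ _) 1

lemma alonTarsi_le_iff {n : ℕ} (G : SimpleGraph (Fin n)) (k : ℕ) :
    alonTarsi G ≤ k ↔ ∃ D, IsOrientation G D ∧ EE D ≠ EO D ∧ ∀ v, outDeg D v + 1 ≤ k := by
  constructor
  · intro h
    obtain ⟨D, h1, h2, h3⟩ := Nat.sInf_mem (nonempty_set G)
    exact ⟨D, h1, h2, fun v => (h3 v).trans h⟩
  · intro h
    exact Nat.sInf_le h

end IffAux

open IffAux in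
/-- `AT(G) ≤ 3` iff the signed number of orientations with all out-degrees two is nonzero. -/
theorem iff_of_EE {ι V : Type*} [Fintype ι] [DecidableEq ι] [Fintype V] [DecidableEq V] {n : ℕ}
    (G : SimpleGraph (Fin n)) (E : ι → V × V) (f : V → Fin n) (hf : Function.Injective f)
    (hinj : Function.Injective E) (hsw : ∀ i j, E i ≠ (E j).swap)
    (hG : ∀ a b, G.Adj a b ↔
      ∃ i, (f (E i).1 = a ∧ f (E i).2 = b) ∨ (f (E i).1 = b ∧ f (E i).2 = a))
    (hc : Fintype.card ι = 2 * Fintype.card V)
    (hEE : ∀ o : ι → Bool,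
      (EE (Finset.univ.image fun i => if o i then (f (E i).1, f (E i).2) else
        (f (E i).1, f (E i).2).swap) : ℤ) -
      EO (Finset.univ.image fun i => if o i then (f (E i).1, f (E i).2) else
        (f (E i).1, f (E i).2).swap) =
      sg o * ∑ o' : ι → Bool, if ∀ v, od (fun i => (f (E i).1, f (E i).2)) o' v =
        od (fun i => (f (E i).1, f (E i).2)) o v then sg o' else 0) :
    alonTarsi G ≤ 3 ↔ Z E ≠ 0 := by
  have hinj' := E'_inj hf hinj
  have hsw' := E'_sw hf hsw
  have hG' : ∀ a b, G.Adj a b ↔ ∃ i, E' E f i = (a, b) ∨ E' E f i = (b, a) := by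
    intro a b
    rw [hG]
    simp only [E', Prod.mk.injEq]
  have hEE' : ∀ o : ι → Bool, (EE (arS (E' E f) o) : ℤ) - EO (arS (E' E f) o) =
      sg o * ∑ o' : ι → Bool, if ∀ v, od (E' E f) o' v = od (E' E f) o v then sg o' else 0 := hEE
  -- orientations
  have hor1 : ∀ o, IsOrientation G (arS (E' E f) o) := by
    intro o
    refine ⟨?_, ?_⟩
    · intro u v
      rw [hG']
      unfold arS
      simp only [Finset.mem_image, Finset.mem_univ, true_and, ar]
      constructor
      · rintro ⟨i, h | h⟩
        · by_cases ho : o i = true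
          · left; exact ⟨i, by rw [if_pos ho, h]⟩
          · right; exact ⟨i, by rw [if_neg ho, h]; rfl⟩
        · by_cases ho : o i = true
          · right; exact ⟨i, by rw [if_pos ho, h]⟩
          · left; exact ⟨i, by rw [if_neg ho, h]; rfl⟩
      · rintro (⟨i, h⟩ | ⟨i, h⟩)
        · refine ⟨i, ?_⟩
          split_ifs at h with ho
          · exact Or.inl h
          · right
            have := congrArg Prod.swap h
            rw [Prod.swap_swap] at this
            exact this
        · refine ⟨i, ?_⟩
          split_ifs at h with ho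
          · exact Or.inr h
          · left
            have := congrArg Prod.swap h
            rw [Prod.swap_swap] at this
            exact this
    · intro u v h1 h2
      unfold arS at h1 h2
      rw [Finset.mem_image] at h1 h2
      obtain ⟨i, -, hi⟩ := h1
      obtain ⟨j, -, hj⟩ := h2
      apply ar_swap hinj' hsw' o i j
      rw [hi, hj]
      rfl
  have hor2 : ∀ D, IsOrientation G D → ∃ o, D = arS (E' E f) o := by
    rintro D ⟨hD1, hD2⟩
    refine ⟨fun i => decide (E' E f i ∈ D), ?_⟩
    ext ⟨u, v⟩
    unfold arS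
    simp only [Finset.mem_image, Finset.mem_univ, true_and, ar, decide_eq_true_eq]
    constructor
    · intro h
      obtain ⟨i, hi⟩ := (hG' u v).1 ((hD1 u v).2 (Or.inl h))
      refine ⟨i, ?_⟩
      rcases hi with hi | hi
      · rw [hi, if_pos h]
      · rw [hi, if_neg (hD2 u v h)]
        rfl
    · rintro ⟨i, hi⟩
      split_ifs at hi with ho
      · rw [← hi]; exact ho
      · rw [← hi]
        have hadj : G.Adj (E' E f i).1 (E' E f i).2 := (hG' _ _).2 ⟨i, Or.inl rfl⟩
        rcases (hD1 _ _).1 hadj with h | h
        · exact absurd h ho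
        · exact h
  have hsum : ∀ o, (∀ v, od E o v = 2) →
      (∑ o' : ι → Bool, if ∀ v, od (E' E f) o' v = od (E' E f) o v then sg o' else 0) = Z E := by
    intro o ho
    unfold Z
    refine Finset.sum_congr rfl fun o' _ => ?_
    refine if_congr ?_ rfl rfl
    constructor
    · intro h v
      rw [← od_E' E hf, h, od_E' E hf, ho]
    · intro h w
      by_cases hw : ∃ v, f v = w
      · obtain ⟨v, rfl⟩ := hw
        rw [od_E' E hf, od_E' E hf, h, ho]
      · push Not at hw
        rw [od_E'_zero E f o' w hw, od_E'_zero E f o w hw]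
  rw [alonTarsi_le_iff]
  constructor
  · rintro ⟨D, hD, hne, hdeg⟩
    obtain ⟨o, rfl⟩ := hor2 D hD
    have h2 : ∀ v, od E o v = 2 := by
      apply all_two hc
      intro v
      have := hdeg (f v)
      rw [outDeg_arS hinj' hsw', od_E' E hf] at this
      omega
    have h3 := hEE' o
    rw [hsum o h2] at h3
    intro h4
    rw [h4, mul_zero, sub_eq_zero] at h3
    exact hne (by exact_mod_cast h3)
  · intro hZ
    have hex : ∃ o : ι → Bool, ∀ v, od E o v = 2 := by
      by_contra hno
      push Not at hno
      apply hZ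
      unfold Z
      refine Finset.sum_eq_zero fun o _ => ?_
      rw [if_neg]
      intro h
      obtain ⟨v, hv⟩ := hno o
      exact hv (h v)
    obtain ⟨o, ho⟩ := hex
    refine ⟨arS (E' E f) o, hor1 o, ?_, ?_⟩
    · intro heq
      have h3 := hEE' o
      rw [hsum o ho, heq, sub_self] at h3
      rcases mul_eq_zero.1 h3.symm with h | h
      · exact sg_ne o h
      · exact hZ h
    · intro w
      rw [outDeg_arS hinj' hsw']
      by_cases hw : ∃ v, f v = w
      · obtain ⟨v, rfl⟩ := hw
        rw [od_E' E hf, ho]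
      · push Not at hw
        rw [od_E'_zero E f o w hw]
        omega

end Pool.Agent.W982.AT
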