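import Mathlib
import Pool.Agent.W553.RCD.Stmts

/-!
# Peano second order expansion at a density point (task K2 of helper553)
-/

set_option autoImplicit false

open Set Filter Topology

namespace Pool.Agent.W358.Alex

variable {E : Type} [NormedAddCommGroup E] [NormedSpace ℝ E]

/-- the difference quotient -/
noncomputable def v (u : E → ℝ) (p : E → (E →L[ℝ] ℝ)) (z : E) (r : ℝ) (h : E) : ℝ :=
  (u (z + r • h) - u z - r * p z h) / r ^ 2

theorem key (u : E → ℝ) (p : E → (E →L[ℝ] ℝ)) (Z U : Set E) (C : ℝ) (hC : 0 ≤ C) (z : E)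
    (hU : U ∈ 𝓝 z)
    (h1 : ∀ a ∈ Z ∩ U, ∀ w ∈ U, |u w - u a - p a (w - a)| ≤ C * ‖w - a‖ ^ 2)
    (h2 : ∀ ε > 0, ∀ᶠ w in 𝓝 z, ∃ a ∈ Z, ‖w - a‖ ≤ ε * ‖w - z‖)
    (A : E →L[ℝ] (E →L[ℝ] ℝ)) (hA : HasFDerivAt p A z) (h w : E) (δ : ℝ) (hδ : 0 < δ) :
    ∀ᶠ r in 𝓝[≠] (0 : ℝ), |v u p z r w - v u p z r h - A h (w - h)| ≤ C * ‖w - h‖ ^ 2 + δ := by
  obtain ⟨ε, hε1, hε⟩ : ∃ ε : ℝ, C * ((‖w - h‖ + ε * ‖h‖) ^ 2 + (ε * ‖h‖) ^ 2) +
      (ε * (1 + ε) + ‖A‖ * ε) * ‖h‖ * ‖w - h‖ < C * ‖w - h‖ ^ 2 + δ ∧ 0 < ε := by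
    have hc : Continuous fun ε : ℝ => C * ((‖w - h‖ + ε * ‖h‖) ^ 2 + (ε * ‖h‖) ^ 2) +
      (ε * (1 + ε) + ‖A‖ * ε) * ‖h‖ * ‖w - h‖ := by fun_prop
    have ht := hc.tendsto 0
    have hlt : C * ((‖w - h‖ + 0 * ‖h‖) ^ 2 + (0 * ‖h‖) ^ 2) +
      (0 * (1 + 0) + ‖A‖ * 0) * ‖h‖ * ‖w - h‖ < C * ‖w - h‖ ^ 2 + δ := by
      simp only [zero_mul, mul_zero, add_zero]
      have : C * (‖w - h‖ ^ 2 + 0 ^ 2) = C * ‖w - h‖ ^ 2 := by ring
      rw [this]
      linarith
    have he := ht.eventually (gt_mem_nhds hlt)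
    have he' : ∀ᶠ ε in 𝓝[>] (0 : ℝ), _ := he.filter_mono nhdsWithin_le_nhds
    exact (he'.and self_mem_nhdsWithin).exists
  have hlo := hA.isLittleO.def hε
  obtain ⟨ρ, hρ, hball⟩ := Metric.mem_nhds_iff.mp (Filter.inter_mem hU hlo)
  have hcw : Tendsto (fun r : ℝ => z + r • w) (𝓝 0) (𝓝 z) := by
    have : Continuous (fun r : ℝ => z + r • w) := by fun_prop
    simpa using this.tendsto 0
  have hch : Tendsto (fun r : ℝ => z + r • h) (𝓝 0) (𝓝 z) := by
    have : Continuous (fun r : ℝ => z + r • h) := by fun_prop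
    simpa using this.tendsto 0
  have hsm : ∀ᶠ r in 𝓝 (0 : ℝ), |r| * ((1 + ε) * ‖h‖) < ρ := by
    have : Continuous (fun r : ℝ => |r| * ((1 + ε) * ‖h‖)) := by fun_prop
    have ht := this.tendsto 0
    rw [abs_zero, zero_mul] at ht
    exact ht.eventually (gt_mem_nhds hρ)
  have e1 := (hcw.eventually hU).and ((hch.eventually hU).and ((hch.eventually (h2 ε hε)).and hsm))
  filter_upwards [e1.filter_mono nhdsWithin_le_nhds, self_mem_nhdsWithin] with r hr hr0
  obtain ⟨f1, f2, ⟨a, haZ, ha⟩, f3⟩ := hr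
  have hr0' : r ≠ 0 := hr0
  have hr2 : 0 < r ^ 2 := by positivity
  have g1 : ‖z + r • h - a‖ ≤ ε * (|r| * ‖h‖) := by
    rw [add_sub_cancel_left, norm_smul, Real.norm_eq_abs] at ha
    exact ha
  have g2 : ‖a - z‖ ≤ |r| * ((1 + ε) * ‖h‖) := by
    have : a - z = r • h - (z + r • h - a) := by abel
    rw [this]
    refine (norm_sub_le _ _).trans ?_
    rw [norm_smul, Real.norm_eq_abs]
    linarith
  have g3 : a ∈ Metric.ball z ρ := by
    rw [mem_ball_iff_norm]
    exact g2.trans_lt f3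
  obtain ⟨haU, hap⟩ := hball g3
  have hap' : ‖p a - p z - A (a - z)‖ ≤ ε * ‖a - z‖ := hap
  have g4 : ‖z + r • w - a‖ ≤ |r| * ‖w - h‖ + ε * (|r| * ‖h‖) := by
    have : z + r • w - a = r • (w - h) + (z + r • h - a) := by rw [smul_sub]; abel
    rw [this]
    refine (norm_add_le _ _).trans ?_
    rw [norm_smul, Real.norm_eq_abs]
    linarith
  have I1 := h1 a ⟨haZ, haU⟩ _ f1
  have I2 := h1 a ⟨haZ, haU⟩ _ f2
  have I1' : |u (z + r • w) - u a - p a (z + r • w - a)| ≤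
      C * (r ^ 2 * (‖w - h‖ + ε * ‖h‖) ^ 2) := by
    refine I1.trans (mul_le_mul_of_nonneg_left ?_ hC)
    calc ‖z + r • w - a‖ ^ 2 ≤ (|r| * ‖w - h‖ + ε * (|r| * ‖h‖)) ^ 2 :=
          pow_le_pow_left₀ (norm_nonneg _) g4 2
      _ = |r| ^ 2 * (‖w - h‖ + ε * ‖h‖) ^ 2 := by ring
      _ = _ := by rw [sq_abs]
  have I2' : |u (z + r • h) - u a - p a (z + r • h - a)| ≤ C * (r ^ 2 * (ε * ‖h‖) ^ 2) := by
    refine I2.trans (mul_le_mul_of_nonneg_left ?_ hC)
    calc ‖z + r • h - a‖ ^ 2 ≤ (ε * (|r| * ‖h‖)) ^ 2 :=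
          pow_le_pow_left₀ (norm_nonneg _) g1 2
      _ = |r| ^ 2 * (ε * ‖h‖) ^ 2 := by ring
      _ = _ := by rw [sq_abs]
  have I3 : |(p a - p z - A (r • h)) (w - h)| ≤
      |r| * ((ε * (1 + ε) + ‖A‖ * ε) * ‖h‖) * ‖w - h‖ := by
    rw [← Real.norm_eq_abs]
    refine (ContinuousLinearMap.le_opNorm _ _).trans (mul_le_mul_of_nonneg_right ?_
      (norm_nonneg _))
    have : p a - p z - A (r • h) = (p a - p z - A (a - z)) - A (z + r • h - a) := by
      rw [map_sub, map_sub, map_add]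
      abel
    rw [this]
    refine (norm_sub_le _ _).trans ?_
    have k1 : ε * ‖a - z‖ ≤ ε * (|r| * ((1 + ε) * ‖h‖)) := mul_le_mul_of_nonneg_left g2 hε.le
    have k2 : ‖A (z + r • h - a)‖ ≤ ‖A‖ * (ε * (|r| * ‖h‖)) :=
      (A.le_opNorm _).trans (mul_le_mul_of_nonneg_left g1 (norm_nonneg _))
    calc _ ≤ ε * (|r| * ((1 + ε) * ‖h‖)) + ‖A‖ * (ε * (|r| * ‖h‖)) :=
          add_le_add (hap'.trans k1) k2
      _ = _ := by ring
  have e3 : v u p z r w - v u p z r h - A h (w - h) =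
      ((u (z + r • w) - u a - p a (z + r • w - a)) - (u (z + r • h) - u a - p a (z + r • h - a)) +
        r * (p a - p z - A (r • h)) (w - h)) / r ^ 2 := by
    unfold v
    simp only [map_sub, map_add, map_smul, sub_apply,
      smul_apply, smul_eq_mul]
    field_simp
    ring
  rw [e3, abs_div, abs_of_pos hr2, div_le_iff₀ hr2]
  have I4 : |r * (p a - p z - A (r • h)) (w - h)| ≤
      r ^ 2 * ((ε * (1 + ε) + ‖A‖ * ε) * ‖h‖ * ‖w - h‖) := by
    rw [abs_mul]
    refine (mul_le_mul_of_nonneg_left I3 (abs_nonneg r)).trans (le_of_eq ?_)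
    rw [← sq_abs r]
    ring
  have I5 : |(u (z + r • w) - u a - p a (z + r • w - a)) -
      (u (z + r • h) - u a - p a (z + r • h - a)) + r * (p a - p z - A (r • h)) (w - h)| ≤
      C * (r ^ 2 * (‖w - h‖ + ε * ‖h‖) ^ 2) + C * (r ^ 2 * (ε * ‖h‖) ^ 2) +
        r ^ 2 * ((ε * (1 + ε) + ‖A‖ * ε) * ‖h‖ * ‖w - h‖) := by
    refine (abs_add_le _ _).trans (add_le_add ((abs_sub _ _).trans (add_le_add I1' I2')) I4)
  refine I5.trans ?_
  have := mul_le_mul_of_nonneg_right hε1.le hr2.le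
  linarith

theorem K2 : Pool.Agent.W553.RCD.S_K2 := by
  intro E _ _ _ u p Z U C z hz hU h1 h2 A hA
  set C' := max C 0 with hC'
  have hC0 : 0 ≤ C' := le_max_right _ _
  have h1' : ∀ a ∈ Z ∩ U, ∀ w ∈ U, |u w - u a - p a (w - a)| ≤ C' * ‖w - a‖ ^ 2 :=
    fun a ha w hw => (h1 a ha w hw).trans
      (mul_le_mul_of_nonneg_right (le_max_left _ _) (by positivity))
  have hkey := key u p Z U C' hC0 z hU h1' h2 A hA
  have hzU : z ∈ U := mem_of_mem_nhds hU
  -- bound for the quotient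
  have hbd : ∀ h, ∀ᶠ r in 𝓝[≠] (0 : ℝ), v u p z r h ∈ Icc (-(C' * ‖h‖ ^ 2)) (C' * ‖h‖ ^ 2) := by
    intro h
    have hch : Tendsto (fun r : ℝ => z + r • h) (𝓝 0) (𝓝 z) := by
      have : Continuous (fun r : ℝ => z + r • h) := by fun_prop
      simpa using this.tendsto 0
    filter_upwards [(hch.eventually hU).filter_mono nhdsWithin_le_nhds, self_mem_nhdsWithin]
      with r hr hr0
    have hr0' : r ≠ 0 := hr0
    have hr2 : 0 < r ^ 2 := by positivity
    have h3 := h1' z ⟨hz, hzU⟩ _ hr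
    rw [add_sub_cancel_left, norm_smul, map_smul, smul_eq_mul, Real.norm_eq_abs, mul_pow,
      sq_abs] at h3
    rw [mem_Icc, ← abs_le]
    unfold v
    rw [abs_div, abs_of_pos hr2, div_le_iff₀ hr2]
    linarith
  -- limits along ultrafilters
  have main : ∀ g : Ultrafilter ℝ, (g : Filter ℝ) ≤ 𝓝[≠] (0 : ℝ) →
      (∀ h k, A h k = A k h) ∧ ∀ h, Tendsto (fun r => v u p z r h) g (𝓝 (A h h / 2)) := by
    intro g hg
    have hlim : ∀ h, ∃ L, Tendsto (fun r => v u p z r h) g (𝓝 L) := by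
      intro h
      have hb : ∀ᶠ r in (g : Filter ℝ), v u p z r h ∈ Icc (-(C' * ‖h‖ ^ 2)) (C' * ‖h‖ ^ 2) :=
        hg (hbd h)
      have hm : (Ultrafilter.map (fun r => v u p z r h) g : Filter ℝ) ≤
          𝓟 (Icc (-(C' * ‖h‖ ^ 2)) (C' * ‖h‖ ^ 2)) := by
        rw [le_principal_iff]
        exact hb
      obtain ⟨L, -, hL⟩ := isCompact_Icc.ultrafilter_le_nhds _ hm
      exact ⟨L, hL⟩
    choose u0 hu0 using hlim
    have hu0q : ∀ h w, |u0 w - u0 h - A h (w - h)| ≤ C' * ‖w - h‖ ^ 2 := by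
      intro h w
      apply le_of_forall_pos_le_add
      intro δ hδ
      have ht : Tendsto (fun r => |v u p z r w - v u p z r h - A h (w - h)|) g
          (𝓝 |u0 w - u0 h - A h (w - h)|) :=
        (((hu0 w).sub (hu0 h)).sub tendsto_const_nhds).abs
      exact le_of_tendsto ht (hg (hkey h w δ hδ))
    have hder : ∀ h, HasFDerivAt u0 (A h) h := by
      intro h
      rw [hasFDerivAt_iff_isLittleO]
      rw [Asymptotics.isLittleO_iff]
      intro c hc
      have : ∀ᶠ w in 𝓝 h, C' * ‖w - h‖ ≤ c := by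
        have hcont : Continuous fun w : E => C' * ‖w - h‖ := by fun_prop
        have ht := hcont.tendsto h
        rw [sub_self, norm_zero, mul_zero] at ht
        exact ht.eventually (ge_mem_nhds hc)
      filter_upwards [this] with w hw
      rw [Real.norm_eq_abs]
      refine (hu0q h w).trans ?_
      calc C' * ‖w - h‖ ^ 2 = (C' * ‖w - h‖) * ‖w - h‖ := by ring
        _ ≤ c * ‖w - h‖ := mul_le_mul_of_nonneg_right hw (norm_nonneg _)
    have hsymm : ∀ h k, A h k = A k h := fun h k =>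
      second_derivative_symmetric (f := u0) (f' := fun h => A h) (f'' := A) (x := 0) hder
        A.hasFDerivAt h k
    refine ⟨hsymm, fun h => ?_⟩
    have hz0 : u0 0 = 0 := by
      have ht := hu0 0
      have : (fun r => v u p z r 0) = fun _ => (0 : ℝ) := by
        funext r
        simp [v]
      rw [this] at ht
      exact tendsto_nhds_unique ht tendsto_const_nhds
    have hq : u0 h = A h h / 2 := by
      -- one variable
      have hd : ∀ t : ℝ, HasDerivAt (fun t : ℝ => u0 (t • h) - t ^ 2 * (A h h / 2)) 0 t := by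
        intro t
        have d1 : HasDerivAt (fun t : ℝ => t • h) h t := by
          simpa using (hasDerivAt_id t).smul_const h
        have d2 := (hder (t • h)).comp_hasDerivAt t d1
        have d3 : HasDerivAt (fun t : ℝ => t ^ 2 * (A h h / 2)) (2 * t * (A h h / 2)) t := by
          have := (hasDerivAt_pow 2 t).mul_const (A h h / 2)
          simpa using this
        have d4 := d2.sub d3
        have e : (A (t • h)) h - 2 * t * ((A h) h / 2) = 0 := by
          rw [map_smul, smul_apply, smul_eq_mul]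
          ring
        rw [e] at d4
        exact d4
      have hconst := is_const_of_deriv_eq_zero
        (f := fun t : ℝ => u0 (t • h) - t ^ 2 * (A h h / 2))
        (fun t => (hd t).differentiableAt) (fun t => (hd t).deriv) 1 0
      simp only [one_smul, one_pow, one_mul, zero_smul] at hconst
      rw [hz0] at hconst
      linarith
    rw [← hq]
    exact hu0 h
  have hne : (𝓝[≠] (0 : ℝ)).NeBot := inferInstance
  refine ⟨(main (Ultrafilter.of (𝓝[≠] (0 : ℝ))) (Ultrafilter.of_le _)).1, fun h => ?_⟩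
  rw [tendsto_iff_ultrafilter]
  intro g hg
  exact (main g hg).2 h

end Pool.Agent.W358.Alex
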