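import Mathlib
import Pool.Agent.W553.RCD.Stmts2

/-!
# Second order expansion of half the squared angle (task K9 of helper553)
-/

set_option autoImplicit false

open Set Filter Topology Real
open Pool.Agent.W553.RCD (E3 ang)

namespace Pool.Agent.W358.AngExp

/-- Taylor-Young of order two -/
theorem peano (k k' : ℝ → ℝ) (c : ℝ) (hk : ∀ᶠ r in 𝓝 (0 : ℝ), HasDerivAt k (k' r) r)
    (hk' : HasDerivAt k' c 0) :
    Tendsto (fun r => (k r - k 0 - r * k' 0) / r ^ 2) (𝓝[≠] 0) (𝓝 (c / 2)) := by
  have h0 : HasDerivAt k (k' 0) 0 := hk.self_of_nhds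
  apply HasDerivAt.lhopital_zero_nhdsNE (f' := fun r => k' r - k' 0) (g' := fun r => 2 * r)
  · filter_upwards [hk.filter_mono nhdsWithin_le_nhds] with r hr
    have := (hr.sub_const (k 0)).sub ((hasDerivAt_id r).mul_const (k' 0))
    exact this.congr_deriv (by simp)
  · filter_upwards with r
    simpa using hasDerivAt_pow 2 r
  · filter_upwards [self_mem_nhdsWithin] with r hr
    have hr' : r ≠ 0 := hr
    simpa using hr'
  · have h1 : Tendsto (fun r => k r - k 0 - r * k' 0) (𝓝 0) (𝓝 (k 0 - k 0 - 0 * k' 0)) :=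
      ((h0.continuousAt.tendsto.sub tendsto_const_nhds)).sub
        (tendsto_id.mul tendsto_const_nhds)
    rw [sub_self, zero_mul, sub_zero] at h1
    exact h1.mono_left nhdsWithin_le_nhds
  · have h1 : Tendsto (fun r : ℝ => r ^ 2) (𝓝 0) (𝓝 (0 ^ 2)) := (continuous_pow 2).tendsto 0
    rw [zero_pow two_ne_zero] at h1
    exact h1.mono_left nhdsWithin_le_nhds
  · have h1 := (hasDerivAt_iff_tendsto_slope.mp hk').div_const 2
    refine h1.congr fun r => ?_
    rw [slope_def_field, sub_zero]
    rw [div_div, mul_comm]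

theorem K9 : Pool.Agent.W553.RCD.S_K9 := by
  intro z e f α a b ho hα0 hαπ
  have hz : ‖z‖ = 1 := ho.1 0
  have he : ‖e‖ = 1 := ho.1 1
  have hf : ‖f‖ = 1 := ho.1 2
  have hze : inner ℝ z e = (0 : ℝ) := ho.2 (i := 0) (j := 1) (by decide)
  have hzf : inner ℝ z f = (0 : ℝ) := ho.2 (i := 0) (j := 2) (by decide)
  have hef : inner ℝ e f = (0 : ℝ) := ho.2 (i := 1) (j := 2) (by decide)
  have hez : inner ℝ e z = (0 : ℝ) := by rw [real_inner_comm]; exact hze
  have hfz : inner ℝ f z = (0 : ℝ) := by rw [real_inner_comm]; exact hzf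
  have hfe : inner ℝ f e = (0 : ℝ) := by rw [real_inner_comm]; exact hef
  have hzz : inner ℝ z z = (1 : ℝ) := by rw [real_inner_self_eq_norm_sq, hz]; norm_num
  have hee : inner ℝ e e = (1 : ℝ) := by rw [real_inner_self_eq_norm_sq, he]; norm_num
  have hff : inner ℝ f f = (1 : ℝ) := by rw [real_inner_self_eq_norm_sq, hf]; norm_num
  set ρ2 : ℝ := a ^ 2 + b ^ 2 with hρ
  have hρ0 : 0 ≤ ρ2 := by positivity
  have hX : ‖Real.cos α • z - Real.sin α • e‖ = 1 := by
    have : ‖Real.cos α • z - Real.sin α • e‖ ^ 2 = 1 := by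
      rw [← real_inner_self_eq_norm_sq]
      simp only [inner_sub_left, inner_sub_right, real_inner_smul_left, real_inner_smul_right,
        hzz, hee, hez, hze]
      nlinarith [Real.sin_sq_add_cos_sq α]
    exact (pow_eq_one_iff_of_nonneg (norm_nonneg _) two_ne_zero).mp this
  have hY : ∀ r : ℝ, ‖z + r • (a • e + b • f)‖ = √(1 + ρ2 * r ^ 2) := by
    intro r
    rw [eq_comm, Real.sqrt_eq_iff_mul_self_eq (by positivity) (norm_nonneg _),
      ← real_inner_self_eq_norm_mul_norm]
    simp only [inner_add_left, inner_add_right, real_inner_smul_left, real_inner_smul_right,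
        hzz, hee, hez, hze, hzf, hfz, hef, hfe, hff]
    rw [hρ]
    ring
  have hXY : ∀ r : ℝ, inner ℝ (Real.cos α • z - Real.sin α • e) (z + r • (a • e + b • f)) =
      Real.cos α - a * r * Real.sin α := by
    intro r
    simp only [inner_add_left, inner_add_right, inner_sub_left, real_inner_smul_left,
      real_inner_smul_right, hzz, hee, hez, hze, hzf, hfz, hef, hfe, hff]
    ring
  have hang : ∀ r : ℝ, ang (Real.cos α • z - Real.sin α • e) (z + r • (a • e + b • f)) =
      Real.arccos ((Real.cos α - a * r * Real.sin α) / √(1 + ρ2 * r ^ 2)) := by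
    intro r
    unfold ang InnerProductGeometry.angle
    rw [hX, hY, hXY, one_mul]
  simp only [hang]
  rcases hα0.eq_or_lt with h0 | h0
  · -- the case `α = 0`
    subst h0
    have h1 : ∀ r : ℝ, Real.arccos ((Real.cos 0 - a * r * Real.sin 0) / √(1 + ρ2 * r ^ 2)) ^ 2 =
        Real.arctan (r * √ρ2) ^ 2 := by
      intro r
      have h2 : Real.arctan (r * √ρ2) ^ 2 = Real.arctan |r * √ρ2| ^ 2 := by
        rcases abs_choice (r * √ρ2) with h | h
        · rw [h]
        · rw [h, Real.arctan_neg, neg_sq]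
      rw [h2, Real.arctan_eq_arccos (abs_nonneg _)]
      congr 2
      rw [Real.cos_zero, Real.sin_zero, mul_zero, sub_zero, sq_abs, mul_pow, Real.sq_sqrt hρ0,
        one_div, mul_comm ρ2]
    have h3 : HasDerivAt (fun r : ℝ => Real.arctan (r * √ρ2)) (√ρ2) 0 := by
      have := ((hasDerivAt_id (0 : ℝ)).mul_const (√ρ2)).arctan
      simpa using this
    have h4 := (hasDerivAt_iff_tendsto_slope.mp h3)
    have h5 := (h4.pow 2).div_const 2
    rw [Real.sq_sqrt hρ0] at h5
    have e1 : (a ^ 2 + (if (0 : ℝ) = 0 then 1 else 0 * Real.cos 0 / Real.sin 0) * b ^ 2) / 2 =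
        ρ2 / 2 := by
      rw [if_pos rfl, one_mul]
    rw [e1]
    refine h5.congr fun r => ?_
    rw [slope_def_field, h1]
    simp only [zero_mul, Real.arctan_zero, sub_zero, mul_zero]
    ring
  · have hs : 0 < Real.sin α := Real.sin_pos_of_pos_of_lt_pi h0 hαπ
    rw [if_neg h0.ne']
    -- the functions
    set S : ℝ → ℝ := fun r => (Real.cos α - a * r * Real.sin α) / √(1 + ρ2 * r ^ 2) with hS
    set Q : ℝ → ℝ := fun r => (Real.sin α + a * r * Real.cos α) ^ 2 + b ^ 2 * r ^ 2 with hQ
    set D : ℝ → ℝ := fun r => 1 + ρ2 * r ^ 2 with hD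
    set G : ℝ → ℝ := fun r => (a * Real.sin α + ρ2 * r * Real.cos α) / (D r * √(Q r)) with hG
    have hDpos : ∀ r, 0 < D r := fun r => by
      change 0 < 1 + ρ2 * r ^ 2
      positivity
    have hdD : ∀ r, HasDerivAt D (ρ2 * (2 * r)) r := by
      intro r
      have := ((hasDerivAt_pow 2 r).const_mul ρ2).const_add 1
      exact this.congr_deriv (by simp)
    have hdQ : ∀ r, HasDerivAt Q (2 * (Real.sin α + a * r * Real.cos α) * (a * Real.cos α) +
        b ^ 2 * (2 * r)) r := by
      intro r
      have h1 : HasDerivAt (fun r : ℝ => Real.sin α + a * r * Real.cos α) (a * Real.cos α) r := by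
        have := ((((hasDerivAt_id r).const_mul a).mul_const (Real.cos α))).const_add (Real.sin α)
        simpa using this
      have h2 := (h1.pow 2).add ((hasDerivAt_pow 2 r).const_mul (b ^ 2))
      exact h2.congr_deriv (by simp)
    have hQ0 : Q 0 = Real.sin α ^ 2 := by simp [hQ]
    have hQpos : ∀ᶠ r in 𝓝 (0 : ℝ), 0 < Q r := by
      have hc : ContinuousAt Q 0 := (hdQ 0).continuousAt
      apply hc.eventually (lt_mem_nhds _)
      rw [hQ0]
      positivity
    have hsc := Real.sin_sq_add_cos_sq α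
    have h1S : ∀ r, 1 - S r ^ 2 = Q r / D r := by
      intro r
      have hDr := (hDpos r).ne'
      have hsq : √(D r) ^ 2 = D r := Real.sq_sqrt (hDpos r).le
      have e : S r ^ 2 = (Real.cos α - a * r * Real.sin α) ^ 2 / D r := by
        change ((Real.cos α - a * r * Real.sin α) / √(D r)) ^ 2 = _
        rw [div_pow, hsq]
      rw [e, eq_div_iff hDr, sub_mul, div_mul_cancel₀ _ hDr, one_mul]
      change (1 + ρ2 * r ^ 2) - _ = (Real.sin α + a * r * Real.cos α) ^ 2 + b ^ 2 * r ^ 2
      rw [hρ]
      linear_combination (-1 - a ^ 2 * r ^ 2) * hsc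
    have hdS : ∀ r, HasDerivAt S (-(a * Real.sin α + ρ2 * r * Real.cos α) / (D r * √(D r))) r := by
      intro r
      have h1 : HasDerivAt (fun r : ℝ => Real.cos α - a * r * Real.sin α) (-(a * Real.sin α)) r := by
        have := ((((hasDerivAt_id r).const_mul a).mul_const (Real.sin α))).const_sub (Real.cos α)
        simpa using this
      have h2 := (hdD r).sqrt (hDpos r).ne'
      have hsqp : 0 < √(D r) := Real.sqrt_pos.mpr (hDpos r)
      have h3 := h1.div h2 hsqp.ne'
      have hsq : √(D r) * √(D r) = D r := Real.mul_self_sqrt (hDpos r).le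
      refine h3.congr_deriv ?_
      have hDr : D r = 1 + ρ2 * r ^ 2 := rfl
      have hsq2 : √(D r) ^ 2 = D r := Real.sq_sqrt (hDpos r).le
      have hD0 := (hDpos r).ne'
      rw [hsq2, div_eq_div_iff hD0 (mul_ne_zero hD0 hsqp.ne')]
      have e5 : ρ2 * (2 * r) / (2 * √(D r)) = ρ2 * r / √(D r) := by
        field_simp
      rw [e5]
      have e6 : (-(a * Real.sin α) * √(D r) - (Real.cos α - a * r * Real.sin α) *
          (ρ2 * r / √(D r))) * (D r * √(D r)) = (-(a * Real.sin α) * (√(D r) * √(D r)) -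
          (Real.cos α - a * r * Real.sin α) * (ρ2 * r)) * D r := by
        field_simp
      rw [e6, hsq, hDr]
      ring
    have hdh : ∀ᶠ r in 𝓝 (0 : ℝ), HasDerivAt (fun r => Real.arccos (S r)) (G r) r := by
      filter_upwards [hQpos] with r hr
      have h1 : 0 < 1 - S r ^ 2 := by rw [h1S]; exact div_pos hr (hDpos r)
      have hm1 : S r ≠ -1 := by
        intro h
        rw [h] at h1
        norm_num at h1
      have hp1 : S r ≠ 1 := by
        intro h
        rw [h] at h1
        norm_num at h1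
      have h2 := (Real.hasDerivAt_arccos hm1 hp1).comp r (hdS r)
      have hsqD : 0 < √(D r) := Real.sqrt_pos.mpr (hDpos r)
      have hsqQ : 0 < √(Q r) := Real.sqrt_pos.mpr hr
      have e : -(1 / √(1 - S r ^ 2)) * (-(a * Real.sin α + ρ2 * r * Real.cos α) /
          (D r * √(D r))) = G r := by
        rw [h1S, Real.sqrt_div hr.le]
        change _ = (a * Real.sin α + ρ2 * r * Real.cos α) / (D r * √(Q r))
        have := (hDpos r).ne'
        field_simp
      rw [e] at h2
      exact h2
    have hG0 : G 0 = a := by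
      change (a * Real.sin α + ρ2 * 0 * Real.cos α) / (D 0 * √(Q 0)) = a
      rw [hQ0, Real.sqrt_sq hs.le]
      change (a * Real.sin α + ρ2 * 0 * Real.cos α) / ((1 + ρ2 * 0 ^ 2) * Real.sin α) = a
      field_simp
      ring
    have hdG : HasDerivAt G (b ^ 2 * Real.cos α / Real.sin α) 0 := by
      have h1 : HasDerivAt (fun r : ℝ => a * Real.sin α + ρ2 * r * Real.cos α)
          (ρ2 * Real.cos α) 0 := by
        have := ((((hasDerivAt_id (0 : ℝ)).const_mul ρ2).mul_const (Real.cos α))).const_add
          (a * Real.sin α)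
        simpa using this
      have hQ0' : Q 0 ≠ 0 := by rw [hQ0]; positivity
      have h2 := (hdD 0).mul ((hdQ 0).sqrt hQ0')
      have hD0 : D 0 = 1 := by simp [hD]
      have hsQ : √(Q 0) = Real.sin α := by rw [hQ0, Real.sqrt_sq hs.le]
      have hne : (D * fun y => √(Q y)) 0 ≠ 0 := by
        simp only [Pi.mul_apply]
        rw [hD0, hsQ]
        positivity
      have h3 := h1.div h2 hne
      refine h3.congr_deriv ?_
      simp only [Pi.mul_apply]
      rw [hD0, hsQ]
      simp only [mul_zero, add_zero, zero_mul, one_mul]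
      field_simp
      rw [hρ]
      ring
    have hk0 : Real.arccos (S 0) = α := by
      have : S 0 = Real.cos α := by simp [hS]
      rw [this, Real.arccos_cos hα0 hαπ.le]
    have hP := peano (fun r => Real.arccos (S r) ^ 2 / 2) (fun r => Real.arccos (S r) * G r)
      (a ^ 2 + α * (b ^ 2 * Real.cos α / Real.sin α)) (by
        filter_upwards [hdh] with r hr
        have := (hr.pow 2).div_const 2
        refine this.congr_deriv ?_
        simp
        ring) (by
        have := (hdh.self_of_nhds).mul hdG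
        refine this.congr_deriv ?_
        rw [hk0, hG0]
        ring)
    simp only [hk0, hG0] at hP
    have e1 : (a ^ 2 + α * Real.cos α / Real.sin α * b ^ 2) / 2 =
        (a ^ 2 + α * (b ^ 2 * Real.cos α / Real.sin α)) / 2 := by ring
    rw [e1]
    exact hP

end Pool.Agent.W358.AngExp
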