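import Pool.Agent.W719.BS.Stubs

/-!
# BS-ROT: the quarter turn of a homomorphism is a homomorphism
-/

set_option autoImplicit false

namespace Pool.Agent.W358.BSRot

open Matrix Finset Filter Topology Pool.Agent.H550R3.Jones Pool.Agent.W719.BS
open scoped Kronecker

section gen

variable {ι : Type} [Fintype ι] [DecidableEq ι]

theorem mulE (v : ℂ) (M : WM ι) (B : Matrix (ι × ι) (ι × ι) ℂ) (p : ι × ι) (k l : ι) :
    (B * (tens v M M).E) p (k, l) = (∑ k', B p (k', l) * (M.E k' k * v ^ (M.wt l))) +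
      ∑ l', B p (k, l') * M.E l' l := by
  simp only [Matrix.mul_apply, Fintype.sum_prod_type, tens, WM.K, Matrix.add_apply,
    Matrix.kroneckerMap_apply, Matrix.diagonal_apply, Matrix.one_apply, one_mul, mul_add,
    sum_add_distrib]
  congr 1
  · refine sum_congr rfl fun k' _ => ?_
    rw [sum_eq_single l]
    · simp
    · intro b _ hb; simp [hb]
    · simp
  · rw [sum_comm]
    refine sum_congr rfl fun y _ => ?_
    rw [sum_eq_single k]
    · simp
    · intro b _ hb; simp [hb]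
    · simp

theorem Emul (v : ℂ) (M : WM ι) (B : Matrix (ι × ι) (ι × ι) ℂ) (j m : ι) (q : ι × ι) :
    ((tens v M M).E * B) (j, m) q = (∑ j', M.E j j' * v ^ (M.wt m) * B (j', m) q) +
      ∑ m', M.E m m' * B (j, m') q := by
  simp only [Matrix.mul_apply, Fintype.sum_prod_type, tens, WM.K, Matrix.add_apply,
    Matrix.kroneckerMap_apply, Matrix.diagonal_apply, Matrix.one_apply, one_mul, add_mul,
    sum_add_distrib]
  congr 1
  · refine sum_congr rfl fun k' _ => ?_
    rw [sum_eq_single m]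
    · simp
    · intro b _ hb; simp [Ne.symm hb]
    · simp
  · rw [sum_comm]
    refine sum_congr rfl fun y _ => ?_
    rw [sum_eq_single j]
    · simp
    · intro b _ hb; simp [Ne.symm hb]
    · simp

theorem mulF (v : ℂ) (M : WM ι) (B : Matrix (ι × ι) (ι × ι) ℂ) (p : ι × ι) (k l : ι) :
    (B * (tens v M M).F) p (k, l) = (∑ k', B p (k', l) * M.F k' k) +
      ∑ l', B p (k, l') * (v ^ (-M.wt k) * M.F l' l) := by
  simp only [Matrix.mul_apply, Fintype.sum_prod_type, tens, WM.K, Matrix.add_apply,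
    Matrix.kroneckerMap_apply, Matrix.diagonal_apply, Matrix.one_apply, mul_add,
    sum_add_distrib]
  congr 1
  · refine sum_congr rfl fun k' _ => ?_
    rw [sum_eq_single l]
    · simp
    · intro b _ hb; simp [hb]
    · simp
  · rw [sum_comm]
    refine sum_congr rfl fun y _ => ?_
    rw [sum_eq_single k]
    · simp
    · intro b _ hb; simp [hb]
    · simp

theorem Fmul (v : ℂ) (M : WM ι) (B : Matrix (ι × ι) (ι × ι) ℂ) (j m : ι) (q : ι × ι) :
    ((tens v M M).F * B) (j, m) q = (∑ j', M.F j j' * B (j', m) q) +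
      ∑ m', v ^ (-M.wt j) * M.F m m' * B (j, m') q := by
  simp only [Matrix.mul_apply, Fintype.sum_prod_type, tens, WM.K, Matrix.add_apply,
    Matrix.kroneckerMap_apply, Matrix.diagonal_apply, Matrix.one_apply, add_mul,
    sum_add_distrib]
  congr 1
  · refine sum_congr rfl fun k' _ => ?_
    rw [sum_eq_single m]
    · simp
    · intro b _ hb; simp [Ne.symm hb]
    · simp
  · rw [sum_comm]
    refine sum_congr rfl fun y _ => ?_
    rw [sum_eq_single j]
    · simp
    · intro b _ hb; simp [Ne.symm hb]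
    · simp

/-- the quarter turn of a homomorphism, in general -/
theorem rotInt (v : ℂ) (hv : v ≠ 0) (M : WM ι) (σ : ι ≃ ι) (c : ι → ℂ)
    (hc : ∀ i, c i ≠ 0) (hw : ∀ i, M.wt (σ i) = -M.wt i)
    (hE : ∀ i j, M.E i j * c j = -(c i * v ^ (M.wt j) * M.E (σ j) (σ i)))
    (hF : ∀ i j, M.F i j * c j = -(c i * v ^ (-M.wt i) * M.F (σ j) (σ i)))
    (A : Matrix (ι × ι) (ι × ι) ℂ) (hA : IsInt (tens v M M) (tens v M M) A)
    (B : Matrix (ι × ι) (ι × ι) ℂ)
    (hB : ∀ p q, B p q = c p.1 / c q.2 * A (p.2, σ q.2) (σ p.1, q.1)) :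
    IsInt (tens v M M) (tens v M M) B := by
  have hE' : ∀ i j, M.E i j / c i = -(v ^ (M.wt j) * M.E (σ j) (σ i)) / c j := by
    intro i j
    rw [div_eq_div_iff (hc i) (hc j), hE]
    ring
  have hF' : ∀ i j, M.F i j / c i = -(v ^ (-M.wt i) * M.F (σ j) (σ i)) / c j := by
    intro i j
    rw [div_eq_div_iff (hc i) (hc j), hF]
    ring
  refine ⟨?_, ?_, ?_⟩
  · ext ⟨j, m⟩ ⟨k, l⟩
    have h := congrFun (congrFun hA.e (m, σ l)) (σ j, k)
    rw [mulE, Emul] at h
    rw [mulE, Emul]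
    simp only [hB]
    have t1 : (∑ k', (c j / c l * A (m, σ l) (σ j, k')) * (M.E k' k * v ^ (M.wt l))) =
        c j / c l * v ^ (M.wt l) * ∑ l', A (m, σ l) (σ j, l') * M.E l' k := by
      rw [mul_sum]
      refine sum_congr rfl fun x _ => by ring
    have t4 : (∑ m', M.E m m' * (c j / c l * A (m', σ l) (σ j, k))) =
        c j / c l * v ^ (M.wt l) *
          ∑ j', M.E m j' * v ^ (M.wt (σ l)) * A (j', σ l) (σ j, k) := by
      rw [mul_sum]
      refine sum_congr rfl fun x _ => ?_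
      have : v ^ (M.wt l) * v ^ (M.wt (σ l)) = 1 := by
        rw [← zpow_add₀ hv, hw]; simp
      linear_combination (-(c j / c l * M.E m x * A (x, σ l) (σ j, k))) * this
    have t2 : (∑ l', (c j / c l' * A (m, σ l') (σ j, k)) * M.E l' l) =
        -(c j / c l * v ^ (M.wt l) * ∑ m', M.E (σ l) m' * A (m, m') (σ j, k)) := by
      rw [← Equiv.sum_comp σ (fun m' => M.E (σ l) m' * A (m, m') (σ j, k)), mul_sum,
        ← sum_neg_distrib]
      refine sum_congr rfl fun x _ => ?_
      have := hE' x l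
      calc c j / c x * A (m, σ x) (σ j, k) * M.E x l
          = c j * A (m, σ x) (σ j, k) * (M.E x l / c x) := by ring
        _ = _ := by rw [this]; ring
    have t3 : (∑ j', M.E j j' * v ^ (M.wt m) * (c j' / c l * A (m, σ l) (σ j', k))) =
        -(c j / c l * v ^ (M.wt l) *
          ∑ k', A (m, σ l) (k', k) * (M.E k' (σ j) * v ^ (M.wt k))) := by
      rw [← Equiv.sum_comp σ (fun k' => A (m, σ l) (k', k) * (M.E k' (σ j) * v ^ (M.wt k))),
        mul_sum, ← sum_neg_distrib]
      refine sum_congr rfl fun x _ => ?_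
      by_cases ha : A (m, σ l) (σ x, k) = 0
      · simp [ha]
      have w := hA.k _ _ ha
      change M.wt m + M.wt (σ l) = M.wt (σ x) + M.wt k at w
      rw [hw, hw] at w
      have e : v ^ (M.wt m) * v ^ (M.wt x) = v ^ (M.wt l) * v ^ (M.wt k) := by
        rw [← zpow_add₀ hv, ← zpow_add₀ hv]
        congr 1
        omega
      calc M.E j x * v ^ (M.wt m) * (c x / c l * A (m, σ l) (σ x, k))
          = (M.E j x * c x) * v ^ (M.wt m) / c l * A (m, σ l) (σ x, k) := by ring
        _ = -(c j * (v ^ (M.wt m) * v ^ (M.wt x)) * M.E (σ x) (σ j)) / c l *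
            A (m, σ l) (σ x, k) := by rw [hE]; ring
        _ = _ := by rw [e]; ring
    rw [t1, t2, t3, t4]
    linear_combination (c j / c l * v ^ (M.wt l)) * h
  · ext ⟨j, m⟩ ⟨k, l⟩
    have h := congrFun (congrFun hA.f (m, σ l)) (σ j, k)
    rw [mulF, Fmul] at h
    rw [mulF, Fmul]
    simp only [hB]
    have t1 : (∑ k', (c j / c l * A (m, σ l) (σ j, k')) * M.F k' k) =
        c j / c l * v ^ (-M.wt j) *
          ∑ l', A (m, σ l) (σ j, l') * (v ^ (-M.wt (σ j)) * M.F l' k) := by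
      rw [mul_sum]
      refine sum_congr rfl fun x _ => ?_
      have : v ^ (-M.wt j) * v ^ (-M.wt (σ j)) = 1 := by
        rw [← zpow_add₀ hv, hw]; simp
      linear_combination (-(c j / c l * M.F x k * A (m, σ l) (σ j, x))) * this
    have t4 : (∑ m', v ^ (-M.wt j) * M.F m m' * (c j / c l * A (m', σ l) (σ j, k))) =
        c j / c l * v ^ (-M.wt j) * ∑ j', M.F m j' * A (j', σ l) (σ j, k) := by
      rw [mul_sum]
      refine sum_congr rfl fun x _ => by ring
    have t2 : (∑ l', (c j / c l' * A (m, σ l') (σ j, k)) * (v ^ (-M.wt k) * M.F l' l)) =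
        -(c j / c l * v ^ (-M.wt j) *
          ∑ m', v ^ (-M.wt m) * M.F (σ l) m' * A (m, m') (σ j, k)) := by
      rw [← Equiv.sum_comp σ (fun m' => v ^ (-M.wt m) * M.F (σ l) m' * A (m, m') (σ j, k)),
        mul_sum, ← sum_neg_distrib]
      refine sum_congr rfl fun x _ => ?_
      by_cases ha : A (m, σ x) (σ j, k) = 0
      · simp [ha]
      have w := hA.k _ _ ha
      change M.wt m + M.wt (σ x) = M.wt (σ j) + M.wt k at w
      rw [hw, hw] at w
      have e : v ^ (-M.wt k) * v ^ (-M.wt x) = v ^ (-M.wt j) * v ^ (-M.wt m) := by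
        rw [← zpow_add₀ hv, ← zpow_add₀ hv]
        congr 1
        omega
      calc c j / c x * A (m, σ x) (σ j, k) * (v ^ (-M.wt k) * M.F x l)
          = c j * A (m, σ x) (σ j, k) * v ^ (-M.wt k) * (M.F x l / c x) := by ring
        _ = -(c j * A (m, σ x) (σ j, k) * (v ^ (-M.wt k) * v ^ (-M.wt x)) *
            M.F (σ l) (σ x)) / c l := by rw [hF']; ring
        _ = _ := by rw [e]; ring
    have t3 : (∑ j', M.F j j' * (c j' / c l * A (m, σ l) (σ j', k))) =
        -(c j / c l * v ^ (-M.wt j) * ∑ k', A (m, σ l) (k', k) * M.F k' (σ j)) := by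
      rw [← Equiv.sum_comp σ (fun k' => A (m, σ l) (k', k) * M.F k' (σ j)),
        mul_sum, ← sum_neg_distrib]
      refine sum_congr rfl fun x _ => ?_
      calc M.F j x * (c x / c l * A (m, σ l) (σ x, k))
          = (M.F j x * c x) / c l * A (m, σ l) (σ x, k) := by ring
        _ = _ := by rw [hF]; ring
    rw [t1, t2, t3, t4]
    linear_combination (c j / c l * v ^ (-M.wt j)) * h
  · intro ⟨j, m⟩ ⟨k, l⟩ hij
    rw [hB] at hij
    have w := hA.k _ _ (right_ne_zero_of_mul hij)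
    change M.wt m + M.wt (σ l) = M.wt (σ j) + M.wt k at w
    change M.wt j + M.wt m = M.wt k + M.wt l
    rw [hw, hw] at w
    omega

end gen

theorem brf_succ' (v : ℂ) (m : ℕ) : brf v (m + 1) = brf v m * br v ((m : ℤ) + 1) := by
  unfold brf; rw [prod_range_succ]

theorem cup_succ (N : ℕ) (v : ℂ) (hv : v ≠ 0) (j : ℕ) (hj : j + 1 < N) :
    cup N v (j + 1) * br v ((N : ℤ) - 1 - j) =
      -(br v ((j : ℤ) + 1) * v ^ ((N : ℤ) - 1 - 2 * (j + 1)) * cup N v j) := by
  obtain ⟨m, rfl⟩ : ∃ m, N = j + 2 + m := ⟨N - (j + 2), by omega⟩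
  unfold cup
  have h1 : j + 2 + m - 1 - (j + 1) = m := by omega
  have h2 : j + 2 + m - 1 - j = m + 1 := by omega
  rw [h1, h2, brf_succ', brf_succ' v m, pow_succ]
  have e1 : (((j + 2 + m : ℕ) : ℤ) - 1 - (j : ℤ)) = (m : ℤ) + 1 := by push_cast; ring
  rw [e1]
  have e2 : v ^ (((j + 1 : ℕ) : ℤ) * (((j + 2 + m : ℕ) : ℤ) - 2 - ((j + 1 : ℕ) : ℤ))) =
      v ^ (((j + 2 + m : ℕ) : ℤ) - 1 - 2 * ((j : ℤ) + 1)) *
        v ^ ((j : ℤ) * (((j + 2 + m : ℕ) : ℤ) - 2 - (j : ℤ))) := by
    rw [← zpow_add₀ hv]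
    congr 1
    push_cast
    ring
  rw [e2]
  ring

theorem brf_ne' {N : ℕ} {v : ℂ} (hb : ∀ k : ℕ, 0 < k → k < N → br v k ≠ 0) (j : ℕ) (hj : j < N) :
    brf v j ≠ 0 := by
  unfold brf
  refine Finset.prod_ne_zero_iff.mpr fun i hi => ?_
  rw [mem_range] at hi
  have := hb (i + 1) (by omega) (by omega)
  simpa using this

theorem rot : S_ROT := by
  intro N v hv hb A hA
  have hcup : ∀ i : Fin N, cup N v i ≠ 0 := by
    intro i
    unfold cup
    have := i.2
    refine mul_ne_zero (mul_ne_zero (pow_ne_zero _ (by norm_num))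
      (mul_ne_zero (brf_ne' hb _ i.2) (brf_ne' hb _ (by omega)))) (zpow_ne_zero _ hv)
  refine rotInt v hv (irr v N) Fin.revPerm (fun i => cup N v i) hcup
    ?_ ?_ ?_ A hA (Pool.Agent.W719.BS.rot N v A) (fun p q => by simp [Pool.Agent.W719.BS.rot])
  · intro i
    simp only [irr, Fin.revPerm_apply, Fin.val_rev]
    have := i.2
    omega
  · intro i j
    simp only [irr, Fin.revPerm_apply, Fin.val_rev]
    have hi := i.2
    have hj := j.2
    by_cases h : (j : ℕ) = i + 1
    · rw [if_pos h, if_pos (by omega)]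
      have := cup_succ N v hv i (by omega)
      rw [h]
      have e1 : ((N : ℤ) - ((i + 1 : ℕ) : ℤ)) = (N : ℤ) - 1 - (i : ℕ) := by push_cast; ring
      have e2 : ((N : ℤ) - ((N - (i + 1) : ℕ) : ℤ)) = ((i : ℕ) : ℤ) + 1 := by omega
      rw [e1, e2]
      push_cast
      linear_combination this
    · rw [if_neg h, if_neg (by omega)]
      simp
  · intro i j
    simp only [irr, Fin.revPerm_apply, Fin.val_rev]
    have hi := i.2
    have hj := j.2
    by_cases h : (i : ℕ) = j + 1
    · rw [if_pos h, if_pos (by omega)]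
      have := cup_succ N v hv j (by omega)
      rw [h]
      have e2 : (((N - (j + 1) : ℕ) : ℤ)) = (N : ℤ) - 1 - (j : ℕ) := by omega
      rw [e2]
      have e3 : v ^ ((N : ℤ) - 1 - 2 * ((j : ℕ) + 1)) *
          v ^ (-((N : ℤ) - 1 - 2 * (((j + 1 : ℕ)) : ℤ))) = 1 := by
        rw [← zpow_add₀ hv]
        push_cast
        simp
      push_cast at e3 ⊢
      linear_combination (v ^ (-((N : ℤ) - 1 - 2 * (((j : ℕ) : ℤ) + 1)))) * this -
        (br v ((j : ℕ) + 1) * cup N v j) * e3
    · rw [if_neg h, if_neg (by omega)]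
      simp

end Pool.Agent.W358.BSRot
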