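import Pool.Agent.W719.BS.Stubs
import Pool.Agent.H776R3.GapVol.Riemann

/-!
# BS-TAY: second order expansion of `LL`
-/

set_option autoImplicit false

namespace Pool.Agent.W358.BSTay

open Filter Topology Pool.Agent.W719.BS Set

/-- the integrand -/
noncomputable def gg (t : ℝ) : ℝ := Real.log (2 * Real.sin (Real.pi * t))

theorem gg_int (a b : ℝ) : IntervalIntegrable gg MeasureTheory.volume a b := by
  have h1 := (GapVol.g_int (Real.pi * a) (Real.pi * b)).comp_mul_left (c := Real.pi)
  have hpi := Real.pi_pos.ne'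
  rw [mul_div_cancel_left₀ _ hpi, mul_div_cancel_left₀ _ hpi] at h1
  have h2 : gg = fun x => -(GapVol.g (Real.pi * x)) := by
    funext x
    unfold gg GapVol.g
    rw [neg_neg]
  rw [h2]
  exact h1.neg

theorem LL_sub (x e : ℝ) : LL (x + e) - LL x = ∫ t in x..(x + e), gg t := by
  unfold LL
  exact intervalIntegral.integral_interval_sub_left (gg_int _ _) (gg_int _ _)

theorem gg_deriv (y : ℝ) (h0 : 0 < y) (h1 : y < 1) :
    HasDerivAt gg (Real.pi * Real.cos (Real.pi * y) / Real.sin (Real.pi * y)) y := by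
  have hpi := Real.pi_pos
  have hs : 0 < Real.sin (Real.pi * y) := Real.sin_pos_of_pos_of_lt_pi (by nlinarith) (by nlinarith)
  have h1 : HasDerivAt (fun t : ℝ => Real.pi * t) Real.pi y := by
    simpa using (hasDerivAt_id y).const_mul Real.pi
  have h2 := ((h1.sin).const_mul 2).log (by positivity)
  refine h2.congr_deriv ?_
  have := hs.ne'
  field_simp

theorem LL_taylor (x : ℝ) (h0 : 0 < x) (h1 : x < 1) (ε : ℝ) (hε : 0 < ε) :
    ∃ δ : ℝ, 0 < δ ∧ ∀ e : ℝ, |e| < δ → |LL (x + e) - LL x - gg x * e -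
      Real.pi * Real.cos (Real.pi * x) / Real.sin (Real.pi * x) / 2 * e ^ 2| ≤ ε * e ^ 2 := by
  set c := Real.pi * Real.cos (Real.pi * x) / Real.sin (Real.pi * x) with hc
  have hd := gg_deriv x h0 h1
  have h2 := hasDerivAt_iff_isLittleO.1 hd
  have h3 := h2.def hε
  obtain ⟨δ, hδ, h4⟩ := Metric.eventually_nhds_iff.1 h3
  refine ⟨δ, hδ, fun e he => ?_⟩
  have h5 : LL (x + e) - LL x - gg x * e - c / 2 * e ^ 2 =
      ∫ t in x..(x + e), (gg t - gg x - (t - x) • c) := by
    rw [intervalIntegral.integral_sub, intervalIntegral.integral_sub (gg_int _ _)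
      (intervalIntegrable_const), ← LL_sub, intervalIntegral.integral_const,
      intervalIntegral.integral_smul_const]
    · have h6 : ∫ t in x..(x + e), (t - x) = e ^ 2 / 2 := by
        rw [intervalIntegral.integral_comp_sub_right (fun t => t) x, integral_id]
        ring
      rw [h6]
      simp only [smul_eq_mul]
      ring
    · exact (gg_int _ _).sub intervalIntegrable_const
    · apply Continuous.intervalIntegrable
      fun_prop
  rw [h5]
  have h6 : ∀ t ∈ Set.uIoc x (x + e), ‖gg t - gg x - (t - x) • c‖ ≤ ε * |e| := by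
    intro t ht
    have ht2 : |t - x| ≤ |e| := by
      have := Set.abs_sub_left_of_mem_uIcc (Set.uIoc_subset_uIcc ht)
      rw [show x + e - x = e by ring] at this
      exact this
    have h7 := h4 (y := t) (by rw [Real.dist_eq]; exact lt_of_le_of_lt ht2 he)
    refine h7.trans ?_
    rw [Real.norm_eq_abs]
    exact mul_le_mul_of_nonneg_left ht2 hε.le
  have h7 := intervalIntegral.norm_integral_le_of_norm_le_const h6
  rw [Real.norm_eq_abs, show x + e - x = e by ring] at h7
  refine h7.trans (le_of_eq ?_)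
  rw [mul_assoc, ← abs_mul, ← sq, abs_of_nonneg (sq_nonneg e)]

theorem tay : S_TAY := by
  intro x hx0 hx1 h s hs
  set c := Real.pi * Real.cos (Real.pi * x) / Real.sin (Real.pi * x) with hc
  have e0 : Real.pi * Real.cos (Real.pi * x) / (2 * Real.sin (Real.pi * x)) * s ^ 2 = c / 2 * s ^ 2 := by
    rw [hc, div_div, mul_comm (Real.sin (Real.pi * x)) 2]
  rw [e0]
  have hsq : Tendsto (fun N : ℕ => √(N : ℝ)) atTop atTop :=
    Real.tendsto_sqrt_atTop.comp tendsto_natCast_atTop_atTop
  have he : Tendsto (fun N : ℕ => h N / √N) atTop (𝓝 0) := by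
    have := hs.mul (tendsto_inv_atTop_zero.comp hsq)
    simpa [div_eq_mul_inv] using this
  have hmain : Tendsto (fun N : ℕ => ((N : ℝ) * (LL (x + h N / √N) - LL x) - √N * gg x * h N) -
      c / 2 * h N ^ 2) atTop (𝓝 0) := by
    rw [Metric.tendsto_nhds]
    intro r hr
    obtain ⟨δ, hδ, hT⟩ := LL_taylor x hx0 hx1 (r / (2 * ((|s| + 1) ^ 2))) (by positivity)
    have h1 : ∀ᶠ N : ℕ in atTop, |h N / √N| < δ := by
      have := (Metric.tendsto_nhds.1 he) δ hδ
      filter_upwards [this] with N hN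
      rwa [dist_zero_right, Real.norm_eq_abs] at hN
    have h2 : ∀ᶠ N : ℕ in atTop, |h N| < |s| + 1 := by
      exact hs.abs.eventually (gt_mem_nhds (show |s| < |s| + 1 by linarith))
    filter_upwards [h1, h2, eventually_ge_atTop 1] with N h1 h2 hN
    have hN0 : (0 : ℝ) < N := by exact_mod_cast hN
    have hsN : 0 < √(N : ℝ) := Real.sqrt_pos.2 hN0
    have hss : √(N : ℝ) * √(N : ℝ) = N := Real.mul_self_sqrt hN0.le
    have h3 := hT _ h1
    rw [dist_zero_right, Real.norm_eq_abs]
    have e1 : ((N : ℝ) * (LL (x + h N / √N) - LL x) - √N * gg x * h N) - c / 2 * h N ^ 2 =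
        N * (LL (x + h N / √N) - LL x - gg x * (h N / √N) - c / 2 * (h N / √N) ^ 2) := by
      have e2 : (N : ℝ) * (h N / √N) = √N * h N := by
        calc (N : ℝ) * (h N / √N) = (√(N : ℝ) * √(N : ℝ)) * (h N / √N) := by rw [hss]
          _ = √N * h N := by field_simp
      have e3 : (N : ℝ) * (h N / √N) ^ 2 = h N ^ 2 := by
        rw [div_pow, Real.sq_sqrt hN0.le]; field_simp
      linear_combination gg x * e2 + c / 2 * e3
    rw [e1, abs_mul, abs_of_pos hN0]
    have e3 : (N : ℝ) * (h N / √N) ^ 2 = h N ^ 2 := by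
      rw [div_pow, Real.sq_sqrt hN0.le]; field_simp
    calc (N : ℝ) * |LL (x + h N / √N) - LL x - gg x * (h N / √N) - c / 2 * (h N / √N) ^ 2|
        ≤ N * (r / (2 * ((|s| + 1) ^ 2)) * (h N / √N) ^ 2) := by gcongr
      _ = r / (2 * ((|s| + 1) ^ 2)) * (h N) ^ 2 := by rw [← e3]; ring
      _ ≤ r / (2 * ((|s| + 1) ^ 2)) * (|s| + 1) ^ 2 := by
          refine mul_le_mul_of_nonneg_left ?_ (by positivity)
          rw [← sq_abs]
          exact pow_le_pow_left₀ (abs_nonneg _) h2.le 2
      _ = r / 2 := by field_simp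
      _ < r := by linarith
  have hlim2 : Tendsto (fun N : ℕ => c / 2 * h N ^ 2) atTop (𝓝 (c / 2 * s ^ 2)) :=
    (hs.pow 2).const_mul _
  have := hmain.add hlim2
  rw [zero_add] at this
  refine this.congr fun N => ?_
  unfold gg
  ring

end Pool.Agent.W358.BSTay
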