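import Pool.Agent.W719.BS.Stubs
import Pool.Agent.H550R3.Jones.Main

/-!
# BS-VEC: scalars, lowest and highest weight vectors in `V ⊗ V`
-/

set_option autoImplicit false

namespace Pool.Agent.W358.BSVec

open Matrix Finset Filter Topology Pool.Agent.H550R3.Jones Pool.Agent.W719.BS
open Pool.Agent.H897R.J
open scoped Kronecker

theorem comp {ι κ μ : Type} [Fintype ι] [DecidableEq ι] [Fintype κ] [DecidableEq κ]
    [Fintype μ] [DecidableEq μ] {M : WM ι} {M' : WM κ} {M'' : WM μ} {φ : Matrix κ ι ℂ}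
    {A : Matrix μ κ ℂ} (hφ : IsInt M M' φ) (hA : IsInt M' M'' A) : IsInt M M'' (A * φ) := by
  refine ⟨?_, ?_, ?_⟩
  · rw [Matrix.mul_assoc, hφ.e, ← Matrix.mul_assoc, hA.e, Matrix.mul_assoc]
  · rw [Matrix.mul_assoc, hφ.f, ← Matrix.mul_assoc, hA.f, Matrix.mul_assoc]
  · intro i j hij
    rw [Matrix.mul_apply] at hij
    obtain ⟨l, _, hl⟩ := Finset.exists_ne_zero_of_sum_ne_zero hij
    rw [hA.k i l (left_ne_zero_of_mul hl), hφ.k l j (right_ne_zero_of_mul hl)]

theorem smulInt {ι κ : Type} [Fintype ι] [DecidableEq ι] [Fintype κ] [DecidableEq κ]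
    {M : WM ι} {M' : WM κ} {φ : Matrix κ ι ℂ}
    (hφ : IsInt M M' φ) (r : ℂ) : IsInt M M' (r • φ) := by
  refine ⟨?_, ?_, ?_⟩
  · rw [Matrix.smul_mul, Matrix.mul_smul, hφ.e]
  · rw [Matrix.smul_mul, Matrix.mul_smul, hφ.f]
  · intro i j hij
    rw [Matrix.smul_apply, smul_eq_mul] at hij
    exact hφ.k i j (right_ne_zero_of_mul hij)

theorem cc_cast (N : ℕ) (d : Fin N) : ((cc N d : ℕ) : ℤ) = 2 * N - 1 - 2 * (d : ℕ) := by
  have := d.2; unfold cc; omega

theorem cc_pos (N : ℕ) (d : Fin N) : 0 < cc N d := by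
  have := d.2; unfold cc; omega

/-- column zero of a homomorphism is a multiple of the highest weight vector -/
theorem hw {u : ℂ} (hg : Gen u) {N : ℕ} (d : Fin N)
    (Y : Matrix (Fin N × Fin N) (Fin (cc N d)) ℂ)
    (hY : IsInt (irr (u ^ 2) (cc N d)) (W (u ^ 2) N) Y) :
    ∃ c : ℂ, ∀ p, ∀ j : Fin (cc N d), (j : ℕ) = 0 → Y p j = c * X (u ^ 2) N d p := by
  have h0 : (W (u ^ 2) N).E *ᵥ (fun p => Y p ⟨0, cc_pos N d⟩) = 0 := by
    ext p
    have h1 := congrFun (congrFun hY.e p) ⟨0, cc_pos N d⟩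
    rw [Matrix.mul_apply, Matrix.mul_apply] at h1
    rw [mulVec, dotProduct, Pi.zero_apply, ← h1]
    refine Finset.sum_eq_zero fun k _ => ?_
    have : ¬ (0 = (k : ℕ) + 1) := by omega
    simp only [irr, if_neg this, mul_zero]
  have hx : ∀ p, (fun p => Y p ⟨0, cc_pos N d⟩) p ≠ 0 → (p.1 : ℕ) + p.2 = d := by
    intro p hp
    have h1 := hY.k _ _ hp
    rw [W_wt, irr_wt, cc_cast] at h1
    push_cast at h1
    omega
  have h2 := X_uniq hg d.2 hx h0
  refine ⟨Y (⟨0, by have := d.2; omega⟩, ⟨d, d.2⟩) ⟨0, cc_pos N d⟩, fun p j hj => ?_⟩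
  have h3 : j = ⟨0, cc_pos N d⟩ := Fin.ext hj
  subst h3
  exact congrFun h2 p

/-- two homomorphisms agreeing on column zero are equal -/
theorem homExt {u : ℂ} (hg : Gen u) {N : ℕ} (d : Fin N)
    (Y Z : Matrix (Fin N × Fin N) (Fin (cc N d)) ℂ)
    (hY : IsInt (irr (u ^ 2) (cc N d)) (W (u ^ 2) N) Y)
    (hZ : IsInt (irr (u ^ 2) (cc N d)) (W (u ^ 2) N) Z)
    (h : ∀ p, ∀ j : Fin (cc N d), (j : ℕ) = 0 → Y p j = Z p j) : Y = Z := by
  have key : ∀ n : ℕ, ∀ p, ∀ j : Fin (cc N d), (j : ℕ) = n → Y p j = Z p j := by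
    intro n
    induction n with
    | zero => exact h
    | succ n ih =>
      intro p j hj
      have hn : n < cc N d := by have := j.2; omega
      have hcol : ∀ V : Matrix (Fin N × Fin N) (Fin (cc N d)) ℂ,
          IsInt (irr (u ^ 2) (cc N d)) (W (u ^ 2) N) V →
          V p j * br (u ^ 2) ((n : ℤ) + 1) = ∑ q, (W (u ^ 2) N).F p q * V q ⟨n, hn⟩ := by
        intro V hV
        have h1 := congrFun (congrFun hV.f p) ⟨n, hn⟩
        rw [Matrix.mul_apply, Matrix.mul_apply] at h1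
        rw [← h1, Finset.sum_eq_single j]
        · simp only [irr, if_pos hj]
          rw [hj]; push_cast; rfl
        · intro k _ hk
          have : ¬ ((k : ℕ) = n + 1) := by
            intro h; apply hk; apply Fin.ext; omega
          simp only [irr, if_neg this, mul_zero]
        · intro h; exact absurd (Finset.mem_univ _) h
      have h2 : Y p j * br (u ^ 2) ((n : ℤ) + 1) = Z p j * br (u ^ 2) ((n : ℤ) + 1) := by
        rw [hcol Y hY, hcol Z hZ]
        exact Finset.sum_congr rfl fun q _ => by rw [ih q _ rfl]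
      exact mul_right_cancel₀ (gen_br hg (by omega)) h2
  ext p j
  exact key j p j rfl

theorem WF_apply (v : ℂ) (N : ℕ) (x : Fin N × Fin N → ℂ) (a b : ℕ) (ha : a + 1 < N)
    (hb : b + 1 < N) :
    ((W v N).F *ᵥ x) (⟨a + 1, ha⟩, ⟨b + 1, hb⟩) =
      br v ((a : ℤ) + 1) * x (⟨a, by omega⟩, ⟨b + 1, hb⟩) +
      v ^ (-((N : ℤ) - 1 - 2 * ((a : ℤ) + 1))) * br v ((b : ℤ) + 1) *
        x (⟨a + 1, ha⟩, ⟨b, by omega⟩) := by
  rw [W, tens]
  simp only [add_mulVec, Pi.add_apply]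
  congr 1
  · rw [mulVec, dotProduct, Fintype.sum_prod_type, Finset.sum_eq_single ⟨a, by omega⟩]
    · rw [Finset.sum_eq_single ⟨b + 1, hb⟩]
      · rw [kroneckerMap_apply]
        simp [irr]
      · intro z _ hz
        simp only [kroneckerMap_apply, one_apply, if_neg (Ne.symm hz)]; ring
      · intro h; exact absurd (Finset.mem_univ _) h
    · intro y _ hy
      refine Finset.sum_eq_zero fun z _ => ?_
      have : ¬ (a + 1 = (y : ℕ) + 1) := by
        intro h; apply hy; apply Fin.ext; simp only; omega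
      rw [kroneckerMap_apply]
      simp only [irr, if_neg this]; ring
    · intro h; exact absurd (Finset.mem_univ _) h
  · rw [mulVec, dotProduct, Fintype.sum_prod_type, Finset.sum_eq_single ⟨a + 1, ha⟩]
    · rw [Finset.sum_eq_single ⟨b, by omega⟩]
      · rw [kroneckerMap_apply]
        simp [irr, WM.K]
      · intro z _ hz
        have : ¬ (b + 1 = (z : ℕ) + 1) := by
          intro h; apply hz; apply Fin.ext; simp only; omega
        rw [kroneckerMap_apply]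
        simp only [irr, if_neg this]; ring
      · intro h; exact absurd (Finset.mem_univ _) h
    · intro y _ hy
      refine Finset.sum_eq_zero fun z _ => ?_
      simp only [kroneckerMap_apply, WM.K, diagonal_apply, if_neg (Ne.symm hy)]; ring
    · intro h; exact absurd (Finset.mem_univ _) h

/-- the closed form of the coordinates of the lowest weight vector -/
noncomputable def H (v : ℂ) (N : ℕ) (a b : ℕ) : ℂ :=
  (-1) ^ a * (brf v a * brf v b) * v ^ (((N : ℤ) - 2) * a - (a : ℤ) ^ 2)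

theorem H_ne {u : ℂ} (hg : Gen u) (N a b : ℕ) : H (u ^ 2) N a b ≠ 0 :=
  mul_ne_zero (mul_ne_zero (pow_ne_zero _ (by norm_num)) (mul_ne_zero (brf_ne hg _) (brf_ne hg _)))
    (zpow_ne_zero _ (gen_v hg))

theorem H_rec {v : ℂ} (hv : v ≠ 0) (N a b : ℕ) :
    H v N (a + 1) b * br v ((b : ℤ) + 1) =
      -(br v ((a : ℤ) + 1) * v ^ ((N : ℤ) - 1 - 2 * ((a : ℤ) + 1)) * H v N a (b + 1)) := by
  unfold H
  rw [brf_succ, brf_succ v b, pow_succ]
  have e : v ^ (((N : ℤ) - 2) * ((a + 1 : ℕ) : ℤ) - (((a + 1 : ℕ)) : ℤ) ^ 2) =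
      v ^ ((N : ℤ) - 1 - 2 * ((a : ℤ) + 1)) * v ^ (((N : ℤ) - 2) * a - (a : ℤ) ^ 2) := by
    rw [← zpow_add₀ hv]
    congr 1
    push_cast
    ring
  rw [e]
  ring

/-- the closed form of the coordinates of the highest weight vector -/
noncomputable def G (v : ℂ) (N d : ℕ) (a b : ℕ) : ℂ :=
  (-1) ^ a * (brf v (N - 1 - a) * brf v (N - 1 - b)) *
    v ^ ((2 * (d : ℤ) - N) * a - (a : ℤ) ^ 2)

theorem G_ne {u : ℂ} (hg : Gen u) (N d a b : ℕ) : G (u ^ 2) N d a b ≠ 0 :=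
  mul_ne_zero (mul_ne_zero (pow_ne_zero _ (by norm_num)) (mul_ne_zero (brf_ne hg _) (brf_ne hg _)))
    (zpow_ne_zero _ (gen_v hg))

theorem G_rec {v : ℂ} (hv : v ≠ 0) (N d a : ℕ) (hd : d < N) (ha : a + 1 ≤ d) :
    G v N d (a + 1) (d - (a + 1)) * br v ((N : ℤ) - (a + 1)) =
      -(br v ((N : ℤ) - d + a) * v ^ (-((N : ℤ) - 1 - 2 * ((d : ℤ) - 1 - a))) *
        G v N d a (d - a)) := by
  obtain ⟨b, rfl⟩ : ∃ b, d = a + 1 + b := ⟨d - (a + 1), by omega⟩
  obtain ⟨m, rfl⟩ : ∃ m, N = a + 1 + b + 1 + m := ⟨N - (a + 1 + b + 1), by omega⟩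
  unfold G
  have h1 : a + 1 + b + 1 + m - 1 - (a + 1) = b + m := by omega
  have h2 : a + 1 + b - (a + 1) = b := by omega
  have h3 : a + 1 + b + 1 + m - 1 - b = a + m + 1 := by omega
  have h4 : a + 1 + b + 1 + m - 1 - a = b + m + 1 := by omega
  have h5 : a + 1 + b - a = b + 1 := by omega
  have h6 : a + 1 + b + 1 + m - 1 - (b + 1) = a + m := by omega
  rw [h1, h2, h3, h4, h5, h6, brf_succ, brf_succ, pow_succ]
  have e : v ^ ((2 * ((a + 1 + b : ℕ) : ℤ) - ((a + 1 + b + 1 + m : ℕ) : ℤ)) * ((a + 1 : ℕ) : ℤ) -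
      ((a + 1 : ℕ) : ℤ) ^ 2) =
      v ^ (-(((a + 1 + b + 1 + m : ℕ) : ℤ) - 1 - 2 * (((a + 1 + b : ℕ) : ℤ) - 1 - a))) *
      v ^ ((2 * ((a + 1 + b : ℕ) : ℤ) - ((a + 1 + b + 1 + m : ℕ) : ℤ)) * (a : ℤ) -
        (a : ℤ) ^ 2) := by
    rw [← zpow_add₀ hv]
    congr 1
    push_cast
    ring
  rw [e]
  have e1 : ((a + 1 + b + 1 + m : ℕ) : ℤ) - ((a : ℤ) + 1) = ((b + m : ℕ) : ℤ) + 1 := by
    push_cast; ring
  have e2 : ((a + 1 + b + 1 + m : ℕ) : ℤ) - ((a + 1 + b : ℕ) : ℤ) + a = ((a + m : ℕ) : ℤ) + 1 := by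
    push_cast; ring
  rw [e1, e2]
  ring

theorem hc_eq {u : ℂ} (hg : Gen u) (N d : ℕ) (hd : d < N) (a : ℕ) (ha : a ≤ d) :
    hc (u ^ 2) N d a * G (u ^ 2) N d 0 d = G (u ^ 2) N d a (d - a) := by
  induction a with
  | zero => simp [hc]
  | succ a ih =>
    have h1 := G_rec (gen_v hg) N d a hd ha
    have h2 : br (u ^ 2) ((N : ℤ) - ((a : ℤ) + 1)) ≠ 0 := gen_br hg (by omega)
    refine mul_right_cancel₀ h2 ?_
    rw [h1, ← ih (by omega)]
    simp only [hc]
    field_simp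

theorem vec : S_VEC := by
  intro u hg N φ ψ hD d
  have hcol : ∀ j : Fin (cc N d), ∃ p, φ d p j ≠ 0 := by
    intro j
    by_contra hcon
    push Not at hcon
    have h1 := congrFun (congrFun (hD.one d) j) j
    rw [Matrix.mul_apply, Matrix.one_apply_eq, Finset.sum_eq_zero fun p _ => by
      rw [hcon p, mul_zero]] at h1
    exact zero_ne_one h1
  obtain ⟨c, hc1⟩ := hw hg d (φ d) (hD.phi d)
  have hc0 : c ≠ 0 := by
    rintro rfl
    obtain ⟨p, hp⟩ := hcol ⟨0, cc_pos N d⟩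
    exact hp (by rw [hc1 p _ rfl, zero_mul])
  refine ⟨?_, ?_, ?_⟩
  · intro A hA
    obtain ⟨b, hb1⟩ := hw hg d (A * φ d) (comp (hD.phi d) hA)
    refine ⟨b / c, homExt hg d _ _ (comp (hD.phi d) hA) (smulInt (hD.phi d) _) ?_⟩
    intro p j hj
    rw [hb1 p j hj, Matrix.smul_apply, smul_eq_mul, hc1 p j hj]
    field_simp
  · -- the lowest weight vector
    have hlast : cc N d - 1 < cc N d := by have := cc_pos N d; omega
    set J : Fin (cc N d) := ⟨cc N d - 1, hlast⟩ with hJ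
    have hwt : ∀ p : Fin N × Fin N, φ d p J ≠ 0 → (p.1 : ℕ) + p.2 + d + 2 = 2 * N := by
      intro p hp
      have h1 := (hD.phi d).k _ _ hp
      rw [W_wt, irr_wt] at h1
      have h2 := cc_cast N d
      have h3 := cc_pos N d
      have h4 : ((J : ℕ) : ℤ) = (cc N d : ℤ) - 1 := by rw [hJ]; simp only; omega
      rw [h4] at h1
      omega
    have hF : (W (u ^ 2) N).F *ᵥ (fun p => φ d p J) = 0 := by
      ext p
      have h1 := congrFun (congrFun (hD.phi d).f p) J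
      rw [Matrix.mul_apply, Matrix.mul_apply] at h1
      rw [mulVec, dotProduct, Pi.zero_apply, ← h1]
      refine Finset.sum_eq_zero fun k _ => ?_
      have : ¬ ((k : ℕ) = (J : ℕ) + 1) := by rw [hJ]; simp only; have := k.2; omega
      simp only [irr, if_neg this, mul_zero]
    have hd := d.2
    have key : ∀ i : ℕ, ∀ hi : i ≤ (d : ℕ), φ d (⟨N - 1 - d + i, by omega⟩, ⟨N - 1 - i, by omega⟩) J
        = φ d (⟨N - 1 - d, by omega⟩, ⟨N - 1, by omega⟩) J /
            H (u ^ 2) N (N - 1 - d) (N - 1) * H (u ^ 2) N (N - 1 - d + i) (N - 1 - i) := by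
      intro i
      induction i with
      | zero =>
        intro _
        exact (div_mul_cancel₀ (φ d (⟨N - 1 - d, by omega⟩, ⟨N - 1, by omega⟩) J)
          (H_ne hg N (N - 1 - d) (N - 1))).symm
      | succ i ih =>
        intro hi
        have h1 := congrFun hF (⟨N - 1 - d + i + 1, by omega⟩, ⟨N - 1 - (i + 1) + 1, by omega⟩)
        rw [WF_apply, Pi.zero_apply] at h1
        have h2 := H_rec (gen_v hg) N (N - 1 - d + i) (N - 1 - (i + 1))
        have h3 := ih (by omega)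
        have h4 : N - 1 - (i + 1) + 1 = N - 1 - i := by omega
        simp only [h4] at h1 h2
        rw [h3] at h1
        have h5 : br (u ^ 2) (((N - 1 - (i + 1) : ℕ) : ℤ) + 1) ≠ 0 := gen_br hg (by omega)
        refine mul_right_cancel₀ h5 ?_
        have e : (u ^ 2) ^ ((N : ℤ) - 1 - 2 * (((N - 1 - d + i : ℕ) : ℤ) + 1)) *
          (u ^ 2) ^ (-((N : ℤ) - 1 - 2 * (((N - 1 - d + i : ℕ) : ℤ) + 1))) = 1 := by
          rw [← zpow_add₀ (gen_v hg)]; simp
        have h6 : N - 1 - (d : ℕ) + (i + 1) = N - 1 - d + i + 1 := by omega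
        simp only [h6]
        generalize (u ^ 2) ^ ((N : ℤ) - 1 - 2 * (((N - 1 - d + i : ℕ) : ℤ) + 1)) = α at *
        generalize (u ^ 2) ^ (-((N : ℤ) - 1 - 2 * (((N - 1 - d + i : ℕ) : ℤ) + 1))) = β at *
        generalize φ d (⟨N - 1 - d, by omega⟩, ⟨N - 1, by omega⟩) J /
            H (u ^ 2) N (N - 1 - d) (N - 1) = γ at *
        generalize br (u ^ 2) (((N - 1 - (i + 1) : ℕ) : ℤ) + 1) = δ at *
        generalize br (u ^ 2) (((N - 1 - d + i : ℕ) : ℤ) + 1) = ε at *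
        linear_combination α * h1 - γ * h2 -
          δ * φ d (⟨N - 1 - d + i + 1, by omega⟩, ⟨N - 1 - (i + 1), by omega⟩) J * e
    refine ⟨φ d (⟨N - 1 - d, by omega⟩, ⟨N - 1, by omega⟩) J /
            H (u ^ 2) N (N - 1 - d) (N - 1), ?_, ?_⟩
    · intro h0
      obtain ⟨p, hp⟩ := hcol J
      have h1 := hwt p hp
      have h2 := p.1.2
      have h3 := p.2.2
      have h4 := key ((p.1 : ℕ) - (N - 1 - d)) (by omega)
      rw [h0, zero_mul] at h4
      have h5 : N - 1 - (d : ℕ) + ((p.1 : ℕ) - (N - 1 - d)) = p.1 := by omega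
      have h6 : N - 1 - ((p.1 : ℕ) - (N - 1 - d)) = p.2 := by omega
      simp only [h5, h6] at h4
      exact hp h4
    · intro p j hj
      have hjJ : j = J := by apply Fin.ext; rw [hJ]; simp only; omega
      subst hjJ
      split_ifs with hp
      · have h2 := p.1.2
        have h3 := p.2.2
        have h4 := key ((p.1 : ℕ) - (N - 1 - d)) (by omega)
        have h5 : N - 1 - (d : ℕ) + ((p.1 : ℕ) - (N - 1 - d)) = p.1 := by omega
        have h6 : N - 1 - ((p.1 : ℕ) - (N - 1 - d)) = p.2 := by omega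
        simp only [h5, h6] at h4
        exact h4
      · by_contra hne
        exact hp (hwt p hne)
  · refine ⟨c / G (u ^ 2) N d 0 d, div_ne_zero hc0 (G_ne hg _ _ _ _), ?_⟩
    intro p j hj
    rw [hc1 p j hj]
    unfold X
    split_ifs with hp
    · have h1 := hc_eq hg N d d.2 p.1 (by omega)
      have h2 : (d : ℕ) - p.1 = p.2 := by omega
      rw [h2] at h1
      have h3 := G_ne hg N d 0 d
      rw [div_mul_eq_mul_div, eq_div_iff h3]
      have h4 : G (u ^ 2) N d p.1 p.2 = ((-1) ^ (p.1 : ℕ) * (brf (u ^ 2) (N - 1 - p.1) *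
        brf (u ^ 2) (N - 1 - p.2)) * (u ^ 2) ^ ((2 * (d : ℕ) - (N : ℤ)) * (p.1 : ℕ) -
          (p.1 : ℕ) ^ 2)) := rfl
      rw [← h4, ← h1]
      ring
    · simp

end Pool.Agent.W358.BSVec
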