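import Mathlib
import Pool.Agent.W553.RCD.Stmts2

/-!
# Derivative and determinant of the exponential map along a vector field (task K10 of helper553)
-/

set_option autoImplicit false

open Set Filter Topology Real Matrix
open Pool.Agent.W553.RCD (E3 sn Fmap frame frameMatrix M)

namespace Pool.Agent.W358.ExpDet

variable {Y : Type} [NormedAddCommGroup Y] [NormedSpace ℝ Y]

/-- derivative of one factor -/
noncomputable def Lfac (s θ : ℝ) (z e : E3) (X' w' : Y →L[ℝ] E3) : Y →L[ℝ] E3 :=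
  Real.cos (s * θ) • X' + sn s θ • w' +
    ((s * Real.cos (s * θ) - sn s θ) • ((innerSL ℝ e).comp w') +
      Real.sin (s * θ) • ((innerSL ℝ z).comp X')).smulRight e -
    ((s * Real.sin (s * θ)) • ((innerSL ℝ e).comp w')).smulRight z

theorem Lfac_apply (s θ : ℝ) (z e : E3) (X' w' : Y →L[ℝ] E3) (h : Y) :
    Lfac s θ z e X' w' h = Real.cos (s * θ) • X' h + sn s θ • w' h +
      ((s * Real.cos (s * θ) - sn s θ) * inner ℝ e (w' h) +
        Real.sin (s * θ) * inner ℝ z (X' h)) • e -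
      (s * Real.sin (s * θ) * inner ℝ e (w' h)) • z := by
  simp [Lfac]

theorem sn_mul (s θ : ℝ) : sn s θ * θ = Real.sin (s * θ) := by
  unfold sn
  split_ifs with h
  · subst h; simp
  · field_simp

theorem norm_deriv {X : Y → E3} {X' : Y →L[ℝ] E3} {y0 : Y} {ρ : ℝ} {e : E3} (hρ : 0 < ρ)
    (he : ‖e‖ = 1) (h0 : X y0 = ρ • e) (hX : HasFDerivAt X X' y0) :
    HasFDerivAt (fun y => ‖X y‖) ((innerSL ℝ e).comp X') y0 := by
  have h1 := hX.norm_sq
  have hn : ‖X y0‖ = ρ := by rw [h0, norm_smul, he, mul_one, Real.norm_eq_abs, abs_of_pos hρ]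
  have h2 := h1.sqrt (by
    change ‖X y0‖ ^ 2 ≠ 0
    rw [hn]
    positivity)
  have e1 : (fun y => √(‖X y‖ ^ 2)) = fun y => ‖X y‖ := by
    funext y
    exact Real.sqrt_sq (norm_nonneg _)
  rw [e1] at h2
  refine h2.congr_fderiv ?_
  ext h
  rw [hn, Real.sqrt_sq hρ.le, h0]
  simp only [_root_.smul_apply, ContinuousLinearMap.comp_apply, map_smul,
    innerSL_apply_apply, smul_eq_mul, nsmul_eq_mul]
  push_cast
  field_simp

/-- product with a vector valued function that vanishes at the point -/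
theorem smul_zero_deriv {g : Y → ℝ} {w : Y → E3} {w' : Y →L[ℝ] E3} {y0 : Y}
    (hg : ContinuousAt g y0) (h0 : w y0 = 0) (hw : HasFDerivAt w w' y0) :
    HasFDerivAt (fun y => g y • w y) (g y0 • w') y0 := by
  rw [hasFDerivAt_iff_isLittleO] at hw ⊢
  have h1 : (fun y => (g y - g y0) • w y) =o[𝓝 y0] fun y => y - y0 := by
    have h2 : (fun y => g y - g y0) =o[𝓝 y0] fun _ => (1 : ℝ) := by
      rw [Asymptotics.isLittleO_one_iff]
      have := hg.tendsto.sub_const (g y0)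
      rwa [sub_self] at this
    have h3 : w =O[𝓝 y0] fun y => y - y0 := by
      have h4 : (fun y => w y - w y0) =O[𝓝 y0] fun y => y - y0 :=
        (hasFDerivAt_iff_isLittleO.mpr hw).isBigO_sub
      simpa [h0] using h4
    have h5 := h2.smul_isBigO h3
    simpa using h5
  have h2 : (fun y => g y0 • (w y - w y0 - w' (y - y0))) =o[𝓝 y0] fun y => y - y0 :=
    hw.const_smul_left (g y0)
  refine (h1.add h2).congr_left fun y => ?_
  rw [h0]
  simp only [_root_.smul_apply, smul_zero, sub_zero, smul_sub, sub_smul]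
  abel

theorem sn_deriv (s θ : ℝ) (hθ : 0 < θ) :
    HasDerivAt (sn s) ((s * Real.cos (s * θ) - sn s θ) / θ) θ := by
  have h1 : HasDerivAt (fun ρ : ℝ => Real.sin (s * ρ) / ρ)
      ((Real.cos (s * θ) * s * θ - Real.sin (s * θ) * 1) / θ ^ 2) θ := by
    have h2 : HasDerivAt (fun ρ : ℝ => Real.sin (s * ρ)) (Real.cos (s * θ) * s) θ := by
      have := ((hasDerivAt_id θ).const_mul s).sin
      simpa using this
    exact h2.div (hasDerivAt_id θ) hθ.ne'
  have h3 : sn s =ᶠ[𝓝 θ] fun ρ : ℝ => Real.sin (s * ρ) / ρ := by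
    filter_upwards [lt_mem_nhds hθ] with ρ hρ
    simp [sn, hρ.ne']
  refine (h1.congr_of_eventuallyEq h3).congr_deriv ?_
  have : sn s θ = Real.sin (s * θ) / θ := by simp [sn, hθ.ne']
  rw [this]
  field_simp

theorem sn_cont (s : ℝ) : ContinuousAt (sn s) 0 := by
  have h1 : HasDerivAt (fun ρ : ℝ => Real.sin (s * ρ)) s 0 := by
    have := ((hasDerivAt_id (0 : ℝ)).const_mul s).sin
    simpa using this
  have h2 := hasDerivAt_iff_tendsto_slope.mp h1
  have h0 : sn s 0 = s := by simp [sn]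
  rw [continuousAt_iff_punctured_nhds, h0]
  refine h2.congr' ?_
  filter_upwards [self_mem_nhdsWithin] with ρ hρ
  have hρ' : ρ ≠ 0 := hρ
  rw [slope_def_field]
  simp [sn, hρ']

theorem fac_deriv {X w : Y → E3} {X' w' : Y →L[ℝ] E3} {y0 : Y} {s θ : ℝ} {z e : E3}
    (hz : ‖z‖ = 1) (he : ‖e‖ = 1) (hθ : 0 ≤ θ) (hX0 : X y0 = z) (hw0 : w y0 = θ • e)
    (hX : HasFDerivAt X X' y0) (hw : HasFDerivAt w w' y0) :
    HasFDerivAt (fun y => Real.cos (s * ‖w y‖) • X y + (sn s ‖w y‖ * ‖X y‖) • w y)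
      (Lfac s θ z e X' w') y0 := by
  have hnX := norm_deriv (ρ := 1) one_pos hz (by rw [one_smul]; exact hX0) hX
  have hnw0 : ‖w y0‖ = θ := by
    rw [hw0, norm_smul, he, mul_one, Real.norm_eq_abs, abs_of_nonneg hθ]
  rcases hθ.eq_or_lt with h0 | h0
  · subst h0
    rw [zero_smul] at hw0
    -- the cosine
    have hcos : HasFDerivAt (fun y => Real.cos (s * ‖w y‖)) (0 : Y →L[ℝ] ℝ) y0 := by
      rw [hasFDerivAt_iff_isLittleO]
      have h1 : (fun y => Real.cos (s * ‖w y‖) - Real.cos (s * ‖w y0‖) -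
          (0 : Y →L[ℝ] ℝ) (y - y0)) =O[𝓝 y0] fun y => ‖w y‖ * ‖w y‖ := by
        apply Asymptotics.IsBigO.of_bound (s ^ 2 / 2)
        filter_upwards with y
        rw [hnw0, mul_zero, Real.cos_zero, _root_.zero_apply, sub_zero,
          Real.norm_eq_abs, Real.norm_eq_abs, abs_of_nonneg (a := ‖w y‖ * ‖w y‖) (by positivity)]
        have h2 := Real.one_sub_sq_div_two_le_cos (x := s * ‖w y‖)
        have h3 := Real.cos_le_one (s * ‖w y‖)
        rw [abs_of_nonpos (by linarith)]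
        nlinarith
      refine h1.trans_isLittleO ?_
      have h3 : w =O[𝓝 y0] fun y => y - y0 := by
        have h4 : (fun y => w y - w y0) =O[𝓝 y0] fun y => y - y0 := hw.isBigO_sub
        simpa [hw0] using h4
      have h5 : (fun y => ‖w y‖) =o[𝓝 y0] fun _ => (1 : ℝ) := by
        rw [Asymptotics.isLittleO_one_iff]
        have := hw.continuousAt.norm.tendsto
        rwa [hnw0] at this
      have h6 : (fun y => ‖w y‖) =O[𝓝 y0] fun y => ‖y - y0‖ := h3.norm_norm
      have h7 := h5.mul_isBigO h6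
      simp only [one_mul] at h7
      exact h7.of_norm_right
    have h1 := hcos.smul hX
    have hg : ContinuousAt (fun y => sn s ‖w y‖ * ‖X y‖) y0 := by
      apply ContinuousAt.mul _ hX.continuousAt.norm
      have h2 : ContinuousAt (sn s) ‖w y0‖ := by rw [hnw0]; exact sn_cont s
      exact ContinuousAt.comp (f := fun y => ‖w y‖) h2 hw.continuousAt.norm
    have h2 := smul_zero_deriv hg hw0 hw
    refine (h1.add h2).congr_fderiv ?_
    ext1 h
    rw [Lfac_apply]
    simp only [_root_.add_apply, _root_.smul_apply,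
      ContinuousLinearMap.smulRight_apply, _root_.zero_apply]
    rw [hnw0, hX0, hz]
    have : sn s 0 = s := by simp [sn]
    rw [this]
    simp
  · have hnw := norm_deriv h0 he hw0 hw
    have hcos : HasFDerivAt (fun y => Real.cos (s * ‖w y‖))
        ((-Real.sin (s * θ) * s) • ((innerSL ℝ e).comp w')) y0 := by
      have h2 : HasDerivAt (fun ρ : ℝ => Real.cos (s * ρ)) (-Real.sin (s * ‖w y0‖) * s) ‖w y0‖ := by
        have := ((hasDerivAt_id ‖w y0‖).const_mul s).cos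
        simpa using this
      have h3 := h2.comp_hasFDerivAt y0 hnw
      rwa [hnw0] at h3
    have hsn : HasFDerivAt (fun y => sn s ‖w y‖)
        (((s * Real.cos (s * θ) - sn s θ) / θ) • ((innerSL ℝ e).comp w')) y0 := by
      have h2 : HasDerivAt (sn s) ((s * Real.cos (s * θ) - sn s θ) / θ) ‖w y0‖ := by
        rw [hnw0]
        exact sn_deriv s θ h0
      exact h2.comp_hasFDerivAt y0 hnw
    have h1 := hcos.smul hX
    have h2 := (hsn.mul hnX).smul hw
    refine (h1.add h2).congr_fderiv ?_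
    ext1 h
    rw [Lfac_apply]
    simp only [_root_.add_apply, _root_.smul_apply, Pi.mul_apply,
      ContinuousLinearMap.smulRight_apply, ContinuousLinearMap.comp_apply,
      innerSL_apply_apply, smul_eq_mul]
    rw [hnw0, hX0, hz, hw0, smul_smul]
    have e1 : (sn s θ * inner ℝ z (X' h) +
        1 * ((s * Real.cos (s * θ) - sn s θ) / θ * inner ℝ e (w' h))) * θ =
        (s * Real.cos (s * θ) - sn s θ) * inner ℝ e (w' h) +
        Real.sin (s * θ) * inner ℝ z (X' h) := by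
      rw [← sn_mul s θ]
      field_simp
      ring
    rw [e1, mul_one]
    module

theorem on_facts {z e f : E3} (ho : Orthonormal ℝ ![z, e, f]) :
    inner ℝ z z = (1 : ℝ) ∧ inner ℝ e e = (1 : ℝ) ∧ inner ℝ f f = (1 : ℝ) ∧
      inner ℝ z e = (0 : ℝ) ∧ inner ℝ e z = (0 : ℝ) ∧ inner ℝ z f = (0 : ℝ) ∧
      inner ℝ f z = (0 : ℝ) ∧ inner ℝ e f = (0 : ℝ) ∧ inner ℝ f e = (0 : ℝ) := by
  have h := orthonormal_iff_ite.mp ho
  refine ⟨?_, ?_, ?_, ?_, ?_, ?_, ?_, ?_, ?_⟩
  · simpa using h 0 0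
  · simpa using h 1 1
  · simpa using h 2 2
  · simpa using h 0 1
  · simpa using h 1 0
  · simpa using h 0 2
  · simpa using h 2 0
  · simpa using h 1 2
  · simpa using h 2 1

theorem on_of_facts {z e f : E3} (h1 : inner ℝ z z = (1 : ℝ)) (h2 : inner ℝ e e = (1 : ℝ))
    (h3 : inner ℝ f f = (1 : ℝ)) (h4 : inner ℝ z e = (0 : ℝ)) (h5 : inner ℝ z f = (0 : ℝ))
    (h6 : inner ℝ e f = (0 : ℝ)) : Orthonormal ℝ ![z, e, f] := by
  have h4' : inner ℝ e z = (0 : ℝ) := by rw [real_inner_comm]; exact h4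
  have h5' : inner ℝ f z = (0 : ℝ) := by rw [real_inner_comm]; exact h5
  have h6' : inner ℝ f e = (0 : ℝ) := by rw [real_inner_comm]; exact h6
  rw [orthonormal_iff_ite]
  intro i j
  fin_cases i <;> fin_cases j <;> simp_all

theorem rot {z e f : E3} (ho : Orthonormal ℝ ![z, e, f]) (t : ℝ) :
    Orthonormal ℝ ![Real.cos t • z + Real.sin t • e, (-Real.sin t) • z + Real.cos t • e, f] := by
  obtain ⟨hzz, hee, hff, hze, hez, hzf, hfz, hef, hfe⟩ := on_facts ho
  have hsc := Real.sin_sq_add_cos_sq t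
  apply on_of_facts
  · simp only [inner_add_left, inner_add_right, real_inner_smul_left, real_inner_smul_right,
      hzz, hee, hez, hze]
    nlinarith
  · simp only [inner_add_left, inner_add_right, real_inner_smul_left, real_inner_smul_right,
      hzz, hee, hez, hze]
    nlinarith
  · exact hff
  · simp only [inner_add_left, inner_add_right, real_inner_smul_left, real_inner_smul_right,
      hzz, hee, hez, hze]
    ring
  · simp only [inner_add_left, real_inner_smul_left, hzf, hef]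
    ring
  · simp only [inner_add_left, real_inner_smul_left, hzf, hef]
    ring

theorem coords {s θ : ℝ} {z e f : E3} (ho : Orthonormal ℝ ![z, e, f]) (X' w' : Y →L[ℝ] E3) (h : Y)
    (hc : inner ℝ (w' h) z = -(θ * inner ℝ e (X' h))) :
    inner ℝ (Real.cos (s * θ) • z + Real.sin (s * θ) • e) (Lfac s θ z e X' w' h) =
        inner ℝ z (X' h) ∧
    inner ℝ ((-Real.sin (s * θ)) • z + Real.cos (s * θ) • e) (Lfac s θ z e X' w' h) =
        inner ℝ e (X' h) + s * inner ℝ e (w' h) ∧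
    inner ℝ f (Lfac s θ z e X' w' h) =
        Real.cos (s * θ) * inner ℝ f (X' h) + sn s θ * inner ℝ f (w' h) := by
  obtain ⟨hzz, hee, hff, hze, hez, hzf, hfz, hef, hfe⟩ := on_facts ho
  have hsc := Real.sin_sq_add_cos_sq (s * θ)
  have hS := sn_mul s θ
  rw [real_inner_comm] at hc
  rw [Lfac_apply]
  refine ⟨?_, ?_, ?_⟩
  · simp only [inner_add_left, inner_add_right, inner_sub_right, real_inner_smul_left,
      real_inner_smul_right, hzz, hee, hez, hze, hc]
    linear_combination (inner ℝ z (X' h)) * hsc - Real.cos (s * θ) * inner ℝ e (X' h) * hS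
  · simp only [inner_add_left, inner_add_right, inner_sub_right, real_inner_smul_left,
      real_inner_smul_right, hzz, hee, hez, hze, hc]
    linear_combination (inner ℝ e (X' h) + s * inner ℝ e (w' h)) * hsc +
      Real.sin (s * θ) * inner ℝ e (X' h) * hS
  · simp only [inner_add_right, inner_sub_right, real_inner_smul_right, hfz, hfe]
    ring

/-- the product with the Euclidean norm -/
abbrev V : Type := WithLp 2 (E3 × E3)

/-- the frame of six vectors -/
noncomputable def U (z₁ e₁ f₁ z₂ e₂ f₂ : E3) : Fin 2 ⊕ Fin 4 → V :=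
  Sum.elim ![WithLp.toLp 2 (z₁, 0), WithLp.toLp 2 (0, z₂)]
    ![WithLp.toLp 2 (e₁, 0), WithLp.toLp 2 (f₁, 0), WithLp.toLp 2 (0, e₂), WithLp.toLp 2 (0, f₂)]

theorem U_orthonormal {z₁ e₁ f₁ z₂ e₂ f₂ : E3} (h1 : Orthonormal ℝ ![z₁, e₁, f₁])
    (h2 : Orthonormal ℝ ![z₂, e₂, f₂]) : Orthonormal ℝ (U z₁ e₁ f₁ z₂ e₂ f₂) := by
  obtain ⟨hzz, hee, hff, hze, hez, hzf, hfz, hef, hfe⟩ := on_facts h1
  obtain ⟨hzz', hee', hff', hze', hez', hzf', hfz', hef', hfe'⟩ := on_facts h2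
  have n1 : ‖z₁‖ = 1 := h1.1 0
  have n2 : ‖e₁‖ = 1 := h1.1 1
  have n3 : ‖f₁‖ = 1 := h1.1 2
  have n4 : ‖z₂‖ = 1 := h2.1 0
  have n5 : ‖e₂‖ = 1 := h2.1 1
  have n6 : ‖f₂‖ = 1 := h2.1 2
  rw [orthonormal_iff_ite]
  rintro (i | i) (j | j) <;> fin_cases i <;> fin_cases j <;>
    simp [U, WithLp.prod_inner_apply, *]

theorem finrank_V : Module.finrank ℝ V = 6 := by
  rw [(WithLp.linearEquiv 2 ℝ (E3 × E3)).finrank_eq, Module.finrank_prod]
  simp

theorem exists_basis {z₁ e₁ f₁ z₂ e₂ f₂ : E3} (h1 : Orthonormal ℝ ![z₁, e₁, f₁])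
    (h2 : Orthonormal ℝ ![z₂, e₂, f₂]) :
    ∃ u : OrthonormalBasis (Fin 2 ⊕ Fin 4) ℝ V, ∀ i, u i = U z₁ e₁ f₁ z₂ e₂ f₂ i := by
  have hU := U_orthonormal h1 h2
  let b := basisOfOrthonormalOfCardEqFinrank hU (by rw [finrank_V]; simp)
  have hb : (b : Fin 2 ⊕ Fin 4 → V) = U z₁ e₁ f₁ z₂ e₂ f₂ :=
    coe_basisOfOrthonormalOfCardEqFinrank _ _
  have hb' : Orthonormal ℝ b := by rw [hb]; exact hU
  refine ⟨b.toOrthonormalBasis hb', fun i => ?_⟩
  rw [Module.Basis.coe_toOrthonormalBasis, hb]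

theorem K10 : Pool.Agent.W553.RCD.S_K10 := by
  intro W s θ₁ θ₂ z e₁ f₁ e₂ f₂ B hperp h1 h2 hθ1 hθ2 hWz hB
  have hz1 : ‖z.a‖ = 1 := z.ha
  have hz2 : ‖z.b‖ = 1 := z.hb
  have he1 : ‖e₁‖ = 1 := h1.1 1
  have he2 : ‖e₂‖ = 1 := h2.1 1
  set z0 : E3 × E3 := z.toProd with hz0
  have hX1 : HasFDerivAt (fun y : E3 × E3 => y.1) (ContinuousLinearMap.fst ℝ E3 E3) z0 :=
    hasFDerivAt_fst
  have hX2 : HasFDerivAt (fun y : E3 × E3 => y.2) (ContinuousLinearMap.snd ℝ E3 E3) z0 :=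
    hasFDerivAt_snd
  have hw1 : HasFDerivAt (fun y => (W y).1) ((ContinuousLinearMap.fst ℝ E3 E3).comp B) z0 :=
    hB.fst
  have hw2 : HasFDerivAt (fun y => (W y).2) ((ContinuousLinearMap.snd ℝ E3 E3).comp B) z0 :=
    hB.snd
  have hW1 : (W z0).1 = θ₁ • e₁ := by rw [hWz]
  have hW2 : (W z0).2 = θ₂ • e₂ := by rw [hWz]
  have c1 : ∀ h, inner ℝ (B h).1 z.a = -(θ₁ * inner ℝ e₁ h.1) := by
    intro h
    have d1 := hw1.inner ℝ hX1
    have d2 : HasFDerivAt (fun y : E3 × E3 => inner ℝ (W y).1 y.1) (0 : E3 × E3 →L[ℝ] ℝ) z0 := by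
      have : (fun y : E3 × E3 => inner ℝ (W y).1 y.1) = fun _ => (0 : ℝ) :=
        funext fun y => (hperp y).1
      rw [this]
      exact hasFDerivAt_const _ _
    have d3 := congrArg (fun L : E3 × E3 →L[ℝ] ℝ => L h) (d1.unique d2)
    simp only [fderivInnerCLM_apply, ContinuousLinearMap.comp_apply,
      ContinuousLinearMap.prod_apply, ContinuousLinearMap.coe_fst', _root_.zero_apply] at d3
    rw [hW1, real_inner_smul_left] at d3
    change θ₁ * inner ℝ e₁ h.1 + inner ℝ (B h).1 z.a = 0 at d3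
    linarith
  have c2 : ∀ h, inner ℝ (B h).2 z.b = -(θ₂ * inner ℝ e₂ h.2) := by
    intro h
    have d1 := hw2.inner ℝ hX2
    have d2 : HasFDerivAt (fun y : E3 × E3 => inner ℝ (W y).2 y.2) (0 : E3 × E3 →L[ℝ] ℝ) z0 := by
      have : (fun y : E3 × E3 => inner ℝ (W y).2 y.2) = fun _ => (0 : ℝ) :=
        funext fun y => (hperp y).2
      rw [this]
      exact hasFDerivAt_const _ _
    have d3 := congrArg (fun L : E3 × E3 →L[ℝ] ℝ => L h) (d1.unique d2)
    simp only [fderivInnerCLM_apply, ContinuousLinearMap.comp_apply,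
      ContinuousLinearMap.prod_apply, ContinuousLinearMap.coe_snd', _root_.zero_apply] at d3
    rw [hW2, real_inner_smul_left] at d3
    change θ₂ * inner ℝ e₂ h.2 + inner ℝ (B h).2 z.b = 0 at d3
    linarith
  set L1 := Lfac s θ₁ z.a e₁ (ContinuousLinearMap.fst ℝ E3 E3)
    ((ContinuousLinearMap.fst ℝ E3 E3).comp B) with hL1
  set L2 := Lfac s θ₂ z.b e₂ (ContinuousLinearMap.snd ℝ E3 E3)
    ((ContinuousLinearMap.snd ℝ E3 E3).comp B) with hL2
  have D1 : HasFDerivAt (fun y => (Fmap W s y).1) L1 z0 :=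
    fac_deriv hz1 he1 hθ1 rfl hW1 hX1 hw1
  have D2 : HasFDerivAt (fun y => (Fmap W s y).2) L2 z0 :=
    fac_deriv hz2 he2 hθ2 rfl hW2 hX2 hw2
  refine ⟨L1.prod L2, D1.prodMk D2, ?_⟩
  -- the determinant
  obtain ⟨u, hu⟩ := exists_basis h1 h2
  obtain ⟨v, hv⟩ := exists_basis (rot h1 (s * θ₁)) (rot h2 (s * θ₂))
  let eL : V ≃ₗ[ℝ] E3 × E3 := WithLp.linearEquiv 2 ℝ (E3 × E3)
  set D : E3 × E3 →ₗ[ℝ] E3 × E3 :=
    ((L1.prod L2 : E3 × E3 →L[ℝ] E3 × E3) : E3 × E3 →ₗ[ℝ] E3 × E3) with hD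
  let D' : V →ₗ[ℝ] V := (eL.symm : E3 × E3 →ₗ[ℝ] V) ∘ₗ D ∘ₗ (eL : V →ₗ[ℝ] E3 × E3)
  have hdet : (L1.prod L2).det = LinearMap.det D' := by
    have := LinearMap.det_conj D eL.symm
    rw [LinearEquiv.symm_symm] at this
    exact this.symm
  have hM1 : (LinearMap.toMatrix u.toBasis v.toBasis D').det =
      (v.toBasis.toMatrix u.toBasis).det * LinearMap.det D' := by
    rw [← basis_toMatrix_mul_linearMap_toMatrix u.toBasis v.toBasis u.toBasis D', Matrix.det_mul,
      LinearMap.det_toMatrix]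
  have hpm : |(v.toBasis.toMatrix u.toBasis).det| = 1 := by
    have := v.det_to_matrix_orthonormalBasis_real u
    rw [OrthonormalBasis.coe_toBasis]
    rw [Module.Basis.det_apply] at this
    rcases this with h | h
    · rw [h]; simp
    · rw [h]; simp
  have habs : |(L1.prod L2).det| = |(LinearMap.toMatrix u.toBasis v.toBasis D').det| := by
    rw [hM1, abs_mul, hpm, one_mul, hdet]
  rw [habs]
  congr 1
  set Mt := LinearMap.toMatrix u.toBasis v.toBasis D' with hMt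
  have hentry : ∀ i j, Mt i j = inner ℝ (v i) (D' (u j)) := by
    intro i j
    rw [hMt, LinearMap.toMatrix_apply, OrthonormalBasis.coe_toBasis_repr_apply,
      OrthonormalBasis.repr_apply_apply, OrthonormalBasis.coe_toBasis]
  have hD' : ∀ x y : E3, D' (WithLp.toLp 2 (x, y)) = WithLp.toLp 2 (L1 (x, y), L2 (x, y)) :=
    fun _ _ => rfl
  have k1 := fun h => coords (s := s) (θ := θ₁) h1 (ContinuousLinearMap.fst ℝ E3 E3)
    ((ContinuousLinearMap.fst ℝ E3 E3).comp B) h (c1 h)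
  have k2 := fun h => coords (s := s) (θ := θ₂) h2 (ContinuousLinearMap.snd ℝ E3 E3)
    ((ContinuousLinearMap.snd ℝ E3 E3).comp B) h (c2 h)
  simp only [← hL1, ← hL2, ContinuousLinearMap.comp_apply, ContinuousLinearMap.coe_fst',
    ContinuousLinearMap.coe_snd'] at k1 k2
  have k11 := fun h => (k1 h).1
  have k12 := fun h => (k1 h).2.1
  have k13 := fun h => (k1 h).2.2
  have k21 := fun h => (k2 h).1
  have k22 := fun h => (k2 h).2.1
  have k23 := fun h => (k2 h).2.2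
  obtain ⟨hzz, hee, hff, hze, hez, hzf, hfz, hef, hfe⟩ := on_facts h1
  obtain ⟨hzz', hee', hff', hze', hez', hzf', hfz', hef', hfe'⟩ := on_facts h2
  have hB11 : Mt.toBlocks₁₁ = 1 := by
    ext i j
    rw [Matrix.toBlocks₁₁, Matrix.of_apply, hentry, hu, hv]
    fin_cases i <;> fin_cases j <;>
      simp only [U, Sum.elim_inl, Fin.zero_eta, Fin.mk_one, Matrix.cons_val_zero,
        Matrix.cons_val_one, hD', WithLp.prod_inner_apply, inner_zero_left, add_zero, zero_add,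
        k11, k21, inner_zero_right, hzz, hzz', Matrix.one_apply] <;> simp
  have hB12 : Mt.toBlocks₁₂ = 0 := by
    ext i j
    rw [Matrix.toBlocks₁₂, Matrix.of_apply, hentry, hu, hv]
    fin_cases i <;> fin_cases j <;>
      simp [U, hD', WithLp.prod_inner_apply, k11, k21, hze, hzf, hze', hzf']
  have n1 : ‖e₁‖ = 1 := he1
  have n2 : ‖e₂‖ = 1 := he2
  have n3 : ‖f₁‖ = 1 := h1.1 2
  have n4 : ‖f₂‖ = 1 := h2.1 2
  set fr := frame e₁ f₁ e₂ f₂ with hfr
  have hrow : ∀ (h : E3 × E3) (i : Fin 4), inner ℝ (v (Sum.inr i)) (D' (WithLp.toLp 2 h)) =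
      ![inner ℝ e₁ h.1 + s * inner ℝ e₁ (B h).1,
        Real.cos (s * θ₁) * inner ℝ f₁ h.1 + sn s θ₁ * inner ℝ f₁ (B h).1,
        inner ℝ e₂ h.2 + s * inner ℝ e₂ (B h).2,
        Real.cos (s * θ₂) * inner ℝ f₂ h.2 + sn s θ₂ * inner ℝ f₂ (B h).2] i := by
    intro h i
    rw [hv]
    have hDh : D' (WithLp.toLp 2 h) = WithLp.toLp 2 (L1 h, L2 h) := rfl
    rw [hDh]
    fin_cases i
    · exact (congrArg₂ (· + ·) (k12 h) (inner_zero_left (L2 h))).trans (add_zero _)
    · exact (congrArg₂ (· + ·) (k13 h) (inner_zero_left (L2 h))).trans (add_zero _)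
    · exact (congrArg₂ (· + ·) (inner_zero_left (L1 h)) (k22 h)).trans (zero_add _)
    · exact (congrArg₂ (· + ·) (inner_zero_left (L1 h)) (k23 h)).trans (zero_add _)
  have hF : ∀ i j, frameMatrix B fr i j = ![inner ℝ e₁ (B (fr j)).1, inner ℝ f₁ (B (fr j)).1,
      inner ℝ e₂ (B (fr j)).2, inner ℝ f₂ (B (fr j)).2] i := by
    intro i j
    rw [frameMatrix, Matrix.of_apply]
    generalize B (fr j) = b
    rw [show inner ℝ b.1 (fr i).1 = inner ℝ (fr i).1 b.1 from real_inner_comm _ _,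
      show inner ℝ b.2 (fr i).2 = inner ℝ (fr i).2 b.2 from real_inner_comm _ _]
    fin_cases i
    · change inner ℝ e₁ b.1 + inner ℝ (0 : E3) b.2 = inner ℝ e₁ b.1
      rw [inner_zero_left, add_zero]
    · change inner ℝ f₁ b.1 + inner ℝ (0 : E3) b.2 = inner ℝ f₁ b.1
      rw [inner_zero_left, add_zero]
    · change inner ℝ (0 : E3) b.1 + inner ℝ e₂ b.2 = inner ℝ e₂ b.2
      rw [inner_zero_left, zero_add]
    · change inner ℝ (0 : E3) b.1 + inner ℝ f₂ b.2 = inner ℝ f₂ b.2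
      rw [inner_zero_left, zero_add]
  have hdg : ∀ i j : Fin 4,
      (if i = j then (![1, Real.cos (s * θ₁), 1, Real.cos (s * θ₂)] : Fin 4 → ℝ) i else 0) =
      ![inner ℝ e₁ (fr j).1, Real.cos (s * θ₁) * inner ℝ f₁ (fr j).1,
        inner ℝ e₂ (fr j).2, Real.cos (s * θ₂) * inner ℝ f₂ (fr j).2] i := by
    intro i j
    fin_cases i <;> fin_cases j <;>
      simp [hfr, frame, n1, n2, n3, n4, hef, hfe, hef', hfe']
  have hur : ∀ j, u (Sum.inr j) = WithLp.toLp 2 (fr j) := by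
    intro j
    rw [hu]
    fin_cases j <;> rfl
  have hB22 : Mt.toBlocks₂₂ = Matrix.diagonal ![1, Real.cos (s * θ₁), 1, Real.cos (s * θ₂)] +
      Matrix.diagonal ![s, sn s θ₁, s, sn s θ₂] * frameMatrix B fr := by
    ext i j
    rw [Matrix.toBlocks₂₂, Matrix.of_apply, hentry, hur, hrow, Matrix.add_apply,
      Matrix.diagonal_mul, Matrix.diagonal_apply, hdg, hF]
    fin_cases i <;> rfl
  rw [← Matrix.fromBlocks_toBlocks Mt, hB11, hB12, hB22, Matrix.det_fromBlocks_zero₁₂,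
    Matrix.det_one, one_mul]

end Pool.Agent.W358.ExpDet
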