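import Mathlib
import Pool.Agent.W553.RCD.Stmts3

/-!
# The exponential map along a Lipschitz vector field is Lipschitz (task K13 of helper553)
-/

set_option autoImplicit false

open Set Filter Topology
open Pool.Agent.W553.RCD (E3 sn Fmap M)

namespace Pool.Agent.W358.ExpLip

theorem sn_abs (s ρ : ℝ) : |sn s ρ| ≤ |s| := by
  unfold sn
  split_ifs with h
  · exact le_rfl
  · rw [abs_div, div_le_iff₀ (abs_pos.mpr h)]
    calc |Real.sin (s * ρ)| ≤ |s * ρ| := Real.abs_sin_le_abs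
      _ = |s| * |ρ| := abs_mul _ _

theorem sn_mul (s ρ : ℝ) : sn s ρ * ρ = Real.sin (s * ρ) := by
  unfold sn
  split_ifs with h
  · subst h; simp
  · field_simp

theorem sin_diff (x y : ℝ) : |Real.sin x - Real.sin y| ≤ |x - y| := by
  have := Real.abs_sin_sub_sin_le x y
  exact this

theorem cos_diff (x y : ℝ) : |Real.cos x - Real.cos y| ≤ |x - y| := by
  have := Real.abs_cos_sub_cos_le x y
  exact this

theorem sn_diff (s ρ ρ' : ℝ) : |sn s ρ - sn s ρ'| * |ρ| ≤ 2 * |s| * |ρ - ρ'| := by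
  rw [← abs_mul]
  have e : (sn s ρ - sn s ρ') * ρ =
      (Real.sin (s * ρ) - Real.sin (s * ρ')) + sn s ρ' * (ρ' - ρ) := by
    rw [← sn_mul s ρ, ← sn_mul s ρ']
    ring
  rw [e]
  refine (abs_add_le _ _).trans ?_
  have h1 := sin_diff (s * ρ) (s * ρ')
  rw [← mul_sub, abs_mul] at h1
  have h2 : |sn s ρ' * (ρ' - ρ)| ≤ |s| * |ρ - ρ'| := by
    rw [abs_mul, abs_sub_comm ρ' ρ]
    exact mul_le_mul_of_nonneg_right (sn_abs _ _) (abs_nonneg _)
  linarith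

theorem fac (s : ℝ) (x x' w w' : E3) (hx' : ‖x'‖ = 1) (hx : ‖x‖ = 1) :
    ‖(Real.cos (s * ‖w‖) • x + (sn s ‖w‖ * ‖x‖) • w) -
      (Real.cos (s * ‖w'‖) • x' + (sn s ‖w'‖ * ‖x'‖) • w')‖ ≤ ‖x - x'‖ + 4 * |s| * ‖w - w'‖ := by
  rw [hx, hx', mul_one, mul_one]
  have e : (Real.cos (s * ‖w‖) • x + sn s ‖w‖ • w) -
      (Real.cos (s * ‖w'‖) • x' + sn s ‖w'‖ • w') =
      Real.cos (s * ‖w‖) • (x - x') + (Real.cos (s * ‖w‖) - Real.cos (s * ‖w'‖)) • x' +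
        ((sn s ‖w‖ - sn s ‖w'‖) • w + sn s ‖w'‖ • (w - w')) := by
    module
  rw [e]
  have hn : |‖w‖ - ‖w'‖| ≤ ‖w - w'‖ := abs_norm_sub_norm_le w w'
  have hs := abs_nonneg s
  have t1 : ‖Real.cos (s * ‖w‖) • (x - x')‖ ≤ ‖x - x'‖ := by
    rw [norm_smul, Real.norm_eq_abs]
    calc _ ≤ 1 * ‖x - x'‖ :=
          mul_le_mul_of_nonneg_right (Real.abs_cos_le_one _) (norm_nonneg _)
      _ = _ := one_mul _
  have t2 : ‖(Real.cos (s * ‖w‖) - Real.cos (s * ‖w'‖)) • x'‖ ≤ |s| * ‖w - w'‖ := by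
    rw [norm_smul, Real.norm_eq_abs, hx', mul_one]
    refine (cos_diff _ _).trans ?_
    rw [← mul_sub, abs_mul]
    exact mul_le_mul_of_nonneg_left hn hs
  have t3 : ‖(sn s ‖w‖ - sn s ‖w'‖) • w‖ ≤ 2 * |s| * ‖w - w'‖ := by
    rw [norm_smul, Real.norm_eq_abs]
    have := sn_diff s ‖w‖ ‖w'‖
    rw [abs_norm] at this
    exact this.trans (mul_le_mul_of_nonneg_left hn (by positivity))
  have t4 : ‖sn s ‖w'‖ • (w - w')‖ ≤ |s| * ‖w - w'‖ := by
    rw [norm_smul, Real.norm_eq_abs]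
    exact mul_le_mul_of_nonneg_right (sn_abs _ _) (norm_nonneg _)
  refine (norm_add_le _ _).trans ?_
  have := norm_add_le (Real.cos (s * ‖w‖) • (x - x'))
    ((Real.cos (s * ‖w‖) - Real.cos (s * ‖w'‖)) • x')
  have := norm_add_le ((sn s ‖w‖ - sn s ‖w'‖) • w) (sn s ‖w'‖ • (w - w'))
  linarith

theorem K13 : Pool.Agent.W553.RCD.S_K13 := by
  intro W s ⟨L, hL⟩
  refine ⟨1 + 4 * |s| * L, fun p q => ?_⟩
  have h := hL p q
  have h1 : ‖(W p.toProd).1 - (W q.toProd).1‖ ≤ L * ‖p.toProd - q.toProd‖ :=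
    (norm_fst_le (W p.toProd - W q.toProd)).trans h
  have h2 : ‖(W p.toProd).2 - (W q.toProd).2‖ ≤ L * ‖p.toProd - q.toProd‖ :=
    (norm_snd_le (W p.toProd - W q.toProd)).trans h
  have ha : ‖p.a - q.a‖ ≤ ‖p.toProd - q.toProd‖ := norm_fst_le (p.toProd - q.toProd)
  have hb : ‖p.b - q.b‖ ≤ ‖p.toProd - q.toProd‖ := norm_snd_le (p.toProd - q.toProd)
  have k1 := fac s p.a q.a (W p.toProd).1 (W q.toProd).1 q.ha p.ha
  have k2 := fac s p.b q.b (W p.toProd).2 (W q.toProd).2 q.hb p.hb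
  have hs : 0 ≤ 4 * |s| := by positivity
  have m1 := mul_le_mul_of_nonneg_left h1 hs
  have m2 := mul_le_mul_of_nonneg_left h2 hs
  rw [Prod.norm_def]
  refine max_le ?_ ?_
  · refine k1.trans ?_
    linarith
  · refine k2.trans ?_
    linarith

end Pool.Agent.W358.ExpLip
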