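import Pool.Agent.W707.FE.B
import Pool.Agent.W402.VC.Max

/-!
# FE-WF: properties of the complex potential (project FE of helper707)
-/

set_option autoImplicit false

namespace Pool.Agent.W358.FE

open Filter Set GapVol Pool.Agent.W709.VC Pool.Agent.W402.VC Pool.Agent.W707.FE
open scoped Real Topology ComplexConjugate

theorem ell_even (η τ : ℝ) : ell η (-τ) = ell η τ := by
  unfold ell; rw [Real.cos_neg]

section

variable (hGP : S_GP)

include hGP

omit hGP in
theorem mem_im {z : ℂ} (h : 0 < z.im) : z ∈ Uf := Or.inl h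

omit hGP in
theorem mem_re {z : ℂ} (h : |z.re| < π) : z ∈ Uf := Or.inr h

theorem Pf_at {z : ℂ} (h : z ∈ Uf) : HasDerivAt Pf (Gf z) z := hGP.2.2.1 z h

theorem Gf_diff {z : ℂ} (h : z ∈ Uf) : DifferentiableAt ℂ Gf z :=
  (hGP.2.1 z h).differentiableAt (hGP.1.mem_nhds h)

/-- derivative of `Gf` -/
theorem Gf_deriv {z : ℂ} (h : z ∈ Uf) :
    deriv Gf z * (2 * Complex.cos (z / 2)) = -Complex.sin (z / 2) := by
  have h1 : HasDerivAt (fun z => Complex.exp (Gf z)) (Complex.exp (Gf z) * deriv Gf z) z :=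
    (Gf_diff hGP h).hasDerivAt.cexp
  have h2 : HasDerivAt (fun z : ℂ => 2 * Complex.cos (z / 2)) (-Complex.sin (z / 2)) z := by
    have h3 : HasDerivAt (fun z : ℂ => z / 2) (1 / 2) z := (hasDerivAt_id z).div_const 2
    have h4 := (h3.ccos).const_mul 2
    refine h4.congr_deriv ?_
    ring
  have h3 : (fun z => Complex.exp (Gf z)) =ᶠ[𝓝 z] fun z : ℂ => 2 * Complex.cos (z / 2) := by
    filter_upwards [hGP.1.mem_nhds h] with w hw
    exact hGP.2.2.2.1 w hw
  have h4 := (h1.congr_of_eventuallyEq h3.symm).unique h2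
  rw [hGP.2.2.2.1 z h] at h4
  rw [mul_comm]
  exact h4

theorem Gf_deriv_im (τ η : ℝ) (hη : 0 < η) :
    (deriv Gf ((τ : ℂ) + η * Complex.I)).im = -(Real.sinh η / (Real.cosh η + Real.cos τ)) / 2 := by
  set z : ℂ := (τ : ℂ) + η * Complex.I with hz
  have hzU : z ∈ Uf := mem_im (by simp [hz, hη])
  have h1 := Gf_deriv hGP hzU
  have e1 : 2 * Complex.cos (z / 2) * Complex.cos (conj z / 2) = Real.cos τ + Real.cosh η := by
    have h2 := Complex.cos_add (z / 2) (conj z / 2)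
    have h3 := Complex.cos_sub (z / 2) (conj z / 2)
    have e2 : z / 2 + conj z / 2 = τ := by
      simp only [hz, map_add, map_mul, Complex.conj_ofReal, Complex.conj_I]; ring
    have e3 : z / 2 - conj z / 2 = η * Complex.I := by
      simp only [hz, map_add, map_mul, Complex.conj_ofReal, Complex.conj_I]; ring
    rw [e2] at h2
    rw [e3, Complex.cos_mul_I] at h3
    rw [Complex.ofReal_cos, Complex.ofReal_cosh]
    linear_combination -h2 - h3
  have e4 : 2 * Complex.sin (z / 2) * Complex.cos (conj z / 2) = Real.sin τ + Real.sinh η * Complex.I := by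
    have h2 := Complex.sin_add (z / 2) (conj z / 2)
    have h3 := Complex.sin_sub (z / 2) (conj z / 2)
    have e2 : z / 2 + conj z / 2 = τ := by
      simp only [hz, map_add, map_mul, Complex.conj_ofReal, Complex.conj_I]; ring
    have e3 : z / 2 - conj z / 2 = η * Complex.I := by
      simp only [hz, map_add, map_mul, Complex.conj_ofReal, Complex.conj_I]; ring
    rw [e2] at h2
    rw [e3, Complex.sin_mul_I] at h3
    rw [Complex.ofReal_sin, Complex.ofReal_sinh]
    linear_combination -h2 - h3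
  have h5 : deriv Gf z * (Real.cos τ + Real.cosh η) * 2 = -(Real.sin τ + Real.sinh η * Complex.I) := by
    rw [← e1, ← e4]
    linear_combination 2 * Complex.cos (conj z / 2) * h1
  have hd := den_pos hη τ
  have h6 : deriv Gf z = -((Real.sin τ : ℂ) + Real.sinh η * Complex.I) / (((Real.cosh η + Real.cos τ) * 2 : ℝ) : ℂ) := by
    rw [eq_div_iff]
    · push_cast at h5 ⊢
      linear_combination h5
    · exact_mod_cast (by positivity : ((Real.cosh η + Real.cos τ) * 2) ≠ 0)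
  have e7 : (-((Real.sin τ : ℂ) + Real.sinh η * Complex.I)).im = - Real.sinh η := by
    rw [Complex.neg_im, Complex.add_im, Complex.ofReal_im, Complex.mul_im, Complex.ofReal_re,
      Complex.I_im, Complex.ofReal_im, Complex.I_re]
    ring
  rw [h6, Complex.div_ofReal_im, e7]
  field_simp

/-- the imaginary part along a horizontal line -/
theorem Gf_im_sub (η a b : ℝ) (hη : 0 < η) :
    (Gf ((b : ℂ) + η * Complex.I)).im - (Gf ((a : ℂ) + η * Complex.I)).im =
      -(∫ τ in a..b, Real.sinh η / (Real.cosh η + Real.cos τ)) / 2 := by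
  have hd : ∀ τ : ℝ, HasDerivAt (fun τ : ℝ => (Gf ((τ : ℂ) + η * Complex.I)).im)
      (-(Real.sinh η / (Real.cosh η + Real.cos τ)) / 2) τ := by
    intro τ
    have hzU : ((τ : ℂ) + η * Complex.I) ∈ Uf := mem_im (by simp [hη])
    have h1 : HasDerivAt Gf (deriv Gf ((τ : ℂ) + η * Complex.I)) ((τ : ℂ) + η * Complex.I) :=
      (Gf_diff hGP hzU).hasDerivAt
    have h2 : HasDerivAt (fun τ : ℝ => (τ : ℂ) + η * Complex.I) 1 τ :=
      (Complex.ofRealCLM.hasDerivAt (x := τ)).add_const _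
    have h3 : HasDerivAt (fun τ : ℝ => Gf ((τ : ℂ) + η * Complex.I))
        (deriv Gf ((τ : ℂ) + η * Complex.I) * 1) τ :=
      HasDerivAt.comp (h₂ := Gf) (h := fun τ : ℝ => (τ : ℂ) + η * Complex.I) τ h1 h2
    have h4 := Complex.imCLM.hasFDerivAt.comp_hasDerivAt τ h3
    rw [← Gf_deriv_im hGP τ η hη]
    refine h4.congr_deriv ?_
    simp
  have hc : Continuous fun τ : ℝ => -(Real.sinh η / (Real.cosh η + Real.cos τ)) / 2 := by
    have : ∀ τ : ℝ, Real.cosh η + Real.cos τ ≠ 0 := fun τ => (den_pos hη τ).ne'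
    fun_prop (disch := assumption)
  have h1 := intervalIntegral.integral_eq_sub_of_hasDerivAt (a := a) (b := b) (fun τ _ => hd τ)
    (hc.intervalIntegrable _ _)
  rw [← h1, intervalIntegral.integral_div, intervalIntegral.integral_neg]

/-- horizontal primitive -/
theorem Pf_re_sub (η b α : ℝ) (hη : 0 < η) :
    (Pf (-(b : ℂ) + η * Complex.I + α)).re - (Pf (-(b : ℂ) + η * Complex.I - α)).re =
      (Lf η (b + α) - Lf η (b - α)) / 2 := by
  set φ : ℝ → ℝ := fun α => (Pf (-(b : ℂ) + η * Complex.I + α)).re -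
    (Pf (-(b : ℂ) + η * Complex.I - α)).re - (Lf η (b + α) - Lf η (b - α)) / 2 with hφ
  have hd : ∀ α, HasDerivAt φ 0 α := by
    intro α
    have hp : (-(b : ℂ) + η * Complex.I + α) ∈ Uf := mem_im (by simp [hη])
    have hm : (-(b : ℂ) + η * Complex.I - α) ∈ Uf := mem_im (by simp [hη])
    have h1 : HasDerivAt (fun α : ℝ => -(b : ℂ) + η * Complex.I + α) 1 α :=
      (Complex.ofRealCLM.hasDerivAt (x := α)).const_add _
    have h2 : HasDerivAt (fun α : ℝ => -(b : ℂ) + η * Complex.I - α) (-1) α :=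
      (Complex.ofRealCLM.hasDerivAt (x := α)).const_sub _
    have h3 := HasDerivAt.comp (h₂ := Pf) (h := fun α : ℝ => -(b : ℂ) + η * Complex.I + α) α
      (Pf_at hGP hp) h1
    have h4 := HasDerivAt.comp (h₂ := Pf) (h := fun α : ℝ => -(b : ℂ) + η * Complex.I - α) α
      (Pf_at hGP hm) h2
    have h5 := Complex.reCLM.hasFDerivAt.comp_hasDerivAt α h3
    have h6 := Complex.reCLM.hasFDerivAt.comp_hasDerivAt α h4
    have h7 : HasDerivAt (fun α : ℝ => Lf η (b + α)) (ell η (b + α) * 1) α :=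
      Lf_comp hη ((hasDerivAt_id α).const_add b)
    have h8 : HasDerivAt (fun α : ℝ => Lf η (b - α)) (ell η (b - α) * (-1)) α :=
      Lf_comp hη ((hasDerivAt_id α).const_sub b)
    have h9 := (h5.sub h6).sub ((h7.sub h8).div_const 2)
    refine h9.congr_deriv ?_
    have r1 : (Gf (-(b : ℂ) + η * Complex.I + α)).re = 1 / 2 * ell η (b - α) := by
      have := hGP.2.2.2.2.2.2.1 (-b + α) η hη
      have e : (((-b + α : ℝ) : ℂ) + η * Complex.I) = -(b : ℂ) + η * Complex.I + α := by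
        push_cast; ring
      rw [e] at this
      rw [this]
      unfold ell
      rw [show -b + α = -(b - α) by ring, Real.cos_neg]
    have r2 : (Gf (-(b : ℂ) + η * Complex.I - α)).re = 1 / 2 * ell η (b + α) := by
      have := hGP.2.2.2.2.2.2.1 (-b - α) η hη
      have e : (((-b - α : ℝ) : ℂ) + η * Complex.I) = -(b : ℂ) + η * Complex.I - α := by
        push_cast; ring
      rw [e] at this
      rw [this]
      unfold ell
      rw [show -b - α = -(b + α) by ring, Real.cos_neg]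
    simp only [mul_one, mul_neg, map_neg, Complex.reCLM_apply, r1, r2]
    ring
  have hconst : φ α = φ 0 := by
    have := is_const_of_deriv_eq_zero (f := φ) (fun x => (hd x).differentiableAt)
      (fun x => (hd x).deriv)
    exact this α 0
  have h0 : φ 0 = 0 := by simp [hφ]
  rw [h0] at hconst
  simp only [hφ] at hconst
  linarith

/-- the part with the Lobachevsky function -/
theorem Pf_lob (α : ℝ) (h0 : 0 < α) (h1 : α < 2 * π) :
    2 * (Pf ((π : ℂ) - α)).re = 4 * lob (α / 2) := by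
  set φ : ℝ → ℝ := fun α => 2 * (Pf ((π : ℂ) - α)).re - 4 * lob (α / 2) with hφ
  have hpi := Real.pi_pos
  have hd : ∀ x ∈ Ioo 0 (2 * π), HasDerivAt φ 0 x := by
    intro x hx
    have hU : ((π : ℂ) - x) ∈ Uf := mem_re (by
      simp only [Complex.sub_re, Complex.ofReal_re]
      rw [abs_lt]; constructor <;> linarith [hx.1, hx.2])
    have h1 : HasDerivAt (fun x : ℝ => (π : ℂ) - x) (-1) x :=
      (Complex.ofRealCLM.hasDerivAt (x := x)).const_sub _
    have h3 := HasDerivAt.comp (h₂ := Pf) (h := fun x : ℝ => (π : ℂ) - x) x (Pf_at hGP hU) h1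
    have h5 := (Complex.reCLM.hasFDerivAt.comp_hasDerivAt x h3).const_mul 2
    have h6 : HasDerivAt (fun x : ℝ => lob (x / 2)) (-Real.log (2 * Real.sin (x / 2)) * (1 / 2)) x :=
      lob_comp (by linarith [hx.1]) (by linarith [hx.2]) ((hasDerivAt_id x).div_const 2)
    have h9 := h5.sub (h6.const_mul 4)
    refine h9.congr_deriv ?_
    have r1 : (Gf ((π : ℂ) - x)).re = Real.log (2 * Real.sin (x / 2)) := by
      have := hGP.2.2.2.2.2.2.2 (π - x) (by rw [abs_lt]; constructor <;> linarith [hx.1, hx.2])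
      push_cast at this
      rw [this]
      rw [show ((π : ℝ) - x) / 2 = π / 2 - x / 2 by ring, Real.cos_pi_div_two_sub]
      rw [Complex.ofReal_re]
    simp only [mul_neg, mul_one, map_neg, Complex.reCLM_apply, r1]
    ring
  have hconst : φ α = φ π := by
    have hconv : Convex ℝ (Ioo (0 : ℝ) (2 * π)) := convex_Ioo _ _
    have h2 := (isOpen_Ioo (a := (0 : ℝ)) (b := 2 * π)).is_const_of_deriv_eq_zero
      (isPreconnected_Ioo) (f := φ) (fun x hx => (hd x hx).differentiableAt.differentiableWithinAt)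
      (fun x hx => (hd x hx).deriv) ⟨h0, h1⟩ (y := π) ⟨hpi, by linarith⟩
    exact h2
  have hπ : φ π = 0 := by
    simp only [hφ, sub_self]
    rw [lob_half]
    have : Pf 0 = 0 := by simp [Pf]
    rw [this]; simp
  rw [hπ] at hconst
  simp only [hφ] at hconst
  linarith

theorem Zf_re (A : ℕ) (α b η : ℝ) (hη : 0 < η) (h0 : 0 < α) (h1 : α < π) :
    (Zf A ((α : ℂ), -(b : ℂ) + η * Complex.I)).re = pot ((A : ℝ) / 2) α b η / 2 := by
  have hpi := Real.pi_pos
  have hU : ((π : ℂ) - α) ∈ Uf := mem_re (by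
    simp only [Complex.sub_re, Complex.ofReal_re]
    rw [abs_lt]; constructor <;> linarith)
  have e1 : Pf ((α : ℂ) - π) = -conj (Pf ((π : ℂ) - α)) := by
    have := hGP.2.2.2.2.2.1 _ hU
    rw [← this]
    congr 1
    simp
  have e2 := Pf_lob hGP α h0 (by linarith)
  have e3 := Pf_re_sub hGP η b α hη
  have e4 : (Complex.I * A * (-(b : ℂ) + η * Complex.I) ^ 2 / 2 +
      2 * π * Complex.I * (-(b : ℂ) + η * Complex.I)).re = (A * b - 2 * π) * η := by
    have : Complex.I * A * (-(b : ℂ) + η * Complex.I) ^ 2 / 2 +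
      2 * π * Complex.I * (-(b : ℂ) + η * Complex.I) =
      (((A * b - 2 * π) * η : ℝ) : ℂ) + ((A * (b ^ 2 - η ^ 2) / 2 - 2 * π * b : ℝ) : ℂ) * Complex.I := by
      push_cast
      linear_combination (A * b * η * (-1 : ℂ) + A * η ^ 2 * Complex.I / 2 + 2 * π * η) * Complex.I_sq
    rw [this, Complex.add_re, Complex.ofReal_re, Complex.re_ofReal_mul, Complex.I_re, mul_zero,
      add_zero]
  unfold Zf pot
  simp only
  rw [e1]
  simp only [Complex.add_re, Complex.sub_re, Complex.neg_re, Complex.conj_re] at e3 e4 ⊢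
  linarith

theorem Wf_split (A : ℕ) (α b b' η : ℝ) (hη : 0 < η) (h0 : 0 < α) (h1 : α < π) :
    Wf A ((α : ℂ), -(b : ℂ) + η * Complex.I, (b' : ℂ) + η * Complex.I) =
      Zf A ((α : ℂ), -(b : ℂ) + η * Complex.I) +
      (starRingEnd ℂ) (Zf A ((α : ℂ), -(b' : ℂ) + η * Complex.I)) := by
  have hpi := Real.pi_pos
  have hP := hGP.2.2.2.2.2.1
  have c1 : conj (Pf ((π : ℂ) - α)) = -Pf ((α : ℂ) - π) := by
    have hU : ((π : ℂ) - α) ∈ Uf := mem_re (by
      simp only [Complex.sub_re, Complex.ofReal_re]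
      rw [abs_lt]; constructor <;> linarith)
    have := hP _ hU
    have e : -conj ((π : ℂ) - α) = (α : ℂ) - π := by simp
    rw [e] at this
    rw [this, neg_neg]
  have c2 : conj (Pf ((α : ℂ) - π)) = -Pf ((π : ℂ) - α) := by
    have hU : ((α : ℂ) - π) ∈ Uf := mem_re (by
      simp only [Complex.sub_re, Complex.ofReal_re]
      rw [abs_lt]; constructor <;> linarith)
    have := hP _ hU
    have e : -conj ((α : ℂ) - π) = (π : ℂ) - α := by simp
    rw [e] at this
    rw [this, neg_neg]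
  have c3 : conj (Pf (-(b' : ℂ) + η * Complex.I + α)) = -Pf ((b' : ℂ) + η * Complex.I - α) := by
    have hU : (-(b' : ℂ) + η * Complex.I + α) ∈ Uf := mem_im (by simp [hη])
    have := hP _ hU
    have e : -conj (-(b' : ℂ) + η * Complex.I + α) = (b' : ℂ) + η * Complex.I - α := by
      simp only [map_add, map_neg, map_mul, Complex.conj_ofReal, Complex.conj_I]; ring
    rw [e] at this
    rw [this, neg_neg]
  have c4 : conj (Pf (-(b' : ℂ) + η * Complex.I - α)) = -Pf ((b' : ℂ) + η * Complex.I + α) := by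
    have hU : (-(b' : ℂ) + η * Complex.I - α) ∈ Uf := mem_im (by simp [hη])
    have := hP _ hU
    have e : -conj (-(b' : ℂ) + η * Complex.I - α) = (b' : ℂ) + η * Complex.I + α := by
      simp only [map_sub, map_add, map_neg, map_mul, Complex.conj_ofReal, Complex.conj_I]; ring
    rw [e] at this
    rw [this, neg_neg]
  unfold Wf Zf
  simp only [map_add, map_sub, map_mul, map_neg, map_div₀, map_pow, c1, c2, c3, c4,
    Complex.conj_ofReal, Complex.conj_I, Complex.conj_natCast, map_ofNat]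
  ring

/-! ### the critical point -/

theorem crit_b (A : ℕ) (α₀ b₀ η : ℝ) (hc : Crit ((A : ℝ) / 2) α₀ b₀ η) :
    Complex.I * A * (-(b₀ : ℂ) + η * Complex.I) + 2 * π * Complex.I +
      (Gf (-(b₀ : ℂ) + η * Complex.I + α₀) - Gf (-(b₀ : ℂ) + η * Complex.I - α₀)) = 0 := by
  have hη := hc.hη
  have r1 : (Gf (-(b₀ : ℂ) + η * Complex.I + α₀)).re = 1 / 2 * ell η (b₀ - α₀) := by
    have := hGP.2.2.2.2.2.2.1 (-b₀ + α₀) η hη
    have e : (((-b₀ + α₀ : ℝ) : ℂ) + η * Complex.I) = -(b₀ : ℂ) + η * Complex.I + α₀ := by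
      push_cast; ring
    rw [e] at this
    rw [this]
    unfold ell
    rw [show -b₀ + α₀ = -(b₀ - α₀) by ring, Real.cos_neg]
  have r2 : (Gf (-(b₀ : ℂ) + η * Complex.I - α₀)).re = 1 / 2 * ell η (b₀ + α₀) := by
    have := hGP.2.2.2.2.2.2.1 (-b₀ - α₀) η hη
    have e : (((-b₀ - α₀ : ℝ) : ℂ) + η * Complex.I) = -(b₀ : ℂ) + η * Complex.I - α₀ := by
      push_cast; ring
    rw [e] at this
    rw [this]
    unfold ell
    rw [show -b₀ - α₀ = -(b₀ + α₀) by ring, Real.cos_neg]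
  have i1 := Gf_im_sub hGP η (-b₀ - α₀) (-b₀ + α₀) hη
  have e1 : (((-b₀ + α₀ : ℝ) : ℂ) + η * Complex.I) = -(b₀ : ℂ) + η * Complex.I + α₀ := by
    push_cast; ring
  have e2 : (((-b₀ - α₀ : ℝ) : ℂ) + η * Complex.I) = -(b₀ : ℂ) + η * Complex.I - α₀ := by
    push_cast; ring
  rw [e1, e2] at i1
  have i2 : ∫ τ in (-b₀ - α₀)..(-b₀ + α₀), Real.sinh η / (Real.cosh η + Real.cos τ) =
      ∫ τ in (b₀ - α₀)..(b₀ + α₀), Real.sinh η / (Real.cosh η + Real.cos τ) := by
    have h1 := intervalIntegral.integral_comp_neg (a := -b₀ - α₀) (b := -b₀ + α₀)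
      (fun τ => Real.sinh η / (Real.cosh η + Real.cos τ))
    have h2 : -(-b₀ + α₀) = b₀ - α₀ := by ring
    have h3 : -(-b₀ - α₀) = b₀ + α₀ := by ring
    rw [h2, h3] at h1
    rw [← h1]
    exact intervalIntegral.integral_congr fun τ _ => by simp only [Real.cos_neg]
  have hc1 := hc.c1
  have hc3 := hc.c3
  rw [i2] at i1
  have s1 : Complex.I * A * (-(b₀ : ℂ) + η * Complex.I) + 2 * π * Complex.I =
      ((-(A * η) : ℝ) : ℂ) + ((-(A * b₀) + 2 * π : ℝ) : ℂ) * Complex.I := by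
    push_cast
    linear_combination (A * η : ℂ) * Complex.I_sq
  rw [s1]
  apply Complex.ext
  · rw [Complex.add_re, Complex.add_re, Complex.ofReal_re, Complex.re_ofReal_mul, Complex.I_re,
      Complex.sub_re, r1, r2, Complex.zero_re]
    linarith
  · rw [Complex.add_im, Complex.add_im, Complex.ofReal_im, Complex.im_ofReal_mul, Complex.I_im,
      Complex.sub_im, Complex.zero_im]
    linarith

theorem crit_a (A : ℕ) (α₀ b₀ η : ℝ) (hc : Crit ((A : ℝ) / 2) α₀ b₀ η) :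
    2 * (-Gf ((π : ℂ) - α₀) - Gf ((α₀ : ℂ) - π)) +
      (Gf (-(b₀ : ℂ) + η * Complex.I + α₀) + Gf (-(b₀ : ℂ) + η * Complex.I - α₀)) +
      (Gf ((b₀ : ℂ) + η * Complex.I + α₀) + Gf ((b₀ : ℂ) + η * Complex.I - α₀)) = 0 := by
  have hη := hc.hη
  have hα := hc.hα
  have hαb := hc.hαb
  have hb := hc.hb
  have hpi := Real.pi_pos
  have r1 : (Gf (-(b₀ : ℂ) + η * Complex.I + α₀)).re = 1 / 2 * ell η (b₀ - α₀) := by
    have := hGP.2.2.2.2.2.2.1 (-b₀ + α₀) η hη
    have e : (((-b₀ + α₀ : ℝ) : ℂ) + η * Complex.I) = -(b₀ : ℂ) + η * Complex.I + α₀ := by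
      push_cast; ring
    rw [e] at this
    rw [this]
    unfold ell
    rw [show -b₀ + α₀ = -(b₀ - α₀) by ring, Real.cos_neg]
  have r2 : (Gf (-(b₀ : ℂ) + η * Complex.I - α₀)).re = 1 / 2 * ell η (b₀ + α₀) := by
    have := hGP.2.2.2.2.2.2.1 (-b₀ - α₀) η hη
    have e : (((-b₀ - α₀ : ℝ) : ℂ) + η * Complex.I) = -(b₀ : ℂ) + η * Complex.I - α₀ := by
      push_cast; ring
    rw [e] at this
    rw [this]
    unfold ell
    rw [show -b₀ - α₀ = -(b₀ + α₀) by ring, Real.cos_neg]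
  have k1 : Gf ((b₀ : ℂ) + η * Complex.I + α₀) = conj (Gf (-(b₀ : ℂ) + η * Complex.I - α₀)) := by
    rw [← hGP.2.2.2.2.1 _ (mem_im (by simp [hη]))]
    congr 1
    simp only [map_sub, map_add, map_neg, map_mul, Complex.conj_ofReal, Complex.conj_I]; ring
  have k2 : Gf ((b₀ : ℂ) + η * Complex.I - α₀) = conj (Gf (-(b₀ : ℂ) + η * Complex.I + α₀)) := by
    rw [← hGP.2.2.2.2.1 _ (mem_im (by simp [hη]))]
    congr 1
    simp only [map_add, map_neg, map_mul, Complex.conj_ofReal, Complex.conj_I]; ring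
  have g1 : Gf ((π : ℂ) - α₀) = ((Real.log (2 * Real.sin (α₀ / 2)) : ℝ) : ℂ) := by
    have := hGP.2.2.2.2.2.2.2 (π - α₀) (by rw [abs_lt]; constructor <;> linarith)
    rw [show (π - α₀) / 2 = π / 2 - α₀ / 2 by ring, Real.cos_pi_div_two_sub] at this
    rw [← this]; push_cast; rfl
  have g2 : Gf ((α₀ : ℂ) - π) = ((Real.log (2 * Real.sin (α₀ / 2)) : ℝ) : ℂ) := by
    have := hGP.2.2.2.2.2.2.2 (α₀ - π) (by rw [abs_lt]; constructor <;> linarith)
    rw [show (α₀ - π) / 2 = α₀ / 2 - π / 2 by ring, Real.cos_sub_pi_div_two] at this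
    rw [← this]; push_cast; rfl
  have c2 := hc.c2
  have e1 : (Gf (-(b₀ : ℂ) + η * Complex.I + α₀) + Gf (-(b₀ : ℂ) + η * Complex.I - α₀)) +
      (conj (Gf (-(b₀ : ℂ) + η * Complex.I - α₀)) + conj (Gf (-(b₀ : ℂ) + η * Complex.I + α₀))) =
      ((4 * Real.log (2 * Real.sin (α₀ / 2)) : ℝ) : ℂ) := by
    have a1 := Complex.add_conj (Gf (-(b₀ : ℂ) + η * Complex.I + α₀))
    have a2 := Complex.add_conj (Gf (-(b₀ : ℂ) + η * Complex.I - α₀))
    rw [r1] at a1
    rw [r2] at a2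
    rw [← c2]
    push_cast at a1 a2 ⊢
    linear_combination a1 + a2
  rw [k1, k2, g1, g2]
  push_cast at e1 ⊢
  linear_combination e1

theorem crit_c (A : ℕ) (α₀ b₀ η : ℝ) (hc : Crit ((A : ℝ) / 2) α₀ b₀ η) :
    -(Complex.I * A * ((b₀ : ℂ) + η * Complex.I)) + 2 * π * Complex.I +
      (Gf ((b₀ : ℂ) + η * Complex.I + α₀) - Gf ((b₀ : ℂ) + η * Complex.I - α₀)) = 0 := by
  have hη := hc.hη
  have h := congrArg conj (crit_b hGP A α₀ b₀ η hc)
  have k1 : Gf ((b₀ : ℂ) + η * Complex.I + α₀) = conj (Gf (-(b₀ : ℂ) + η * Complex.I - α₀)) := by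
    rw [← hGP.2.2.2.2.1 _ (mem_im (by simp [hη]))]
    congr 1
    simp only [map_sub, map_add, map_neg, map_mul, Complex.conj_ofReal, Complex.conj_I]; ring
  have k2 : Gf ((b₀ : ℂ) + η * Complex.I - α₀) = conj (Gf (-(b₀ : ℂ) + η * Complex.I + α₀)) := by
    rw [← hGP.2.2.2.2.1 _ (mem_im (by simp [hη]))]
    congr 1
    simp only [map_add, map_neg, map_mul, Complex.conj_ofReal, Complex.conj_I]; ring
  simp only [map_add, map_sub, map_mul, map_neg, map_zero, Complex.conj_ofReal, Complex.conj_I,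
    Complex.conj_natCast, map_ofNat] at h
  rw [k1, k2]
  linear_combination -h

theorem Wf_crit (A : ℕ) (α₀ b₀ η : ℝ) (hc : Crit ((A : ℝ) / 2) α₀ b₀ η) :
    HasFDerivAt (Wf A) (0 : ℂ × ℂ × ℂ →L[ℂ] ℂ)
    ((α₀ : ℂ), -(b₀ : ℂ) + η * Complex.I, (b₀ : ℂ) + η * Complex.I) := by
  have hη := hc.hη
  have hα := hc.hα
  have hαb := hc.hαb
  have hb := hc.hb
  have hpi := Real.pi_pos
  set p : ℂ × ℂ × ℂ := ((α₀ : ℂ), -(b₀ : ℂ) + η * Complex.I, (b₀ : ℂ) + η * Complex.I) with hp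
  have h1 : HasFDerivAt (fun p : ℂ × ℂ × ℂ => p.1) (ContinuousLinearMap.fst ℂ ℂ (ℂ × ℂ)) p :=
    hasFDerivAt_fst
  have h2 : HasFDerivAt (fun p : ℂ × ℂ × ℂ => p.2.1)
      ((ContinuousLinearMap.fst ℂ ℂ ℂ).comp (ContinuousLinearMap.snd ℂ ℂ (ℂ × ℂ))) p :=
    (hasFDerivAt_fst (𝕜 := ℂ) (p := p.2)).comp p hasFDerivAt_snd
  have h3 : HasFDerivAt (fun p : ℂ × ℂ × ℂ => p.2.2)
      ((ContinuousLinearMap.snd ℂ ℂ ℂ).comp (ContinuousLinearMap.snd ℂ ℂ (ℂ × ℂ))) p :=
    (hasFDerivAt_snd (𝕜 := ℂ) (p := p.2)).comp p hasFDerivAt_snd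
  have u1 : ((π : ℂ) - p.1) ∈ Uf := mem_re (by
    simp only [hp, Complex.sub_re, Complex.ofReal_re]
    rw [abs_lt]; constructor <;> linarith)
  have u2 : (p.1 - (π : ℂ)) ∈ Uf := mem_re (by
    simp only [hp, Complex.sub_re, Complex.ofReal_re]
    rw [abs_lt]; constructor <;> linarith)
  have u3 : (p.2.1 + p.1) ∈ Uf := mem_im (by simp [hp, hη])
  have u4 : (p.2.1 - p.1) ∈ Uf := mem_im (by simp [hp, hη])
  have u5 : (p.2.2 + p.1) ∈ Uf := mem_im (by simp [hp, hη])
  have u6 : (p.2.2 - p.1) ∈ Uf := mem_im (by simp [hp, hη])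
  have d1 := (Pf_at hGP u1).comp_hasFDerivAt p (h1.const_sub (π : ℂ))
  have d2 := (Pf_at hGP u2).comp_hasFDerivAt p (h1.sub_const (π : ℂ))
  have d3 := (Pf_at hGP u3).comp_hasFDerivAt p (h2.add h1)
  have d4 := (Pf_at hGP u4).comp_hasFDerivAt p (h2.sub h1)
  have d5 := (Pf_at hGP u5).comp_hasFDerivAt p (h3.add h1)
  have d6 := (Pf_at hGP u6).comp_hasFDerivAt p (h3.sub h1)
  have q2 : HasFDerivAt (fun p : ℂ × ℂ × ℂ => Complex.I * A * p.2.1 ^ 2 / 2 + 2 * π * Complex.I * p.2.1)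
      ((Complex.I * A * p.2.1 + 2 * π * Complex.I) •
        ((ContinuousLinearMap.fst ℂ ℂ ℂ).comp (ContinuousLinearMap.snd ℂ ℂ (ℂ × ℂ)))) p := by
    have k : HasDerivAt (fun z : ℂ => Complex.I * A * z ^ 2 / 2 + 2 * π * Complex.I * z)
        (Complex.I * A * p.2.1 + 2 * π * Complex.I) p.2.1 := by
      have k1 := (((hasDerivAt_id p.2.1).pow 2).const_mul (Complex.I * A)).div_const 2
      have k2 := (hasDerivAt_id p.2.1).const_mul (2 * π * Complex.I)
      refine (k1.add k2).congr_deriv ?_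
      simp only [id, Nat.cast_ofNat]
      ring
    exact k.comp_hasFDerivAt p h2
  have q3 : HasFDerivAt (fun p : ℂ × ℂ × ℂ => -(Complex.I * A * p.2.2 ^ 2 / 2) + 2 * π * Complex.I * p.2.2)
      ((-(Complex.I * A * p.2.2) + 2 * π * Complex.I) •
        ((ContinuousLinearMap.snd ℂ ℂ ℂ).comp (ContinuousLinearMap.snd ℂ ℂ (ℂ × ℂ)))) p := by
    have k : HasDerivAt (fun z : ℂ => -(Complex.I * A * z ^ 2 / 2) + 2 * π * Complex.I * z)
        (-(Complex.I * A * p.2.2) + 2 * π * Complex.I) p.2.2 := by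
      have k1 := ((((hasDerivAt_id p.2.2).pow 2).const_mul (Complex.I * A)).div_const 2).neg
      have k2 := (hasDerivAt_id p.2.2).const_mul (2 * π * Complex.I)
      refine (k1.add k2).congr_deriv ?_
      simp only [id, Nat.cast_ofNat]
      ring
    exact k.comp_hasFDerivAt p h3
  have D := (((d1.sub d2).const_mul 2).add (q2.add (d3.sub d4))).add (q3.add (d5.sub d6))
  have D' : HasFDerivAt (Wf A) _ p := D
  refine D'.congr_fderiv ?_
  have ha := crit_a hGP A α₀ b₀ η hc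
  have hb' := crit_b hGP A α₀ b₀ η hc
  have hc' := crit_c hGP A α₀ b₀ η hc
  refine ContinuousLinearMap.ext fun v => ?_
  simp only [hp, _root_.add_apply, _root_.sub_apply,
    _root_.smul_apply, _root_.neg_apply, ContinuousLinearMap.comp_apply,
    ContinuousLinearMap.coe_fst', ContinuousLinearMap.coe_snd', smul_eq_mul,
    _root_.zero_apply]
  linear_combination v.1 * ha + v.2.1 * hb' + v.2.2 * hc'

/-! ### holomorphy near the critical point -/

theorem it_diff (k : ℕ) {z : ℂ} (h : z ∈ Uf) : DifferentiableAt ℂ (iteratedDeriv k Gf) z := by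
  have h1 : AnalyticOnNhd ℂ Gf Uf := hGP.2.1.analyticOnNhd hGP.1
  have h2 := h1.iterated_deriv k
  rw [← iteratedDeriv_eq_iterate] at h2
  exact (h2 z h).differentiableAt

omit hGP in
/-- the good conditions -/
structure Gd (p : ℂ × ℂ × ℂ) : Prop where
  u1 : ((π : ℂ) - p.1) ∈ Uf
  u2 : (p.1 - (π : ℂ)) ∈ Uf
  u3 : (p.2.1 + p.1) ∈ Uf
  u4 : (p.2.1 - p.1) ∈ Uf
  u5 : (p.2.2 + p.1) ∈ Uf
  u6 : (p.2.2 - p.1) ∈ Uf
  s : Complex.sin (p.1 / 2) ≠ 0

omit hGP in
theorem gd_of {α₀ b₀ η r : ℝ} (h0 : 0 < α₀) (h1 : α₀ < π) (hη : 0 < η) (hr : r = min α₀ η / 4)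
    {p : ℂ × ℂ × ℂ}
    (hp : p ∈ Metric.closedBall ((α₀ : ℂ), -(b₀ : ℂ) + η * Complex.I, (b₀ : ℂ) + η * Complex.I) r) :
    Gd p := by
  have hpi := Real.pi_pos
  have m1 : min α₀ η ≤ α₀ := min_le_left _ _
  have m2 : min α₀ η ≤ η := min_le_right _ _
  have hr0 : 0 < r := by rw [hr]; have := lt_min h0 hη; positivity
  rw [Metric.mem_closedBall, Prod.dist_eq, max_le_iff, Prod.dist_eq, max_le_iff] at hp
  obtain ⟨ha, hb, hc⟩ := hp
  simp only [Complex.dist_eq] at ha hb hc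
  have a1 : |p.1.re - α₀| ≤ r := by
    have := (Complex.abs_re_le_norm (p.1 - α₀)).trans ha
    simpa using this
  have a2 : |p.1.im| ≤ r := by
    have := (Complex.abs_im_le_norm (p.1 - α₀)).trans ha
    simpa using this
  have b2 : |p.2.1.im - η| ≤ r := by
    have := (Complex.abs_im_le_norm (p.2.1 - (-(b₀ : ℂ) + η * Complex.I))).trans hb
    simpa using this
  have c2 : |p.2.2.im - η| ≤ r := by
    have := (Complex.abs_im_le_norm (p.2.2 - ((b₀ : ℂ) + η * Complex.I))).trans hc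
    simpa using this
  rw [abs_le] at a1 a2 b2 c2
  refine ⟨?_, ?_, ?_, ?_, ?_, ?_, ?_⟩
  · refine mem_re ?_
    rw [Complex.sub_re, Complex.ofReal_re, abs_lt]
    constructor <;> linarith
  · refine mem_re ?_
    rw [Complex.sub_re, Complex.ofReal_re, abs_lt]
    constructor <;> linarith
  · refine mem_im ?_
    rw [Complex.add_im]; linarith
  · refine mem_im ?_
    rw [Complex.sub_im]; linarith
  · refine mem_im ?_
    rw [Complex.add_im]; linarith
  · refine mem_im ?_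
    rw [Complex.sub_im]; linarith
  · intro h
    obtain ⟨k, hk⟩ := Complex.sin_eq_zero_iff.1 h
    have h2 : p.1.re / 2 = k * π := by
      have := congrArg Complex.re hk
      have e1 : (p.1 / 2).re = p.1.re / 2 := by
        have : (p.1 / 2) = p.1 / ((2 : ℝ) : ℂ) := by norm_num
        rw [this, Complex.div_ofReal_re]
      have e2 : ((k : ℂ) * (π : ℂ)).re = k * π := by
        have : ((k : ℂ) * (π : ℂ)) = ((k * π : ℝ) : ℂ) := by push_cast; rfl
        rw [this, Complex.ofReal_re]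
      rw [e1, e2] at this
      exact this
    have h3 : 0 < (k : ℝ) * π := by rw [← h2]; linarith
    have h4 : (k : ℝ) * π < 1 * π := by rw [← h2]; linarith
    have h5 : 0 < (k : ℝ) := (mul_pos_iff_of_pos_right hpi).1 h3
    have h6 : (k : ℝ) < 1 := lt_of_mul_lt_mul_right h4 hpi.le
    have h7 : (0 : ℤ) < k := by exact_mod_cast h5
    have h8 : k < (1 : ℤ) := by exact_mod_cast h6
    omega

theorem Wf_diff (A : ℕ) {p : ℂ × ℂ × ℂ} (h : Gd p) : DifferentiableAt ℂ (Wf A) p := by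
  have h1 : DifferentiableAt ℂ (fun p : ℂ × ℂ × ℂ => p.1) p := differentiableAt_fst
  have h2 : DifferentiableAt ℂ (fun p : ℂ × ℂ × ℂ => p.2.1) p := by fun_prop
  have h3 : DifferentiableAt ℂ (fun p : ℂ × ℂ × ℂ => p.2.2) p := by fun_prop
  have d1 := (Pf_at hGP h.u1).differentiableAt.comp p (h1.const_sub (π : ℂ))
  have d2 := (Pf_at hGP h.u2).differentiableAt.comp p (h1.sub_const (π : ℂ))
  have d3 := (Pf_at hGP h.u3).differentiableAt.comp p (h2.add h1)
  have d4 := (Pf_at hGP h.u4).differentiableAt.comp p (h2.sub h1)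
  have d5 := (Pf_at hGP h.u5).differentiableAt.comp p (h3.add h1)
  have d6 := (Pf_at hGP h.u6).differentiableAt.comp p (h3.sub h1)
  have q2 : DifferentiableAt ℂ
    (fun p : ℂ × ℂ × ℂ => Complex.I * A * p.2.1 ^ 2 / 2 + 2 * π * Complex.I * p.2.1) p := by fun_prop
  have q3 : DifferentiableAt ℂ
    (fun p : ℂ × ℂ × ℂ => -(Complex.I * A * p.2.2 ^ 2 / 2) + 2 * π * Complex.I * p.2.2) p := by fun_prop
  exact (((d1.sub d2).const_mul 2).add (q2.add (d3.sub d4))).add (q3.add (d5.sub d6))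

theorem Zf_diff (A : ℕ) {p : ℂ × ℂ} (u1 : ((π : ℂ) - p.1) ∈ Uf) (u2 : (p.1 - (π : ℂ)) ∈ Uf)
    (u3 : (p.2 + p.1) ∈ Uf) (u4 : (p.2 - p.1) ∈ Uf) : DifferentiableAt ℂ (Zf A) p := by
  have h1 : DifferentiableAt ℂ (fun p : ℂ × ℂ => p.1) p := differentiableAt_fst
  have h2 : DifferentiableAt ℂ (fun p : ℂ × ℂ => p.2) p := differentiableAt_snd
  have d1 := (Pf_at hGP u1).differentiableAt.comp p (h1.const_sub (π : ℂ))
  have d2 := (Pf_at hGP u2).differentiableAt.comp p (h1.sub_const (π : ℂ))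
  have d3 := (Pf_at hGP u3).differentiableAt.comp p (h2.add h1)
  have d4 := (Pf_at hGP u4).differentiableAt.comp p (h2.sub h1)
  have q2 : DifferentiableAt ℂ
    (fun p : ℂ × ℂ => Complex.I * A * p.2 ^ 2 / 2 + 2 * π * Complex.I * p.2) p := by fun_prop
  exact (d1.sub d2).add (q2.add (d3.sub d4))

theorem Wk_diff (b₁ b₂ : ℕ → ℝ) (k : ℕ) {q : ℂ × ℂ × ℂ × ℂ} (h : Gd q.2) :
    DifferentiableAt ℂ (fun q : ℂ × ℂ × ℂ × ℂ => Wk b₁ b₂ k q.2) q := by
  have h1 : DifferentiableAt ℂ (fun q : ℂ × ℂ × ℂ × ℂ => q.2.1) q := by fun_prop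
  have h2 : DifferentiableAt ℂ (fun q : ℂ × ℂ × ℂ × ℂ => q.2.2.1) q := by fun_prop
  have h3 : DifferentiableAt ℂ (fun q : ℂ × ℂ × ℂ × ℂ => q.2.2.2) q := by fun_prop
  have d1 := (it_diff hGP k h.u1).comp q (h1.const_sub (π : ℂ))
  have d2 := (it_diff hGP k h.u2).comp q (h1.sub_const (π : ℂ))
  have d3 := (it_diff hGP k h.u3).comp q (h2.add h1)
  have d4 := (it_diff hGP k h.u4).comp q (h2.sub h1)
  have d5 := (it_diff hGP k h.u5).comp q (h3.add h1)
  have d6 := (it_diff hGP k h.u6).comp q (h3.sub h1)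
  exact (((d1.sub d2).const_mul (2 * (b₁ k : ℂ))).add ((d3.sub d4).const_mul (b₂ k : ℂ))).add
    ((d5.sub d6).const_mul (b₂ k : ℂ))

theorem HK_diff (b₁ b₂ : ℕ → ℝ) (K : ℕ) {q : ℂ × ℂ × ℂ × ℂ} (h : Gd q.2) :
    DifferentiableAt ℂ (HK b₁ b₂ K) q := by
  have hs : (2 * Complex.sin (q.2.1 / 2)) ^ 2 ≠ 0 := pow_ne_zero _ (mul_ne_zero two_ne_zero h.s)
  have d1 : DifferentiableAt ℂ
    (fun q : ℂ × ℂ × ℂ × ℂ => -4 * Complex.sin q.2.2.1 * Complex.sin q.2.2.2) q := by fun_prop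
  have d2 : DifferentiableAt ℂ
    (fun q : ℂ × ℂ × ℂ × ℂ => (2 * Complex.sin (q.2.1 / 2)) ^ 2) q := by fun_prop
  have d3 : DifferentiableAt ℂ
    (fun q : ℂ × ℂ × ℂ × ℂ => ∑ k ∈ Finset.range K, q.1 ^ k * Wk b₁ b₂ k q.2) q := by
    refine DifferentiableAt.fun_sum fun k _ => ?_
    have e1 : DifferentiableAt ℂ (fun q : ℂ × ℂ × ℂ × ℂ => q.1 ^ k) q := by fun_prop
    exact e1.mul (Wk_diff hGP b₁ b₂ k h)
  have d12 : DifferentiableAt ℂ (fun q : ℂ × ℂ × ℂ × ℂ => -4 * Complex.sin q.2.2.1 *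
      Complex.sin q.2.2.2 / (2 * Complex.sin (q.2.1 / 2)) ^ 2) q := by
    have d2' := (differentiableAt_inv hs).comp q d2
    have d12' := d1.mul d2'
    simp only [div_eq_mul_inv]
    exact d12'
  exact d12.mul d3.cexp

end

theorem wf (hGP : S_GP) : S_WF := by
  intro A α₀ b₀ η hA hc
  have hη := hc.hη
  have hα := hc.hα
  have hαb := hc.hαb
  have hb := hc.hb
  have hpi := Real.pi_pos
  have hαπ : α₀ < π := by linarith
  refine ⟨⟨min α₀ η / 4, ?_, ?_, ?_, ?_⟩, Wf_crit hGP A α₀ b₀ η hc,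
    fun α b b' h0 h1 => Wf_split hGP A α b b' η hη h0 h1,
    fun α b h0 h1 => Zf_re hGP A α b η hη h0 h1, ?_⟩
  · have := lt_min hα hη; positivity
  · intro p hp
    exact (Wf_diff hGP A (gd_of hα hαπ hη rfl (Metric.ball_subset_closedBall hp))).differentiableWithinAt
  · intro p hp
    -- complete to a triple
    have hp' : (p.1, p.2, (b₀ : ℂ) + η * Complex.I) ∈
        Metric.closedBall ((α₀ : ℂ), -(b₀ : ℂ) + η * Complex.I, (b₀ : ℂ) + η * Complex.I)
          (min α₀ η / 4) := by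
      have h1 := Metric.ball_subset_closedBall hp
      rw [Metric.mem_closedBall, Prod.dist_eq, max_le_iff] at h1
      rw [Metric.mem_closedBall, Prod.dist_eq, max_le_iff, Prod.dist_eq, max_le_iff]
      refine ⟨h1.1, h1.2, ?_⟩
      simp only [dist_self]
      have := lt_min hα hη
      positivity
    have h := gd_of hα hαπ hη rfl hp'
    exact (Zf_diff hGP A h.u1 h.u2 h.u3 h.u4).differentiableWithinAt
  · intro b₁ b₂ K
    have hcl : ∀ q ∈ Metric.closedBall ((0 : ℂ), (α₀ : ℂ), -(b₀ : ℂ) + η * Complex.I,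
        (b₀ : ℂ) + η * Complex.I) (min α₀ η / 4), DifferentiableAt ℂ (HK b₁ b₂ K) q := by
      intro q hq
      rw [Metric.mem_closedBall, Prod.dist_eq, max_le_iff] at hq
      exact HK_diff hGP b₁ b₂ K (gd_of hα hαπ hη rfl (Metric.mem_closedBall.2 hq.2))
    refine ⟨fun q hq => (hcl q (Metric.ball_subset_closedBall hq)).differentiableWithinAt, ?_⟩
    obtain ⟨B, hB⟩ := (isCompact_closedBall ((0 : ℂ), (α₀ : ℂ), -(b₀ : ℂ) + η * Complex.I,
        (b₀ : ℂ) + η * Complex.I) (min α₀ η / 4)).exists_bound_of_continuousOn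
        (f := HK b₁ b₂ K) (fun q hq => (hcl q hq).continuousAt.continuousWithinAt)
    exact ⟨B, fun q hq => hB q (Metric.ball_subset_closedBall hq)⟩
  · rw [Wf_split hGP A α₀ b₀ b₀ η hη hα hαπ, Complex.add_conj, Zf_re hGP A α₀ b₀ η hη hα hαπ]
    push_cast
    ring

end Pool.Agent.W358.FE
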