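import Pool.Agent.W868.FI.Defs
import Pool.Agent.W868.FI.Stms
import Pool.Agent.W868.FI.Stms2

/-! Nearly invariant partitions from stars. -/

open MeasureTheory Set

namespace Pool.Agent.W358.FIPart

open Pool.Agent.W868.FI

section Local

theorem loc_meas {ι β : Type} {φ : (ι → Bool) → β} (h : Loc φ) (s : Set β) :
    MeasurableSet (φ ⁻¹' s) := by
  obtain ⟨K, hK⟩ := h
  have h1 : φ ⁻¹' s = (fun (x : ι → Bool) (k : K) => x k) ⁻¹'
      ((fun (x : ι → Bool) (k : K) => x k) '' (φ ⁻¹' s)) := by
    ext x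
    constructor
    · intro hx; exact ⟨x, hx, rfl⟩
    · rintro ⟨x', hx', he⟩
      have h2 : φ x = φ x' := hK x x' (fun k hk => (congrFun he ⟨k, hk⟩).symm)
      show φ x ∈ s
      rw [h2]
      exact hx'
  rw [h1]
  exact (measurable_pi_lambda _ (fun k => measurable_pi_apply _)) (Set.toFinite _).measurableSet

theorem loc_comp {ι X β β' : Type} {φ : (ι → X) → β} (h : Loc φ) (f : β → β') :
    Loc (fun x => f (φ x)) := by
  obtain ⟨K, hK⟩ := h
  exact ⟨K, fun x y hxy => by show f (φ x) = f (φ y); rw [hK x y hxy]⟩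

theorem loc_pi {ι X κ β : Type} [Fintype κ] {φ : κ → (ι → X) → β} (h : ∀ i, Loc (φ i)) :
    Loc (fun x i => φ i x) := by
  classical
  choose K hK using h
  refine ⟨Finset.univ.biUnion K, fun x y hxy => ?_⟩
  funext i
  refine hK i x y (fun k hk => hxy k ?_)
  simp only [Finset.coe_biUnion, Finset.coe_univ, Set.mem_univ, Set.iUnion_true, Set.mem_iUnion]
  exact ⟨i, hk⟩

theorem loc_prod {ι X β β' : Type} {φ : (ι → X) → β} {ψ : (ι → X) → β'} (h : Loc φ)
    (h' : Loc ψ) : Loc (fun x => (φ x, ψ x)) := by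
  classical
  obtain ⟨K, hK⟩ := h
  obtain ⟨K', hK'⟩ := h'
  refine ⟨K ∪ K', fun x y hxy => ?_⟩
  refine Prod.ext (hK x y fun k hk => hxy k ?_) (hK' x y fun k hk => hxy k ?_)
  · simp only [Finset.coe_union, Set.mem_union]; exact Or.inl hk
  · simp only [Finset.coe_union, Set.mem_union]; exact Or.inr hk

theorem loc_sh {Γ X β : Type} [Group Γ] {φ : (Γ → X) → β} (h : Loc φ) (g : Γ) :
    Loc (fun x => φ (sh g x)) := by
  classical
  obtain ⟨K, hK⟩ := h
  refine ⟨K.image (fun k => k * g), fun x y hxy => ?_⟩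
  refine hK _ _ (fun k hk => hxy (k * g) ?_)
  simp only [Finset.coe_image]
  exact ⟨k, hk, rfl⟩

theorem loc_eval {ι X : Type} (g : ι) : Loc (fun x : ι → X => x g) :=
  ⟨{g}, fun x y hxy => hxy g (by simp)⟩

end Local

section Labels

/-- the values of `v` at the first `M` places where `w` is true -/
noncomputable def pk {k M : ℕ} (w v : Fin k → Bool) : Fin M → Bool := fun m =>
  if hc : M ≤ (Finset.univ.filter (fun i => w i = true)).card then
    v ((Finset.univ.filter (fun i => w i = true)).orderEmbOfCardLe hc m) else false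

theorem pk_congr {k M : ℕ} (w v v' : Fin k → Bool) (h : ∀ i, w i = true → v i = v' i) :
    (pk w v : Fin M → Bool) = pk w v' := by
  funext m
  unfold pk
  split_ifs with hc
  · apply h
    have := Finset.orderEmbOfCardLe_mem (Finset.univ.filter (fun i => w i = true)) hc m
    simpa using this
  · rfl

variable {Γ : Type} [Group Γ]

/-- label of `g` in the environment `e` -/
noncomputable def Lb {k M : ℕ} (h : Fin k → Γ) (b : (Γ → Bool) → Bool) (e : Γ → Bool) (g : Γ) :
    Fin M → Bool :=
  pk (fun i => b (sh (h i * g) e)) (fun i => e (h i * g))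

theorem Lb_sh {k M : ℕ} (h : Fin k → Γ) (b : (Γ → Bool) → Bool) (e : Γ → Bool) (g x : Γ) :
    (Lb h b (sh x e) g : Fin M → Bool) = Lb h b e (g * x) := by
  unfold Lb
  have h1 : (fun i => b (sh (h i * g) (sh x e))) = fun i => b (sh (h i * (g * x)) e) := by
    funext i; rw [sh_sh, mul_assoc]
  have h2 : (fun i => (sh x e) (h i * g)) = fun i => e (h i * (g * x)) := by
    funext i; show e (h i * g * x) = _; rw [mul_assoc]
  rw [h1, h2]

theorem loc_Lb {k M : ℕ} (h : Fin k → Γ) {b : (Γ → Bool) → Bool} (hb : Loc b) (g : Γ) :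
    Loc (fun e => (Lb h b e g : Fin M → Bool)) :=
  loc_comp (loc_prod (loc_pi (fun i => loc_sh hb (h i * g))) (loc_pi (fun i => loc_eval (h i * g))))
    (fun p : (Fin k → Bool) × (Fin k → Bool) => (pk p.1 p.2 : Fin M → Bool))

/-- labels do not change if `e` is changed outside of the `b`-sites, keeping these -/
theorem Lb_congr {k M : ℕ} (h : Fin k → Γ) (b : (Γ → Bool) → Bool) (e e' : Γ → Bool) (g : Γ)
    (h1 : ∀ x, b (sh x e) = b (sh x e')) (h2 : ∀ x, b (sh x e') = true → e x = e' x) :
    (Lb h b e g : Fin M → Bool) = Lb h b e' g := by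
  unfold Lb
  have h3 : (fun i => b (sh (h i * g) e)) = fun i => b (sh (h i * g) e') := by
    funext i; rw [h1]
  rw [h3]
  exact pk_congr _ _ _ (fun i hi => h2 _ hi)

end Labels

section Law

theorem law_pi {ι D : Type} [Fintype D] {M : ℕ} (ν : Measure Bool) [IsProbabilityMeasure ν]
    (p : D → Fin M → ι) (hp : ∀ g m g' m', p g m = p g' m' → g = g' ∧ m = m') :
    (iid ι ν).map (fun z (g : D) (m : Fin M) => z (p g m)) =
      Measure.pi (fun _ : D => Measure.pi (fun _ : Fin M => ν)) := by
  classical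
  have hm : Measurable (fun (z : ι → Bool) (g : D) (m : Fin M) => z (p g m)) :=
    measurable_pi_lambda _ (fun g => measurable_pi_lambda _ (fun m => measurable_pi_apply _))
  rw [Measure.ext_iff_singleton]
  intro l
  rw [Measure.map_apply hm (measurableSet_singleton _), Measure.pi_singleton]
  have h1 : (fun (z : ι → Bool) (g : D) (m : Fin M) => z (p g m)) ⁻¹' {l} =
      Set.pi ((Finset.univ.image (fun q : D × Fin M => p q.1 q.2) : Finset ι) : Set ι)
        (fun γ => {v | ∀ g m, p g m = γ → v = l g m}) := by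
    ext z
    simp only [Set.mem_preimage, Set.mem_singleton_iff, Set.mem_pi, Finset.coe_image,
      Finset.coe_univ, Set.image_univ, Set.mem_range, Set.mem_ofPred_eq]
    constructor
    · rintro rfl γ _ g m rfl
      rfl
    · intro h
      funext g m
      exact h (p g m) ⟨(g, m), rfl⟩ g m rfl
  rw [h1]
  unfold iid
  rw [Measure.infinitePi_pi _ (fun i _ => (Set.toFinite _).measurableSet)]
  rw [Finset.prod_image]
  · rw [← Finset.univ_product_univ, Finset.prod_product]
    refine Finset.prod_congr rfl (fun g _ => ?_)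
    rw [Measure.pi_singleton]
    refine Finset.prod_congr rfl (fun m _ => ?_)
    congr 1
    ext v
    simp only [Set.mem_ofPred_eq, Set.mem_singleton_iff]
    constructor
    · intro h; exact h g m rfl
    · rintro rfl g' m' h
      obtain ⟨rfl, rfl⟩ := hp _ _ _ _ h
      rfl
  · rintro ⟨g, m⟩ _ ⟨g', m'⟩ _ h
    obtain ⟨rfl, rfl⟩ := hp _ _ _ _ h
    rfl

end Law

section Combi

open Classical in
theorem card_bound {Γ : Type} [Group Γ] (S F D : Finset Γ) (ε : ℝ) (hε : 0 < ε)
    (hD : D = F ∪ S.biUnion (fun s => F.image (fun g => g * s)))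
    (hF : ∀ s ∈ S, ((((fun g => g * s) '' (F : Set Γ)) \ (F : Set Γ)).ncard : ℝ) ≤
      ε / (8 * (S.card + 1)) * F.card) :
    ((Finset.univ.filter (fun g : D => ¬ (g.1 ∈ F ∧ ∀ s ∈ S, g.1 ∈ F.image (fun g => g * s)))).card
      : ℝ) ≤ ε / 4 * F.card := by
  have h1 : (Finset.univ.filter
      (fun g : D => ¬ (g.1 ∈ F ∧ ∀ s ∈ S, g.1 ∈ F.image (fun g => g * s)))).card ≤
      (S.biUnion (fun s => (F.image (fun g => g * s) \ F) ∪ (F \ F.image (fun g => g * s)))).card := by
    refine Finset.card_le_card_of_injOn (fun g : D => g.1) ?_ (fun x _ y _ h => Subtype.ext h)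
    intro g hg
    simp only [Finset.coe_filter, Finset.mem_univ, true_and, Set.mem_ofPred_eq] at hg
    simp only [Finset.mem_coe, Finset.mem_biUnion, Finset.mem_union, Finset.mem_sdiff]
    by_cases hgF : g.1 ∈ F
    · have h2 : ¬ ∀ s ∈ S, g.1 ∈ F.image (fun g => g * s) := fun h => hg ⟨hgF, h⟩
      push Not at h2
      obtain ⟨s, hs, h3⟩ := h2
      exact ⟨s, hs, Or.inr ⟨hgF, h3⟩⟩
    · have h2 : g.1 ∈ F ∪ S.biUnion (fun s => F.image (fun g => g * s)) :=
        (Finset.ext_iff.1 hD g.1).1 g.2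
      rw [Finset.mem_union] at h2
      rcases h2 with h2 | h2
      · exact absurd h2 hgF
      · rw [Finset.mem_biUnion] at h2
        obtain ⟨s, hs, h3⟩ := h2
        exact ⟨s, hs, Or.inl ⟨h3, hgF⟩⟩
  have h2 : ∀ s ∈ S, (((F.image (fun g => g * s) \ F) ∪ (F \ F.image (fun g => g * s))).card : ℝ) ≤
      2 * (ε / (8 * (S.card + 1)) * F.card) := by
    intro s hs
    have h3 : (((fun g => g * s) '' (F : Set Γ)) \ (F : Set Γ)).ncard =
        (F.image (fun g => g * s) \ F).card := by
      rw [← Set.ncard_coe_finset]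
      push_cast
      rfl
    have h4 := hF s hs
    rw [h3] at h4
    have h5 : (F.image (fun g => g * s)).card = F.card :=
      Finset.card_image_of_injective _ (fun x y h => mul_right_cancel h)
    have h6 := Finset.card_sdiff_add_card_inter (F.image (fun g => g * s)) F
    have h7 := Finset.card_sdiff_add_card_inter F (F.image (fun g => g * s))
    rw [Finset.inter_comm] at h7
    have h8 : (F \ F.image (fun g => g * s)).card = (F.image (fun g => g * s) \ F).card := by
      omega
    have h9 := Finset.card_union_le (F.image (fun g => g * s) \ F) (F \ F.image (fun g => g * s))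
    have h10 : (((F.image (fun g => g * s) \ F) ∪ (F \ F.image (fun g => g * s))).card : ℝ) ≤
        ((F.image (fun g => g * s) \ F).card : ℝ) + ((F.image (fun g => g * s) \ F).card : ℝ) := by
      rw [h8] at h9
      exact_mod_cast h9
    linarith
  have h3 : ((S.biUnion (fun s => (F.image (fun g => g * s) \ F) ∪
      (F \ F.image (fun g => g * s)))).card : ℝ) ≤
      ∑ s ∈ S, (((F.image (fun g => g * s) \ F) ∪ (F \ F.image (fun g => g * s))).card : ℝ) := by
    exact_mod_cast Finset.card_biUnion_le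
  have h4 := Finset.sum_le_sum h2
  rw [Finset.sum_const, nsmul_eq_mul] at h4
  have h5 : ((Finset.univ.filter
      (fun g : D => ¬ (g.1 ∈ F ∧ ∀ s ∈ S, g.1 ∈ F.image (fun g => g * s)))).card : ℝ) ≤
      (S.biUnion (fun s => (F.image (fun g => g * s) \ F) ∪ (F \ F.image (fun g => g * s)))).card := by
    exact_mod_cast h1
  have h6 : (S.card : ℝ) * (2 * (ε / (8 * (S.card + 1)) * F.card)) ≤ ε / 4 * F.card := by
    have h7 : (S.card : ℝ) * (2 * (ε / (8 * (S.card + 1)) * F.card)) =
        (S.card / (S.card + 1) : ℝ) * (ε / 4 * F.card) := by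
      have : (S.card + 1 : ℝ) ≠ 0 := by positivity
      field_simp
      ring
    rw [h7]
    have h8 : (S.card / (S.card + 1) : ℝ) ≤ 1 := by
      rw [div_le_one (by positivity)]
      linarith
    have h9 : 0 ≤ ε / 4 * (F.card : ℝ) := by positivity
    nlinarith
  linarith

end Combi

theorem part (h₁ : S_RES) (h₂ : S_MANY) (h₃ : S_ARG) : S_PART := by
  classical
  intro Γ _ _ _ hFol ν _ hνt hνf a b hst S ε hε
  obtain ⟨F, hFne, hFS⟩ := hFol S (ε / (8 * (S.card + 1))) (by positivity)
  obtain ⟨D, hD⟩ : ∃ D : Finset Γ, D = F ∪ S.biUnion (fun s => F.image (fun g => g * s)) :=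
    ⟨_, rfl⟩
  have hFD : F ⊆ D := by rw [hD]; exact Finset.subset_union_left
  have : Nonempty D := ⟨⟨hFne.choose, hFD hFne.choose_spec⟩⟩
  have : Nonempty F := ⟨⟨hFne.choose, hFne.choose_spec⟩⟩
  obtain ⟨M, enc, henc, hARG⟩ := h₃ ν hνt hνf D (ε / 4) (by positivity)
  obtain ⟨k, h, hinj, hMANY⟩ := h₂ Γ ν b hst.loc_b hst.posb D M (ε / 4) (by positivity)
  -- the centre function
  have hex : ∀ v : F → ℕ, ∃ φ₀, ∀ φ, v φ₀ ≤ v φ := fun v => Finite.exists_min v
  choose mn hmn using hex
  set c : (Γ → Bool) → Γ := fun e => (mn (fun φ : F => enc (Lb h b e φ.1)) : F).1 with hc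
  -- the good event
  set Gd : Set (Γ → Bool) := {y | ∃ g : D, (g.1 ∈ F ∧ ∀ s ∈ S, g.1 ∈ F.image (fun g => g * s)) ∧
    ∀ g' : D, g' ≠ g → enc (Lb h b y g.1) < enc (Lb h b y g'.1)} with hGd
  have hkey : ∀ e ∈ Gd, ∀ s ∈ S, c (sh s e) * s = c e := by
    rintro e ⟨g, ⟨hgF, hgS⟩, hmin⟩ s hs
    -- centre of `x`
    have hx : ∀ x, (F.image (fun g => g * x) ⊆ D) → g.1 ∈ F.image (fun g => g * x) →
        c (sh x e) * x = g.1 := by
      intro x hxD hgx
      by_contra hne
      have h1 : c (sh x e) * x ∈ D := hxD (Finset.mem_image_of_mem _ (mn _).2)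
      have h2 := hmin ⟨_, h1⟩ (fun h => hne (congrArg Subtype.val h))
      rw [Finset.mem_image] at hgx
      obtain ⟨φ, hφ, hφx⟩ := hgx
      have h3 := hmn (fun φ : F => enc (Lb h b (sh x e) φ.1)) ⟨φ, hφ⟩
      simp only [Lb_sh] at h3
      rw [hφx] at h3
      have h4 : (c (sh x e)) = (mn (fun φ : F => enc (Lb h b e (φ.1 * x)))).1 := by
        rw [hc]
        simp only [Lb_sh]
      simp only [h4] at h2
      omega
    have h1 := hx s (by
      rw [hD]
      exact (Finset.subset_biUnion_of_mem (fun s => F.image (fun g => g * s)) hs).trans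
        Finset.subset_union_right) (hgS s hs)
    have h2 := hx 1 (by simpa using hFD) (by simpa using hgF)
    rw [sh_one, mul_one] at h2
    rw [h1, h2]
  -- locality
  have hlocL : ∀ g, Loc (fun e => (Lb h b e g : Fin M → Bool)) := fun g => loc_Lb h hst.loc_b g
  have hlocc : Loc c := by
    have h1 : Loc (fun e => fun φ : F => enc (Lb h b e φ.1)) :=
      loc_pi (fun φ : F => loc_comp (hlocL φ.1) enc)
    exact loc_comp h1 (fun v => (mn v).1)
  refine ⟨c, hlocc, ?_⟩
  -- `a`-erasing does not matter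
  have her : ∀ (y : Γ → Bool) (g : Γ), (Lb h b (er a y) g : Fin M → Bool) = Lb h b y g := by
    intro y g
    have hb : ∀ x, b (sh x (er a y)) = b (sh x y) := by
      intro x
      refine (hst.det (sh x y) (sh x (er a y)) (fun g' hg' _ => ?_)).2
      show y (g' * x) = er a y (g' * x)
      unfold er
      rw [sh_sh] at hg'
      rw [if_neg (by rw [hg']; simp)]
    refine Lb_congr h b _ _ g hb (fun x hx => ?_)
    unfold er
    rw [if_neg]
    intro ha
    have := hst.disj _ ha
    rw [hx] at this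
    exact absurd this (by simp)
  have hGder : ∀ y, er a y ∈ Gd ↔ y ∈ Gd := by
    intro y
    simp only [hGd, Set.mem_ofPred_eq, her]
  have hsub : {y | ∃ s ∈ S, c (sh s (er a y)) * s ≠ c (er a y)} ⊆ Gdᶜ := by
    rintro y ⟨s, hs, hne⟩ hy
    exact hne (hkey _ ((hGder y).2 hy) s hs)
  refine (measure_mono hsub).trans ?_
  -- the resampling
  have hsmeas : ∀ g : Γ, Measurable (fun y : Γ → Bool => b (sh g y)) := by
    intro g t _
    exact loc_meas (loc_sh hst.loc_b g) t
  have hsdet : ∀ y y' : Γ → Bool, (∀ g, b (sh g y) = false → y g = y' g) →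
      ∀ g, b (sh g y') = b (sh g y) := by
    intro y y' hyy g
    refine (hst.det (sh g y) (sh g y') (fun g' _ hg' => ?_)).2
    rw [sh_sh] at hg'
    exact hyy _ hg'
  have hRES := h₁ Γ Bool ν (fun g y => b (sh g y)) hsmeas hsdet
  set R : (Γ → Bool) × (Γ → Bool) → (Γ → Bool) :=
    fun p g => if b (sh g p.1) = true then p.2 g else p.1 g with hR
  have hRm : Measurable R := by
    refine measurable_pi_lambda _ (fun g => ?_)
    refine Measurable.ite ?_ ((measurable_pi_apply g).comp measurable_snd)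
      ((measurable_pi_apply g).comp measurable_fst)
    exact ((hsmeas g).comp measurable_fst) (measurableSet_singleton true)
  have hGm : MeasurableSet Gdᶜ := by
    have h1 : Loc (fun e => fun g : D => (Lb h b e g.1 : Fin M → Bool)) :=
      loc_pi (fun g : D => hlocL g.1)
    exact (loc_meas h1 {l | ∃ g : D, (g.1 ∈ F ∧ ∀ s ∈ S, g.1 ∈ F.image (fun g => g * s)) ∧
      ∀ g' : D, g' ≠ g → enc (l g) < enc (l g')}).compl
  have hP : iid Γ ν Gdᶜ = ((iid Γ ν).prod (iid Γ ν)) (R ⁻¹' Gdᶜ) := by
    conv_lhs => rw [← hRES]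
    rw [Measure.map_apply hRm hGm]
  rw [hP, Measure.prod_apply (hRm hGm)]
  -- the two cases
  set Few : Set (Γ → Bool) := {y | ∃ g ∈ D,
        (Finset.univ.filter (fun i : Fin k => b (sh (h i * g) y) = true)).card < M} with hFew
  have hFewm : MeasurableSet Few := by
    have h1 : Loc (fun y => fun (q : D × Fin k) => b (sh (h q.2 * q.1.1) y)) :=
      loc_pi (fun q : D × Fin k => loc_sh hst.loc_b (h q.2 * q.1.1))
    have h2 := loc_meas h1 {w | ∃ g : D,
      (Finset.univ.filter (fun i : Fin k => w (g, i) = true)).card < M}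
    convert h2 using 1
    ext y
    simp only [hFew, Set.mem_ofPred_eq, Set.mem_preimage, Subtype.exists, exists_prop]
  have hpt : ∀ y, iid Γ ν (Prod.mk y ⁻¹' (R ⁻¹' Gdᶜ)) ≤
      Few.indicator 1 y + ENNReal.ofReal (ε / 4 + ε / 4) := by
    intro y
    by_cases hy : y ∈ Few
    · rw [Set.indicator_of_mem hy]
      exact prob_le_one.trans le_self_add
    · rw [Set.indicator_of_notMem hy, zero_add]
      have hmany : ∀ g ∈ D,
          M ≤ (Finset.univ.filter (fun i : Fin k => b (sh (h i * g) y) = true)).card := by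
        intro g hg
        by_contra hlt
        exact hy ⟨g, hg, not_le.1 hlt⟩
      set p : D → Fin M → Γ := fun g m =>
        h ((Finset.univ.filter (fun i : Fin k => b (sh (h i * g.1) y) = true)).orderEmbOfCardLe
          (hmany g.1 g.2) m) * g.1 with hp
      have hpinj : ∀ g m g' m', p g m = p g' m' → g = g' ∧ m = m' := by
        intro g m g' m' hpp
        obtain ⟨h1, h2⟩ := hinj _ _ g.1 g.2 g'.1 g'.2 hpp
        have h3 : g = g' := Subtype.ext h2
        subst h3
        exact ⟨rfl, (RelEmbedding.injective _) h1⟩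
      have hlab : ∀ (z : Γ → Bool) (g : D), (Lb h b (R (y, z)) g.1 : Fin M → Bool) =
          fun m => z (p g m) := by
        intro z g
        have hbb : ∀ x, b (sh x (R (y, z))) = b (sh x y) := by
          refine hsdet y (R (y, z)) (fun x hx => ?_)
          simp only [hR]
          rw [if_neg (by rw [hx]; simp)]
        unfold Lb
        have h3 : (fun i => b (sh (h i * g.1) (R (y, z)))) = fun i => b (sh (h i * g.1) y) := by
          funext i; rw [hbb]
        rw [h3]
        rw [pk_congr _ _ (fun i => z (h i * g.1)) (fun i hi => by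
          simp only [hR]
          rw [if_pos hi])]
        funext m
        unfold pk
        rw [dif_pos (hmany g.1 g.2)]
      set D₀ : Finset D := Finset.univ.filter
        (fun g : D => ¬ (g.1 ∈ F ∧ ∀ s ∈ S, g.1 ∈ F.image (fun g => g * s))) with hD₀
      have hset : Prod.mk y ⁻¹' (R ⁻¹' Gdᶜ) =
          (fun (z : Γ → Bool) (g : D) (m : Fin M) => z (p g m)) ⁻¹'
            {l | ¬ ∃ g, g ∉ D₀ ∧ ∀ g', g' ≠ g → enc (l g) < enc (l g')} := by
        ext z
        simp only [Set.mem_preimage, Set.mem_compl_iff, hGd, Set.mem_ofPred_eq, hlab, hD₀,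
          Finset.mem_filter, Finset.mem_univ, true_and, not_not]
      rw [hset, ← Measure.map_apply (measurable_pi_lambda _ (fun g => measurable_pi_lambda _
        (fun m => measurable_pi_apply _))) (Set.toFinite _).measurableSet, law_pi ν p hpinj]
      refine (hARG D₀).trans (ENNReal.ofReal_le_ofReal ?_)
      have hb1 := card_bound S F D ε hε hD hFS
      have hcD : (0 : ℝ) < F.card := by
        have := Finset.card_pos.2 hFne
        exact_mod_cast this
      have hcFD : (F.card : ℝ) ≤ (Fintype.card D : ℝ) := by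
        rw [Fintype.card_coe]
        exact_mod_cast Finset.card_le_card hFD
      have hb2 : (D₀.card : ℝ) / (Fintype.card D : ℝ) ≤ ε / 4 := by
        rw [div_le_iff₀ (lt_of_lt_of_le hcD hcFD)]
        refine hb1.trans ?_
        exact mul_le_mul_of_nonneg_left hcFD (by positivity)
      linarith
  calc ∫⁻ y, iid Γ ν (Prod.mk y ⁻¹' (R ⁻¹' Gdᶜ)) ∂(iid Γ ν)
      ≤ ∫⁻ y, (Few.indicator 1 y + ENNReal.ofReal (ε / 4 + ε / 4)) ∂(iid Γ ν) :=
        lintegral_mono hpt
    _ = iid Γ ν Few + ENNReal.ofReal (ε / 4 + ε / 4) := by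
        rw [lintegral_add_right _ measurable_const, lintegral_indicator_one hFewm,
          lintegral_const, measure_univ, mul_one]
    _ ≤ ENNReal.ofReal (ε / 4) + ENNReal.ofReal (ε / 4 + ε / 4) := by gcongr
    _ = ENNReal.ofReal (ε / 4 + (ε / 4 + ε / 4)) := by
        rw [← ENNReal.ofReal_add (by positivity) (by positivity)]
    _ ≤ ENNReal.ofReal ε := ENNReal.ofReal_le_ofReal (by linarith)

end Pool.Agent.W358.FIPart
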