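import Pool.Agent.W854.HW.Stmts

set_option autoImplicit false

/-!
# The split lemma for Howitt-Warren motions
-/

open MeasureTheory ProbabilityTheory Filter Topology Finset Set
open scoped NNReal ENNReal

noncomputable section

namespace Pool.Agent.W358.HWSplit

open Pool.Agent.W854.HW

lemma measurable_argmaxCard {n : ℕ} (Δ : Finset (Fin n)) :
    Measurable fun x : Fin n → ℝ => argmaxCard Δ x := by
  have h : (fun x : Fin n → ℝ => argmaxCard Δ x) =
      fun x => ∑ i ∈ Δ, if ∀ j ∈ Δ, x j ≤ x i then 1 else 0 := by
    funext x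
    rw [argmaxCard, Finset.card_filter]
  rw [h]
  refine Finset.measurable_fun_sum Δ fun i _ => ?_
  refine Measurable.ite ?_ measurable_const measurable_const
  have h2 : {x : Fin n → ℝ | ∀ j ∈ Δ, x j ≤ x i} = ⋂ j ∈ Δ, {x : Fin n → ℝ | x j ≤ x i} := by
    ext x; simp
  rw [h2]
  refine Finset.measurableSet_biInter _ fun j _ => ?_
  exact measurableSet_le (measurable_pi_apply j) (measurable_pi_apply i)

lemma intervalIntegrable_of_bdd {f : ℝ → ℝ} (hf : Measurable f) {A B : ℝ}
    (h : ∀ s, A ≤ f s ∧ f s ≤ B) (a b : ℝ) : IntervalIntegrable f volume a b := by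
  rw [intervalIntegrable_iff]
  refine Measure.integrableOn_of_bounded (M := max |A| |B|) ?_ hf.aestronglyMeasurable ?_
  · rw [uIoc]
    simp
  · refine Filter.Eventually.of_forall fun s => ?_
    rw [Real.norm_eq_abs]
    exact abs_le_max_abs_abs (h s).1 (h s).2

lemma betaPlus_one (β : ℝ) (ν : Measure ℝ) : betaPlus β ν 1 = β := by
  simp [betaPlus]

lemma argmaxCard_singleton {n : ℕ} (i : Fin n) (x : Fin n → ℝ) : argmaxCard {i} x = 1 := by
  simp [argmaxCard, Finset.filter_singleton]

theorem main : S_GAP → S_MIN → S_BOUNDS → S_SPLIT := by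
  intro hGAP hMIN hBND β ν hν n y Ω mΩ P hP X hX L R hL hR i j hi hj hLi hRj hij
  obtain ⟨hXm, hcov, hmax⟩ := hX.mart
  have hsp : speed ν ≠ ⊤ := ne_top_of_le_ne_top ENNReal.ofReal_ne_top hν
  obtain ⟨hB1, hB2, hB3⟩ := hBND ν hsp
  obtain ⟨bm, hbm1, hbm2, hbm3⟩ := hMIN β ν hsp n y Ω mΩ P hP X hX hXm R hR
  have hcontk : ∀ (ω : Ω) (k : Fin n), Continuous fun t => X t ω k := fun ω k =>
    (continuous_apply k).comp (hX.cont ω)
  -- the one point martingales
  have hone : ∀ k : Fin n, Martingale (fun (t : ℝ≥0) ω => X t ω k - β * t)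
      (Filtration.natural X hXm) P := by
    intro k
    have h1 := hmax {k} (Finset.singleton_nonempty k)
    have h2 : (fun (t : ℝ≥0) ω => ({k} : Finset (Fin n)).sup' (Finset.singleton_nonempty k) (X t ω) -
        ∫ s in (0 : ℝ)..t, betaPlus β ν (argmaxCard {k} (X s.toNNReal ω))) =
        fun (t : ℝ≥0) ω => X t ω k - β * t := by
      funext t ω
      simp only [argmaxCard_singleton, betaPlus_one, Finset.sup'_singleton,
        intervalIntegral.integral_const, smul_eq_mul, sub_zero]
      ring
    rw [h2] at h1
    exact h1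
  have hmeasB : ∀ ω, Measurable fun s : ℝ => betaPlus β ν (argmaxCard L (X s.toNNReal ω)) := by
    intro ω
    have h1 : Measurable fun s : ℝ => X s.toNNReal ω :=
      ((hX.cont ω).comp continuous_real_toNNReal).measurable
    exact (measurable_of_countable (betaPlus β ν)).comp ((measurable_argmaxCard L).comp h1)
  have hmain := hGAP Ω mΩ P hP (Filtration.natural X hXm)
    (fun t ω => X t ω j - X t ω i)
    (fun t ω => (L.sup' hL (X t ω) - X t ω i) + (X t ω j - R.inf' hR (X t ω)))
    (fun t ω => (betaPlus β ν (argmaxCard L (X t ω)) - β) + (β - bm t ω))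
    (y j - y i) (speedR ν + speedL ν) (by linarith) ?_ ?_ ?_ ?_ ?_ ?_ ?_ ?_ ?_ ?_ ?_ ?_ ?_
  · have h0 : (fun ω => max (X 32 ω j - X 32 ω i - ((L.sup' hL (X 32 ω) - X 32 ω i) +
        (X 32 ω j - R.inf' hR (X 32 ω))) - 1) 0) =
        fun ω => max (R.inf' hR (X 32 ω) - L.sup' hL (X 32 ω) - 1) 0 := by
      funext ω
      congr 1
      ring
    rw [h0] at hmain
    exact hmain
  · rw [hB1]; exact ENNReal.toReal_nonneg
  · rw [hB1]
    refine ENNReal.toReal_le_of_le_ofReal (by norm_num) hν
  · intro ω
    exact (hcontk ω j).sub (hcontk ω i)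
  · filter_upwards [hX.start] with ω hω
    rw [hω]
  · intro t
    exact (hX.sq t j).sub (hX.sq t i)
  · have h1 := (hone j).sub (hone i)
    have h2 : ((fun (t : ℝ≥0) ω => X t ω j - β * t) - fun (t : ℝ≥0) ω => X t ω i - β * t) =
        fun (t : ℝ≥0) ω => X t ω j - X t ω i := by
      funext t ω
      simp only [Pi.sub_apply]
      ring
    rw [h2] at h1
    exact h1
  · have h1 := ((hcov j j).add (hcov i i)).sub ((hcov i j).smul (2 : ℝ))
    convert h1 using 1
    funext t ω
    simp only [Pi.sub_apply, Pi.add_apply, Pi.smul_apply, smul_eq_mul, if_true,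
      intervalIntegral.integral_const, sub_zero, mul_one]
    have hms : Measurable fun s : ℝ => if X s.toNNReal ω i = X s.toNNReal ω j then (1 : ℝ) else 0 := by
      refine Measurable.ite ?_ measurable_const measurable_const
      refine (isClosed_eq ?_ ?_).measurableSet
      · exact (hcontk ω i).comp continuous_real_toNNReal
      · exact (hcontk ω j).comp continuous_real_toNNReal
    have hint : IntervalIntegrable (fun s : ℝ => if X s.toNNReal ω i = X s.toNNReal ω j then (1 : ℝ)
        else 0) volume 0 t := by
      refine intervalIntegrable_of_bdd hms (A := 0) (B := 1) ?_ _ _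
      intro s
      split_ifs <;> norm_num
    have e1 : (∫ s in (0 : ℝ)..t, if X s.toNNReal ω j - X s.toNNReal ω i = 0 then (0 : ℝ) else 1) =
        ∫ s in (0 : ℝ)..t, ((1 : ℝ) - if X s.toNNReal ω i = X s.toNNReal ω j then (1 : ℝ) else 0) := by
      congr 1
      funext s
      by_cases h : X s.toNNReal ω i = X s.toNNReal ω j
      · simp [h]
      · have h' : ¬ (X s.toNNReal ω j - X s.toNNReal ω i = 0) := by
          intro h2
          exact h (sub_eq_zero.mp h2).symm
        simp [h, h']
    rw [e1, intervalIntegral.integral_sub intervalIntegrable_const hint]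
    simp only [intervalIntegral.integral_const, sub_zero, smul_eq_mul, mul_one]
    ring
  · intro t
    have hXt : StronglyMeasurable[Filtration.natural X hXm t] (X t) :=
      Filtration.stronglyAdapted_natural hXm t
    have hk : ∀ k : Fin n, StronglyMeasurable[Filtration.natural X hXm t] (fun ω => X t ω k) := by
      intro k
      exact (continuous_apply k).comp_stronglyMeasurable hXt
    have hsupL : StronglyMeasurable[Filtration.natural X hXm t] (fun ω => L.sup' hL (X t ω)) := by
      have hc : Continuous fun x : Fin n → ℝ => L.sup' hL x := by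
        have := Continuous.finset_sup'_apply hL (f := fun (k : Fin n) (x : Fin n → ℝ) => x k)
          (fun k _ => continuous_apply k)
        exact this
      exact hc.comp_stronglyMeasurable hXt
    have hinfR : StronglyMeasurable[Filtration.natural X hXm t] (fun ω => R.inf' hR (X t ω)) := by
      have hc : Continuous fun x : Fin n → ℝ => R.inf' hR x := by
        have := Continuous.finset_inf'_apply hR (f := fun (k : Fin n) (x : Fin n → ℝ) => x k)
          (fun k _ => continuous_apply k)
        exact this
      exact hc.comp_stronglyMeasurable hXt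
    exact (hsupL.sub (hk i)).add ((hk j).sub hinfR)
  · filter_upwards [hX.start] with ω hω
    rw [hω]
    have h1 : L.sup' hL y = y i := le_antisymm (Finset.sup'_le _ _ hLi) (Finset.le_sup' y hi)
    have h2 : R.inf' hR y = y j := le_antisymm (Finset.inf'_le y hj) (Finset.le_inf' _ _ hRj)
    rw [h1, h2]
    ring
  · intro t ω
    have h1 := Finset.le_sup' (X t ω) hi
    have h2 := Finset.inf'_le (X t ω) hj
    linarith
  · intro t ω
    have h1 := hB2 β (argmaxCard L (X t ω))
    have h2 := hbm1 t ω
    constructor
    · linarith [h1.1, h2.2]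
    · linarith [h1.2, h2.1]
  · intro ω
    exact ((hmeasB ω).sub measurable_const).add (measurable_const.sub (hbm2 ω))
  · have h1 := (((hmax L hL).sub (hone i)).add (hone j)).sub hbm3
    convert h1 using 1
    funext t ω
    simp only [Pi.sub_apply, Pi.add_apply]
    have hI1 : IntervalIntegrable (fun s : ℝ => betaPlus β ν (argmaxCard L (X s.toNNReal ω)))
        volume 0 t := intervalIntegrable_of_bdd (hmeasB ω) (fun s => hB2 β _) _ _
    have hI2 : IntervalIntegrable (fun s : ℝ => bm s.toNNReal ω) volume 0 t :=
      intervalIntegrable_of_bdd (hbm2 ω) (fun s => hbm1 _ ω) _ _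
    rw [intervalIntegral.integral_add (hI1.sub intervalIntegrable_const)
      (intervalIntegrable_const.sub hI2), intervalIntegral.integral_sub hI1 intervalIntegrable_const,
      intervalIntegral.integral_sub intervalIntegrable_const hI2]
    simp only [intervalIntegral.integral_const, sub_zero, smul_eq_mul]
    ring

end Pool.Agent.W358.HWSplit
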