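import Mathlib
import Pool.Agent.W553.RCD.Stmts

/-!
# Hinge comparison on the unit sphere (task K8 of helper553)
-/

set_option autoImplicit false

open Set Filter Topology Real
open Pool.Agent.W553.RCD (E3 ang)

namespace Pool.Agent.W358.Hinge

theorem sinc_anti {x y : ℝ} (hx : 0 < x) (hxy : x ≤ y) (hy : y ≤ π) :
    Real.sin y / y ≤ Real.sin x / x := by
  have hy0 : 0 < y := hx.trans_le hxy
  have hc := strictConcaveOn_sin_Icc.concaveOn
  have hle : x / y ≤ 1 := (div_le_one hy0).mpr hxy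
  have h := hc.2 (show y ∈ Icc 0 π from ⟨hy0.le, hy⟩)
    (show (0 : ℝ) ∈ Icc 0 π from ⟨le_rfl, Real.pi_pos.le⟩)
    (show 0 ≤ x / y by positivity) (show 0 ≤ 1 - x / y by linarith) (by ring)
  simp only [smul_eq_mul, mul_zero, add_zero, Real.sin_zero] at h
  rw [div_mul_cancel₀ _ hy0.ne'] at h
  rw [div_le_div_iff₀ hy0 hx]
  calc Real.sin y * x = (x / y * Real.sin y) * y := by field_simp
    _ ≤ Real.sin x * y := mul_le_mul_of_nonneg_right h hy0.le

theorem phi_convex : ConvexOn ℝ (Icc 0 (π ^ 2)) (fun s : ℝ => Real.cos (√s)) := by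
  have hd : ∀ s : ℝ, s ∈ Ioo 0 (π ^ 2) →
      HasDerivAt (fun s : ℝ => Real.cos (√s)) (-Real.sin (√s) * (1 / (2 * √s))) s := by
    intro s hs
    exact (Real.hasDerivAt_cos (√s)).comp s (Real.hasDerivAt_sqrt hs.1.ne')
  apply MonotoneOn.convexOn_of_deriv (convex_Icc _ _)
  · exact (Real.continuous_cos.comp Real.continuous_sqrt).continuousOn
  · rw [interior_Icc]
    intro s hs
    exact (hd s hs).differentiableAt.differentiableWithinAt
  · rw [interior_Icc]
    intro s hs s' hs' hle
    rw [(hd s hs).deriv, (hd s' hs').deriv]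
    have h1 : 0 < √s := Real.sqrt_pos.mpr hs.1
    have h2 : √s ≤ √s' := Real.sqrt_le_sqrt hle
    have h3 : √s' ≤ π := by
      rw [Real.sqrt_le_left Real.pi_pos.le]
      exact hs'.2.le
    have h4 := sinc_anti h1 h2 h3
    have e1 : -Real.sin (√s) * (1 / (2 * √s)) = -(1 / 2) * (Real.sin (√s) / √s) := by
      field_simp
    have e2 : -Real.sin (√s') * (1 / (2 * √s')) = -(1 / 2) * (Real.sin (√s') / √s') := by
      have : √s' ≠ 0 := (h1.trans_le h2).ne'
      field_simp
    rw [e1, e2]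
    linarith

/-- the scalar inequality -/
theorem scalar (α η k : ℝ) (hα0 : 0 ≤ α) (hαπ : α ≤ π) (hη0 : 0 ≤ η) (hηπ : η ≤ π)
    (hk1 : -1 ≤ k) (hk2 : k ≤ 1) (hs : α ^ 2 + η ^ 2 - 2 * α * η * k < π ^ 2) :
    Real.cos (√(α ^ 2 + η ^ 2 - 2 * α * η * k)) ≤
      Real.cos α * Real.cos η + Real.sin α * Real.sin η * k := by
  have hc := phi_convex
  set s := α ^ 2 + η ^ 2 - 2 * α * η * k with hsd
  have hαη : 0 ≤ α * η := mul_nonneg hα0 hη0
  have hs1 : (α - η) ^ 2 ≤ s := by nlinarith
  have hs1' : (α - η) ^ 2 < π ^ 2 := hs1.trans_lt hs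
  have f1 : Real.cos (√((α - η) ^ 2)) = Real.cos α * Real.cos η + Real.sin α * Real.sin η := by
    rw [Real.sqrt_sq_eq_abs, Real.cos_abs, Real.cos_sub]
  have hsin : 0 ≤ Real.sin α * Real.sin η :=
    mul_nonneg (Real.sin_nonneg_of_nonneg_of_le_pi hα0 hαπ)
      (Real.sin_nonneg_of_nonneg_of_le_pi hη0 hηπ)
  rcases le_or_gt (α + η) π with hsum | hsum
  · have f2 : Real.cos (√((α + η) ^ 2)) =
        Real.cos α * Real.cos η - Real.sin α * Real.sin η := by
      rw [Real.sqrt_sq (by linarith), Real.cos_add]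
    have h := hc.2 (show (α - η) ^ 2 ∈ Icc 0 (π ^ 2) from ⟨sq_nonneg _, hs1'.le⟩)
      (show (α + η) ^ 2 ∈ Icc 0 (π ^ 2) from ⟨sq_nonneg _, by nlinarith⟩)
      (show 0 ≤ (1 + k) / 2 by linarith) (show 0 ≤ (1 - k) / 2 by linarith) (by ring)
    simp only [smul_eq_mul] at h
    rw [f1, f2] at h
    have e : (1 + k) / 2 * (α - η) ^ 2 + (1 - k) / 2 * (α + η) ^ 2 = s := by
      rw [hsd]; ring
    rw [e] at h
    refine h.trans (le_of_eq ?_)
    ring
  · -- weights with respect to `π ^ 2`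
    set s1 := (α - η) ^ 2 with hs1d
    have hd : 0 < π ^ 2 - s1 := by linarith
    set lam := (π ^ 2 - s) / (π ^ 2 - s1) with hlam
    have hl0 : 0 ≤ lam := div_nonneg (by linarith) hd.le
    have hl1 : lam ≤ 1 := (div_le_one hd).mpr (by linarith)
    have hlm : lam * (π ^ 2 - s1) = π ^ 2 - s := div_mul_cancel₀ _ hd.ne'
    have h := hc.2 (show s1 ∈ Icc 0 (π ^ 2) from ⟨sq_nonneg _, hs1'.le⟩)
      (show π ^ 2 ∈ Icc 0 (π ^ 2) from ⟨sq_nonneg _, le_rfl⟩)
      hl0 (show 0 ≤ 1 - lam by linarith) (by ring)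
    simp only [smul_eq_mul] at h
    rw [f1, Real.sqrt_sq Real.pi_pos.le, Real.cos_pi] at h
    have e : lam * s1 + (1 - lam) * π ^ 2 = s := by linarith
    rw [e] at h
    refine h.trans ?_
    -- `R` is affine and at least `-1` at the parameter `k0` of `π ^ 2`
    have hpos : 0 < 2 * α * η := by
      have hα' : 0 < α := by
        by_contra hh
        have : α = 0 := le_antisymm (not_lt.mp hh) hα0
        linarith
      have hη' : 0 < η := by
        by_contra hh
        have : η = 0 := le_antisymm (not_lt.mp hh) hη0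
        linarith
      positivity
    -- `1 - k = (s - s1) / (2 α η)`, `1 - k0 = (π² - s1) / (2 α η)`
    have g1 : (1 - k) * (2 * α * η) = s - s1 := by rw [hsd, hs1d]; ring
    have g2 : (1 - k) * (2 * α * η) = (1 - lam) * (π ^ 2 - s1) := by rw [g1]; linarith
    set q := (π ^ 2 - s1) / (2 * α * η) with hq
    have g3 : 1 - k = (1 - lam) * q := by
      rw [hq, ← mul_div_assoc, ← g2, mul_div_assoc, div_self hpos.ne', mul_one]
    have g4 : q ≤ 2 := by
      rw [hq, div_le_iff₀ hpos, hs1d]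
      nlinarith [Real.pi_pos]
    have g5 : -1 ≤ Real.cos α * Real.cos η + Real.sin α * Real.sin η * (1 - q) := by
      have h1 : Real.sin α * Real.sin η * (-1) ≤ Real.sin α * Real.sin η * (1 - q) :=
        mul_le_mul_of_nonneg_left (by linarith) hsin
      have h2 := Real.neg_one_le_cos (α + η)
      rw [Real.cos_add] at h2
      linarith
    have g6 : Real.cos α * Real.cos η + Real.sin α * Real.sin η * k =
        lam * (Real.cos α * Real.cos η + Real.sin α * Real.sin η) +
          (1 - lam) * (Real.cos α * Real.cos η + Real.sin α * Real.sin η * (1 - q)) := by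
      have : k = 1 - (1 - lam) * q := by linarith
      rw [this]
      ring
    rw [g6]
    have := mul_le_mul_of_nonneg_left g5 (show 0 ≤ 1 - lam by linarith)
    linarith

theorem K8 : Pool.Agent.W553.RCD.S_K8 := by
  intro z e h α η hz he hze hh hzh hα0 hαπ hη0 hηπ
  set X : E3 := Real.cos α • z + Real.sin α • e with hX
  set W : E3 := Real.cos η • z + Real.sin η • h with hW
  have hzz : inner ℝ z z = (1 : ℝ) := by rw [real_inner_self_eq_norm_sq, hz]; norm_num
  have hee : inner ℝ e e = (1 : ℝ) := by rw [real_inner_self_eq_norm_sq, he]; norm_num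
  have hhh : inner ℝ h h = (1 : ℝ) := by rw [real_inner_self_eq_norm_sq, hh]; norm_num
  have hez : inner ℝ e z = (0 : ℝ) := by rw [real_inner_comm]; exact hze
  have hhz : inner ℝ h z = (0 : ℝ) := by rw [real_inner_comm]; exact hzh
  have hXn : ‖X‖ = 1 := by
    have : ‖X‖ ^ 2 = 1 := by
      rw [← real_inner_self_eq_norm_sq, hX]
      simp only [inner_add_left, inner_add_right, real_inner_smul_left, real_inner_smul_right,
        hzz, hee, hez, hze]
      nlinarith [Real.sin_sq_add_cos_sq α]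
    exact (pow_eq_one_iff_of_nonneg (norm_nonneg _) two_ne_zero).mp this
  have hWn : ‖W‖ = 1 := by
    have : ‖W‖ ^ 2 = 1 := by
      rw [← real_inner_self_eq_norm_sq, hW]
      simp only [inner_add_left, inner_add_right, real_inner_smul_left, real_inner_smul_right,
        hzz, hhh, hhz, hzh]
      nlinarith [Real.sin_sq_add_cos_sq η]
    exact (pow_eq_one_iff_of_nonneg (norm_nonneg _) two_ne_zero).mp this
  have hin : inner ℝ X W = Real.cos α * Real.cos η + Real.sin α * Real.sin η * inner ℝ e h := by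
    rw [hX, hW]
    simp only [inner_add_left, inner_add_right, real_inner_smul_left, real_inner_smul_right,
        hzz, hzh, hez]
    ring
  have hk := abs_real_inner_le_norm e h
  rw [he, hh, one_mul, abs_le] at hk
  set k := inner ℝ e h with hkd
  have hαη : 0 ≤ α * η := mul_nonneg hα0 hη0
  have hs0 : 0 ≤ α ^ 2 + η ^ 2 - 2 * α * η * k := by nlinarith [sq_nonneg (α - η)]
  have hang0 := Pool.Agent.W553.RCD.ang_nonneg X W
  have hangπ := Pool.Agent.W553.RCD.ang_le_pi X W
  rcases le_or_gt (π ^ 2) (α ^ 2 + η ^ 2 - 2 * α * η * k) with hs | hs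
  · exact (pow_le_pow_left₀ hang0 hangπ 2).trans hs
  · have hsc := scalar α η k hα0 hαπ hη0 hηπ hk.1 hk.2 hs
    rw [← hin, ← Pool.Agent.W553.RCD.cos_ang hXn hWn] at hsc
    have hsπ : √(α ^ 2 + η ^ 2 - 2 * α * η * k) ≤ π := by
      rw [Real.sqrt_le_left Real.pi_pos.le]
      exact hs.le
    have h1 : ang X W ≤ √(α ^ 2 + η ^ 2 - 2 * α * η * k) := by
      by_contra hcon
      push Not at hcon
      have := Real.cos_lt_cos_of_nonneg_of_le_pi (Real.sqrt_nonneg _) hangπ hcon
      linarith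
    calc (ang X W) ^ 2 ≤ (√(α ^ 2 + η ^ 2 - 2 * α * η * k)) ^ 2 :=
          pow_le_pow_left₀ hang0 h1 2
      _ = _ := Real.sq_sqrt hs0

end Pool.Agent.W358.Hinge
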