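import Mathlib
import Pool.Agent.W553.RCD.Stmts

/-!
# Log-convexity of `κ ↦ sin (t √κ) / sin √κ` (task K3 of helper553)
-/

set_option autoImplicit false

open Set Filter Topology Real
open Pool.Agent.W553.RCD (sg)

namespace Pool.Agent.W358.SgConv

/-- the coefficients of the Euler product -/
noncomputable def a (j : ℕ) : ℝ := 1 / (π ^ 2 * ((j : ℝ) + 1) ^ 2)

theorem a_pos (j : ℕ) : 0 < a j := by unfold a; positivity

theorem a_mul_lt (j : ℕ) {κ : ℝ} (h : κ < π ^ 2) : 0 < 1 - a j * κ := by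
  have h1 : a j * π ^ 2 ≤ 1 := by
    unfold a
    rw [one_div, mul_inv, mul_comm (π ^ 2)⁻¹, mul_assoc, inv_mul_cancel₀ (by positivity), mul_one]
    apply inv_le_one_of_one_le₀
    have : (1 : ℝ) ≤ (j : ℝ) + 1 := by linarith [Nat.cast_nonneg (α := ℝ) j]
    nlinarith
  have h2 := mul_lt_mul_of_pos_left h (a_pos j)
  linarith

theorem a_mul_lt' (j : ℕ) {t κ : ℝ} (ht0 : 0 < t) (ht1 : t < 1) (h : κ < π ^ 2) :
    0 < 1 - t ^ 2 * (a j * κ) := by
  have h1 := a_mul_lt j h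
  rcases le_or_gt 0 κ with hk | hk
  · have h2 : t ^ 2 * (a j * κ) ≤ 1 * (a j * κ) := by
      apply mul_le_mul_of_nonneg_right
      · nlinarith
      · exact mul_nonneg (a_pos j).le hk
    linarith
  · have h2 : t ^ 2 * (a j * κ) ≤ 0 := by
      apply mul_nonpos_of_nonneg_of_nonpos (by positivity)
      exact mul_nonpos_of_nonneg_of_nonpos (a_pos j).le hk.le
    linarith

/-- logarithm of a factor -/
noncomputable def g (t : ℝ) (j : ℕ) (κ : ℝ) : ℝ :=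
  Real.log (1 - t ^ 2 * (a j * κ)) - Real.log (1 - a j * κ)

theorem g_hasDeriv (t : ℝ) (ht0 : 0 < t) (ht1 : t < 1) (j : ℕ) (κ : ℝ) (h : κ < π ^ 2) :
    HasDerivAt (g t j) (a j * (1 - t ^ 2) / ((1 - a j * κ) * (1 - t ^ 2 * (a j * κ)))) κ := by
  have h1 := a_mul_lt j h
  have h2 := a_mul_lt' j ht0 ht1 h
  have d1 : HasDerivAt (fun κ : ℝ => 1 - t ^ 2 * (a j * κ)) (-(t ^ 2 * (a j * 1))) κ := by
    have := (((hasDerivAt_id κ).const_mul (a j)).const_mul (t ^ 2)).const_sub 1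
    simpa using this
  have d2 : HasDerivAt (fun κ : ℝ => 1 - a j * κ) (-(a j * 1)) κ := by
    have := ((hasDerivAt_id κ).const_mul (a j)).const_sub 1
    simpa using this
  have d3 := (d1.log h2.ne').sub (d2.log h1.ne')
  have e : -(t ^ 2 * (a j * 1)) / (1 - t ^ 2 * (a j * κ)) - -(a j * 1) / (1 - a j * κ) =
      a j * (1 - t ^ 2) / ((1 - a j * κ) * (1 - t ^ 2 * (a j * κ))) := by
    rw [div_sub_div _ _ h2.ne' h1.ne', div_eq_div_iff (mul_ne_zero h2.ne' h1.ne')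
      (mul_ne_zero h1.ne' h2.ne')]
    ring
  rw [e] at d3
  exact d3

theorem g_convex (t : ℝ) (ht0 : 0 < t) (ht1 : t < 1) (j : ℕ) :
    ConvexOn ℝ (Iio (π ^ 2)) (g t j) := by
  apply MonotoneOn.convexOn_of_deriv (convex_Iio _)
  · intro κ hκ
    exact (g_hasDeriv t ht0 ht1 j κ hκ).continuousAt.continuousWithinAt
  · rw [interior_Iio]
    intro κ hκ
    exact (g_hasDeriv t ht0 ht1 j κ hκ).differentiableAt.differentiableWithinAt
  · rw [interior_Iio]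
    intro κ hκ κ' hκ' hle
    rw [(g_hasDeriv t ht0 ht1 j κ hκ).deriv, (g_hasDeriv t ht0 ht1 j κ' hκ').deriv]
    have h1 := a_mul_lt j (κ := κ) hκ
    have h2 := a_mul_lt' j ht0 ht1 (κ := κ) hκ
    have h1' := a_mul_lt j (κ := κ') hκ'
    have h2' := a_mul_lt' j ht0 ht1 (κ := κ') hκ'
    have h3 := mul_le_mul_of_nonneg_left hle (a_pos j).le
    have h4 : t ^ 2 * (a j * κ) ≤ t ^ 2 * (a j * κ') :=
      mul_le_mul_of_nonneg_left h3 (by positivity)
    apply div_le_div_of_nonneg_left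
    · apply mul_nonneg (a_pos j).le
      nlinarith
    · positivity
    · apply mul_le_mul (by linarith) (by linarith) h2'.le h1.le

/-- the partial products -/
noncomputable def P (t : ℝ) (N : ℕ) (κ : ℝ) : ℝ :=
  ∏ j ∈ Finset.range N, (1 - t ^ 2 * (a j * κ)) / (1 - a j * κ)

theorem P_pos (t : ℝ) (ht0 : 0 < t) (ht1 : t < 1) (N : ℕ) (κ : ℝ) (h : κ < π ^ 2) :
    0 < P t N κ :=
  Finset.prod_pos fun j _ => div_pos (a_mul_lt' j ht0 ht1 h) (a_mul_lt j h)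

theorem log_P (t : ℝ) (ht0 : 0 < t) (ht1 : t < 1) (N : ℕ) (κ : ℝ) (h : κ < π ^ 2) :
    Real.log (P t N κ) = ∑ j ∈ Finset.range N, g t j κ := by
  unfold P g
  rw [Real.log_prod fun j _ => (div_pos (a_mul_lt' j ht0 ht1 h) (a_mul_lt j h)).ne']
  refine Finset.sum_congr rfl fun j _ => ?_
  rw [Real.log_div (a_mul_lt' j ht0 ht1 h).ne' (a_mul_lt j h).ne']

theorem g_ineq (t : ℝ) (ht0 : 0 < t) (ht1 : t < 1) (j : ℕ) (κ₁ κ₂ n : ℝ) (h1 : κ₁ < π ^ 2)
    (h2 : κ₂ < π ^ 2) (hn : 3 ≤ n) :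
    n * g t j ((κ₁ + κ₂) / n) ≤ g t j κ₁ + g t j κ₂ := by
  have hc := g_convex t ht0 ht1 j
  have hpi : (0 : ℝ) < π ^ 2 := by positivity
  have hn0 : 0 < n := by linarith
  have h3 : (κ₁ + κ₂) / 2 < π ^ 2 := by linarith
  have ha : 0 ≤ 2 / n := by positivity
  have hb : 0 ≤ (n - 2) / n := div_nonneg (by linarith) hn0.le
  have hab : 2 / n + (n - 2) / n = 1 := by field_simp; ring
  have hhalf : (0 : ℝ) ≤ 1 / 2 := by norm_num
  have hhalf' : (1 : ℝ) / 2 + 1 / 2 = 1 := by norm_num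
  have c1 := hc.2 (show (κ₁ + κ₂) / 2 ∈ Iio (π ^ 2) from h3)
    (show (0 : ℝ) ∈ Iio (π ^ 2) from hpi) ha hb hab
  have c2 := hc.2 (show κ₁ ∈ Iio (π ^ 2) from h1) (show κ₂ ∈ Iio (π ^ 2) from h2) hhalf hhalf
    hhalf'
  simp only [smul_eq_mul, mul_zero, add_zero] at c1 c2
  have e1 : 2 / n * ((κ₁ + κ₂) / 2) = (κ₁ + κ₂) / n := by field_simp
  have e2 : 1 / 2 * κ₁ + 1 / 2 * κ₂ = (κ₁ + κ₂) / 2 := by ring
  have e3 : g t j 0 = 0 := by simp [g]
  rw [e1, e3, mul_zero, add_zero] at c1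
  rw [e2] at c2
  have c3 : n * g t j ((κ₁ + κ₂) / n) ≤ 2 * g t j ((κ₁ + κ₂) / 2) := by
    calc n * g t j ((κ₁ + κ₂) / n) ≤ n * (2 / n * g t j ((κ₁ + κ₂) / 2)) :=
          mul_le_mul_of_nonneg_left c1 hn0.le
      _ = 2 * g t j ((κ₁ + κ₂) / 2) := by field_simp
  linarith

theorem lim (t : ℝ) (ht0 : 0 < t) (θ : ℝ) (h0 : 0 ≤ θ) (hπ : θ < π) :
    Tendsto (fun N => t * P t N (θ ^ 2)) atTop (𝓝 (sg t θ)) := by
  rcases h0.eq_or_lt with h0 | h0
  · subst h0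
    have : (fun N => t * P t N (0 ^ 2)) = fun _ => t := by
      funext N
      simp [P]
    rw [this]
    simp [sg]
  · have hs : Real.sin θ ≠ 0 := (Real.sin_pos_of_pos_of_lt_pi h0 hπ).ne'
    have l1 := Real.tendsto_euler_sin_prod (θ / π)
    have l2 := Real.tendsto_euler_sin_prod (t * θ / π)
    have e1 : π * (θ / π) = θ := by field_simp
    have e2 : π * (t * θ / π) = t * θ := by field_simp
    rw [e1] at l1
    rw [e2] at l2
    have l3 := l2.div l1 hs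
    have : sg t θ = Real.sin (t * θ) / Real.sin θ := by simp [sg, h0.ne']
    rw [this]
    refine l3.congr fun N => ?_
    unfold P
    rw [Finset.prod_div_distrib]
    have e3 : ∀ j : ℕ, 1 - (t * θ / π) ^ 2 / ((j : ℝ) + 1) ^ 2 = 1 - t ^ 2 * (a j * θ ^ 2) := by
      intro j
      unfold a
      field_simp
    have e4 : ∀ j : ℕ, 1 - (θ / π) ^ 2 / ((j : ℝ) + 1) ^ 2 = 1 - a j * θ ^ 2 := by
      intro j
      unfold a
      field_simp
    simp only [Pi.div_apply, e3, e4]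
    have hne : ∏ j ∈ Finset.range N, (1 - a j * θ ^ 2) ≠ 0 := by
      apply Finset.prod_ne_zero_iff.mpr
      intro j _
      exact (a_mul_lt j (by nlinarith)).ne'
    field_simp

theorem K3 : Pool.Agent.W553.RCD.S_K3 := by
  intro t θ₁ θ₂ n ht0 ht1 h10 h1π h20 h2π hn
  have hn0 : 0 < n := by linarith
  have hκ1 : θ₁ ^ 2 < π ^ 2 := by nlinarith [Real.pi_pos]
  have hκ2 : θ₂ ^ 2 < π ^ 2 := by nlinarith [Real.pi_pos]
  set κ := (θ₁ ^ 2 + θ₂ ^ 2) / n with hκd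
  have hκ0 : 0 ≤ κ := by positivity
  have hκ : κ < π ^ 2 := by
    rw [hκd, div_lt_iff₀ hn0]
    nlinarith
  have hsq : √κ ^ 2 = κ := Real.sq_sqrt hκ0
  have hsqπ : √κ < π := by
    rw [Real.sqrt_lt' Real.pi_pos]
    exact hκ
  have L0 := lim t ht0 (√κ) (Real.sqrt_nonneg _) hsqπ
  rw [hsq] at L0
  have L1 := lim t ht0 θ₁ h10 h1π
  have L2 := lim t ht0 θ₂ h20 h2π
  have M0 : Tendsto (fun N => (t * P t N κ) ^ n) atTop (𝓝 (sg t (√κ) ^ n)) :=
    L0.rpow_const (Or.inr hn0.le)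
  have M1 : Tendsto (fun N => (t * P t N (θ₁ ^ 2)) * (t * P t N (θ₂ ^ 2)) * t ^ (n - 2)) atTop
      (𝓝 (sg t θ₁ * sg t θ₂ * t ^ (n - 2))) := (L1.mul L2).mul tendsto_const_nhds
  refine le_of_tendsto_of_tendsto' M0 M1 fun N => ?_
  have p0 := P_pos t ht0 ht1 N κ hκ
  have p1 := P_pos t ht0 ht1 N _ hκ1
  have p2 := P_pos t ht0 ht1 N _ hκ2
  have key : P t N κ ^ n ≤ P t N (θ₁ ^ 2) * P t N (θ₂ ^ 2) := by
    rw [← Real.log_le_log_iff (by positivity) (by positivity), Real.log_rpow p0,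
      Real.log_mul p1.ne' p2.ne', log_P t ht0 ht1 N _ hκ, log_P t ht0 ht1 N _ hκ1,
      log_P t ht0 ht1 N _ hκ2, Finset.mul_sum, ← Finset.sum_add_distrib]
    exact Finset.sum_le_sum fun j _ => g_ineq t ht0 ht1 j _ _ n hκ1 hκ2 hn
  rw [Real.mul_rpow ht0.le p0.le]
  have e : t ^ n = t * t * t ^ (n - 2) := by
    rw [Real.rpow_sub ht0, Real.rpow_two]
    field_simp
  rw [e]
  have := mul_le_mul_of_nonneg_left key (show 0 ≤ t * t * t ^ (n - 2) by positivity)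
  linarith

end Pool.Agent.W358.SgConv
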