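import Mathlib
import Pool.Agent.W553.RCD.Stmts
import Pool.Agent.W358.SgConv

/-!
# Determinant inequality for the Jacobi matrices (task K7 of helper553)
-/

set_option autoImplicit false

open Set Filter Topology Real Matrix
open Pool.Agent.W553.RCD (sg)

namespace Pool.Agent.W358.JacDet

theorem amgm (s N : ℝ) (hs : 0 < s) (hN : 4 ≤ N) (μ : Fin 4 → ℝ) (hμ : ∀ i, 0 ≤ μ i) :
    s ^ ((N - 4) / N) * (∏ i, μ i) ^ (1 / N) ≤ ((N - 4) * s + ∑ i, μ i) / N := by
  have hN0 : 0 < N := by linarith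
  have h := Real.geom_mean_le_arith_mean_weighted (Finset.univ : Finset (Option (Fin 4)))
    (fun o => o.elim ((N - 4) / N) (fun _ => 1 / N)) (fun o => o.elim s μ) (by
      intro o _
      rcases o with _ | i
      · exact div_nonneg (by linarith) hN0.le
      · change 0 ≤ 1 / N
        positivity) (by
      rw [Fintype.sum_option]
      simp only [Option.elim, Finset.sum_const, Finset.card_univ, Fintype.card_fin, nsmul_eq_mul]
      field_simp
      norm_num) (by
      intro o _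
      rcases o with _ | i
      · exact hs.le
      · exact hμ i)
  rw [Fintype.prod_option, Fintype.sum_option] at h
  simp only [Option.elim] at h
  rw [Real.finsetProd_rpow _ _ (fun i _ => hμ i)] at h
  refine h.trans (le_of_eq ?_)
  rw [← Finset.mul_sum]
  field_simp

theorem psd_det (s N : ℝ) (hs : 0 < s) (hN : 4 ≤ N) (D : Fin 4 → ℝ) (hD : ∀ i, 0 ≤ D i)
    (P : Matrix (Fin 4) (Fin 4) ℝ) (hP : P.PosSemidef) :
    s ^ ((N - 4) / N) * ((∏ i, D i) * P.det) ^ (1 / N) ≤
      ((N - 4) * s + ∑ i, D i * P i i) / N := by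
  set M : Matrix (Fin 4) (Fin 4) ℝ :=
    Matrix.diagonal (fun i => √(D i)) * P * (Matrix.diagonal (fun i => √(D i)))ᴴ with hM
  have hMp : M.PosSemidef := hP.mul_mul_conjTranspose_same _
  have hdet : M.det = (∏ i, D i) * P.det := by
    rw [hM, Matrix.det_mul, Matrix.det_mul, Matrix.diagonal_conjTranspose, Matrix.det_diagonal,
      Matrix.det_diagonal]
    have : ∏ i, D i = (∏ i, √(D i)) * ∏ i, √(D i) := by
      rw [← Finset.prod_mul_distrib]
      exact Finset.prod_congr rfl fun i _ => (Real.mul_self_sqrt (hD i)).symm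
    rw [this]
    simp only [Pi.star_apply, star_trivial]
    ring
  have htr : M.trace = ∑ i, D i * P i i := by
    rw [hM, Matrix.diagonal_conjTranspose]
    unfold Matrix.trace
    refine Finset.sum_congr rfl fun i _ => ?_
    rw [Matrix.diag_apply, Matrix.mul_diagonal, Matrix.diagonal_mul]
    simp only [Pi.star_apply, star_trivial]
    have := Real.mul_self_sqrt (hD i)
    calc √(D i) * P i i * √(D i) = (√(D i) * √(D i)) * P i i := by ring
      _ = D i * P i i := by rw [this]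
  have h1 := hMp.1.det_eq_prod_eigenvalues
  have h2 := hMp.1.trace_eq_sum_eigenvalues
  have h := amgm s N hs hN hMp.1.eigenvalues (fun i => hMp.eigenvalues_nonneg i)
  simp only [RCLike.ofReal_real_eq_id, id] at h1 h2
  rw [← hdet, ← htr, h1, h2]
  exact h

theorem sg_pos (s θ : ℝ) (hs0 : 0 < s) (hs1 : s < 1) (h0 : 0 ≤ θ) (hπ : θ < π) : 0 < sg s θ := by
  unfold sg
  split_ifs with h
  · exact hs0
  · have hθ : 0 < θ := lt_of_le_of_ne h0 (Ne.symm h)
    apply div_pos
    · apply Real.sin_pos_of_pos_of_lt_pi (by positivity)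
      nlinarith
    · exact Real.sin_pos_of_pos_of_lt_pi hθ hπ

theorem half (s N θ₁ θ₂ : ℝ) (hs0 : 0 < s) (hs1 : s < 1) (hN : 4 ≤ N) (h10 : 0 ≤ θ₁) (h1π : θ₁ < π)
    (h20 : 0 ≤ θ₂) (h2π : θ₂ < π) (S : Fin 4 → ℝ) (hS : ∀ i, 0 < S i)
    (P : Matrix (Fin 4) (Fin 4) ℝ) (hP : P.PosSemidef) :
    s ^ (1 / N) * sg s (√((θ₁ ^ 2 + θ₂ ^ 2) / (N - 1))) ^ (1 - 1 / N) *
      ((∏ i, S i) * P.det) ^ (1 / N) ≤
      ((N - 4) * s + ∑ i, (![s, sg s θ₁, s, sg s θ₂] i * S i) * P i i) / N := by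
  have hN0 : 0 < N := by linarith
  have hp1 := sg_pos s θ₁ hs0 hs1 h10 h1π
  have hp2 := sg_pos s θ₂ hs0 hs1 h20 h2π
  have hL : ∀ i, 0 < (![s, sg s θ₁, s, sg s θ₂] : Fin 4 → ℝ) i := by
    intro i
    fin_cases i
    · exact hs0
    · exact hp1
    · exact hs0
    · exact hp2
  refine le_trans ?_ (psd_det s N hs0 hN (fun i => ![s, sg s θ₁, s, sg s θ₂] i * S i)
    (fun i => (mul_pos (hL i) (hS i)).le) P hP)
  rw [Finset.prod_mul_distrib]
  have eL : ∏ i, (![s, sg s θ₁, s, sg s θ₂] : Fin 4 → ℝ) i = s * s * (sg s θ₁ * sg s θ₂) := by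
    rw [Fin.prod_univ_four]
    simp
    ring
  rw [eL]
  set x : ℝ := (∏ i, S i) * P.det with hx
  have hx0 : 0 ≤ x := mul_nonneg (Finset.prod_nonneg fun i _ => (hS i).le) hP.det_nonneg
  set κ := (θ₁ ^ 2 + θ₂ ^ 2) / (N - 1) with hκ
  have hκ0 : 0 ≤ κ := by
    apply div_nonneg (by positivity)
    linarith
  have hκπ : √κ < π := by
    rw [Real.sqrt_lt' Real.pi_pos, hκ, div_lt_iff₀ (by linarith)]
    nlinarith [Real.pi_pos]
  have hT := sg_pos s (√κ) hs0 hs1 (Real.sqrt_nonneg _) hκπ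
  have hK := SgConv.K3 s θ₁ θ₂ (N - 1) hs0 hs1 h10 h1π h20 h2π (by linarith)
  rw [← hκ] at hK
  have e1 : s ^ (1 / N) * sg s (√κ) ^ (1 - 1 / N) = (s * sg s (√κ) ^ (N - 1)) ^ (1 / N) := by
    rw [Real.mul_rpow hs0.le (by positivity), ← Real.rpow_mul hT.le]
    congr 2
    field_simp
  have e2 : s ^ ((N - 4) / N) * (s * s * (sg s θ₁ * sg s θ₂) * (∏ i, S i) * P.det) ^ (1 / N) =
      (s ^ (N - 4) * (s * s * (sg s θ₁ * sg s θ₂))) ^ (1 / N) * x ^ (1 / N) := by
    rw [mul_assoc (s * s * (sg s θ₁ * sg s θ₂)), ← hx, Real.mul_rpow (by positivity) hx0,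
      Real.mul_rpow (x := s ^ (N - 4)) (by positivity) (by positivity), ← Real.rpow_mul hs0.le]
    have : (N - 4) * (1 / N) = (N - 4) / N := by ring
    rw [this]
    ring
  rw [e1, e2]
  apply mul_le_mul_of_nonneg_right _ (by positivity)
  apply Real.rpow_le_rpow (by positivity) _ (by positivity)
  have e3 : s ^ (N - 4) * (s * s * (sg s θ₁ * sg s θ₂)) =
      s * (sg s θ₁ * sg s θ₂ * s ^ (N - 1 - 2)) := by
    have : s ^ (N - 1 - 2) = s ^ (N - 4) * s := by
      rw [show N - 1 - 2 = (N - 4) + 1 by ring, Real.rpow_add hs0, Real.rpow_one]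
    rw [this]
    ring
  rw [e3]
  exact mul_le_mul_of_nonneg_left hK hs0.le

/-- a positive semidefinite matrix with a zero on the diagonal is singular -/
theorem det_zero (P : Matrix (Fin 4) (Fin 4) ℝ) (hP : P.PosSemidef) (i : Fin 4) (h : P i i = 0) :
    P.det = 0 := by
  apply Matrix.exists_mulVec_eq_zero_iff.mp
  refine ⟨Pi.single i 1, ?_, ?_⟩
  · intro h0
    have := congrFun h0 i
    simp at this
  · rw [← hP.dotProduct_mulVec_zero_iff]
    have : star (Pi.single i (1 : ℝ) : Fin 4 → ℝ) = Pi.single i 1 := by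
      funext j
      simp
    rw [this, Matrix.mulVec_single_one, single_one_dotProduct]
    exact h

theorem K7 : Pool.Agent.W553.RCD.S_K7 := by
  intro t θ₁ θ₂ N A ht0 ht1 h10 h1π h20 h2π hN hA C₀ C₁ S₀ S₁ hC₀ hC₁ hS₀ hS₁ hP hQ
  have ht0' : 0 < 1 - t := by linarith
  have ht1' : 1 - t < 1 := by linarith
  have hN0 : 0 < N := by linarith
  have hsin : ∀ s θ : ℝ, 0 < s → s < 1 → 0 ≤ θ → θ ≤ π →
      0 < (if θ = 0 then s else Real.sin (s * θ) / θ) := by
    intro s θ hs0 hs1 h0 hπ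
    split_ifs with h
    · exact hs0
    · have hθ : 0 < θ := lt_of_le_of_ne h0 (Ne.symm h)
      apply div_pos _ hθ
      apply Real.sin_pos_of_pos_of_lt_pi (by positivity)
      nlinarith [Real.pi_pos]
  have hS₀p : ∀ i, 0 < S₀ i := by
    intro i
    rw [hS₀]
    fin_cases i
    · exact ht0
    · exact hsin t θ₁ ht0 ht1 h10 h1π
    · exact ht0
    · exact hsin t θ₂ ht0 ht1 h20 h2π
  have hS₁p : ∀ i, 0 < S₁ i := by
    intro i
    rw [hS₁]
    fin_cases i
    · exact ht0'
    · exact hsin (1 - t) θ₁ ht0' ht1' h10 h1π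
    · exact ht0'
    · exact hsin (1 - t) θ₂ ht0' ht1' h20 h2π
  set P : Matrix (Fin 4) (Fin 4) ℝ := Matrix.diagonal (fun i => C₀ i / S₀ i) - A with hPd
  set Q : Matrix (Fin 4) (Fin 4) ℝ := Matrix.diagonal (fun i => C₁ i / S₁ i) + A with hQd
  have e0 : Matrix.diagonal C₀ - Matrix.diagonal S₀ * A = Matrix.diagonal S₀ * P := by
    rw [hPd, mul_sub, Matrix.diagonal_mul_diagonal]
    congr 2
    funext i
    rw [mul_div_cancel₀ _ (hS₀p i).ne']
  have e1 : Matrix.diagonal C₁ + Matrix.diagonal S₁ * A = Matrix.diagonal S₁ * Q := by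
    rw [hQd, mul_add, Matrix.diagonal_mul_diagonal]
    congr 2
    funext i
    rw [mul_div_cancel₀ _ (hS₁p i).ne']
  have d0 : (Matrix.diagonal C₀ - Matrix.diagonal S₀ * A).det = (∏ i, S₀ i) * P.det := by
    rw [e0, Matrix.det_mul, Matrix.det_diagonal]
  have d1 : (Matrix.diagonal C₁ + Matrix.diagonal S₁ * A).det = (∏ i, S₁ i) * Q.det := by
    rw [e1, Matrix.det_mul, Matrix.det_diagonal]
  rw [d0, d1]
  refine ⟨mul_nonneg (Finset.prod_nonneg fun i _ => (hS₀p i).le) hP.det_nonneg,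
    mul_nonneg (Finset.prod_nonneg fun i _ => (hS₁p i).le) hQ.det_nonneg, ?_, ?_⟩
  · intro hor
    have key : ∀ i : Fin 4, C₀ i / S₀ i + C₁ i / S₁ i = 0 → P.det = 0 ∧ Q.det = 0 := by
      intro i hi
      have h1 : 0 ≤ P i i := hP.diag_nonneg
      have h2 : 0 ≤ Q i i := hQ.diag_nonneg
      have h3 : P i i = C₀ i / S₀ i - A i i := by
        rw [hPd, Matrix.sub_apply, Matrix.diagonal_apply_eq]
      have h4 : Q i i = C₁ i / S₁ i + A i i := by
        rw [hQd, Matrix.add_apply, Matrix.diagonal_apply_eq]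
      exact ⟨det_zero P hP i (by linarith), det_zero Q hQ i (by linarith)⟩
    have hcot : Real.cos (t * π) / (Real.sin (t * π) / π) +
        Real.cos ((1 - t) * π) / (Real.sin ((1 - t) * π) / π) = 0 := by
      have h1 : (1 - t) * π = π - t * π := by ring
      rw [h1, Real.cos_pi_sub, Real.sin_pi_sub]
      ring
    have hfin : P.det = 0 ∧ Q.det = 0 := by
      rcases hor with h | h
      · apply key 1
        rw [hC₀, hC₁, hS₀, hS₁, h]
        simpa [Real.pi_ne_zero] using hcot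
      · apply key 3
        rw [hC₀, hC₁, hS₀, hS₁, h]
        simpa [Real.pi_ne_zero] using hcot
    rw [hfin.1, hfin.2, mul_zero, mul_zero]
    exact ⟨rfl, rfl⟩
  · intro h1π' h2π'
    have H0 := half (1 - t) N θ₁ θ₂ ht0' ht1' hN h10 h1π' h20 h2π' S₀ hS₀p P hP
    have H1 := half t N θ₁ θ₂ ht0 ht1 hN h10 h1π' h20 h2π' S₁ hS₁p Q hQ
    refine (add_le_add H0 H1).trans (le_of_eq ?_)
    rw [← add_div, div_eq_one_iff_eq hN0.ne']
    set L₀ : Fin 4 → ℝ := ![1 - t, sg (1 - t) θ₁, 1 - t, sg (1 - t) θ₂] with hL₀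
    set L₁ : Fin 4 → ℝ := ![t, sg t θ₁, t, sg t θ₂] with hL₁
    -- the two identities
    have id1 : ∀ θ, 0 ≤ θ → θ < π →
        sg (1 - t) θ * Real.cos (t * θ) + sg t θ * Real.cos ((1 - t) * θ) = 1 := by
      intro θ h0 hπ
      unfold sg
      split_ifs with h
      · subst h
        simp
      · have hs : Real.sin θ ≠ 0 :=
          (Real.sin_pos_of_pos_of_lt_pi (lt_of_le_of_ne h0 (Ne.symm h)) hπ).ne'
        have : Real.sin θ = Real.sin ((1 - t) * θ) * Real.cos (t * θ) +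
            Real.cos ((1 - t) * θ) * Real.sin (t * θ) := by
          rw [← Real.sin_add]
          congr 1
          ring
        field_simp
        rw [this]
        ring
    have id2 : ∀ θ, sg (1 - t) θ * (if θ = 0 then t else Real.sin (t * θ) / θ) =
        sg t θ * (if θ = 0 then 1 - t else Real.sin ((1 - t) * θ) / θ) := by
      intro θ
      unfold sg
      split_ifs with h
      · ring
      · ring
    have J1 : ∀ i, L₀ i * C₀ i + L₁ i * C₁ i = 1 := by
      intro i
      rw [hL₀, hL₁, hC₀, hC₁]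
      fin_cases i
      · simp
      · simpa using id1 θ₁ h10 h1π'
      · simp
      · simpa using id1 θ₂ h20 h2π'
    have J2 : ∀ i, L₀ i * S₀ i = L₁ i * S₁ i := by
      intro i
      rw [hL₀, hL₁, hS₀, hS₁]
      fin_cases i
      · simp [mul_comm]
      · simpa using id2 θ₁
      · simp [mul_comm]
      · simpa using id2 θ₂
    have J3 : ∀ i, L₀ i * S₀ i * P i i + L₁ i * S₁ i * Q i i = 1 := by
      intro i
      have h3 : P i i = C₀ i / S₀ i - A i i := by
        rw [hPd, Matrix.sub_apply, Matrix.diagonal_apply_eq]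
      have h4 : Q i i = C₁ i / S₁ i + A i i := by
        rw [hQd, Matrix.add_apply, Matrix.diagonal_apply_eq]
      rw [h3, h4]
      have k0 := (hS₀p i).ne'
      have k1 := (hS₁p i).ne'
      calc L₀ i * S₀ i * (C₀ i / S₀ i - A i i) + L₁ i * S₁ i * (C₁ i / S₁ i + A i i)
          = L₀ i * C₀ i * (S₀ i / S₀ i) + L₁ i * C₁ i * (S₁ i / S₁ i) -
            (L₀ i * S₀ i - L₁ i * S₁ i) * A i i := by ring
        _ = 1 := by
            rw [div_self k0, div_self k1, mul_one, mul_one, J1, J2, sub_self, zero_mul, sub_zero]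
    have J4 : ∑ i, L₀ i * S₀ i * P i i + ∑ i, L₁ i * S₁ i * Q i i = 4 := by
      rw [← Finset.sum_add_distrib, Finset.sum_congr rfl (fun i _ => J3 i)]
      simp
    linarith

end Pool.Agent.W358.JacDet
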