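import Mathlib
import Pool.Agent.W553.RCD.Stmts

/-!
# Kantorovich duality on compact metric spaces (task K1 of helper553)
-/

set_option autoImplicit false
set_option linter.unusedSectionVars false

open MeasureTheory Set Filter Topology
open scoped ENNReal NNReal BoundedContinuousFunction CompactlySupported

namespace Pool.Agent.W358.Kant

variable {X : Type} [MetricSpace X] [CompactSpace X] [MeasurableSpace X] [BorelSpace X]

theorem integ (μ : Measure X) [IsFiniteMeasure μ] (f : C(X, ℝ)) : Integrable f μ :=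
  f.continuous.integrable_of_hasCompactSupport (HasCompactSupport.of_compactSpace _)

/-- the dual functional -/
noncomputable def J (μ ν : Measure X) (φ ψ : C(X, ℝ)) : ℝ := ∫ x, φ x ∂μ + ∫ y, ψ y ∂ν

theorem J_add (μ ν : Measure X) [IsProbabilityMeasure μ] [IsProbabilityMeasure ν]
    (φ ψ φ' ψ' : C(X, ℝ)) : J μ ν (φ + φ') (ψ + ψ') = J μ ν φ ψ + J μ ν φ' ψ' := by
  unfold J
  simp only [ContinuousMap.add_apply]
  rw [integral_add (integ μ φ) (integ μ φ'), integral_add (integ ν ψ) (integ ν ψ')]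
  ring

theorem J_smul (μ ν : Measure X) (s : ℝ) (φ ψ : C(X, ℝ)) :
    J μ ν (s • φ) (s • ψ) = s * J μ ν φ ψ := by
  unfold J
  simp only [ContinuousMap.smul_apply, smul_eq_mul]
  rw [integral_const_mul, integral_const_mul]
  ring

theorem J_ge (μ ν : Measure X) [IsProbabilityMeasure μ] [IsProbabilityMeasure ν]
    (φ ψ : C(X, ℝ)) (a : ℝ) (h : ∀ x y, a ≤ φ x + ψ y) : a ≤ J μ ν φ ψ := by
  have h1 : ∀ y, a ≤ ∫ x, φ x ∂μ + ψ y := by
    intro y
    have : ∫ x, (a : ℝ) ∂μ ≤ ∫ x, (φ x + ψ y) ∂μ :=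
      integral_mono (integrable_const _) ((integ μ φ).add (integrable_const _)) (fun x => h x y)
    rw [integral_add (integ μ φ) (integrable_const _)] at this
    simpa using this
  have : ∫ y, (a : ℝ) ∂ν ≤ ∫ y, (∫ x, φ x ∂μ + ψ y) ∂ν :=
    integral_mono (integrable_const _) ((integrable_const _).add (integ ν ψ)) h1
  rw [integral_add (integrable_const _) (integ ν ψ)] at this
  simpa [J] using this

/-- existence of a coupling that is concentrated on the zero set of the cost, when the zero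
potentials are optimal -/
theorem coupling (c : C(X × X, ℝ)) (hc : ∀ p, 0 ≤ c p) (μ ν : Measure X)
    [IsProbabilityMeasure μ] [IsProbabilityMeasure ν]
    (hopt : ∀ φ ψ : C(X, ℝ), (∀ x y, φ x + ψ y ≤ c (x, y)) → J μ ν φ ψ ≤ 0) :
    ∃ q : Measure (X × X), IsFiniteMeasure q ∧ q.map Prod.fst = μ ∧ q.map Prod.snd = ν ∧
      ∫ p, c p ∂q = 0 := by
  classical
  set V : C(X × X, ℝ) → Set ℝ := fun h =>
    {r | ∃ φ ψ : C(X, ℝ), (∀ x y, h (x, y) ≤ φ x + ψ y) ∧ J μ ν φ ψ = r} with hV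
  set P : C(X × X, ℝ) → ℝ := fun h => sInf (V h) with hP
  have hne : ∀ h, (V h).Nonempty := by
    intro h
    refine ⟨_, ContinuousMap.const X ‖h‖, 0, fun x y => ?_, rfl⟩
    simp only [ContinuousMap.const_apply, ContinuousMap.zero_apply, add_zero]
    exact (le_abs_self _).trans (h.norm_coe_le_norm (x, y))
  have hbd : ∀ h, BddBelow (V h) := by
    intro h
    refine ⟨-‖h‖, ?_⟩
    rintro r ⟨φ, ψ, h1, rfl⟩
    refine J_ge μ ν φ ψ _ fun x y => le_trans ?_ (h1 x y)
    exact (abs_le.mp (h.norm_coe_le_norm (x, y))).1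
  have hPle : ∀ h (φ ψ : C(X, ℝ)), (∀ x y, h (x, y) ≤ φ x + ψ y) → P h ≤ J μ ν φ ψ :=
    fun h φ ψ h1 => csInf_le (hbd h) ⟨φ, ψ, h1, rfl⟩
  have hom1 : ∀ s : ℝ, 0 < s → ∀ h, P (s • h) ≤ s * P h := by
    intro s hs h
    have : s⁻¹ * P (s • h) ≤ P h := by
      refine le_csInf (hne h) ?_
      rintro r ⟨φ, ψ, h1, rfl⟩
      have h2 := hPle (s • h) (s • φ) (s • ψ) (by
        intro x y
        simp only [ContinuousMap.smul_apply, smul_eq_mul]
        rw [← mul_add]
        exact mul_le_mul_of_nonneg_left (h1 x y) hs.le)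
      rw [J_smul] at h2
      calc s⁻¹ * P (s • h) ≤ s⁻¹ * (s * J μ ν φ ψ) := mul_le_mul_of_nonneg_left h2 (by positivity)
        _ = J μ ν φ ψ := by field_simp
    calc P (s • h) = s * (s⁻¹ * P (s • h)) := by field_simp
      _ ≤ s * P h := mul_le_mul_of_nonneg_left this hs.le
  have hom : ∀ s : ℝ, 0 < s → ∀ h, P (s • h) = s * P h := by
    intro s hs h
    apply le_antisymm (hom1 s hs h)
    have h1 := hom1 s⁻¹ (by positivity) (s • h)
    rw [smul_smul, inv_mul_cancel₀ hs.ne', one_smul] at h1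
    calc s * P h ≤ s * (s⁻¹ * P (s • h)) := mul_le_mul_of_nonneg_left h1 hs.le
      _ = P (s • h) := by field_simp
  have hadd : ∀ h h', P (h + h') ≤ P h + P h' := by
    intro h h'
    apply le_of_forall_pos_le_add
    intro ε hε
    obtain ⟨r, ⟨φ, ψ, h1, rfl⟩, h2⟩ := Real.lt_sInf_add_pos (hne h) (half_pos hε)
    obtain ⟨r', ⟨φ', ψ', h1', rfl⟩, h2'⟩ := Real.lt_sInf_add_pos (hne h') (half_pos hε)
    have h3 := hPle (h + h') (φ + φ') (ψ + ψ') (by
      intro x y
      have := h1 x y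
      have := h1' x y
      simp only [ContinuousMap.add_apply]
      linarith)
    rw [J_add] at h3
    change _ < P h + _ at h2
    change _ < P h' + _ at h2'
    linarith
  have hPc : ∀ s : ℝ, 0 ≤ P (s • c) := by
    intro s
    refine le_csInf (hne _) ?_
    rintro r ⟨φ, ψ, h1, rfl⟩
    rcases le_or_gt 0 s with hs | hs
    · refine J_ge μ ν φ ψ _ fun x y => le_trans ?_ (h1 x y)
      exact mul_nonneg hs (hc _)
    · have h2 := hopt (s⁻¹ • φ) (s⁻¹ • ψ) (by
        intro x y
        have h3 := h1 x y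
        simp only [ContinuousMap.smul_apply, smul_eq_mul] at h3 ⊢
        rw [← mul_add]
        have hs' : s⁻¹ < 0 := inv_lt_zero.mpr hs
        have := mul_le_mul_of_nonpos_left h3 hs'.le
        rwa [← mul_assoc, inv_mul_cancel₀ hs.ne, one_mul] at this)
      rw [J_smul] at h2
      have hs' : s⁻¹ < 0 := inv_lt_zero.mpr hs
      by_contra hneg
      push Not at hneg
      have := mul_pos_of_neg_of_neg hs' hneg
      linarith
  obtain ⟨g, hg1, hg2⟩ := exists_extension_of_le_sublinear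
    (E := C(X × X, ℝ)) ⟨Submodule.span ℝ {c}, 0⟩ P hom hadd (by
      rintro ⟨x, hx⟩
      obtain ⟨s, rfl⟩ := Submodule.mem_span_singleton.mp hx
      exact hPc s)
  have hgc : g c = 0 := hg1 ⟨c, Submodule.mem_span_singleton_self c⟩
  have hgpos : ∀ h : C(X × X, ℝ), (∀ p, 0 ≤ h p) → 0 ≤ g h := by
    intro h hh
    have h1 := (hg2 (-h)).trans (hPle (-h) 0 0 (by
      intro x y
      simpa using hh (x, y)))
    rw [map_neg] at h1
    have h2 : J μ ν (0 : C(X, ℝ)) 0 = 0 := by simp [J]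
    rw [h2] at h1
    linarith
  have hgle : ∀ (h : C(X × X, ℝ)) (φ ψ : C(X, ℝ)), (∀ x y, h (x, y) = φ x + ψ y) →
      g h = J μ ν φ ψ := by
    intro h φ ψ hh
    apply le_antisymm
    · exact (hg2 h).trans (hPle h φ ψ fun x y => (hh x y).le)
    · have h1 := (hg2 (-h)).trans (hPle (-h) ((-1 : ℝ) • φ) ((-1 : ℝ) • ψ) (by
        intro x y
        simp only [ContinuousMap.neg_apply, ContinuousMap.smul_apply, smul_eq_mul]
        rw [hh x y]
        linarith))
      rw [map_neg, J_smul] at h1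
      linarith
  -- the Riesz measure
  let L0 : C_c(X × X, ℝ) →ₗ[ℝ] ℝ :=
    { toFun := fun f => g f.toContinuousMap
      map_add' := fun f f' => g.map_add f.toContinuousMap f'.toContinuousMap
      map_smul' := fun s f => g.map_smul s f.toContinuousMap }
  let Λ : C_c(X × X, ℝ) →ₚ[ℝ] ℝ := PositiveLinearMap.mk₀ L0 (by
    intro f hf
    exact hgpos f.toContinuousMap fun p => hf p)
  have hfin : IsFiniteMeasure (RealRMK.rieszMeasure Λ) := by
    have : (RealRMK.rieszMeasure Λ).Regular := inferInstance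
    exact ⟨isCompact_univ.measure_lt_top⟩
  have hint : ∀ f : C(X × X, ℝ), ∫ p, f p ∂(RealRMK.rieszMeasure Λ) = g f := by
    intro f
    exact RealRMK.integral_rieszMeasure Λ ⟨f, HasCompactSupport.of_compactSpace _⟩
  refine ⟨RealRMK.rieszMeasure Λ, hfin, ?_, ?_, by rw [hint, hgc]⟩
  · apply ext_of_forall_integral_eq_of_IsFiniteMeasure
    intro f
    rw [integral_map measurable_fst.aemeasurable f.continuous.aestronglyMeasurable]
    have h1 := hint ⟨fun p => f p.1, by fun_prop⟩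
    rw [hgle _ ⟨f, f.continuous⟩ 0 (by intro x y; simp)] at h1
    simpa [J] using h1
  · apply ext_of_forall_integral_eq_of_IsFiniteMeasure
    intro f
    rw [integral_map measurable_snd.aemeasurable f.continuous.aestronglyMeasurable]
    have h1 := hint ⟨fun p => f p.2, by fun_prop⟩
    rw [hgle _ 0 ⟨f, f.continuous⟩ (by intro x y; simp)] at h1
    simpa [J] using h1

/-- the `c`-transform -/
theorem ctrans [Nonempty X] (F : C(X, C(X, ℝ))) (φ : C(X, ℝ)) :
    ∃ ψ : C(X, ℝ), (∀ x y, ψ y ≤ F y x - φ x) ∧ (∀ y, ∃ x, ψ y = F y x - φ x) ∧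
      ∀ y y', dist (ψ y) (ψ y') ≤ dist (F y) (F y') := by
  have h1 : ∀ y, ∃ x, ∀ x', F y x - φ x ≤ F y x' - φ x' := by
    intro y
    obtain ⟨x, -, hx⟩ := isCompact_univ.exists_isMinOn (univ_nonempty (α := X))
      (f := fun x => F y x - φ x) (by fun_prop)
    exact ⟨x, fun x' => hx (mem_univ x')⟩
  choose m hm using h1
  have hd : ∀ y y', dist (F y (m y) - φ (m y)) (F y' (m y') - φ (m y')) ≤ dist (F y) (F y') := by
    have key : ∀ y y', F y (m y) - φ (m y) ≤ F y' (m y') - φ (m y') + dist (F y) (F y') := by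
      intro y y'
      have h2 := hm y (m y')
      have h3 := ContinuousMap.dist_apply_le_dist (f := F y) (g := F y') (m y')
      rw [Real.dist_eq] at h3
      have h4 := (abs_le.mp h3).2
      linarith
    intro y y'
    rw [Real.dist_eq, abs_le]
    have h2 := key y y'
    have h3 := key y' y
    rw [dist_comm (F y') (F y)] at h3
    constructor <;> linarith
  have hcont : Continuous fun y => F y (m y) - φ (m y) := by
    rw [continuous_iff_continuousAt]
    intro y
    rw [ContinuousAt, tendsto_iff_dist_tendsto_zero]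
    refine squeeze_zero (fun _ => dist_nonneg) (fun y' => hd y' y) ?_
    have : Tendsto (fun y' => F y') (𝓝 y) (𝓝 (F y)) := F.continuous.tendsto y
    exact tendsto_iff_dist_tendsto_zero.mp this
  exact ⟨⟨_, hcont⟩, fun x y => hm y x, fun y => ⟨m y, rfl⟩, hd⟩

/-- compactness of the set of potentials with a given modulus of continuity -/
theorem compactA (F : C(X, C(X, ℝ))) (M : ℝ) :
    IsCompact {f : X →ᵇ ℝ | (∀ x, f x ∈ Icc (-M) M) ∧
      ∀ x x', dist (f x) (f x') ≤ dist (F x) (F x')} := by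
  have hev : ∀ x : X, Continuous (fun f : X →ᵇ ℝ => f x) := fun x =>
    (BoundedContinuousFunction.lipschitz_eval_const x).continuous
  refine BoundedContinuousFunction.arzela_ascoli₂ (Icc (-M) M) isCompact_Icc _ ?_ ?_ ?_
  · have : {f : X →ᵇ ℝ | (∀ x, f x ∈ Icc (-M) M) ∧
      ∀ x x', dist (f x) (f x') ≤ dist (F x) (F x')} =
        (⋂ x : X, {f | f x ∈ Icc (-M) M}) ∩
          ⋂ x : X, ⋂ x' : X, {f | dist (f x) (f x') ≤ dist (F x) (F x')} := by
      ext f
      simp only [mem_ofPred_eq, mem_inter_iff, mem_iInter]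
    rw [this]
    refine IsClosed.inter ?_ ?_
    · exact isClosed_iInter fun x => isClosed_Icc.preimage (hev x)
    · exact isClosed_iInter fun x => isClosed_iInter fun y =>
        isClosed_le ((hev x).dist (hev y)) continuous_const
  · intro f x hf
    exact hf.1 x
  · intro x
    rw [Metric.equicontinuousAt_iff]
    intro ε hε
    obtain ⟨δ, hδ, h⟩ := Metric.continuous_iff.mp F.continuous x ε hε
    refine ⟨δ, hδ, fun x' hx' f => ?_⟩
    refine (f.2.2 x x').trans_lt ?_
    rw [dist_comm]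
    exact h x' hx'

theorem lip (μ : Measure X) [IsProbabilityMeasure μ] :
    Continuous fun f : X →ᵇ ℝ => ∫ x, f x ∂μ := by
  refine LipschitzWith.continuous (K := 1) (LipschitzWith.of_dist_le_mul fun f g => ?_)
  have hf : Integrable (fun x => f x) μ := integ μ ⟨f, f.continuous⟩
  have hg : Integrable (fun x => g x) μ := integ μ ⟨g, g.continuous⟩
  rw [dist_eq_norm, ← integral_sub hf hg]
  refine (norm_integral_le_of_norm_le_const (C := dist f g) (Eventually.of_forall fun x => ?_)).trans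
    ?_
  · rw [← dist_eq_norm]
    exact BoundedContinuousFunction.dist_coe_le_dist x
  · simp

/-- existence of optimal potentials -/
theorem potentials (c : C(X × X, ℝ)) (μ ν : Measure X)
    [IsProbabilityMeasure μ] [IsProbabilityMeasure ν] :
    ∃ φ₀ ψ₀ : C(X, ℝ), (∀ x y, φ₀ x + ψ₀ y ≤ c (x, y)) ∧
      ∀ φ ψ : C(X, ℝ), (∀ x y, φ x + ψ y ≤ c (x, y)) → J μ ν φ ψ ≤ J μ ν φ₀ ψ₀ := by
  classical
  have hX : Nonempty X := by
    by_contra hX
    rw [not_nonempty_iff] at hX
    have h1 : μ univ = 0 := by rw [univ_eq_empty_iff.mpr hX, measure_empty]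
    rw [measure_univ] at h1
    exact one_ne_zero h1
  obtain ⟨x0⟩ := id hX
  let F₁ : C(X, C(X, ℝ)) := c.curry
  let F₂ : C(X, C(X, ℝ)) := (c.comp ⟨Prod.swap, continuous_swap⟩).curry
  have hF₁ : ∀ x y, F₁ x y = c (x, y) := fun _ _ => rfl
  have hF₂ : ∀ x y, F₂ y x = c (x, y) := fun _ _ => rfl
  have hcn : ∀ p, |c p| ≤ ‖c‖ := fun p => c.norm_coe_le_norm p
  have hd₁ : ∀ x x', dist (F₁ x) (F₁ x') ≤ 2 * ‖c‖ := by
    intro x x'
    rw [ContinuousMap.dist_le (by positivity)]
    intro y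
    rw [hF₁, hF₁, Real.dist_eq]
    have h1 := abs_le.mp (hcn (x, y))
    have h2 := abs_le.mp (hcn (x', y))
    rw [abs_le]
    constructor <;> linarith
  have hd₂ : ∀ x x', dist (F₂ x) (F₂ x') ≤ 2 * ‖c‖ := by
    intro x x'
    rw [ContinuousMap.dist_le (by positivity)]
    intro y
    rw [hF₂, hF₂, Real.dist_eq]
    have h1 := abs_le.mp (hcn (y, x))
    have h2 := abs_le.mp (hcn (y, x'))
    rw [abs_le]
    constructor <;> linarith
  set M : ℝ := 3 * ‖c‖ with hM
  let A : C(X, C(X, ℝ)) → Set (X →ᵇ ℝ) := fun F => {f : X →ᵇ ℝ | (∀ x, f x ∈ Icc (-M) M) ∧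
      ∀ x x', dist (f x) (f x') ≤ dist (F x) (F x')}
  let S : Set ((X →ᵇ ℝ) × (X →ᵇ ℝ)) := (A F₁ ×ˢ A F₂) ∩ {p | ∀ x y, p.1 x + p.2 y ≤ c (x, y)}
  have hev : ∀ x : X, Continuous (fun f : X →ᵇ ℝ => f x) := fun x =>
    (BoundedContinuousFunction.lipschitz_eval_const x).continuous
  have hScpt : IsCompact S := by
    refine IsCompact.inter_right ((compactA F₁ M).prod (compactA F₂ M)) ?_
    have : {p : (X →ᵇ ℝ) × (X →ᵇ ℝ) | ∀ x y, p.1 x + p.2 y ≤ c (x, y)} =
        ⋂ x : X, ⋂ y : X, {p | p.1 x + p.2 y ≤ c (x, y)} := by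
      ext p
      simp only [mem_ofPred_eq, mem_iInter]
    rw [this]
    exact isClosed_iInter fun x => isClosed_iInter fun y =>
      isClosed_le (((hev x).comp continuous_fst).add ((hev y).comp continuous_snd))
        continuous_const
  -- improvement
  have himp : ∀ φ ψ : C(X, ℝ), (∀ x y, φ x + ψ y ≤ c (x, y)) → ∃ p ∈ S,
      J μ ν φ ψ ≤ ∫ x, p.1 x ∂μ + ∫ y, p.2 y ∂ν := by
    intro φ ψ h
    obtain ⟨ψ', h1, h2, h3⟩ := ctrans F₂ φ
    obtain ⟨φ', h4, h5, h6⟩ := ctrans F₁ ψ'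
    have g1 : ∀ y, ψ y ≤ ψ' y := by
      intro y
      obtain ⟨x, hx⟩ := h2 y
      rw [hx, hF₂]
      linarith [h x y]
    have g2 : ∀ x, φ x ≤ φ' x := by
      intro x
      obtain ⟨y, hy⟩ := h5 x
      rw [hy, hF₁]
      have := h1 x y
      rw [hF₂] at this
      linarith
    let f : X →ᵇ ℝ := BoundedContinuousFunction.mkOfCompact (φ' - ContinuousMap.const X (φ' x0))
    let g : X →ᵇ ℝ := BoundedContinuousFunction.mkOfCompact (ψ' + ContinuousMap.const X (φ' x0))
    have hf : ∀ x, f x = φ' x - φ' x0 := fun _ => rfl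
    have hg : ∀ x, g x = ψ' x + φ' x0 := fun _ => rfl
    refine ⟨(f, g), ⟨⟨⟨?_, ?_⟩, ⟨?_, ?_⟩⟩, ?_⟩, ?_⟩
    · intro x
      change f x ∈ _
      rw [hf]
      have h7 := (h6 x x0).trans (hd₁ x x0)
      rw [Real.dist_eq, abs_le] at h7
      have := norm_nonneg c
      constructor <;> linarith
    · intro x x'
      change dist (f x) (f x') ≤ _
      rw [hf, hf, dist_sub_right]
      exact h6 x x'
    · intro y
      change g y ∈ _
      rw [hg]
      obtain ⟨ys, hys⟩ := h5 x0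
      rw [hF₁] at hys
      have h7 := (h3 y ys).trans (hd₂ y ys)
      rw [Real.dist_eq, abs_le] at h7
      have h8 := abs_le.mp (hcn (x0, ys))
      have := norm_nonneg c
      constructor <;> linarith
    · intro x x'
      change dist (g x) (g x') ≤ _
      rw [hg, hg, dist_add_right]
      exact h3 x x'
    · intro x y
      change f x + g y ≤ _
      rw [hf, hg]
      have := h4 y x
      rw [hF₁] at this
      linarith
    · have e1 : ∫ x, f x ∂μ = ∫ x, φ' x ∂μ - φ' x0 := by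
        simp only [hf]
        rw [integral_sub (integ μ φ') (integrable_const _)]
        simp
      have e2 : ∫ x, g x ∂ν = ∫ x, ψ' x ∂ν + φ' x0 := by
        simp only [hg]
        rw [integral_add (integ ν ψ') (integrable_const _)]
        simp
      change _ ≤ ∫ x, f x ∂μ + ∫ x, g x ∂ν
      rw [e1, e2]
      have e3 : ∫ x, φ x ∂μ ≤ ∫ x, φ' x ∂μ := integral_mono (integ μ φ) (integ μ φ') g2
      have e4 : ∫ x, ψ x ∂ν ≤ ∫ x, ψ' x ∂ν := integral_mono (integ ν ψ) (integ ν ψ') g1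
      unfold J
      linarith
  have hSne : S.Nonempty := by
    obtain ⟨p, hp, -⟩ := himp 0 (ContinuousMap.const X (-‖c‖)) (by
      intro x y
      simp only [ContinuousMap.zero_apply, ContinuousMap.const_apply, zero_add]
      exact (abs_le.mp (hcn (x, y))).1)
    exact ⟨p, hp⟩
  obtain ⟨p0, hp0, hmax⟩ := hScpt.exists_isMaxOn hSne
    (f := fun p : (X →ᵇ ℝ) × (X →ᵇ ℝ) => ∫ x, p.1 x ∂μ + ∫ y, p.2 y ∂ν)
    (((lip μ).comp continuous_fst).add ((lip ν).comp continuous_snd)).continuousOn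
  refine ⟨⟨p0.1, p0.1.continuous⟩, ⟨p0.2, p0.2.continuous⟩, hp0.2, fun φ ψ h => ?_⟩
  obtain ⟨p, hp, h1⟩ := himp φ ψ h
  exact h1.trans (hmax hp)

theorem K1 : Pool.Agent.W553.RCD.S_K1 := by
  intro X _ _ _ _ c hc μ ν hμ hν
  obtain ⟨φ₀, ψ₀, h1, h2⟩ := potentials ⟨c, hc⟩ μ ν
  let c' : C(X × X, ℝ) := ⟨fun p => c p - (φ₀ p.1 + ψ₀ p.2), by fun_prop⟩
  obtain ⟨q, hq, h3, h4, h5⟩ := coupling c' (by
      rintro ⟨x, y⟩
      exact sub_nonneg.mpr (h1 x y)) μ ν (by
      intro φ ψ h
      have h6 := h2 (φ + φ₀) (ψ + ψ₀) (by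
        intro x y
        have := h x y
        change φ x + ψ y ≤ c (x, y) - (φ₀ x + ψ₀ y) at this
        change (φ x + φ₀ x) + (ψ y + ψ₀ y) ≤ c (x, y)
        linarith)
      rw [J_add] at h6
      linarith)
  refine ⟨q, h3, h4, φ₀, ψ₀, φ₀.continuous, ψ₀.continuous, h1, ?_⟩
  have h6 : 0 ≤ fun p => c' p := by
    rintro ⟨x, y⟩
    exact sub_nonneg.mpr (h1 x y)
  have h7 : Integrable (fun p => c' p) q :=
    c'.continuous.integrable_of_hasCompactSupport (HasCompactSupport.of_compactSpace _)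
  have h8 := (integral_eq_zero_iff_of_nonneg h6 h7).mp h5
  filter_upwards [h8] with p hp
  change c p - (φ₀ p.1 + ψ₀ p.2) = 0 at hp
  linarith

end Pool.Agent.W358.Kant
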