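import Mathlib
import Pool.Agent.W795.SK.Stmts

set_option autoImplicit false

namespace Pool.Agent.W358.SKE

open Pool.Agent.W795.SK Filter Topology

theorem main : S_ext := by
  intro ρ hρ hper hpos
  set h : ℝ → ℝ := fun x => Real.log (ρ x) with hh
  have hsm : ContDiff ℝ ((⊤ : ℕ∞) : WithTop ℕ∞) h := hρ.log fun x => (hpos x).ne'
  have hp : Function.Periodic h (2 * Real.pi) := fun x => by simp only [hh, hper x]
  have hang : ∀ a b : ℝ, (a : Real.Angle) = b → h a = h b := by
    intro a b hab
    obtain ⟨k, hk⟩ := Real.Angle.angle_eq_iff_two_pi_dvd_sub.1 hab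
    have h1 : a = b + k * (2 * Real.pi) := by linarith
    rw [h1]
    exact hp.int_mul k b
  set F : ℂ → ℝ := fun z => Real.smoothTransition (3 * Complex.normSq z - 1) * h (Complex.arg z) with hF
  have hN : ContDiff ℝ ((⊤ : ℕ∞) : WithTop ℕ∞) (fun z : ℂ => Complex.normSq z) := by
    have h1 : (fun z : ℂ => Complex.normSq z) = fun z : ℂ => ‖z‖ ^ 2 := by
      funext z; rw [Complex.normSq_eq_norm_sq]
    rw [h1]
    exact contDiff_norm_sq ℝ
  have hFs : ContDiff ℝ ((⊤ : ℕ∞) : WithTop ℕ∞) F := by
    rw [contDiff_iff_contDiffAt]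
    intro z0
    by_cases hz : Complex.normSq z0 < 1 / 3
    · have h1 : F =ᶠ[𝓝 z0] fun _ => 0 := by
        have h2 : ∀ᶠ z in 𝓝 z0, Complex.normSq z < 1 / 3 :=
          hN.continuous.continuousAt.eventually (gt_mem_nhds hz)
        filter_upwards [h2] with z hz'
        simp only [hF]
        rw [Real.smoothTransition.zero_of_nonpos (by linarith), zero_mul]
      exact contDiffAt_const.congr_of_eventuallyEq h1
    · have hz0 : z0 ≠ 0 := by
        rintro rfl
        apply hz
        simp
      have h1 : F =ᶠ[𝓝 z0] fun z => Real.smoothTransition (3 * Complex.normSq z - 1) *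
          h (Complex.arg z0 + (Complex.log (z / z0)).im) := by
        have h2 : ∀ᶠ z in 𝓝 z0, z ≠ 0 := isOpen_ne.mem_nhds hz0
        filter_upwards [h2] with z hz'
        simp only [hF]
        congr 1
        apply hang
        rw [Complex.log_im, Real.Angle.coe_add, ← Complex.arg_mul_coe_angle hz0 (div_ne_zero hz' hz0),
          mul_div_cancel₀ _ hz0]
      refine ContDiffAt.congr_of_eventuallyEq ?_ h1
      have h3 : ContDiffAt ℝ ((⊤ : ℕ∞) : WithTop ℕ∞) (fun z : ℂ => Complex.log (z / z0)) z0 := by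
        have h4 : ContDiffAt ℂ ((⊤ : ℕ∞) : WithTop ℕ∞) (fun z : ℂ => Complex.log (z / z0)) z0 := by
          have h8 : z0 / z0 ∈ Complex.slitPlane := by
            rw [div_self hz0]; exact Complex.one_mem_slitPlane
          have h9 : ContDiffAt ℂ ((⊤ : ℕ∞) : WithTop ℕ∞) (fun z : ℂ => z / z0) z0 :=
            (contDiff_id.div_const z0).contDiffAt
          exact ContDiffAt.comp (g := Complex.log) (f := fun z : ℂ => z / z0) z0
            (Complex.contDiffAt_log h8) h9
        exact h4.restrict_scalars ℝ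
      have h5 : ContDiffAt ℝ ((⊤ : ℕ∞) : WithTop ℕ∞) (fun z : ℂ => (Complex.log (z / z0)).im) z0 :=
        Complex.imCLM.contDiff.contDiffAt.comp z0 h3
      have h6 : ContDiffAt ℝ ((⊤ : ℕ∞) : WithTop ℕ∞)
          (fun z : ℂ => h (Complex.arg z0 + (Complex.log (z / z0)).im)) z0 :=
        hsm.contDiffAt.comp z0 (contDiffAt_const.add h5)
      refine ContDiffAt.mul ?_ h6
      have h7 : ContDiff ℝ ((⊤ : ℕ∞) : WithTop ℕ∞)
          (fun z : ℂ => Real.smoothTransition (3 * Complex.normSq z - 1)) :=
        Real.smoothTransition.contDiff.comp ((contDiff_const.mul hN).sub contDiff_const)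
      exact h7.contDiffAt
  refine ⟨fun z => Real.exp (F z), Real.contDiff_exp.comp hFs, fun z => Real.exp_pos _, fun x => ?_⟩
  have h1 : Complex.normSq (Complex.exp (x * Complex.I)) = 1 := by
    rw [Complex.normSq_eq_norm_sq, Complex.norm_exp_ofReal_mul_I, one_pow]
  simp only [hF]
  rw [h1, Real.smoothTransition.one_of_one_le (by norm_num), one_mul]
  have h2 : h (Complex.arg (Complex.exp (x * Complex.I))) = h x := by
    apply hang
    rw [Complex.exp_mul_I]
    have h3 := Complex.arg_cos_add_sin_mul_I_coe_angle (x : Real.Angle)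
    rw [Real.Angle.cos_coe, Real.Angle.sin_coe] at h3
    rw [← h3, Complex.ofReal_cos, Complex.ofReal_sin]
  rw [h2]
  exact Real.exp_log (hpos x)

end Pool.Agent.W358.SKE
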