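import Mathlib
import Pool.Agent.W795.SK.Stmts

set_option autoImplicit false

namespace Pool.Agent.W358.SKX

open Pool.Agent.W795.SK Filter Topology Set

/-- absolutely summable sequences -/
abbrev X := lp (fun _ : ℤ => ℝ) 1

/-- constructor -/
noncomputable def mkX (f : ℤ → ℝ) (hf : Summable fun m => |f m|) : X :=
  ⟨f, memℓp_gen (by simpa using hf)⟩

theorem mkX_apply (f : ℤ → ℝ) (hf) (m : ℤ) : mkX f hf m = f m := rfl

theorem X_summable (c : X) : Summable fun m => |c m| := by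
  have h := (lp.memℓp c).summable (by simp)
  simpa using h

theorem X_norm (c : X) : ‖c‖ = ∑' m, |c m| := by
  rw [lp.norm_eq_tsum_rpow (by simp)]
  simp

theorem X_apply_le (c : X) (m : ℤ) : |c m| ≤ ‖c‖ := by
  rw [X_norm]
  exact (X_summable c).le_tsum m (fun _ _ => abs_nonneg _)

theorem X_norm_le {c c' : X} {B : ℝ} (h : ∀ m, |c m| ≤ B * |c' m|) : ‖c‖ ≤ B * ‖c'‖ := by
  rw [X_norm, X_norm, ← tsum_mul_left]
  exact (X_summable c).tsum_le_tsum h ((X_summable c').mul_left B)

section conv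

variable (d : ℤ → ℝ) (hd : Summable fun m => |d m|) (c : ℤ → ℝ) (hc : Summable fun m => |c m|)

/-- equivalence -/
def ee : ℤ × ℤ ≃ ℤ × ℤ where
  toFun p := (p.1 - p.2, p.2)
  invFun p := (p.1 + p.2, p.2)
  left_inv p := by simp
  right_inv p := by simp

include hd hc in
theorem H_summable : Summable fun p : ℤ × ℤ => |d (p.1 - p.2) * c p.2| := by
  have h1 : Summable fun p : ℤ × ℤ => |d p.1| * |c p.2| :=
    hd.mul_of_nonneg hc (fun _ => abs_nonneg _) (fun _ => abs_nonneg _)
  have h2 := (ee.summable_iff).2 h1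
  refine h2.congr fun p => ?_
  simp only [Function.comp_apply, ee, Equiv.coe_fn_mk, abs_mul]

include hd hc in
theorem H_tsum : ∑' m, ∑' k, |d (m - k) * c k| = (∑' m, |d m|) * ∑' m, |c m| := by
  have h1 : Summable fun p : ℤ × ℤ => |d p.1| * |c p.2| :=
    hd.mul_of_nonneg hc (fun _ => abs_nonneg _) (fun _ => abs_nonneg _)
  rw [← (H_summable d hd c hc).tsum_prod]
  have h2 : ∑' p : ℤ × ℤ, |d (p.1 - p.2) * c p.2| = ∑' p : ℤ × ℤ, |d p.1| * |c p.2| := by
    rw [← ee.tsum_eq (fun p : ℤ × ℤ => |d p.1| * |c p.2|)]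
    refine tsum_congr fun p => ?_
    simp only [ee, Equiv.coe_fn_mk, abs_mul]
  rw [h2, h1.tsum_prod]
  simp only [tsum_mul_left, tsum_mul_right]

include hd hc in
theorem H_fib (m : ℤ) : Summable fun k => d (m - k) * c k := by
  have h := (H_summable d hd c hc).prod_factor m
  exact h.of_abs

include hd hc in
theorem conv_abs (m : ℤ) : |∑' k, d (m - k) * c k| ≤ ∑' k, |d (m - k) * c k| := by
  have h := (H_summable d hd c hc).prod_factor m
  have h1 := norm_tsum_le_tsum_norm (f := fun k => d (m - k) * c k) h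
  exact h1

include hd hc in
theorem conv_summable : Summable fun m => |∑' k, d (m - k) * c k| :=
  Summable.of_nonneg_of_le (fun _ => abs_nonneg _) (conv_abs d hd c hc) (H_summable d hd c hc).prod

include hd hc in
theorem conv_norm : ∑' m, |∑' k, d (m - k) * c k| ≤ (∑' m, |d m|) * ∑' m, |c m| := by
  rw [← H_tsum d hd c hc]
  exact (conv_summable d hd c hc).tsum_le_tsum (conv_abs d hd c hc) (H_summable d hd c hc).prod

end conv

/-- convolution -/
noncomputable def cv (d : X) (c : X) : X :=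
  mkX (fun m => ∑' k, d (m - k) * c k) (conv_summable d (X_summable d) c (X_summable c))

theorem cv_apply (d c : X) (m : ℤ) : cv d c m = ∑' k, d (m - k) * c k := rfl

theorem cv_norm (d c : X) : ‖cv d c‖ ≤ ‖d‖ * ‖c‖ := by
  rw [X_norm, X_norm d, X_norm c]
  exact conv_norm d (X_summable d) c (X_summable c)

theorem cv_sub (d c c' : X) : cv d (c - c') = cv d c - cv d c' := by
  ext m
  rw [lp.coeFn_sub, Pi.sub_apply, cv_apply, cv_apply, cv_apply,
    ← (H_fib d (X_summable d) c (X_summable c) m).tsum_sub (H_fib d (X_summable d) c' (X_summable c') m)]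
  refine tsum_congr fun k => ?_
  rw [lp.coeFn_sub, Pi.sub_apply]; ring

theorem cv_even (d c : X) (hd : ∀ m, d (-m) = d m) (hc : ∀ m, c (-m) = c m) (m : ℤ) :
    cv d c (-m) = cv d c m := by
  rw [cv_apply, cv_apply]
  calc ∑' k, d (-m - k) * c k = ∑' k, d (-m - (-k)) * c (-k) :=
        ((Equiv.neg ℤ).tsum_eq (fun k => d (-m - k) * c k)).symm
    _ = ∑' k, d (m - k) * c k := tsum_congr fun k => by
        have h2 : m - k = -(-m - -k) := by ring
        have h1 : d (-m - -k) = d (m - k) := by rw [h2, hd]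
        rw [h1, hc]

/-- multiplier -/
noncomputable def ks (s : ℝ) (m : ℤ) : ℝ :=
  if |m| = 1 ∨ ¬ (|s - 1| ≤ 1 / 4) then 0 else s / ((|m| : ℤ) - s)

theorem abs_cases (m : ℤ) (hm : ¬ |m| = 1) : ((|m| : ℤ) : ℝ) = 0 ∨ (2 : ℝ) ≤ ((|m| : ℤ) : ℝ) := by
  have h0 := abs_nonneg m
  rcases Nat.lt_or_ge (|m|).toNat 1 with h | h
  · left
    have : |m| = 0 := by omega
    rw [this]; norm_num
  · right
    have : (2 : ℤ) ≤ |m| := by omega
    exact_mod_cast this

theorem ks_le (s : ℝ) (m : ℤ) : |ks s m| ≤ 2 := by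
  unfold ks
  split_ifs with h
  · norm_num
  · push Not at h
    obtain ⟨h1, h2⟩ := h
    obtain ⟨h3, h4⟩ := abs_le.1 h2
    rcases abs_cases m h1 with h5 | h5
    · rw [h5, zero_sub, div_neg, abs_neg, div_self (by linarith)]; norm_num
    · have h6 : 0 < ((|m| : ℤ) : ℝ) - s := by linarith
      rw [abs_of_nonneg (div_nonneg (by linarith) h6.le), div_le_iff₀ h6]
      linarith

theorem ks_lip (s s' : ℝ) (hs : |s - 1| ≤ 1 / 4) (hs' : |s' - 1| ≤ 1 / 4) (m : ℤ) :
    |ks s m - ks s' m| ≤ 4 * |s - s'| := by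
  unfold ks
  by_cases h1 : |m| = 1
  · rw [if_pos (Or.inl h1), if_pos (Or.inl h1)]; simp
  · rw [if_neg (by push Not; exact ⟨h1, hs⟩), if_neg (by push Not; exact ⟨h1, hs'⟩)]
    obtain ⟨h3, h4⟩ := abs_le.1 hs
    obtain ⟨h3', h4'⟩ := abs_le.1 hs'
    rcases abs_cases m h1 with h5 | h5
    · rw [h5, zero_sub, zero_sub, div_neg, div_neg, div_self (by linarith), div_self (by linarith)]
      simp
    · set a : ℝ := ((|m| : ℤ) : ℝ) with ha
      have h6 : 0 < a - s := by linarith
      have h6' : 0 < a - s' := by linarith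
      have h7 : s / (a - s) - s' / (a - s') = (a / ((a - s) * (a - s'))) * (s - s') := by
        field_simp
        ring
      rw [h7, abs_mul]
      refine mul_le_mul_of_nonneg_right ?_ (abs_nonneg _)
      rw [abs_of_nonneg (by positivity), div_le_iff₀ (by positivity)]
      have h8 : (a - 5 / 4) * (a - 5 / 4) ≤ (a - s) * (a - s') :=
        mul_le_mul (by linarith) (by linarith) (by linarith) (by linarith)
      nlinarith

/-- multiplication -/
noncomputable def mul (s : ℝ) (c : X) : X :=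
  mkX (fun m => ks s m * c m) (by
    refine Summable.of_nonneg_of_le (fun _ => abs_nonneg _) (fun m => ?_) ((X_summable c).mul_left 2)
    rw [abs_mul]
    exact mul_le_mul_of_nonneg_right (ks_le s m) (abs_nonneg _))

theorem mul_apply (s : ℝ) (c : X) (m : ℤ) : mul s c m = ks s m * c m := rfl

theorem mul_norm (s : ℝ) (c : X) : ‖mul s c‖ ≤ 2 * ‖c‖ :=
  X_norm_le fun m => by
    rw [mul_apply, abs_mul]
    exact mul_le_mul_of_nonneg_right (ks_le s m) (abs_nonneg _)

theorem mul_sub (s : ℝ) (c c' : X) : mul s (c - c') = mul s c - mul s c' := by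
  ext m
  rw [lp.coeFn_sub, Pi.sub_apply, mul_apply, mul_apply, mul_apply, lp.coeFn_sub, Pi.sub_apply]
  ring

theorem mul_lip (s s' : ℝ) (hs : |s - 1| ≤ 1 / 4) (hs' : |s' - 1| ≤ 1 / 4) (c : X) :
    ‖mul s c - mul s' c‖ ≤ 4 * |s - s'| * ‖c‖ :=
  X_norm_le fun m => by
    rw [lp.coeFn_sub, Pi.sub_apply, mul_apply, mul_apply, ← sub_mul, abs_mul]
    exact mul_le_mul_of_nonneg_right (ks_lip s s' hs hs' m) (abs_nonneg _)

/-- the unperturbed eigenfunction -/
noncomputable def e0 : X := mkX (fun m => if m = 1 ∨ m = -1 then 1 / 2 else 0) (by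
  refine summable_of_ne_finset_zero (s := {1, -1}) fun m hm => ?_
  rw [if_neg, abs_zero]
  simpa using hm)

theorem e0_apply (m : ℤ) : e0 m = if m = 1 ∨ m = -1 then 1 / 2 else 0 := rfl

theorem e0_norm : ‖e0‖ = 1 := by
  rw [X_norm, tsum_eq_sum (s := {1, -1}) (fun m hm => by
    rw [e0_apply, if_neg, abs_zero]
    simpa using hm)]
  rw [Finset.sum_insert (by norm_num), Finset.sum_singleton, e0_apply, e0_apply]
  norm_num

theorem main : S_fix := by
  intro η hη
  refine ⟨min η 1 / 100, by positivity, ?_⟩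
  intro d0 hdev hdsum hdδ
  set δ : ℝ := min η 1 / 100 with hδ
  have hδη : δ ≤ η / 100 := by rw [hδ]; gcongr; exact min_le_left _ _
  have hδ1 : δ ≤ 1 / 100 := by rw [hδ]; gcongr; exact min_le_right _ _
  set d : X := mkX d0 hdsum with hd
  have hdn : ‖d‖ ≤ δ := by rw [X_norm]; exact hdδ
  have hdn0 : 0 ≤ ‖d‖ := norm_nonneg _
  have hδ0 : 0 ≤ δ := hdn0.trans hdn
  set Φ : X × ℝ → X × ℝ := fun p => (e0 + mul p.2 (cv d p.1), 1 - 2 * p.2 * cv d p.1 1) with hΦ
  set S : Set (X × ℝ) := {p | ‖p.1 - e0‖ ≤ 1 / 4 ∧ |p.2 - 1| ≤ 1 / 4 ∧ ∀ m, p.1 (-m) = p.1 m} with hS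
  have hcn : ∀ c : X, ‖c - e0‖ ≤ 1 / 4 → ‖c‖ ≤ 5 / 4 := by
    intro c hc
    have h1 : ‖c‖ ≤ ‖c - e0‖ + ‖e0‖ := by
      have := norm_add_le (c - e0) e0
      rwa [sub_add_cancel] at this
    rw [e0_norm] at h1
    linarith
  have hevcont : ∀ m : ℤ, Continuous fun p : X × ℝ => p.1 m := by
    intro m
    have h1 : LipschitzWith 1 (fun c : X => c m) := by
      refine LipschitzWith.of_dist_le_mul fun c c' => ?_
      rw [Real.dist_eq, dist_eq_norm, NNReal.coe_one, one_mul]
      have := X_apply_le (c - c') m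
      rwa [lp.coeFn_sub, Pi.sub_apply] at this
    exact h1.continuous.comp continuous_fst
  have hSclosed : IsClosed S := by
    have h1 : IsClosed {p : X × ℝ | ‖p.1 - e0‖ ≤ 1 / 4} :=
      isClosed_le ((continuous_fst.sub continuous_const).norm) continuous_const
    have h2 : IsClosed {p : X × ℝ | |p.2 - 1| ≤ 1 / 4} :=
      isClosed_le ((continuous_snd.sub continuous_const).abs) continuous_const
    have h3 : IsClosed {p : X × ℝ | ∀ m, p.1 (-m) = p.1 m} := by
      rw [Set.ofPred_forall]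
      exact isClosed_iInter fun m => isClosed_eq (hevcont _) (hevcont _)
    have : S = {p : X × ℝ | ‖p.1 - e0‖ ≤ 1 / 4} ∩ ({p : X × ℝ | |p.2 - 1| ≤ 1 / 4} ∩
        {p : X × ℝ | ∀ m, p.1 (-m) = p.1 m}) := by
      ext p; simp [hS]
    rw [this]
    exact h1.inter (h2.inter h3)
  have hcvn : ∀ c : X, ‖c - e0‖ ≤ 1 / 4 → ‖cv d c‖ ≤ δ * (5 / 4) := fun c hc =>
    (cv_norm d c).trans (mul_le_mul hdn (hcn c hc) (norm_nonneg _) hδ0)
  have hmaps : MapsTo Φ S S := by
    rintro ⟨c, s⟩ ⟨h1, h2, h3⟩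
    simp only at h1 h2 h3
    have h4 := hcvn c h1
    obtain ⟨h5, h6⟩ := abs_le.1 h2
    refine ⟨?_, ?_, ?_⟩
    · simp only [hΦ]
      rw [add_sub_cancel_left]
      have := mul_norm s (cv d c)
      linarith
    · simp only [hΦ]
      have h7 := (X_apply_le (cv d c) 1).trans h4
      have h8 : (1 - 2 * s * cv d c 1 - 1) = - (2 * s * cv d c 1) := by ring
      rw [h8, abs_neg, abs_mul, abs_of_nonneg (by linarith : 0 ≤ 2 * s)]
      have h9 : 2 * s * |cv d c 1| ≤ (5 / 2) * (δ * (5 / 4)) :=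
        mul_le_mul (by linarith) h7 (abs_nonneg _) (by norm_num)
      linarith
    · intro m
      simp only [hΦ]
      rw [lp.coeFn_add, Pi.add_apply, Pi.add_apply, mul_apply, mul_apply,
        cv_even d c hdev h3 m, e0_apply, e0_apply]
      have h7 : ks s (-m) = ks s m := by unfold ks; rw [abs_neg]
      rw [h7]
      congr 1
      by_cases hm : m = 1 ∨ m = -1
      · rw [if_pos hm, if_pos (by omega)]
      · rw [if_neg hm, if_neg (by omega)]
  have hdist : ∀ p ∈ S, ∀ q ∈ S, dist (Φ p) (Φ q) ≤ (1 / 2) * dist p q := by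
    rintro ⟨c, s⟩ ⟨h1, h2, h3⟩ ⟨c', s'⟩ ⟨h1', h2', h3'⟩
    simp only at h1 h2 h3 h1' h2' h3'
    have hcc : ‖c - c'‖ ≤ dist (c, s) (c', s') := by
      rw [← dist_eq_norm, Prod.dist_eq]; exact le_max_left _ _
    have hss : |s - s'| ≤ dist (c, s) (c', s') := by
      rw [← Real.dist_eq, Prod.dist_eq]; exact le_max_right _ _
    set Δ := dist (c, s) (c', s') with hΔ
    have hΔ0 : 0 ≤ Δ := dist_nonneg
    obtain ⟨h5, h6⟩ := abs_le.1 h2
    obtain ⟨h5', h6'⟩ := abs_le.1 h2'
    have hcv1 : ‖cv d (c - c')‖ ≤ δ * Δ :=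
      (cv_norm d _).trans (mul_le_mul hdn hcc (norm_nonneg _) hδ0)
    rw [Prod.dist_eq]
    refine max_le ?_ ?_
    · simp only [hΦ]
      rw [dist_add_left, dist_eq_norm]
      have e1 : mul s (cv d c) - mul s' (cv d c') =
          mul s (cv d (c - c')) + (mul s (cv d c') - mul s' (cv d c')) := by
        rw [cv_sub, mul_sub]; abel
      rw [e1]
      refine (norm_add_le _ _).trans ?_
      have e2 := mul_norm s (cv d (c - c'))
      have e3 := mul_lip s s' h2 h2' (cv d c')
      have e4 : 4 * |s - s'| * ‖cv d c'‖ ≤ 4 * Δ * (δ * (5 / 4)) :=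
        mul_le_mul (by linarith) (hcvn c' h1') (norm_nonneg _) (by linarith)
      nlinarith
    · simp only [hΦ]
      rw [Real.dist_eq]
      have e1 : (1 - 2 * s * cv d c 1) - (1 - 2 * s' * cv d c' 1) =
          -(2 * s * (cv d (c - c')) 1 + 2 * (s - s') * cv d c' 1) := by
        rw [cv_sub, lp.coeFn_sub, Pi.sub_apply]; ring
      rw [e1, abs_neg]
      refine (abs_add_le _ _).trans ?_
      rw [abs_mul (2 * s), abs_mul (2 * (s - s')), abs_mul 2 (s - s'),
        abs_of_nonneg (by linarith : 0 ≤ 2 * s), abs_two]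
      have e2 : 2 * s * |cv d (c - c') 1| ≤ (5 / 2) * (δ * Δ) :=
        mul_le_mul (by linarith) ((X_apply_le _ 1).trans hcv1) (abs_nonneg _) (by norm_num)
      have e3 : 2 * |s - s'| * |cv d c' 1| ≤ 2 * Δ * (δ * (5 / 4)) :=
        mul_le_mul (by linarith) ((X_apply_le _ 1).trans (hcvn c' h1')) (abs_nonneg _) (by linarith)
      nlinarith
  have hx0 : (e0, (1 : ℝ)) ∈ S := by
    refine ⟨by simp, by norm_num, fun m => ?_⟩
    simp only
    rw [e0_apply, e0_apply]
    by_cases hm : m = 1 ∨ m = -1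
    · rw [if_pos hm, if_pos (by omega)]
    · rw [if_neg hm, if_neg (by omega)]
  have hcontr : ContractingWith (1 / 2) (hmaps.restrict Φ S S) := by
    refine ⟨by norm_num, LipschitzWith.of_dist_le_mul fun p q => ?_⟩
    have := hdist p.1 p.2 q.1 q.2
    have e : ((1 / 2 : NNReal) : ℝ) = 1 / 2 := by norm_num
    rw [e]
    exact this
  obtain ⟨⟨c, s⟩, hyS, hfix, -⟩ := hcontr.exists_fixedPoint' hSclosed.isComplete hmaps hx0
    (edist_ne_top _ _)
  obtain ⟨h1, h2, h3⟩ := hyS
  simp only at h1 h2 h3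
  have hf1 : e0 + mul s (cv d c) = c := congrArg Prod.fst hfix
  have hf2 : 1 - 2 * s * cv d c 1 = s := congrArg Prod.snd hfix
  obtain ⟨h5, h6⟩ := abs_le.1 h2
  have hcvc := hcvn c h1
  have hcm : ∀ m, c m = (if m = 1 ∨ m = -1 then 1 / 2 else 0) + ks s m * cv d c m := by
    intro m
    conv_lhs => rw [← hf1]
    rw [lp.coeFn_add, Pi.add_apply, e0_apply, mul_apply]
  have hk1 : ∀ m : ℤ, |m| = 1 → ks s m = 0 := fun m hm => if_pos (Or.inl hm)
  have hk2 : ∀ m : ℤ, ¬ |m| = 1 → ks s m = s / ((|m| : ℤ) - s) := fun m hm =>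
    if_neg (by push Not; exact ⟨hm, h2⟩)
  have hm1 : ∀ m : ℤ, |m| = 1 ↔ (m = 1 ∨ m = -1) := fun m => by
    rw [abs_eq (by norm_num)]
  have hdiff : ∀ m : ℤ, (1 + |(m : ℝ)|) * |c m - (if m = 1 ∨ m = -1 then 1 / 2 else 0)| ≤
      5 * |cv d c m| := by
    intro m
    have e1 : c m - (if m = 1 ∨ m = -1 then 1 / 2 else 0) = ks s m * cv d c m := by
      rw [hcm m]; ring
    rw [e1, abs_mul, ← mul_assoc]
    refine mul_le_mul_of_nonneg_right ?_ (abs_nonneg _)
    by_cases hm : |m| = 1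
    · rw [hk1 m hm]; simp
    · rw [hk2 m hm]
      have e2 : |(m : ℝ)| = ((|m| : ℤ) : ℝ) := by push_cast; rfl
      rw [e2]
      rcases abs_cases m hm with h7 | h7
      · rw [h7, zero_sub, div_neg, abs_neg, div_self (by linarith)]; norm_num
      · set a : ℝ := ((|m| : ℤ) : ℝ) with ha
        have h8 : 0 < a - s := by linarith
        rw [abs_of_nonneg (div_nonneg (by linarith) h8.le), ← mul_div_assoc, div_le_iff₀ h8]
        nlinarith
  have hsum5 : Summable fun m => 5 * |cv d c m| := (X_summable _).mul_left 5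
  have hsumdiff : Summable fun m : ℤ => (1 + |(m : ℝ)|) * |c m - (if m = 1 ∨ m = -1 then 1 / 2 else 0)| :=
    Summable.of_nonneg_of_le (fun m => by positivity) hdiff hsum5
  refine ⟨s, c, ?_, h3, ?_, ?_, ?_, ?_⟩
  · have e1 : s - 1 = - (2 * s * cv d c 1) := by linarith
    rw [e1, abs_neg, abs_mul, abs_of_nonneg (by linarith : 0 ≤ 2 * s)]
    have h9 : 2 * s * |cv d c 1| ≤ (5 / 2) * (δ * (5 / 4)) :=
      mul_le_mul (by linarith) ((X_apply_le _ 1).trans hcvc) (abs_nonneg _) (by norm_num)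
    linarith
  · rw [hcm 1, hk1 1 (by norm_num)]; norm_num
  · have hs1 : Summable fun m : ℤ => (1 + |(m : ℝ)|) * |(if m = 1 ∨ m = -1 then (1 / 2 : ℝ) else 0)| := by
      refine summable_of_ne_finset_zero (s := {1, -1}) fun m hm => ?_
      rw [if_neg, abs_zero, mul_zero]
      simpa using hm
    refine Summable.of_nonneg_of_le (fun m => by positivity) (fun m => ?_) (hsumdiff.add hs1)
    rw [← mul_add]
    refine mul_le_mul_of_nonneg_left ?_ (by positivity)
    have := abs_add_le (c m - (if m = 1 ∨ m = -1 then 1 / 2 else 0)) (if m = 1 ∨ m = -1 then 1 / 2 else 0)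
    rwa [sub_add_cancel] at this
  · refine (hsumdiff.tsum_le_tsum hdiff hsum5).trans ?_
    rw [tsum_mul_left, ← X_norm]
    linarith
  · intro m
    have e2 : |(m : ℝ)| = ((|m| : ℤ) : ℝ) := by push_cast; rfl
    have e3 : ∑' k : ℤ, d0 (m - k) * c k = cv d c m := rfl
    rw [e3, e2]
    by_cases hm : |m| = 1
    · have e4 : cv d c m = cv d c 1 := by
        rcases (hm1 m).1 hm with rfl | rfl
        · rfl
        · exact cv_even d c hdev h3 1
      have e5 : c m = 1 / 2 := by
        rw [hcm m, hk1 m hm, if_pos ((hm1 m).1 hm)]; norm_num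
      rw [hm, e4, e5]
      push_cast
      linarith
    · have e5 : c m = s / ((|m| : ℤ) - s) * cv d c m := by
        rw [hcm m, hk2 m hm, if_neg (fun h => hm ((hm1 m).2 h)), zero_add]
      have h8 : ((|m| : ℤ) : ℝ) - s ≠ 0 := by
        rcases abs_cases m hm with h7 | h7
        · rw [h7]; intro h; linarith
        · intro h; linarith
      rw [e5]
      field_simp
      ring

end Pool.Agent.W358.SKX
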