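import Mathlib
import Pool.Agent.W795.SK.Stmts

set_option autoImplicit false

namespace Pool.Agent.W358.SKF

open Pool.Agent.W795.SK Filter Topology MeasureTheory

instance : Fact (0 < 2 * Real.pi) := ⟨Real.two_pi_pos⟩

theorem odd_int (u : ℝ → ℝ) (hu : ∀ x, u (-x) = - u x) : ∫ x in (-Real.pi)..Real.pi, u x = 0 := by
  have h1 := intervalIntegral.integral_comp_neg (a := -Real.pi) (b := Real.pi) u
  rw [neg_neg] at h1
  have h2 : ∫ x in (-Real.pi)..Real.pi, u (-x) = - ∫ x in (-Real.pi)..Real.pi, u x := by
    rw [← intervalIntegral.integral_neg]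
    exact intervalIntegral.integral_congr fun x _ => hu x
  linarith

theorem hsum_sq : HasSum (fun m : ℤ => 1 / (m : ℝ) ^ 2) (Real.pi ^ 2 / 6 + Real.pi ^ 2 / 6) := by
  refine HasSum.of_nat_of_neg_add_one ?_ ?_
  · have h := hasSum_zeta_two
    have e : (fun n : ℕ => 1 / (((n : ℕ) : ℤ) : ℝ) ^ 2) = fun n : ℕ => 1 / (n : ℝ) ^ 2 := by
      funext n; simp
    rw [e]; exact h
  · have h := hasSum_zeta_two
    have h1 := (hasSum_nat_add_iff' 1).2 h
    simp only [Finset.range_one, Finset.sum_singleton, CharP.cast_eq_zero] at h1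
    have e : Real.pi ^ 2 / 6 - 1 / (0 : ℝ) ^ 2 = Real.pi ^ 2 / 6 := by norm_num
    rw [e] at h1
    refine h1.congr_fun ?_
    intro n
    push_cast
    congr 1
    ring

theorem main : S_four := by
  intro f δ hδ hf hper heven hfb hf2
  set d : ℤ → ℝ := fun n => (1 / (2 * Real.pi)) * ∫ x in (-Real.pi)..Real.pi, f x * Real.cos (n * x)
    with hd
  have hpi := Real.pi_pos
  have hcont : Continuous f := hf.continuous
  have hf1 : ∀ x, HasDerivAt f (deriv f x) x := fun x =>
    (hf.differentiable (by norm_num)).differentiableAt.hasDerivAt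
  have hf' : ContDiff ℝ 1 (deriv f) := by
    have := (contDiff_succ_iff_deriv (n := 1) (f := f)).1 (by norm_num; exact hf)
    exact this.2.2
  have hdd : ∀ x, HasDerivAt (deriv f) (iteratedDeriv 2 f x) x := by
    intro x
    have h1 : HasDerivAt (deriv f) (deriv (deriv f) x) x :=
      (hf'.differentiable (by norm_num)).differentiableAt.hasDerivAt
    have h2 : iteratedDeriv 2 f x = deriv (deriv f) x := by
      rw [iteratedDeriv_succ, iteratedDeriv_one]
    rw [h2]; exact h1
  have hc1 : Continuous (deriv f) := hf'.continuous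
  have hc2 : Continuous (iteratedDeriv 2 f) := hf.continuous_iteratedDeriv 2 le_rfl
  have hper' : Function.Periodic (deriv f) (2 * Real.pi) := by
    intro x
    have h1 : (fun y => f (y + 2 * Real.pi)) = f := funext hper
    have h2 := deriv_comp_add_const (f := f) (a := 2 * Real.pi) (x := x)
    rw [h1] at h2
    exact h2.symm
  have hdev : ∀ m, d (-m) = d m := by
    intro m
    simp only [hd]
    congr 1
    refine intervalIntegral.integral_congr fun x _ => ?_
    rw [Int.cast_neg, neg_mul, Real.cos_neg]
  have hb : ∀ m : ℤ, |d m| ≤ δ * (1 / (m : ℝ) ^ 2 + if m = 0 then 1 else 0) := by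
    intro m
    by_cases hm : m = 0
    · subst hm
      simp only [hd]
      rw [abs_mul, abs_of_pos (by positivity : 0 < 1 / (2 * Real.pi))]
      have h1 : |∫ x in (-Real.pi)..Real.pi, f x * Real.cos ((0 : ℤ) * x)| ≤ δ * |Real.pi - (-Real.pi)| := by
        rw [← Real.norm_eq_abs]
        refine intervalIntegral.norm_integral_le_of_norm_le_const fun x _ => ?_
        rw [Real.norm_eq_abs, Int.cast_zero, zero_mul, Real.cos_zero, mul_one]
        exact hfb x
      have h2 : |Real.pi - (-Real.pi)| = 2 * Real.pi := by
        rw [abs_of_pos (by linarith)]; ring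
      rw [h2] at h1
      calc 1 / (2 * Real.pi) * |∫ x in (-Real.pi)..Real.pi, f x * Real.cos ((0 : ℤ) * x)|
          ≤ 1 / (2 * Real.pi) * (δ * (2 * Real.pi)) := by gcongr
        _ = δ := by field_simp
        _ ≤ _ := by norm_num
    · have hm' : (m : ℝ) ≠ 0 := by exact_mod_cast hm
      have hs : ∀ x, HasDerivAt (fun x : ℝ => Real.sin (m * x) / m) (Real.cos (m * x)) x := by
        intro x
        have h1 : HasDerivAt (fun x : ℝ => (m : ℝ) * x) m x := by
          simpa using (hasDerivAt_id x).const_mul (m : ℝ)
        have h2 := (h1.sin).div_const (m : ℝ)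
        refine h2.congr_deriv ?_
        field_simp
      have hcs : ∀ x, HasDerivAt (fun x : ℝ => - Real.cos (m * x) / m) (Real.sin (m * x)) x := by
        intro x
        have h1 : HasDerivAt (fun x : ℝ => (m : ℝ) * x) m x := by
          simpa using (hasDerivAt_id x).const_mul (m : ℝ)
        have h2 := (h1.cos.neg).div_const (m : ℝ)
        refine h2.congr_deriv ?_
        field_simp
      have hsinpi : Real.sin (m * Real.pi) = 0 := Real.sin_int_mul_pi m
      have hsinpi' : Real.sin (m * (-Real.pi)) = 0 := by
        rw [mul_neg, Real.sin_neg, hsinpi, neg_zero]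
      have hcospi : Real.cos (m * (-Real.pi)) = Real.cos (m * Real.pi) := by
        rw [mul_neg, Real.cos_neg]
      have h1 := intervalIntegral.integral_mul_deriv_eq_deriv_mul (a := -Real.pi) (b := Real.pi)
        (u := f) (v := fun x : ℝ => Real.sin (m * x) / m) (u' := deriv f)
        (v' := fun x => Real.cos (m * x)) (fun x _ => hf1 x) (fun x _ => hs x)
        (hc1.intervalIntegrable _ _)
        ((Real.continuous_cos.comp (continuous_const.mul continuous_id)).intervalIntegrable _ _)
      have h2 := intervalIntegral.integral_mul_deriv_eq_deriv_mul (a := -Real.pi) (b := Real.pi)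
        (u := deriv f) (v := fun x : ℝ => - Real.cos (m * x) / m) (u' := iteratedDeriv 2 f)
        (v' := fun x => Real.sin (m * x)) (fun x _ => hdd x) (fun x _ => hcs x)
        (hc2.intervalIntegrable _ _)
        ((Real.continuous_sin.comp (continuous_const.mul continuous_id)).intervalIntegrable _ _)
      simp only [hsinpi, hsinpi', hcospi, zero_div, mul_zero, sub_zero] at h1 h2
      have hpp : deriv f (-Real.pi) = deriv f Real.pi := by
        have := hper' (-Real.pi)
        rw [← this]; congr 1; ring
      rw [hpp, sub_self, zero_sub] at h2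
      have h3 : ∫ x in (-Real.pi)..Real.pi, deriv f x * (Real.sin (m * x) / m) =
          (1 / (m : ℝ)) * ∫ x in (-Real.pi)..Real.pi, deriv f x * Real.sin (m * x) := by
        rw [← intervalIntegral.integral_const_mul]
        refine intervalIntegral.integral_congr fun x _ => ?_
        ring
      have h4 : ∫ x in (-Real.pi)..Real.pi, iteratedDeriv 2 f x * (- Real.cos (m * x) / m) =
          (- 1 / (m : ℝ)) * ∫ x in (-Real.pi)..Real.pi, iteratedDeriv 2 f x * Real.cos (m * x) := by
        rw [← intervalIntegral.integral_const_mul]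
        refine intervalIntegral.integral_congr fun x _ => ?_
        ring
      have h5 : |∫ x in (-Real.pi)..Real.pi, iteratedDeriv 2 f x * Real.cos (m * x)| ≤
          δ * |Real.pi - (-Real.pi)| := by
        rw [← Real.norm_eq_abs]
        refine intervalIntegral.norm_integral_le_of_norm_le_const fun x _ => ?_
        rw [Real.norm_eq_abs, abs_mul]
        calc |iteratedDeriv 2 f x| * |Real.cos (m * x)| ≤ δ * 1 :=
              mul_le_mul (hf2 x) (Real.abs_cos_le_one _) (abs_nonneg _) hδ
          _ = δ := mul_one _
      have h6 : |Real.pi - (-Real.pi)| = 2 * Real.pi := by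
        rw [abs_of_pos (by linarith)]; ring
      rw [h6] at h5
      have h7 : d m = (1 / (2 * Real.pi)) * (-(1 / (m : ℝ) ^ 2) *
          ∫ x in (-Real.pi)..Real.pi, iteratedDeriv 2 f x * Real.cos (m * x)) := by
        simp only [hd]
        rw [h1, h3, h2, h4]
        field_simp
        try ring
      rw [h7, abs_mul, abs_mul, if_neg hm, add_zero, abs_of_pos (by positivity), abs_neg,
        abs_of_pos (by positivity : 0 < 1 / (m : ℝ) ^ 2)]
      calc 1 / (2 * Real.pi) * (1 / (m : ℝ) ^ 2 *
            |∫ x in (-Real.pi)..Real.pi, iteratedDeriv 2 f x * Real.cos (m * x)|)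
          ≤ 1 / (2 * Real.pi) * (1 / (m : ℝ) ^ 2 * (δ * (2 * Real.pi))) := by gcongr
        _ = δ * (1 / (m : ℝ) ^ 2) := by field_simp
  have hmaj : HasSum (fun m : ℤ => δ * (1 / (m : ℝ) ^ 2 + if m = 0 then (1 : ℝ) else 0))
      (δ * ((Real.pi ^ 2 / 6 + Real.pi ^ 2 / 6) + 1)) :=
    (hsum_sq.add (hasSum_ite_eq 0 1)).mul_left δ
  have hsumm : Summable (fun m => |d m|) :=
    Summable.of_nonneg_of_le (fun _ => abs_nonneg _) hb hmaj.summable
  refine ⟨d, hdev, hsumm, ?_, ?_⟩
  · refine (hsumm.tsum_le_tsum hb hmaj.summable).trans ?_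
    rw [hmaj.tsum_eq]
    have h1 : Real.pi ^ 2 ≤ 10 := by
      have := Real.pi_lt_d2
      nlinarith
    nlinarith
  · intro x
    -- lift to the circle
    have hcoe : Function.Periodic (fun x => (f x : ℂ)) (2 * Real.pi) := fun x => by
      simp only [hper x]
    let G : C(AddCircle (2 * Real.pi), ℂ) := ⟨hcoe.lift, by
      have h1 : Continuous (fun x => (f x : ℂ)) := Complex.continuous_ofReal.comp hcont
      exact continuous_coinduced_dom.2 h1⟩
    have hG : ∀ x : ℝ, G x = f x := fun x => rfl
    have hfour : ∀ (n : ℤ) (x : ℝ), (fourier n (x : AddCircle (2 * Real.pi)) : ℂ) =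
        Complex.exp (n * x * Complex.I) := by
      intro n x
      rw [fourier_coe_apply]
      congr 1
      have : (Real.pi : ℂ) ≠ 0 := by exact_mod_cast hpi.ne'
      push_cast
      field_simp
    have hcoef : ∀ n : ℤ, fourierCoeff G n = (d n : ℂ) := by
      intro n
      rw [fourierCoeff_eq_intervalIntegral G n (-Real.pi)]
      have e0 : -Real.pi + 2 * Real.pi = Real.pi := by ring
      rw [e0]
      have h1 : ∀ x : ℝ, (fourier (-n) (x : AddCircle (2 * Real.pi)) : ℂ) • G x =
          ((f x * Real.cos (n * x) : ℝ) : ℂ) - Complex.I * ((f x * Real.sin (n * x) : ℝ) : ℂ) := by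
        intro x
        rw [hfour, hG, smul_eq_mul]
        have e1 : (((-n : ℤ) : ℂ) * x * Complex.I) = ((-(n * x) : ℝ) : ℂ) * Complex.I := by
          push_cast; ring
        rw [e1, Complex.exp_mul_I, ← Complex.ofReal_cos, ← Complex.ofReal_sin, Real.cos_neg,
          Real.sin_neg]
        push_cast; ring
      rw [intervalIntegral.integral_congr (fun x _ => h1 x), intervalIntegral.integral_sub,
        intervalIntegral.integral_const_mul, intervalIntegral.integral_ofReal,
        intervalIntegral.integral_ofReal, odd_int (fun x => f x * Real.sin (n * x))]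
      · simp only [hd]
        rw [Complex.ofReal_zero, mul_zero, sub_zero, Complex.real_smul]
        push_cast; ring
      · intro x
        rw [heven, mul_neg, Real.sin_neg]; ring
      · apply Continuous.intervalIntegrable
        fun_prop
      · apply Continuous.intervalIntegrable
        fun_prop
    have hS : Summable (fourierCoeff G) := by
      have h1 : Summable (fun n : ℤ => ‖(d n : ℂ)‖) := by
        refine hsumm.congr fun n => ?_
        rw [Complex.norm_real, Real.norm_eq_abs]
      have h2 : fourierCoeff G = fun n : ℤ => (d n : ℂ) := funext hcoef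
      rw [h2]
      exact h1.of_norm
    have h3 := has_pointwise_sum_fourier_series_of_summable hS (x : AddCircle (2 * Real.pi))
    rw [hG] at h3
    refine h3.congr_fun ?_
    intro n
    rw [hcoef, hfour, smul_eq_mul]

end Pool.Agent.W358.SKF
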