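import Mathlib
import Pool.Agent.W795.SK.Stmts

set_option autoImplicit false

namespace Pool.Agent.W358.SKG

open Pool.Agent.W795.SK Filter Topology Metric Set
open scoped Nat

theorem top_le_coe (m : ℕ) : ((m : ℕ) : WithTop ℕ∞) ≤ ((⊤ : ℕ∞) : WithTop ℕ∞) := by
  exact_mod_cast (le_top : ((m : ℕ) : ℕ∞) ≤ ⊤)

theorem per_bound (g : ℝ → ℂ) (hg : ContDiff ℝ ((⊤ : ℕ∞) : WithTop ℕ∞) g)
    (hper : Function.Periodic g (2 * Real.pi)) (m : ℕ) :
    ∃ C : ℝ, 0 ≤ C ∧ ∀ x, ‖iteratedFDeriv ℝ m g x‖ ≤ C := by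
  have hc : Continuous (iteratedDeriv m g) := hg.continuous_iteratedDeriv m (top_le_coe m)
  have hp : Function.Periodic (iteratedDeriv m g) (2 * Real.pi) := by
    intro x
    have h1 : (fun z => g (z + 2 * Real.pi)) = g := funext hper
    have h2 := iteratedDeriv_comp_add_const m g (2 * Real.pi)
    rw [h1] at h2
    exact (congrFun h2 x).symm
  obtain ⟨C, hC⟩ := (isCompact_Icc (a := (0 : ℝ)) (b := 2 * Real.pi)).exists_bound_of_continuousOn
    hc.continuousOn
  refine ⟨max C 0, le_max_right _ _, fun x => ?_⟩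
  rw [norm_iteratedFDeriv_eq_norm_iteratedDeriv]
  obtain ⟨y, hy, hxy⟩ := hp.exists_mem_Ico₀ Real.two_pi_pos x
  rw [hxy]
  exact (hC y ⟨hy.1, hy.2.le⟩).trans (le_max_left _ _)

theorem pow_bound (g : ℝ → ℂ) (hg : ContDiff ℝ ((⊤ : ℕ∞) : WithTop ℕ∞) g)
    (hper : Function.Periodic g (2 * Real.pi)) (hn : ∀ x, ‖g x‖ = 1) (n : ℕ) :
    ∃ C : ℝ, 0 ≤ C ∧ ∀ m ≤ n, ∀ (N : ℕ) (x : ℝ),
      ‖iteratedFDeriv ℝ m (fun y => g y ^ N) x‖ ≤ C * ((N : ℝ) + 1) ^ m := by
  induction n with
  | zero =>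
    refine ⟨1, zero_le_one, fun m hm N x => ?_⟩
    have hm0 : m = 0 := by omega
    subst hm0
    rw [norm_iteratedFDeriv_zero, norm_pow, hn, one_pow]; simp
  | succ n ih =>
    obtain ⟨C, hC0, hC⟩ := ih
    have hg' : ContDiff ℝ ((⊤ : ℕ∞) : WithTop ℕ∞) (deriv g) := by
      have := (contDiff_infty_iff_deriv (f := g)).1 hg
      exact this.2
    have hper' : Function.Periodic (deriv g) (2 * Real.pi) := by
      intro x
      have h1 : (fun y => g (y + 2 * Real.pi)) = g := funext hper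
      have h2 := deriv_comp_add_const (f := g) (a := 2 * Real.pi) (x := x)
      rw [h1] at h2
      exact h2.symm
    have hb : ∀ i, ∃ D : ℝ, 0 ≤ D ∧ ∀ x, ‖iteratedFDeriv ℝ i (deriv g) x‖ ≤ D :=
      fun i => per_bound (deriv g) hg' hper' i
    choose D hD0 hD using hb
    set S : ℝ := ∑ i ∈ Finset.range (n + 1), (n.choose i : ℝ) * C * D (n - i) with hS
    have hS0 : 0 ≤ S := Finset.sum_nonneg fun i _ => by
      have := hD0 (n - i)
      positivity
    refine ⟨C + S, by positivity, fun m hm N x => ?_⟩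
    rcases Nat.lt_or_ge m (n + 1) with h | h
    · refine (hC m (by omega) N x).trans ?_
      gcongr
      linarith
    · have hmn : m = n + 1 := by omega
      subst hmn
      have hgN : ∀ N : ℕ, ContDiff ℝ ((⊤ : ℕ∞) : WithTop ℕ∞) (fun y => g y ^ N) := fun N => hg.pow N
      cases N with
      | zero =>
        have : (fun y => g y ^ 0) = fun _ : ℝ => (1 : ℂ) := by funext y; simp
        rw [this, iteratedFDeriv_succ_const]
        simp
        positivity
      | succ N =>
        have h1 : deriv (fun y => g y ^ (N + 1)) = fun y => (g y ^ N) * (((N : ℝ) + 1 : ℝ) • deriv g y) := by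
          funext y
          have hgd : HasDerivAt g (deriv g y) y :=
            (hg.differentiable (by simp)).differentiableAt.hasDerivAt
          have := (hgd.pow (N + 1)).deriv
          simp only [Nat.add_sub_cancel] at this
          have e : (fun y => g y ^ (N + 1)) = g ^ (N + 1) := rfl
          rw [e, this, Complex.real_smul]
          push_cast; ring
        rw [norm_iteratedFDeriv_eq_norm_iteratedDeriv, iteratedDeriv_succ', h1,
          ← norm_iteratedFDeriv_eq_norm_iteratedDeriv]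
        have hsm : ContDiff ℝ ((⊤ : ℕ∞) : WithTop ℕ∞) (fun y => (((N : ℝ) + 1 : ℝ) • deriv g y)) :=
          hg'.const_smul _
        refine (norm_iteratedFDeriv_mul_le (hgN N) hsm x (top_le_coe n)).trans ?_
        have h2 : ∀ i ∈ Finset.range (n + 1), (n.choose i : ℝ) * ‖iteratedFDeriv ℝ i (fun y => g y ^ N) x‖ *
            ‖iteratedFDeriv ℝ (n - i) (fun y => (((N : ℝ) + 1 : ℝ) • deriv g y)) x‖ ≤
            ((n.choose i : ℝ) * C * D (n - i)) * (((N + 1 : ℕ) : ℝ) + 1) ^ (n + 1) := by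
          intro i hi
          rw [Finset.mem_range] at hi
          have h3 := hC i (by omega) N x
          have h4 : ‖iteratedFDeriv ℝ (n - i) (fun y => (((N : ℝ) + 1 : ℝ) • deriv g y)) x‖ ≤
              ((N : ℝ) + 1) * D (n - i) := by
            have h5 : iteratedFDeriv ℝ (n - i) (fun y => (((N : ℝ) + 1 : ℝ) • deriv g y)) x =
                ((N : ℝ) + 1) • iteratedFDeriv ℝ (n - i) (deriv g) x := by
              have h51 := iteratedFDeriv_const_smul_apply (𝕜 := ℝ) (i := n - i) (a := (N : ℝ) + 1)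
                (f := deriv g) (x := x) (hg'.contDiffAt.of_le (top_le_coe _))
              exact h51
            rw [h5, norm_smul, Real.norm_of_nonneg (by positivity)]
            gcongr
            exact hD _ x
          have h6 : ((N : ℝ) + 1) ^ i ≤ (((N + 1 : ℕ) : ℝ) + 1) ^ n := by
            calc ((N : ℝ) + 1) ^ i ≤ (((N + 1 : ℕ) : ℝ) + 1) ^ i := by
                  gcongr; push_cast; linarith
              _ ≤ (((N + 1 : ℕ) : ℝ) + 1) ^ n := pow_le_pow_right₀ (by
                  have : (0 : ℝ) ≤ ((N + 1 : ℕ) : ℝ) := Nat.cast_nonneg _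
                  linarith) (by omega)
          have h7 : (N : ℝ) + 1 ≤ (((N + 1 : ℕ) : ℝ) + 1) := by push_cast; linarith
          have h8 := hD0 (n - i)
          calc (n.choose i : ℝ) * ‖iteratedFDeriv ℝ i (fun y => g y ^ N) x‖ *
              ‖iteratedFDeriv ℝ (n - i) (fun y => (((N : ℝ) + 1 : ℝ) • deriv g y)) x‖
              ≤ (n.choose i : ℝ) * (C * ((N : ℝ) + 1) ^ i) * (((N : ℝ) + 1) * D (n - i)) := by
                gcongr
            _ ≤ (n.choose i : ℝ) * (C * (((N + 1 : ℕ) : ℝ) + 1) ^ n) *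
                ((((N + 1 : ℕ) : ℝ) + 1) * D (n - i)) := by gcongr
            _ = _ := by rw [pow_succ]; ring
        refine (Finset.sum_le_sum h2).trans ?_
        rw [← Finset.sum_mul, ← hS]
        gcongr
        linarith

/-- outer function -/
noncomputable def L (w : ℂ) : ℝ := Real.log (Complex.normSq (1 + w))

theorem L_smooth : ContDiffOn ℝ ((⊤ : ℕ∞) : WithTop ℕ∞) L (ball 0 1) := by
  have hN : ContDiff ℝ ((⊤ : ℕ∞) : WithTop ℕ∞) (fun z : ℂ => Complex.normSq (1 + z)) := by
    have h1 : (fun z : ℂ => Complex.normSq (1 + z)) = fun z : ℂ => ‖1 + z‖ ^ 2 := by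
      funext z; rw [Complex.normSq_eq_norm_sq]
    rw [h1]
    exact (contDiff_norm_sq ℝ).comp (contDiff_const.add contDiff_id)
  unfold L
  refine hN.contDiffOn.log fun w hw => ?_
  have h1 : (1 + w) ≠ 0 := by
    intro h
    have h2 : w = -1 := by linear_combination h
    rw [h2] at hw
    simp at hw
  exact (Complex.normSq_pos.2 h1).ne'

theorem L_bound (n : ℕ) : ∃ K : ℝ, 0 < K ∧ ∀ i ≤ n, ∀ w ∈ closedBall (0 : ℂ) (1 / 2),
    ‖iteratedFDerivWithin ℝ i L (ball 0 1) w‖ ≤ K := by
  have h1 : ∀ i, ∃ K : ℝ, ∀ w ∈ closedBall (0 : ℂ) (1 / 2),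
      ‖iteratedFDerivWithin ℝ i L (ball 0 1) w‖ ≤ K := by
    intro i
    have h2 : ContinuousOn (iteratedFDerivWithin ℝ i L (ball 0 1)) (ball 0 1) :=
      L_smooth.continuousOn_iteratedFDerivWithin (top_le_coe i) isOpen_ball.uniqueDiffOn
    exact (isCompact_closedBall (0 : ℂ) (1 / 2)).exists_bound_of_continuousOn
      (h2.mono (closedBall_subset_ball (by norm_num)))
  choose K hK using h1
  refine ⟨1 + ∑ i ∈ Finset.range (n + 1), |K i|, by positivity, fun i hi w hw => ?_⟩
  refine (hK i w hw).trans ((le_abs_self _).trans ?_)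
  have := Finset.single_le_sum (f := fun i => |K i|) (fun i _ => abs_nonneg _)
    (Finset.mem_range.2 (Nat.lt_succ_of_le hi))
  linarith

theorem main : S_grow := by
  intro g hg hper hn n η hη
  obtain ⟨Cc, hCc0, hCc⟩ := pow_bound g hg hper hn n
  obtain ⟨K, hK0, hK⟩ := L_bound n
  set t : ℝ := min 1 (η / (2 * n ! * K)) with ht
  have hfac : (0 : ℝ) < n ! := by exact_mod_cast Nat.factorial_pos n
  have ht0 : 0 < t := by
    rw [ht]; exact lt_min one_pos (by positivity)
  have ht1 : t ≤ 1 := min_le_left _ _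
  have ht2 : n ! * K * t ≤ η / 2 := by
    have : t ≤ η / (2 * n ! * K) := min_le_right _ _
    calc n ! * K * t ≤ n ! * K * (η / (2 * n ! * K)) := by gcongr
      _ = η / 2 := by field_simp
  -- continuity at zero
  have hL0 : L 0 = 0 := by simp [L]
  have hLc : ContinuousAt L 0 :=
    (L_smooth.continuousOn).continuousAt (ball_mem_nhds 0 one_pos)
  obtain ⟨ρ, hρ0, hρ⟩ := Metric.continuousAt_iff.1 hLc (η / 2) (by positivity)
  -- limits
  have hlim : Tendsto (fun N : ℕ => (1 : ℝ) / N) atTop (𝓝 0) := tendsto_one_div_atTop_nhds_zero_nat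
  have hlog : ContinuousAt (fun e : ℝ => Real.log (1 - e ^ 2)) 0 := by
    apply ContinuousAt.log
    · fun_prop
    · norm_num
  obtain ⟨σ, hσ0, hσ⟩ := Metric.continuousAt_iff.1 hlog (η / 2) (by positivity)
  have e1 : ∀ᶠ N : ℕ in atTop, (1 : ℝ) / N < min (min ρ σ) (1 / 2) :=
    hlim.eventually (gt_mem_nhds (by positivity))
  have e2 : ∀ᶠ N : ℕ in atTop, Cc * 2 ^ n * ((1 : ℝ) / N) < t ^ n := by
    have h1 : Tendsto (fun N : ℕ => Cc * 2 ^ n * ((1 : ℝ) / N)) atTop (𝓝 (Cc * 2 ^ n * 0)) :=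
      hlim.const_mul _
    rw [mul_zero] at h1
    exact h1.eventually (gt_mem_nhds (by positivity))
  obtain ⟨N0, hN0⟩ := eventually_atTop.1 (e1.and (e2.and (eventually_ge_atTop 1)))
  refine ⟨N0, fun N hN m hm x => ?_⟩
  obtain ⟨hN1, hN2, hN3⟩ := hN0 N hN
  have hNpos : (1 : ℝ) ≤ N := by exact_mod_cast hN3
  set ε : ℝ := 1 / (N : ℝ) ^ (n + 1) with hε
  have hε0 : 0 < ε := by positivity
  have hεN : ε ≤ 1 / N := by
    rw [hε]
    apply one_div_le_one_div_of_le (by linarith)
    calc (N : ℝ) = (N : ℝ) ^ 1 := (pow_one _).symm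
      _ ≤ (N : ℝ) ^ (n + 1) := pow_le_pow_right₀ hNpos (by omega)
  have hεh : ε < 1 / 2 := lt_of_le_of_lt hεN (hN1.trans_le (min_le_right _ _))
  have hερ : ε < ρ := lt_of_le_of_lt hεN (hN1.trans_le ((min_le_left _ _).trans (min_le_left _ _)))
  have hεσ : ε < σ := lt_of_le_of_lt hεN (hN1.trans_le ((min_le_left _ _).trans (min_le_right _ _)))
  set f : ℝ → ℂ := fun y => ε • (g y ^ N) with hf
  have hfn : ∀ y, ‖f y‖ = ε := by
    intro y
    simp only [hf]
    rw [norm_smul, norm_pow, hn, one_pow, mul_one, Real.norm_of_nonneg hε0.le]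
  have hgN : ContDiff ℝ ((⊤ : ℕ∞) : WithTop ℕ∞) (fun y => g y ^ N) := hg.pow N
  have hfs : ContDiff ℝ ((⊤ : ℕ∞) : WithTop ℕ∞) f := hgN.const_smul _
  have hfball : ∀ y, f y ∈ closedBall (0 : ℂ) (1 / 2) := fun y => by
    rw [mem_closedBall_zero_iff, hfn]; exact hεh.le
  have hfball' : ∀ y, f y ∈ ball (0 : ℂ) 1 := fun y => by
    rw [mem_ball_zero_iff, hfn]; linarith
  have hell : (fun y : ℝ => ell ε (g y ^ N)) = fun y => Real.log (1 - ε ^ 2) - L (f y) := by
    funext y
    unfold ell L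
    have h1 : (ε : ℂ) * g y ^ N = f y := by simp only [hf, Complex.real_smul]
    rw [h1, Real.log_div]
    · nlinarith
    · have h2 : (1 + f y) ≠ 0 := by
        intro h
        have h3 : f y = -1 := by linear_combination h
        have h4 := hfn y
        rw [h3, norm_neg, norm_one] at h4
        linarith
      exact (Complex.normSq_pos.2 h2).ne'
  have hLf : ContDiff ℝ ((⊤ : ℕ∞) : WithTop ℕ∞) (fun y => L (f y)) := by
    have := L_smooth.comp (s := univ) hfs.contDiffOn (fun y _ => hfball' y)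
    exact contDiffOn_univ.1 this
  have hcl : |Real.log (1 - ε ^ 2)| ≤ η / 2 := by
    have h1 := hσ (x := ε) (by rw [Real.dist_eq, sub_zero, abs_of_pos hε0]; exact hεσ)
    rw [Real.dist_eq] at h1
    norm_num at h1
    exact h1.le
  rw [hell]
  have hsub : iteratedFDeriv ℝ m (fun y => Real.log (1 - ε ^ 2) - L (f y)) x =
      iteratedFDeriv ℝ m (fun _ : ℝ => Real.log (1 - ε ^ 2)) x - iteratedFDeriv ℝ m (fun y => L (f y)) x :=
    iteratedFDeriv_sub_apply (f := fun _ : ℝ => Real.log (1 - ε ^ 2)) (g := fun y => L (f y))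
      contDiffAt_const (hLf.contDiffAt.of_le (top_le_coe m))
  rw [hsub]
  refine (norm_sub_le _ _).trans ?_
  have h1 : ‖iteratedFDeriv ℝ m (fun _ : ℝ => Real.log (1 - ε ^ 2)) x‖ ≤ η / 2 := by
    rcases Nat.eq_zero_or_pos m with h | h
    · subst h
      rw [norm_iteratedFDeriv_zero, Real.norm_eq_abs]; exact hcl
    · rw [iteratedFDeriv_const_of_ne (by omega)]
      simp
      positivity
  have h2 : ‖iteratedFDeriv ℝ m (fun y => L (f y)) x‖ ≤ η / 2 := by
    rcases Nat.eq_zero_or_pos m with h | h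
    · subst h
      rw [norm_iteratedFDeriv_zero]
      have h3 := hρ (x := f x) (by rw [dist_zero_right, hfn]; exact hερ)
      rw [hL0, dist_zero_right] at h3
      exact h3.le
    · have hD : ∀ i, 1 ≤ i → i ≤ m → ‖iteratedFDerivWithin ℝ i f univ x‖ ≤ t ^ i := by
        intro i hi1 him
        rw [iteratedFDerivWithin_univ]
        have h3 : iteratedFDeriv ℝ i f x = ε • iteratedFDeriv ℝ i (fun y => g y ^ N) x := by
          have h31 := iteratedFDeriv_const_smul_apply (𝕜 := ℝ) (i := i) (a := ε)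
            (f := fun y => g y ^ N) (x := x) (hgN.contDiffAt.of_le (top_le_coe _))
          exact h31
        rw [h3, norm_smul, Real.norm_of_nonneg hε0.le]
        have h4 := hCc i (by omega) N x
        have h5 : ((N : ℝ) + 1) ^ i ≤ 2 ^ n * (N : ℝ) ^ n := by
          rw [← mul_pow]
          calc ((N : ℝ) + 1) ^ i ≤ (2 * (N : ℝ)) ^ i := by gcongr; linarith
            _ ≤ (2 * (N : ℝ)) ^ n := pow_le_pow_right₀ (by linarith) (by omega)
        calc ε * ‖iteratedFDeriv ℝ i (fun y => g y ^ N) x‖ ≤ ε * (Cc * (2 ^ n * (N : ℝ) ^ n)) := by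
              gcongr
              exact h4.trans (by gcongr)
          _ = Cc * 2 ^ n * ((1 : ℝ) / N) := by
              rw [hε, pow_succ]
              have : (N : ℝ) ≠ 0 := by linarith
              field_simp
          _ ≤ t ^ n := hN2.le
          _ ≤ t ^ i := pow_le_pow_of_le_one ht0.le ht1 (by omega)
      have h3 := norm_iteratedFDerivWithin_comp_le (𝕜 := ℝ) (g := L) (f := f) (n := m) (s := univ)
        (t := ball 0 1) (x := x) L_smooth hfs.contDiffOn (top_le_coe m) isOpen_ball.uniqueDiffOn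
        uniqueDiffOn_univ (fun y _ => hfball' y) (mem_univ x)
        (fun i hi => hK i (by omega) (f x) (hfball x)) hD
      rw [iteratedFDerivWithin_univ] at h3
      refine h3.trans (le_trans ?_ ht2)
      have h4 : (m ! : ℝ) ≤ n ! := by exact_mod_cast Nat.factorial_le hm
      have h5 : t ^ m ≤ t := by
        calc t ^ m ≤ t ^ 1 := pow_le_pow_of_le_one ht0.le ht1 h
          _ = t := pow_one t
      gcongr
  linarith

end Pool.Agent.W358.SKG
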