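import Mathlib
import Pool.Agent.W795.SK.Stmts

set_option autoImplicit false

namespace Pool.Agent.W358.SKH

open Pool.Agent.W795.SK Filter Topology MeasureTheory Metric Set

theorem gDist_le (lam : ℂ → ℝ) (hl : Continuous lam) (hpos : ∀ z, 0 < lam z) (C : NNReal)
    (hC : ∀ z ∈ closedBall (0 : ℂ) 1, lam z ≤ C) (x y : ℂ) (hx : x ∈ closedBall (0 : ℂ) 1)
    (hy : y ∈ closedBall (0 : ℂ) 1) : gDist lam x y ≤ C * edist x y := by
  set γ : ℝ → ℂ := fun t => x + (t : ℂ) * (y - x) with hγ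
  have hγd : ContDiff ℝ 1 γ := by
    apply ContDiff.add contDiff_const
    exact (Complex.ofRealCLM.contDiff).mul contDiff_const
  have hder : ∀ t, deriv γ t = y - x := by
    intro t
    have h1 : HasDerivAt (fun t : ℝ => (t : ℂ)) 1 t := Complex.ofRealCLM.hasDerivAt
    have h2 := (h1.mul_const (y - x)).const_add x
    rw [one_mul] at h2
    exact h2.deriv
  have hmem : ∀ t ∈ Icc (0 : ℝ) 1, γ t ∈ closedBall (0 : ℂ) 1 := by
    intro t ht
    have hcv := convex_closedBall (0 : ℂ) 1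
    have h1 := hcv hx hy (a := 1 - t) (b := t) (by linarith [ht.2]) ht.1 (by ring)
    have h2 : (1 - t) • x + t • y = γ t := by
      simp only [hγ, Complex.real_smul]
      push_cast
      ring
    rw [← h2]; exact h1
  have h0 : γ 0 = x := by simp [hγ]
  have h1 : γ 1 = y := by simp [hγ]
  refine (iInf₂_le γ ⟨hγd, hmem, h0, h1⟩).trans ?_
  have hlen : curveLength lam γ ≤ C * ‖y - x‖ := by
    unfold curveLength
    have h2 : ∀ t ∈ Icc (0 : ℝ) 1, lam (γ t) * ‖deriv γ t‖ ≤ C * ‖y - x‖ := by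
      intro t ht
      rw [hder]
      exact mul_le_mul_of_nonneg_right (hC _ (hmem t ht)) (norm_nonneg _)
    have h3 := intervalIntegral.integral_mono_on (μ := volume) (a := 0) (b := 1)
      (f := fun t => lam (γ t) * ‖deriv γ t‖) (g := fun _ => (C : ℝ) * ‖y - x‖) zero_le_one
      (by
        apply Continuous.intervalIntegrable
        have : (fun t => lam (γ t) * ‖deriv γ t‖) = fun t => lam (γ t) * ‖y - x‖ := by
          funext t; rw [hder]
        rw [this]
        exact (hl.comp hγd.continuous).mul continuous_const)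
      (continuous_const.intervalIntegrable _ _) h2
    simpa using h3
  refine (ENNReal.ofReal_le_ofReal hlen).trans ?_
  rw [ENNReal.ofReal_mul (NNReal.coe_nonneg C), ENNReal.ofReal_coe_nnreal, edist_comm, edist_dist, dist_eq_norm]

theorem main : S_haus := by
  intro lam hl hpos
  obtain ⟨C0, hC0⟩ := (isCompact_closedBall (0 : ℂ) 1).exists_bound_of_continuousOn hl.continuousOn
  set C : NNReal := Real.toNNReal (max C0 1) with hCd
  have hC1 : (1 : NNReal) ≤ C := by
    rw [hCd, ← Real.toNNReal_one]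
    exact Real.toNNReal_le_toNNReal (le_max_right _ _)
  have hC : ∀ z ∈ closedBall (0 : ℂ) 1, lam z ≤ C := by
    intro z hz
    have h1 := hC0 z hz
    rw [Real.norm_eq_abs, abs_of_pos (hpos z)] at h1
    rw [hCd, Real.coe_toNNReal _ (by positivity)]
    exact h1.trans (le_max_left _ _)
  have hCpos : (C : ENNReal) ≠ 0 := by
    have : C ≠ 0 := (lt_of_lt_of_le one_pos hC1).ne'
    exact_mod_cast this
  have hCtop : (C : ENNReal) ≠ ⊤ := ENNReal.coe_ne_top
  refine ⟨C, fun S hS => ?_⟩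
  rw [Measure.hausdorffMeasure_apply]
  unfold gHausdorff
  refine iSup₂_le fun r hr => ?_
  have hr' : 0 < min r 1 / (C : ENNReal) := ENNReal.div_pos (by simp [hr.ne']) hCtop
  set A := ⨅ (t : ℕ → Set ℂ) (_ : S ⊆ ⋃ n, t n) (_ : ∀ n, gDiam lam (t n) ≤ r),
    ∑' n, gDiam lam (t n) with hA
  have key : A / C ≤ ⨅ (t : ℕ → Set ℂ) (_ : S ⊆ ⋃ n, t n) (_ : ∀ n, ediam (t n) ≤ min r 1 / (C : ENNReal)),
      ∑' n, ⨆ _ : (t n).Nonempty, ediam (t n) ^ (1 : ℝ) := by
    refine le_iInf fun t => le_iInf fun ht => le_iInf fun htd => ?_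
    apply ENNReal.div_le_of_le_mul'
    have hdiam : ∀ n, gDiam lam (t n ∩ closedBall 0 1) ≤ C * ediam (t n) := by
      intro n
      unfold gDiam
      refine iSup₂_le fun x hx => iSup₂_le fun y hy => ?_
      refine (gDist_le lam hl hpos C hC x y hx.2 hy.2).trans ?_
      gcongr
      exact edist_le_ediam_of_mem hx.1 hy.1
    have h1 : A ≤ ∑' n, gDiam lam (t n ∩ closedBall 0 1) := by
      rw [hA]
      refine iInf_le_of_le (fun n => t n ∩ closedBall 0 1) (iInf_le_of_le ?_ (iInf_le_of_le ?_ le_rfl))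
      · intro x hx
        obtain ⟨n, hn⟩ := mem_iUnion.1 (ht hx)
        exact mem_iUnion.2 ⟨n, hn, hS hx⟩
      · intro n
        refine (hdiam n).trans ?_
        calc (C : ENNReal) * ediam (t n) ≤ C * (min r 1 / C) := by gcongr; exact htd n
          _ = min r 1 := ENNReal.mul_div_cancel hCpos hCtop
          _ ≤ r := min_le_left _ _
    refine h1.trans ?_
    rw [← ENNReal.tsum_mul_left]
    refine ENNReal.tsum_le_tsum fun n => ?_
    rcases (t n).eq_empty_or_nonempty with h | h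
    · have h2 := hdiam n
      rw [h, ediam_empty, mul_zero] at h2
      rw [h]
      exact h2.trans zero_le
    · refine (hdiam n).trans ?_
      gcongr
      rw [iSup_pos h, ENNReal.rpow_one]
  calc A = A / C * C := (ENNReal.div_mul_cancel hCpos hCtop).symm
    _ ≤ (⨅ (t : ℕ → Set ℂ) (_ : S ⊆ ⋃ n, t n) (_ : ∀ n, ediam (t n) ≤ min r 1 / (C : ENNReal)),
      ∑' n, ⨆ _ : (t n).Nonempty, ediam (t n) ^ (1 : ℝ)) * C := by gcongr
    _ = C * (⨅ (t : ℕ → Set ℂ) (_ : S ⊆ ⋃ n, t n) (_ : ∀ n, ediam (t n) ≤ min r 1 / (C : ENNReal)),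
      ∑' n, ⨆ _ : (t n).Nonempty, ediam (t n) ^ (1 : ℝ)) := mul_comm _ _
    _ ≤ _ := by
      gcongr
      exact le_iSup₂ (f := fun (r : ENNReal) (_ : 0 < r) => ⨅ (t : ℕ → Set ℂ) (_ : S ⊆ ⋃ n, t n)
        (_ : ∀ n, ediam (t n) ≤ r), ∑' n, ⨆ _ : (t n).Nonempty, ediam (t n) ^ (1 : ℝ)) _ hr'

end Pool.Agent.W358.SKH
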