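import Mathlib
import Pool.Agent.W795.SK.Stmts

set_option autoImplicit false

namespace Pool.Agent.W358.SKP

open Pool.Agent.W795.SK Filter Topology MeasureTheory Metric Set
open scoped ENNReal NNReal

theorem local_anti (G : ℂ → ℂ) (z0 : ℂ) (hG : AnalyticAt ℂ G z0) (hd : deriv G z0 ≠ 0) :
    ∃ B : Set ℂ, IsOpen B ∧ z0 ∈ B ∧ ∃ c : ℝ≥0, ∀ x ∈ B, ∀ y ∈ B, ‖x - y‖ ≤ c * ‖G x - G y‖ := by
  have h1 : HasStrictDerivAt G (deriv G z0) z0 := hG.hasStrictDerivAt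
  have hpos : 0 < ‖deriv G z0‖ / 2 := by
    have := norm_pos_iff.2 hd
    linarith
  have h2 := h1.hasStrictFDerivAt.isLittleO.def hpos
  rw [nhds_prod_eq] at h2
  obtain ⟨U, hU, V, hV, hUV⟩ := Filter.eventually_prod_iff.1 h2
  obtain ⟨B, hB1, hB2, hB3⟩ := _root_.eventually_nhds_iff.1 (hU.and hV)
  refine ⟨B, hB2, hB3, ⟨2 / ‖deriv G z0‖, by positivity⟩, fun x hx y hy => ?_⟩
  have h3 := hUV (hB1 x hx).1 (hB1 y hy).2
  simp only at h3
  have h4 : ‖(x - y) * deriv G z0‖ ≤ ‖G x - G y‖ + ‖deriv G z0‖ / 2 * ‖x - y‖ := by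
    have e1 : (x - y) * deriv G z0 = (G x - G y) - (G x - G y - (x - y) * deriv G z0) := by ring
    calc ‖(x - y) * deriv G z0‖ = ‖(G x - G y) - (G x - G y - (x - y) * deriv G z0)‖ := by
          rw [← e1]
      _ ≤ ‖G x - G y‖ + ‖G x - G y - (x - y) * deriv G z0‖ := norm_sub_le _ _
      _ ≤ _ := by
        gcongr
        simpa using h3
  rw [norm_mul] at h4
  change ‖x - y‖ ≤ 2 / ‖deriv G z0‖ * ‖G x - G y‖
  rw [div_mul_eq_mul_div, le_div_iff₀ (norm_pos_iff.2 hd)]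
  linarith

theorem pull_le (G : ℂ → ℂ) (B : Set ℂ) (c : ℝ≥0)
    (h : ∀ x ∈ B, ∀ y ∈ B, ‖x - y‖ ≤ c * ‖G x - G y‖) (T : Set ℂ) :
    μH[1] {z | z ∈ B ∧ G z ∈ T} ≤ c * μH[1] T := by
  classical
  set A := {z | z ∈ B ∧ G z ∈ T} with hA
  have hinj : InjOn G A := by
    intro x hx y hy hxy
    have h1 := h x hx.1 y hy.1
    rw [hxy, sub_self, norm_zero, mul_zero] at h1
    exact sub_eq_zero.1 (norm_le_zero_iff.1 h1)
  set g := Function.invFunOn G A with hg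
  have hgG : ∀ x ∈ A, g (G x) = x := fun x hx => hinj.leftInvOn_invFunOn hx
  have h1 : A = g '' (G '' A) := by
    ext x
    constructor
    · intro hx
      exact ⟨G x, mem_image_of_mem G hx, hgG x hx⟩
    · rintro ⟨_, ⟨y, hy, rfl⟩, rfl⟩
      rw [hgG y hy]; exact hy
  have h2 : LipschitzOnWith c g (G '' A) := by
    refine LipschitzOnWith.of_dist_le_mul ?_
    rintro _ ⟨x, hx, rfl⟩ _ ⟨y, hy, rfl⟩
    rw [hgG x hx, hgG y hy, dist_eq_norm, dist_eq_norm]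
    exact h x hx.1 y hy.1
  have h3 := h2.hausdorffMeasure_image_le (d := 1) zero_le_one
  rw [← h1, ENNReal.rpow_one] at h3
  refine h3.trans ?_
  gcongr
  rintro _ ⟨x, hx, rfl⟩
  exact hx.2

theorem root_le (N : ℕ) (hN : 1 ≤ N) (Z : Set ℂ) :
    μH[1] {w : ℂ | 0 < ‖w‖ ∧ ‖w‖ ≤ 1 ∧ w ^ N ∈ Z} ≤ μH[1] (logSet Z) := by
  have hN0 : (0 : ℝ) < N := by exact_mod_cast hN
  have hNc : (N : ℂ) ≠ 0 := by exact_mod_cast (by omega : N ≠ 0)
  set φ : ℕ → ℂ → ℂ := fun k W => Complex.exp ((W + 2 * Real.pi * Complex.I * k) / N) with hφ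
  have hsub : {w : ℂ | 0 < ‖w‖ ∧ ‖w‖ ≤ 1 ∧ w ^ N ∈ Z} ⊆ ⋃ k ∈ Finset.range N, φ k '' (logSet Z) := by
    rintro w ⟨h0, h1, h2⟩
    have hw : w ≠ 0 := norm_pos_iff.1 h0
    set θ : ℝ := N * Complex.arg w with hθ
    set k : ℤ := ⌊θ / (2 * Real.pi)⌋ with hk
    set W : ℂ := N * Complex.log w - 2 * Real.pi * Complex.I * k with hW
    have hWre : W.re = N * Real.log ‖w‖ := by
      simp [hW, Complex.log_re]
    have hWim : W.im = θ - 2 * Real.pi * k := by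
      simp [hW, Complex.log_im, hθ]
    have hfl1 : (k : ℝ) * (2 * Real.pi) ≤ θ := by
      have := Int.floor_le (θ / (2 * Real.pi))
      rwa [le_div_iff₀ Real.two_pi_pos] at this
    have hfl2 : θ < ((k : ℝ) + 1) * (2 * Real.pi) := by
      have := Int.lt_floor_add_one (θ / (2 * Real.pi))
      rwa [div_lt_iff₀ Real.two_pi_pos] at this
    have hexpW : Complex.exp W = w ^ N := by
      rw [hW, Complex.exp_sub, Complex.exp_nat_mul, Complex.exp_log hw]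
      have : Complex.exp (2 * Real.pi * Complex.I * k) = 1 := by
        rw [Complex.exp_eq_one_iff]
        exact ⟨k, by ring⟩
      rw [this, div_one]
    have hWmem : W ∈ logSet Z := by
      refine ⟨?_, ?_, ?_, ?_⟩
      · rw [hWre]
        exact mul_nonpos_of_nonneg_of_nonpos hN0.le (Real.log_nonpos h0.le h1)
      · rw [hWim]; linarith
      · rw [hWim]; linarith
      · rw [hexpW]; exact h2
    rw [mem_iUnion₂]
    refine ⟨(k % N).toNat, ?_, W, hWmem, ?_⟩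
    · rw [Finset.mem_range]
      have h3 := Int.emod_nonneg k (by omega : (N : ℤ) ≠ 0)
      have h4 := Int.emod_lt_of_pos k (by omega : (0 : ℤ) < N)
      omega
    · simp only [hφ]
      have h3 := Int.emod_nonneg k (by omega : (N : ℤ) ≠ 0)
      have h5 : (((k % N).toNat : ℕ) : ℂ) = (k : ℂ) - N * ((k / N : ℤ) : ℂ) := by
        have h6 : (((k % N).toNat : ℕ) : ℤ) = k - N * (k / N) := by
          rw [Int.toNat_of_nonneg h3]
          have := Int.emod_add_mul_ediv k N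
          linarith
        have h7 : ((((k % N).toNat : ℕ) : ℤ) : ℂ) = ((k - N * (k / N) : ℤ) : ℂ) := by rw [h6]
        push_cast at h7
        exact_mod_cast h7
      rw [h5]
      have h8 : (W + 2 * Real.pi * Complex.I * ((k : ℂ) - N * ((k / N : ℤ) : ℂ))) / N =
          Complex.log w - ((k / N : ℤ) : ℂ) * (2 * Real.pi * Complex.I) := by
        rw [hW]
        field_simp
        ring
      rw [h8, Complex.exp_sub, Complex.exp_int_mul, Complex.exp_two_pi_mul_I, one_zpow, div_one,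
        Complex.exp_log hw]
  have hLip : ∀ k, LipschitzOnWith (1 / (N : ℝ≥0)) (φ k) {W : ℂ | W.re ≤ 0} := by
    intro k
    have hconv : Convex ℝ {W : ℂ | W.re ≤ 0} := convex_halfSpace_re_le 0
    refine hconv.lipschitzOnWith_of_nnnorm_hasDerivWithin_le
      (f' := fun W => Complex.exp ((W + 2 * Real.pi * Complex.I * k) / N) * (1 / N)) ?_ ?_
    · intro W hW
      have h1 : HasDerivAt (fun W : ℂ => (W + 2 * Real.pi * Complex.I * k) / N) (1 / N) W :=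
        ((hasDerivAt_id W).add_const _).div_const _
      exact (h1.cexp).hasDerivWithinAt
    · intro W hW
      rw [← NNReal.coe_le_coe, coe_nnnorm, norm_mul, Complex.norm_exp]
      have h1 : ((W + 2 * Real.pi * Complex.I * k) / N).re = W.re / N := by
        have : ((W + 2 * Real.pi * Complex.I * k) / N) = (W + ((2 * Real.pi * k : ℝ) : ℂ) * Complex.I) / ((N : ℝ) : ℂ) := by
          push_cast; ring
        rw [this, Complex.div_ofReal_re]
        simp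
      rw [h1]
      have h2 : Real.exp (W.re / N) ≤ 1 := by
        rw [Real.exp_le_one_iff]
        exact div_nonpos_of_nonpos_of_nonneg hW hN0.le
      have h3 : ‖(1 / N : ℂ)‖ = 1 / N := by simp
      rw [h3]
      push_cast
      have : (0 : ℝ) ≤ 1 / N := by positivity
      nlinarith
  calc μH[1] {w : ℂ | 0 < ‖w‖ ∧ ‖w‖ ≤ 1 ∧ w ^ N ∈ Z} ≤ μH[1] (⋃ k ∈ Finset.range N, φ k '' (logSet Z)) :=
        measure_mono hsub
    _ ≤ ∑ k ∈ Finset.range N, μH[1] (φ k '' (logSet Z)) := measure_biUnion_finset_le _ _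
    _ ≤ ∑ k ∈ Finset.range N, ((1 / (N : ℝ≥0) : ℝ≥0) : ℝ≥0∞) * μH[1] (logSet Z) := by
        refine Finset.sum_le_sum fun k _ => ?_
        have h1 : LipschitzOnWith (1 / (N : ℝ≥0)) (φ k) (logSet Z) :=
          (hLip k).mono fun W hW => hW.1
        have h2 := h1.hausdorffMeasure_image_le (d := 1) zero_le_one
        rwa [ENNReal.rpow_one] at h2
    _ = μH[1] (logSet Z) := by
        rw [Finset.sum_const, Finset.card_range, nsmul_eq_mul, ← mul_assoc]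
        have h1 : (N : ℝ≥0∞) * ((1 / (N : ℝ≥0) : ℝ≥0) : ℝ≥0∞) = 1 := by
          have h2 : (N : ℝ≥0) * (1 / (N : ℝ≥0)) = 1 := by
            have : (N : ℝ≥0) ≠ 0 := by exact_mod_cast (by omega : N ≠ 0)
            field_simp
          have h3 : ((N : ℝ≥0) : ℝ≥0∞) * ((1 / (N : ℝ≥0) : ℝ≥0) : ℝ≥0∞) = ((1 : ℝ≥0) : ℝ≥0∞) := by
            rw [← ENNReal.coe_mul, h2]
          simpa using h3
        rw [h1, one_mul]

theorem main : S_pull := by
  classical
  intro G hG hball hsph hder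
  have hloc : ∀ z0 : ℂ, ∃ B : Set ℂ, ∃ c : ℝ≥0, z0 ∈ sphere (0 : ℂ) 1 → IsOpen B ∧ z0 ∈ B ∧
      ∀ x ∈ B, ∀ y ∈ B, ‖x - y‖ ≤ c * ‖G x - G y‖ := by
    intro z0
    by_cases hz : z0 ∈ sphere (0 : ℂ) 1
    · obtain ⟨B, hB1, hB2, c, hc⟩ := local_anti G z0 (hG z0 (sphere_subset_closedBall hz)) (hder z0 hz)
      exact ⟨B, c, fun _ => ⟨hB1, hB2, hc⟩⟩
    · exact ⟨∅, 0, fun h => absurd h hz⟩
  choose B c hBc using hloc
  obtain ⟨t, ht1, ht2⟩ := (isCompact_sphere (0 : ℂ) 1).elim_nhds_subcover B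
    (fun x hx => (hBc x hx).1.mem_nhds (hBc x hx).2.1)
  set U : Set ℂ := ⋃ x ∈ t, B x with hU
  have hUo : IsOpen U := isOpen_biUnion fun x hx => (hBc x (ht1 x hx)).1
  have hK : IsCompact (closedBall (0 : ℂ) 1 \ U) := (isCompact_closedBall 0 1).diff hUo
  have hcont : ContinuousOn (fun z => ‖G z‖) (closedBall (0 : ℂ) 1) := hG.continuousOn.norm
  obtain ⟨r0, hr01, hr02⟩ : ∃ r0 : ℝ, r0 < 1 ∧ ∀ z ∈ closedBall (0 : ℂ) 1 \ U, ‖G z‖ ≤ r0 := by
    rcases (closedBall (0 : ℂ) 1 \ U).eq_empty_or_nonempty with h | h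
    · exact ⟨0, one_pos, fun z hz => by rw [h] at hz; exact absurd hz (notMem_empty z)⟩
    · obtain ⟨z1, hz1, hmax⟩ := hK.exists_isMaxOn h (hcont.mono sdiff_subset)
      refine ⟨‖G z1‖, ?_, fun z hz => hmax hz⟩
      apply hball
      rw [mem_ball]
      refine lt_of_le_of_ne (mem_closedBall.1 hz1.1) fun heq => ?_
      exact hz1.2 (ht2 (mem_sphere.2 heq))
  set r : ℝ := (1 + max r0 0) / 2 with hr
  have hm1 : max r0 0 < 1 := max_lt hr01 one_pos
  have hr1 : r < 1 := by rw [hr]; linarith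
  have hr0 : r0 < r := by rw [hr]; have := le_max_left r0 0; linarith
  have hrp : 0 < r := by rw [hr]; have := le_max_right r0 0; linarith
  refine ⟨r, hrp, hr1, ∑ x ∈ t, c x, fun N hN Z hZ => ?_⟩
  set T : Set ℂ := {w : ℂ | 0 < ‖w‖ ∧ ‖w‖ ≤ 1 ∧ w ^ N ∈ Z} with hT
  have hsub : {z : ℂ | z ∈ closedBall (0 : ℂ) 1 ∧ (G z) ^ N ∈ Z} ⊆ ⋃ x ∈ t, {z | z ∈ B x ∧ G z ∈ T} := by
    rintro z ⟨hz, hzZ⟩
    have h1 := hZ _ hzZ
    rw [norm_pow] at h1
    have h2 : r ≤ ‖G z‖ := le_of_pow_le_pow_left₀ (by omega) (norm_nonneg _) h1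
    have hzU : z ∈ U := by
      by_contra hcon
      have := hr02 z ⟨hz, hcon⟩
      linarith
    rw [hU, mem_iUnion₂] at hzU
    obtain ⟨x, hx, hzx⟩ := hzU
    rw [mem_iUnion₂]
    refine ⟨x, hx, hzx, lt_of_lt_of_le hrp h2, ?_, hzZ⟩
    rcases lt_or_eq_of_le (mem_closedBall.1 hz) with h3 | h3
    · exact (hball z (mem_ball.2 h3)).le
    · exact (hsph z (mem_sphere.2 h3)).le
  calc μH[1] {z : ℂ | z ∈ closedBall (0 : ℂ) 1 ∧ (G z) ^ N ∈ Z}
      ≤ μH[1] (⋃ x ∈ t, {z | z ∈ B x ∧ G z ∈ T}) := measure_mono hsub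
    _ ≤ ∑ x ∈ t, μH[1] {z | z ∈ B x ∧ G z ∈ T} := measure_biUnion_finset_le _ _
    _ ≤ ∑ x ∈ t, (c x : ℝ≥0∞) * μH[1] T := Finset.sum_le_sum fun x hx =>
        pull_le G (B x) (c x) (hBc x (ht1 x hx)).2.2 T
    _ = ((∑ x ∈ t, c x : ℝ≥0) : ℝ≥0∞) * μH[1] T := by
        rw [← Finset.sum_mul, ENNReal.ofNNReal_finsetSum]
    _ ≤ _ := mul_le_mul' le_rfl (root_le N hN Z)

end Pool.Agent.W358.SKP
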